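import Pool.Agent.LibK3.Defs

/-!
THEOREM K3+ (automorphisms of positive entropy), geometric part over `ℂ`: the statements.

* `Dyn0 Y γ`: `Y` is a smooth projective surface, `γ` an automorphism of it.
* `DegRC Y C d`: the rational curve `C` has degree `d` in the embedding of `Y`.
* `Grow Y γ C`: the degrees of the curves `γ^m C` grow exponentially (positive entropy).
* `PerV γ ν`: the prime divisor `ν` is periodic.
-/

set_option autoImplicit false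

open Pool.Agent.LibGMM Pool.Agent.LibK Pool.Agent.LibKB
open Pool.Agent.LibCov80 (Over)
open Pool.Agent.LibK3

namespace Pool.Agent.LibK3P

section

variable {L : Type} [Field L] [Algebra ℂ L]

/-- `Y` is a smooth projective surface, `γ` and `γ⁻¹` permute the local rings of the closed points. -/
structure Dyn0 (Y : NormalModel L) (γ : L ≃ₐ[ℂ] L) : Prop where
  smooth : LibL.IsSmoothSurface Y
  pts : ∀ x ∈ LibLB.closedPts Y, x.map (γ : L →ₐ[ℂ] L) ∈ LibLB.closedPts Y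
  pts' : ∀ x ∈ LibLB.closedPts Y, x.map (γ.symm : L →ₐ[ℂ] L) ∈ LibLB.closedPts Y

/-- The curve `C` has degree `d`: it lies on the chart `i₀`, `E v` is the maximal order of a pole at
`v` of the functions `g j / g i₀` restricted to `C`, and `d = ∑ E v`. -/
def DegRC (Y : NormalModel L) (C : RC L) (d : ℤ) : Prop :=
  ∃ (i₀ : Y.ι) (E : Plc → ℤ), (∀ j, (Y.g j : L) / Y.g i₀ ∈ C.ν.ring) ∧
    (∀ v j, C.ψ ((Y.g j : L) / Y.g i₀) ≠ 0 → - E v ≤ ordP v (C.ψ ((Y.g j : L) / Y.g i₀))) ∧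
    (∀ v, ∃ j, C.ψ ((Y.g j : L) / Y.g i₀) ≠ 0 ∧
      ordP v (C.ψ ((Y.g j : L) / Y.g i₀)) = - E v) ∧ ∑ᶠ v, E v = d

/-- The degrees of the curves `γ^m C` grow exponentially. -/
def Grow (Y : NormalModel L) (γ : L ≃ₐ[ℂ] L) (C : RC L) : Prop :=
  ∃ μ c : ℝ, 1 < μ ∧ 0 < c ∧ ∀ m : ℕ, ∃ d : ℤ, DegRC Y (C.mv (γ ^ m)) d ∧ c * μ ^ m ≤ d

/-- The prime divisor `ν` is periodic. -/
def PerV (γ : L ≃ₐ[ℂ] L) (ν : DVal L) : Prop := ∃ n : ℕ, 0 < n ∧ mv (γ ^ n) ν = ν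

/-- **(G-A)**: if `M / L` is ramified over a prime divisor of `Y` which is not periodic then there is a
polynomial `F ≠ 0` over `L` such that for all large `m`: if the curve `γ^m C₀` lifts to `M` then its
slope `dy / dx` is a root of (the reduction of) `F`. -/
def StatementA0 : Prop :=
  ∀ (L : Type) [Field L] [Algebra ℂ L] (Y : NormalModel L) (γ : L ≃ₐ[ℂ] L),
    Dyn0 Y γ → ∀ C₀ : RC L, C₀.ν ∈ primes Y → Grow Y γ C₀ →
    ∀ x y : L, AlgebraicIndependent ℂ ![x, y] →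
    ∀ (M : Type) [Field M] [Algebra ℂ M] [Algebra L M] [IsScalarTower ℂ L M]
      [FiniteDimensional L M],
    (∃ (B : DVal L) (Q : DVal M) (e : ℕ), B ∈ primes Y ∧ ¬ PerV γ B ∧ Over Q B e ∧ 2 ≤ e) →
    ∃ F : Polynomial L, F ≠ 0 ∧ ∃ m₀ : ℕ, ∀ m : ℕ, m₀ ≤ m →
      (∃ (μ : DVal M) (e : ℕ), Over μ (mv (γ ^ m) C₀.ν) e ∧ ResOne μ (mv (γ ^ m) C₀.ν)) →
      (∀ i, F.coeff i ∈ (mv (γ ^ m) C₀.ν).ring) ∧ x ∈ (mv (γ ^ m) C₀.ν).ring ∧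
      y ∈ (mv (γ ^ m) C₀.ν).ring ∧
      ∀ δ : Derivation ℂ (RatFunc ℂ) (RatFunc ℂ),
        ∑ i ∈ Finset.range (F.natDegree + 1), (C₀.mv (γ ^ m)).ψ (F.coeff i) *
          (δ ((C₀.mv (γ ^ m)).ψ y)) ^ i * (δ ((C₀.mv (γ ^ m)).ψ x)) ^ (F.natDegree - i) = 0

/-- **(G-B)**: the slopes of the curves `γ^m C₀` (`m` large) are not all given by a finite set of
rational functions. -/
def StatementB0 : Prop :=
  ∀ (L : Type) [Field L] [Algebra ℂ L] (Y : NormalModel L) (γ : L ≃ₐ[ℂ] L),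
    Dyn0 Y γ → ∀ C₀ : RC L, C₀.ν ∈ primes Y → Grow Y γ C₀ →
    ∀ x y : L, AlgebraicIndependent ℂ ![x, y] → ∀ T : Set L, T.Finite →
    ∀ δ : Derivation ℂ (RatFunc ℂ) (RatFunc ℂ), IsDt δ →
    ¬ ∃ m₀ : ℕ, ∀ m : ℕ, m₀ ≤ m → x ∈ (mv (γ ^ m) C₀.ν).ring ∧ y ∈ (mv (γ ^ m) C₀.ν).ring ∧
      ∃ s ∈ T, s ∈ (mv (γ ^ m) C₀.ν).ring ∧
        δ ((C₀.mv (γ ^ m)).ψ y) = (C₀.mv (γ ^ m)).ψ s * δ ((C₀.mv (γ ^ m)).ψ x)

/-- (N-nc) Nonconstant functions are not constant on `γ^m C₀` for `m` large. -/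
def StatementNC : Prop :=
  ∀ (L : Type) [Field L] [Algebra ℂ L] (Y : NormalModel L) (γ : L ≃ₐ[ℂ] L),
    Dyn0 Y γ → ∀ C₀ : RC L, C₀.ν ∈ primes Y → Grow Y γ C₀ →
    ∀ z : L, z ∉ Set.range (algebraMap ℂ L) → ∃ m₀ : ℕ, ∀ m : ℕ, m₀ ≤ m →
      z ∈ (mv (γ ^ m) C₀.ν).ring ∧ ∀ c, (C₀.mv (γ ^ m)).ψ z ≠ RatFunc.C c

/-- (N-fin) Nonzero functions have order zero along `γ^m C₀` for `m` large. -/
def StatementFin : Prop :=
  ∀ (L : Type) [Field L] [Algebra ℂ L] (Y : NormalModel L) (γ : L ≃ₐ[ℂ] L),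
    Dyn0 Y γ → ∀ C₀ : RC L, C₀.ν ∈ primes Y → Grow Y γ C₀ →
    ∀ z : L, z ≠ 0 → ∃ m₀ : ℕ, ∀ m : ℕ, m₀ ≤ m → (mv (γ ^ m) C₀.ν).ord z = 0

end

end Pool.Agent.LibK3P
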