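import Pool.Agent.LibK3.BCM
import Pool.Agent.LibK3.H16D
import Pool.Agent.LibK3.NP1
import Pool.Agent.LibK3.NP2
import Pool.Agent.LibK3P.PDefs

/-!
Bridge for THEOREM K3+: the degree of a rational curve over `k` is its degree over `ℂ`.
-/

set_option autoImplicit false

open Pool.Agent.LibGMM Pool.Agent.LibHP Pool.Agent.LibK Pool.Agent.LibLB
open Pool.Agent.LibCov80 (Over)
open Pool.Agent.LibK3

namespace Pool.Agent.LibK3P

theorem ordP_some_poly (a : ℂ) (p : Polynomial ℂ) :
    ordP (some a) (algebraMap (Polynomial ℂ) (RatFunc ℂ) p) = (p.rootMultiplicity a : ℤ) := by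
  show ((RatFunc.num _).rootMultiplicity a : ℤ) - ((RatFunc.denom _).rootMultiplicity a : ℤ) = _
  rw [RatFunc.num_algebraMap, RatFunc.denom_algebraMap, ← Polynomial.C_1,
    Polynomial.rootMultiplicity_C]
  simp

theorem ordP_none_poly (p : Polynomial ℂ) :
    ordP none (algebraMap (Polynomial ℂ) (RatFunc ℂ) p) = - (p.natDegree : ℤ) := by
  show - RatFunc.intDegree _ = _
  rw [RatFunc.intDegree_polynomial]

theorem ordP_div (v : Plc) {f g : RatFunc ℂ} (hf : f ≠ 0) (hg : g ≠ 0) :
    ordP v (f / g) = ordP v f - ordP v g := by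
  have h := ordP_mul v (div_ne_zero hf hg) hg
  rw [div_mul_cancel₀ f hg] at h
  omega

section

variable {k : Type} [Field k] [CharZero k] [Algebra k ℂ]

/-- Coprime polynomials have no common root in `ℂ`. -/
theorem exists_not_root {ι : Type} (p : ι → Polynomial k)
    (hp : ∀ q : Polynomial k, (∀ i, q ∣ p i) → IsUnit q) (a : ℂ) :
    ∃ i, ¬ ((p i).map (algebraMap k ℂ)).IsRoot a := by
  by_contra hcon
  push Not at hcon
  let I : Ideal (Polynomial k) := RingHom.ker (Polynomial.aeval (R := k) a : Polynomial k →ₐ[k] ℂ)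
  obtain ⟨q, hq⟩ := (inferInstance : I.IsPrincipal)
  have h1 : ∀ i, p i ∈ I := by
    intro i
    rw [RingHom.mem_ker]
    have := hcon i
    rwa [Polynomial.IsRoot.def, Polynomial.eval_map_algebraMap] at this
  have h2 : IsUnit q := hp q fun i => by
    have := h1 i
    rw [hq] at this
    exact Ideal.mem_span_singleton.1 this
  have h3 : (1 : Polynomial k) ∈ I := by
    rw [hq]
    exact Ideal.mem_span_singleton.2 (h2.dvd)
  rw [RingHom.mem_ker, map_one] at h3
  exact one_ne_zero h3

variable {K L : Type} [Field K] [Field L] [Algebra k K] [Algebra ℂ L] [Algebra K L]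

/-- The degree over `k` is the degree over `ℂ`. -/
theorem degRC_of_famDeg {ι : Type} {c : ι → K} (hm : KModel k c) (hL : IsCx k K L)
    {v : KVal k K} {r : v.ring →ₐ[k] RatFunc k} (hr : IsResMap v r) {C : RC L}
    (hC : CxOver v C.ν)
    (hψ : ∀ z : v.ring, C.ψ (algebraMap K L z) = rmap (algebraMap k ℂ) (r z)) {d : ℕ}
    (hd : FamDeg c v r d) : DegRC (cxModel hm hL) C d := by
  obtain ⟨z, hz, hne, u, p, hu, hρ', hcop, hdeg, j₀, hj₀, hj₀d⟩ := hd
  have hρ : ∀ i, r ⟨c i * z, hz i⟩ = u * algebraMap (Polynomial k) (RatFunc k) (p i) := hρ'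
  have hinj : Function.Injective (rmap (algebraMap k ℂ)) := (rmap (algebraMap k ℂ)).injective
  -- the chart
  have hi : ∃ i, p i ≠ 0 := ⟨j₀, hj₀⟩
  obtain ⟨i₀, hi₀⟩ := hi
  have hρi : r ⟨c i₀ * z, hz i₀⟩ ≠ 0 := by
    rw [hρ]
    exact mul_ne_zero hu (by
      rw [Ne, map_eq_zero_iff _ (IsFractionRing.injective (Polynomial k) (RatFunc k))]
      exact hi₀)
  have hord : c i₀ * z ≠ 0 ∧ v.ord (c i₀ * z) = 0 := by
    have h1 : ¬ (c i₀ * z = 0 ∨ 0 < v.ord (c i₀ * z)) := fun h => hρi ((hr.2 _).2 h)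
    push Not at h1
    have h2 : 0 ≤ v.ord (c i₀ * z) := hz i₀
    exact ⟨h1.1, le_antisymm h1.2 h2⟩
  have hz0 : z ≠ 0 := right_ne_zero_of_mul hord.1
  have hquot : ∀ j, c j / c i₀ = (c j * z) / (c i₀ * z) := fun j => by
    rw [mul_div_mul_right _ _ hz0]
  have hmem : ∀ j, c j / c i₀ ∈ v.ring := by
    intro j
    rw [hquot, KVal.mem_ring, v.ord_div (mul_ne_zero (hm.c_ne j) hz0) hord.1, hord.2, sub_zero]
    exact hz j
  -- the values
  have hval : ∀ j, C.ψ (algebraMap K L (c j) / algebraMap K L (c i₀)) =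
      algebraMap (Polynomial ℂ) (RatFunc ℂ) ((p j).map (algebraMap k ℂ)) /
        algebraMap (Polynomial ℂ) (RatFunc ℂ) ((p i₀).map (algebraMap k ℂ)) := by
    intro j
    rw [← map_div₀]
    have h1 := hψ ⟨c j / c i₀, hmem j⟩
    rw [show algebraMap K L ((⟨c j / c i₀, hmem j⟩ : v.ring) : K) = algebraMap K L (c j / c i₀)
      from rfl] at h1
    rw [h1]
    have h2 : r ⟨c j / c i₀, hmem j⟩ * r ⟨c i₀ * z, hz i₀⟩ = r ⟨c j * z, hz j⟩ := by
      rw [← map_mul]
      congr 1
      apply Subtype.ext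
      show c j / c i₀ * (c i₀ * z) = c j * z
      rw [← mul_assoc, div_mul_cancel₀ _ (hm.c_ne i₀)]
    have h3 : r ⟨c j / c i₀, hmem j⟩ = algebraMap (Polynomial k) (RatFunc k) (p j) /
        algebraMap (Polynomial k) (RatFunc k) (p i₀) := by
      rw [eq_div_iff_mul_eq (by
        rw [Ne, map_eq_zero_iff _ (IsFractionRing.injective (Polynomial k) (RatFunc k))]
        exact hi₀)]
      rw [hρ, hρ] at h2
      refine mul_left_cancel₀ hu ?_
      rw [← h2]
      ring
    rw [h3, map_div₀, rmap_algebraMap_c, rmap_algebraMap_c]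
  have hP : ∀ j, p j ≠ 0 → algebraMap (Polynomial ℂ) (RatFunc ℂ) ((p j).map (algebraMap k ℂ)) ≠ 0 := by
    intro j hj
    rw [Ne, map_eq_zero_iff _ (IsFractionRing.injective (Polynomial ℂ) (RatFunc ℂ)),
      Polynomial.map_eq_zero]
    exact hj
  have hP0 : ∀ j, C.ψ (algebraMap K L (c j) / algebraMap K L (c i₀)) ≠ 0 → p j ≠ 0 := by
    intro j h hj
    rw [hval, hj, Polynomial.map_zero, map_zero, zero_div] at h
    exact h rfl
  set Q : RatFunc ℂ := algebraMap (Polynomial ℂ) (RatFunc ℂ) ((p i₀).map (algebraMap k ℂ)) with hQ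
  have hQ0 : Q ≠ 0 := hP i₀ hi₀
  obtain ⟨hfin, hsum⟩ := sum_ordP hQ0
  classical
  set E : Plc → ℤ := fun v => ordP v Q + (if v = none then (d : ℤ) else 0) with hE
  have hEn : E none = - ((p i₀).natDegree : ℤ) + d := by
    rw [hE]
    show ordP none Q + (if (none : Plc) = none then (d : ℤ) else 0) = _
    rw [if_pos rfl, hQ, ordP_none_poly, Polynomial.natDegree_map]
  have hEs : ∀ a : ℂ, E (some a) = ordP (some a) Q := by
    intro a
    rw [hE]
    show ordP (some a) Q + (if (some a : Plc) = none then (d : ℤ) else 0) = _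
    rw [if_neg (Option.some_ne_none a), add_zero]
  have hQn : ordP none Q = - ((p i₀).natDegree : ℤ) := by
    rw [hQ, ordP_none_poly, Polynomial.natDegree_map]
  refine ⟨i₀, E, ?_, ?_, ?_, ?_⟩
  · intro (j : ι)
    rw [cxModel_g, cxModel_g, ← map_div₀, mem_ring, hC.ord]
    exact hmem j
  · intro w (j : ι) hj
    rw [cxModel_g, cxModel_g] at hj ⊢
    have h1 := hP0 j hj
    rw [hval j, ordP_div w (hP j h1) hQ0]
    match w with
    | none =>
      rw [hEn, hQn, ordP_none_poly, Polynomial.natDegree_map]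
      have := hdeg j
      omega
    | some a =>
      rw [hEs, ordP_some_poly a ((p j).map (algebraMap k ℂ))]
      omega
  · intro w
    match w with
    | none =>
      refine ⟨j₀, ?_, ?_⟩
      · rw [cxModel_g, cxModel_g, hval]
        exact div_ne_zero (hP j₀ hj₀) hQ0
      · rw [cxModel_g, cxModel_g, hval, ordP_div _ (hP j₀ hj₀) hQ0, hEn, hQn, ordP_none_poly,
          Polynomial.natDegree_map, hj₀d]
        omega
    | some a =>
      obtain ⟨j, hj⟩ := exists_not_root p hcop a
      have hj0 : p j ≠ 0 := by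
        rintro h
        rw [h, Polynomial.map_zero] at hj
        exact hj (by simp)
      refine ⟨j, ?_, ?_⟩
      · rw [cxModel_g, cxModel_g, hval]
        exact div_ne_zero (hP j hj0) hQ0
      · rw [cxModel_g, cxModel_g, hval, ordP_div _ (hP j hj0) hQ0, hEs,
          ordP_some_poly, Polynomial.rootMultiplicity_eq_zero hj]
        omega
  · have hfin2 : (Function.support fun v : Plc => (if v = none then (d : ℤ) else 0)).Finite := by
      refine (Set.finite_singleton (none : Plc)).subset fun v hv => ?_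
      rw [Function.mem_support] at hv
      by_contra h
      exact hv (if_neg h)
    rw [hE, finsum_add_distrib hfin hfin2, hsum, zero_add]
    rw [finsum_eq_single _ (none : Plc) (fun v hv => if_neg hv), if_pos rfl]

end

end Pool.Agent.LibK3P
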