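import Pool.Agent.LibK3.BC11

/-!
Bridge for THEOREM K3+: on a separated integral scheme the local ring of a point, as a subring of the
function field, determines the point.
-/

set_option autoImplicit false

open Pool.Agent.LibGMM Pool.Agent.LibHP Pool.Agent.LibK Pool.Agent.LibLB
open Pool.Agent.LibK3
open AlgebraicGeometry CategoryTheory

namespace Pool.Agent.LibK3P

variable {k : Type} [Field k] {X : Scheme} [IsIntegral X]
  (f : X ⟶ Spec (CommRingCat.of k))

theorem stk_injective [IsSeparated f] {x y : X} (h : stk X x = stk X y) : x = y := by
  have hinj : ∀ z : X, Function.Injective (algebraMap (X.presheaf.stalk z) X.functionField) :=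
    fun z => FaithfulSMul.algebraMap_injective _ _
  -- the ring isomorphism of the stalks
  have h1 : ∀ a : X.presheaf.stalk x, ∃ b : X.presheaf.stalk y,
      algebraMap (X.presheaf.stalk y) X.functionField b =
        algebraMap (X.presheaf.stalk x) X.functionField a := by
    intro a
    have : algebraMap (X.presheaf.stalk x) X.functionField a ∈ stk X y := by
      rw [← h]
      exact ⟨a, rfl⟩
    exact this
  have h2 : ∀ b : X.presheaf.stalk y, ∃ a : X.presheaf.stalk x,
      algebraMap (X.presheaf.stalk x) X.functionField a =
        algebraMap (X.presheaf.stalk y) X.functionField b := by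
    intro b
    have : algebraMap (X.presheaf.stalk y) X.functionField b ∈ stk X x := by
      rw [h]
      exact ⟨b, rfl⟩
    exact this
  choose φ hφ using h1
  choose χ hχ using h2
  let e : X.presheaf.stalk x ≃+* X.presheaf.stalk y :=
    { toFun := φ
      invFun := χ
      left_inv := fun a => hinj x (by rw [hχ, hφ])
      right_inv := fun b => hinj y (by rw [hφ, hχ])
      map_mul' := fun a b => hinj y (by rw [map_mul, hφ, hφ, hφ, map_mul])
      map_add' := fun a b => hinj y (by rw [map_add, hφ, hφ, hφ, map_add]) }
  have he : ∀ a, algebraMap (X.presheaf.stalk y) X.functionField (e a) =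
      algebraMap (X.presheaf.stalk x) X.functionField a := hφ
  let E : X.presheaf.stalk x ⟶ X.presheaf.stalk y := CommRingCat.ofHom e.toRingHom
  have hsx : genericPoint X ⤳ x := (genericPoint_spec X).specializes trivial
  have hsy : genericPoint X ⤳ y := (genericPoint_spec X).specializes trivial
  have hE : E ≫ X.presheaf.stalkSpecializes hsy = X.presheaf.stalkSpecializes hsx := by
    ext a
    exact he a
  -- the two morphisms
  let ι : Spec X.functionField ⟶ Spec (X.presheaf.stalk y) :=
    Spec.map (X.presheaf.stalkSpecializes hsy)
  have hι : IsDominant ι := by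
    constructor
    change DenseRange (PrimeSpectrum.comap (X.presheaf.stalkSpecializes hsy).hom)
    rw [PrimeSpectrum.denseRange_comap_iff_ker_le_nilRadical]
    intro a ha
    have h0 : a = 0 := hinj y (by
      rw [map_zero]
      exact ha)
    rw [h0]
    exact Ideal.zero_mem _
  have h3 : ι ≫ Spec.map E ≫ X.fromSpecStalk x = ι ≫ X.fromSpecStalk y := by
    rw [← Category.assoc, ← Spec.map_comp, hE, Scheme.SpecMap_stalkSpecializes_fromSpecStalk,
      Scheme.SpecMap_stalkSpecializes_fromSpecStalk]
  have h4 : (Spec.map E ≫ X.fromSpecStalk x) ≫ f = X.fromSpecStalk y ≫ f :=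
    ext_of_isDominant ι (by
      have := congrArg (fun q => q ≫ f) h3
      simpa only [Category.assoc] using this)
  have h5 : Spec.map E ≫ X.fromSpecStalk x = X.fromSpecStalk y :=
    ext_of_isDominant_of_isSeparated f h4 ι h3
  have h6 := congrArg (fun g : Spec (X.presheaf.stalk y) ⟶ X =>
    g (IsLocalRing.closedPoint (X.presheaf.stalk y))) h5
  simp only at h6
  rw [Scheme.fromSpecStalk_closedPoint, Scheme.Hom.comp_apply] at h6
  have h7 : Spec.map E (IsLocalRing.closedPoint (X.presheaf.stalk y)) =
      IsLocalRing.closedPoint (X.presheaf.stalk x) := by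
    have hloc : IsLocalHom E.hom := by
      constructor
      intro a ha
      exact (MulEquiv.isUnit_map e).1 ha
    exact IsLocalRing.comap_closedPoint E.hom
  rw [h7, Scheme.fromSpecStalk_closedPoint] at h6
  exact h6

end Pool.Agent.LibK3P
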