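import Pool.Agent.LibK3.BC1
import Pool.Agent.LibK3.BZ
import Pool.Agent.LibK3.H18
import Pool.Agent.LibK3P.BR1
import Pool.Agent.LibK3P.BR2
import Pool.Agent.LibLOB.A4

/-!
Bridge for THEOREM K3+: from a surface over `k` with an automorphism and a rational curve whose
degrees grow exponentially to the surface over `ℂ`.
-/

set_option autoImplicit false

open Pool.Agent.LibGMM Pool.Agent.LibHP Pool.Agent.LibK Pool.Agent.LibLB
open Pool.Agent.LibCov80 (Over)
open Pool.Agent.LibK3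
open AlgebraicGeometry CategoryTheory

namespace Pool.Agent.LibK3P

section alg

variable {k K : Type} [Field k] [Field K] [Algebra k K]

/-- The transported residue map. -/
noncomputable def mvRes (v : KVal k K) (r : v.ring →ₐ[k] RatFunc k) (γ : K ≃ₐ[k] K) :
    (v.mv γ).ring →ₐ[k] RatFunc k :=
  r.comp (((γ.symm : K →ₐ[k] K).comp (v.mv γ).ring.val).codRestrict v.ring fun z => z.2)

theorem mvRes_apply (v : KVal k K) (r : v.ring →ₐ[k] RatFunc k) (γ : K ≃ₐ[k] K)
    (z : (v.mv γ).ring) : mvRes v r γ z = r ⟨γ.symm z, z.2⟩ := rfl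

theorem mvRes_isRes {v : KVal k K} {r : v.ring →ₐ[k] RatFunc k} (h : IsResMap v r)
    (γ : K ≃ₐ[k] K) : IsResMap (v.mv γ) (mvRes v r γ) := by
  constructor
  · intro q
    obtain ⟨z, hz⟩ := h.1 q
    refine ⟨⟨γ z, ?_⟩, ?_⟩
    · show 0 ≤ v.ord (γ.symm (γ z))
      rw [AlgEquiv.symm_apply_apply]
      exact z.2
    · rw [mvRes_apply, ← hz]
      congr 1
      apply Subtype.ext
      exact AlgEquiv.symm_apply_apply γ _
  · intro z
    rw [mvRes_apply, h.2]
    show γ.symm (z : K) = 0 ∨ 0 < v.ord (γ.symm z) ↔ _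
    rw [map_eq_zero_iff γ.symm γ.symm.injective]
    exact Iff.rfl

end alg

section

variable {k : Type} [Field k] [CharZero k] [Algebra k ℂ]

section cx

variable {K L : Type} [Field K] [Field L] [Algebra k K] [Algebra ℂ L] [Algebra K L]

/-- The valuations over `ℂ` over a given one are finitely many. -/
theorem finite_cxOver {ι : Type} {c : ι → K} (hm : KModel k c) (hL : IsCx k K L) {v : KVal k K}
    {i : ι} (hi : v.On (kchart k c i)) : {μ : DVal L | CxOver v μ}.Finite := by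
  obtain ⟨t, ht⟩ := v.exists_ord_one
  have ht0 : t ≠ 0 := by
    rintro rfl
    rw [v.ord_zero] at ht
    exact zero_ne_one ht
  have h0 : algebraMap K L t ≠ 0 := by
    rw [Ne, map_eq_zero]
    exact ht0
  refine (LibLOB.finDiv_primes (cxModel hm hL) _ h0).subset fun μ hμ => ?_
  refine ⟨mem_primes_of_cxOver hm hL hi hμ, ?_⟩
  rw [hμ.ord, ht]
  exact one_ne_zero

/-- A valuation over a periodic one is periodic. -/
theorem perV_of_cxOver {ι : Type} {c : ι → K} (hm : KModel k c) (hL : IsCx k K L)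
    (γ : K ≃ₐ[k] K) (Γ : L ≃ₐ[ℂ] L) (hΓ : ∀ z : K, Γ (algebraMap K L z) = algebraMap K L (γ z))
    {v : KVal k K} {i : ι} (hi : v.On (kchart k c i)) {n : ℕ} (hn : 0 < n)
    (hv : v.mv (γ ^ n) = v) {μ : DVal L} (hμ : CxOver v μ) : PerV Γ μ := by
  have hpow := pow_map γ Γ hΓ n
  have hmap : Set.MapsTo (LibK3.mv (Γ ^ n)) {μ : DVal L | CxOver v μ} {μ : DVal L | CxOver v μ} := by
    intro ν hν
    have h := CxOver.mvGen (μ' := LibK3.mv (Γ ^ n) ν) (γ ^ n) (Γ ^ n) hpow hν fun z => rfl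
    rw [hv] at h
    exact h
  have hfin := finite_cxOver hm hL hi
  -- two equal iterates
  have h1 : ∀ m : ℕ, LibK3.mv ((Γ ^ n) ^ m) μ ∈ {μ : DVal L | CxOver v μ} := by
    intro m
    induction m with
    | zero =>
      rw [pow_zero, LibK3.mv_one]
      exact hμ
    | succ m ih =>
      rw [pow_succ', LibK3.mv_mul]
      exact hmap ih
  obtain ⟨a, b, hab, h2⟩ : ∃ a b : ℕ, a < b ∧
      LibK3.mv ((Γ ^ n) ^ a) μ = LibK3.mv ((Γ ^ n) ^ b) μ := by
    by_contra hcon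
    push Not at hcon
    have hinj : Function.Injective fun m : ℕ => LibK3.mv ((Γ ^ n) ^ m) μ := by
      intro a b hab
      rcases lt_trichotomy a b with h | h | h
      · exact absurd hab (hcon a b h)
      · exact h
      · exact absurd hab.symm (hcon b a h)
    exact Set.infinite_of_injective_forall_mem hinj h1 hfin
  refine ⟨n * (b - a), Nat.mul_pos hn (Nat.sub_pos_of_lt hab), ?_⟩
  have h3 : LibK3.mv ((Γ ^ n) ^ a)⁻¹ (LibK3.mv ((Γ ^ n) ^ b) μ) = μ := by
    rw [← h2, ← LibK3.mv_mul, inv_mul_cancel, LibK3.mv_one]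
  rw [← LibK3.mv_mul] at h3
  have h4 : ((Γ ^ n) ^ a)⁻¹ * (Γ ^ n) ^ b = Γ ^ (n * (b - a)) := by
    rw [pow_mul, ← Nat.add_sub_cancel' hab.le, pow_add, inv_mul_cancel_left]
    simp
  rw [h4] at h3
  exact h3

/-- A valuation over one which is not periodic is not periodic. -/
theorem mv_eq_of_perV (γ : K ≃ₐ[k] K) (Γ : L ≃ₐ[ℂ] L)
    (hΓ : ∀ z : K, Γ (algebraMap K L z) = algebraMap K L (γ z)) {v : KVal k K} {μ : DVal L}
    (hμ : CxOver v μ) (h : PerV Γ μ) : ∃ n : ℕ, 0 < n ∧ v.mv (γ ^ n) = v := by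
  obtain ⟨n, hn, h⟩ := h
  refine ⟨n, hn, ?_⟩
  have hpow := pow_map γ Γ hΓ n
  have h1 : CxOver (v.mv (γ ^ n)) (LibK3.mv (Γ ^ n) μ) :=
    CxOver.mvGen (γ ^ n) (Γ ^ n) hpow hμ fun z => rfl
  rw [h] at h1
  refine KVal.ext_ring fun z hz => ?_
  rw [← hμ.ord, h1.ord]
  exact hz

end cx

section scheme

variable {X : Scheme} [IsIntegral X] (f : X ⟶ Spec (CommRingCat.of k))
  [Algebra k X.functionField]

omit [CharZero k] [Algebra k ℂ] in
/-- The local rings along an orbit. -/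
theorem mv_ring_seq {g : X ≅ X} {γ : X.functionField ≃ₐ[k] X.functionField}
    (hγ : ∀ x : X, γ '' stk X (g.hom x) = stk X x) (x : ℕ → X)
    (hx : ∀ m, x (m + 1) = g.inv (x m)) {v : KVal k X.functionField}
    (hv : ∀ z, 0 ≤ v.ord z ↔ z ∈ stk X (x 0)) (m : ℕ) (z : X.functionField) :
    0 ≤ (v.mv (γ ^ m)).ord z ↔ z ∈ stk X (x m) := by
  induction m generalizing z with
  | zero => exact hv z
  | succ m ih =>
    rw [pow_succ', KVal.mv_mul, KVal.mv_ord, ih]
    have h1 : g.hom (x (m + 1)) = x m := by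
      rw [hx, ← Scheme.Hom.comp_apply, g.inv_hom_id]
      rfl
    rw [← hγ (x (m + 1)), h1]
    constructor
    · intro h
      exact ⟨_, h, AlgEquiv.apply_symm_apply γ z⟩
    · rintro ⟨w, hw, rfl⟩
      rw [AlgEquiv.symm_apply_apply]
      exact hw

/-- **The bridge (positive entropy).** -/
theorem bridge_main0 [Smooth f]
    (hk : ∀ a : k, algebraMap k X.functionField a = toStalk f (genericPoint X) a)
    {ι : Type} [Finite ι] {c : ι → X.functionField} (hc : IsProjEmb f c)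
    (hdim : Algebra.trdeg k X.functionField = 2) (g : X ≅ X) (hg : g.hom ≫ f = f)
    (x : ℕ → X) (hx : ∀ m, x (m + 1) = g.inv (x m)) (hx₀ : IsRatPt f (x 0)) (d : ℕ → ℕ)
    (hd : ∀ m, HasDeg (k := k) c (x m) (d m)) {μ c₀ : ℝ} (hμ : 1 < μ) (hc₀ : 0 < c₀)
    (hgr : ∀ m, c₀ * μ ^ m ≤ d m) :
    ∃ (hm : KModel k c) (γ : X.functionField ≃ₐ[k] X.functionField)
      (v₀ : KVal k X.functionField) (r₀ : v₀.ring →ₐ[k] RatFunc k),
      (∀ z, γ z = kap g.hom z) ∧ (∀ z, γ.symm z = kap g.inv z) ∧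
      (∀ x : X, γ '' stk X (g.hom x) = stk X x) ∧
      (∀ m z, 0 ≤ (v₀.mv (γ ^ m)).ord z ↔ z ∈ stk X (x m)) ∧ (∃ i, v₀.On (kchart k c i)) ∧
      v₀.ResClosed ∧ Function.Surjective r₀ ∧
      (∀ z, r₀ z = 0 ↔ ((z : X.functionField) = 0 ∨ 0 < v₀.ord (z : X.functionField))) ∧
      ∃ (L : Type) (_ : Field L) (_ : Algebra ℂ L) (_ : Algebra X.functionField L)
        (hL : IsCx k X.functionField L) (Γ : L ≃ₐ[ℂ] L) (C₀ : RC L),
        (∀ z : X.functionField, Γ (algebraMap X.functionField L z) =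
          algebraMap X.functionField L (γ z)) ∧
        Dyn0 (cxModel hm hL) Γ ∧ C₀.ν ∈ primes (cxModel hm hL) ∧
        Grow (cxModel hm hL) Γ C₀ ∧ CxOver v₀ C₀.ν ∧
        ∀ z : v₀.ring, C₀.ψ (algebraMap X.functionField L z) = rmap (algebraMap k ℂ) (r₀ z) := by
  classical
  obtain ⟨v₀, hv₀, i₀, hi₀⟩ := exists_kval f hk hc (x 0) hx₀.1
  obtain ⟨r₀, hrs, hr⟩ := exists_res f hk (x 0) hx₀ v₀ hv₀
  have hclosed := closed_of_res v₀ r₀ hr
  have hres := resClosed_of_res v₀ r₀ hr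
  have hm := kmodel f hk hc hdim hclosed
  obtain ⟨γ, hγ1, hγ2, hγ3⟩ := exists_gam f hk g hg
  obtain ⟨L, i1, i2, i3, hL⟩ := exists_cx (k := k) X.functionField hclosed
  obtain ⟨Γ, hΓ, hΓ'⟩ := hL.exists_equiv γ
  obtain ⟨C₀, hC, hψ⟩ := exists_rc hL hres hi₀ r₀ hrs hr
  have hpt : ∀ O, IsPtRing k c O → IsPtRing k c (γ '' O) ∧ IsPtRing k c (γ.symm '' O) :=
    fun O hO => isPtRing_gam f hk hc g γ hγ3 O hO
  have hseq := mv_ring_seq hγ3 x hx hv₀
  have hne : Nonempty ι := ⟨i₀⟩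
  refine ⟨hm, γ, v₀, r₀, hγ1, hγ2, hγ3, hseq, ⟨i₀, hi₀⟩, hres, hrs, hr, L, i1, i2, i3, hL, Γ, C₀,
    hΓ, ⟨cxModel_smooth hm hL, closedPts_map hm hL γ (fun O hO => (hpt O hO).1) Γ hΓ,
      closedPts_map hm hL γ.symm (fun O hO => (hpt O hO).2) Γ.symm hΓ'⟩,
    mem_primes_of_cxOver hm hL hi₀ hC, ⟨μ, c₀, hμ, hc₀, fun m => ⟨d m, ?_, hgr m⟩⟩, hC, hψ⟩
  -- the degree of `C_m`
  obtain ⟨w, r, hw, hwr, hwd⟩ := hd m
  have hvw : w = v₀.mv (γ ^ m) := KVal.ext_ring fun z hz => (hseq m z).2 ((hw z).1 hz)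
  subst hvw
  have hR := mvRes_isRes (v := v₀) (r := r₀) ⟨hrs, hr⟩ (γ ^ m)
  obtain ⟨e, he⟩ := exists_famDeg c hc.1 (v₀.mv (γ ^ m)) (mvRes v₀ r₀ (γ ^ m)) hR
  have hed : e = d m := famDeg_unique c _ _ _ hR hwr he hwd
  subst hed
  have hpow := pow_map γ Γ hΓ m
  refine degRC_of_famDeg hm hL hR (C := C₀.mv (Γ ^ m)) ?_ ?_ he
  · exact CxOver.mvGen (γ ^ m) (Γ ^ m) hpow hC fun z => rfl
  · intro z
    rw [mvRes_apply, RC.mv_ψ, ← hψ]
    congr 1
    rw [AlgEquiv.symm_apply_eq, hpow, AlgEquiv.apply_symm_apply]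

/-- Ramification, with the point below. -/
theorem bridge_ramified0 [Smooth f]
    (hk : ∀ a : k, algebraMap k X.functionField a = toStalk f (genericPoint X) a)
    {ι : Type} [Finite ι] {c : ι → X.functionField} (hc : IsProjEmb f c) (hm : KModel k c)
    {L M' M : Type} [Field L] [Field M'] [Field M]
    [Algebra k M'] [Algebra ℂ L] [Algebra ℂ M] [Algebra X.functionField L] [Algebra M' M]
    [Algebra X.functionField M'] [Algebra L M] [IsScalarTower k X.functionField M']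
    [IsScalarTower ℂ L M] [FiniteDimensional X.functionField M']
    (hL : IsCx k X.functionField L) (hM : IsCx k M' M)
    (hcc : ∀ z : X.functionField, algebraMap L M (algebraMap X.functionField L z) =
      algebraMap M' M (algebraMap X.functionField M' z))
    (x : X) (hx : ringKrullDim (X.presheaf.stalk x) = 1)
    (h : ¬ PresAt (algebraMap X.functionField M') x) :
    ∃ (v : KVal k X.functionField) (B : DVal L) (Q : DVal M) (e : ℕ),
      (∀ z, 0 ≤ v.ord z ↔ z ∈ stk X x) ∧ CxOver v B ∧ B ∈ primes (cxModel hm hL) ∧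
      Over Q B e ∧ 2 ≤ e := by
  obtain ⟨v, hv, i, hi⟩ := exists_kval f hk hc x hx
  obtain ⟨v', e, he, hv'⟩ := exists_ramified x h v hv
  obtain ⟨μ, μ', h1, h2⟩ := exists_ramified_cx hL hM hcc hi v' e (by omega) hv'
  exact ⟨v, μ, μ', e, hv, h1, mem_primes_of_cxOver hm hL hi h1, h2, he⟩

/-- Every codimension one point has a prime over it. -/
theorem exists_over_pt [Smooth f]
    (hk : ∀ a : k, algebraMap k X.functionField a = toStalk f (genericPoint X) a)
    {ι : Type} [Finite ι] {c : ι → X.functionField} (hc : IsProjEmb f c) (hm : KModel k c)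
    {L : Type} [Field L] [Algebra ℂ L] [Algebra X.functionField L]
    (hL : IsCx k X.functionField L) (x : X) (hx : ringKrullDim (X.presheaf.stalk x) = 1) :
    ∃ (v : KVal k X.functionField) (B : DVal L), (∀ z, 0 ≤ v.ord z ↔ z ∈ stk X x) ∧
      (∃ i, v.On (kchart k c i)) ∧ CxOver v B ∧ B ∈ primes (cxModel hm hL) := by
  obtain ⟨v, hv, i, hi⟩ := exists_kval f hk hc x hx
  obtain ⟨μ, hμ⟩ := exists_cxOver hL v _ hi
  exact ⟨v, μ, hv, ⟨i, hi⟩, hμ, mem_primes_of_cxOver hm hL hi hμ⟩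

omit [CharZero k] [Algebra k ℂ] in
/-- The `n`-th iterate on points and on valuations. -/
theorem mv_pow_eq_iff [IsSeparated f] {g : X ≅ X} {γ : X.functionField ≃ₐ[k] X.functionField}
    (hγ : ∀ x : X, γ '' stk X (g.hom x) = stk X x) (x : X) {v : KVal k X.functionField}
    (hv : ∀ z, 0 ≤ v.ord z ↔ z ∈ stk X x) (n : ℕ) :
    v.mv (γ ^ n) = v ↔ (fun y : X => g.inv y)^[n] x = x := by
  have hseq := mv_ring_seq hγ (fun m => (fun y : X => g.inv y)^[m] x)
    (fun m => Function.iterate_succ_apply' _ m x) (v := v) hv n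
  constructor
  · intro h
    refine stk_injective f (Set.ext fun z => ?_)
    rw [← hseq z, h, hv]
  · intro h
    refine KVal.ext_ring fun z hz => ?_
    rw [hv]
    have := (hseq z).1 hz
    rwa [h] at this

/-- A prime over a codimension one point is periodic if and only if the point is. -/
theorem perV_iff [IsSeparated f] {ι : Type} {c : ι → X.functionField} (hm : KModel k c)
    {L : Type} [Field L] [Algebra ℂ L] [Algebra X.functionField L]
    (hL : IsCx k X.functionField L) {g : X ≅ X} {γ : X.functionField ≃ₐ[k] X.functionField}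
    (hγ : ∀ x : X, γ '' stk X (g.hom x) = stk X x) (Γ : L ≃ₐ[ℂ] L)
    (hΓ : ∀ z : X.functionField, Γ (algebraMap X.functionField L z) =
      algebraMap X.functionField L (γ z)) (x : X) {v : KVal k X.functionField}
    (hv : ∀ z, 0 ≤ v.ord z ↔ z ∈ stk X x) (hi : ∃ i, v.On (kchart k c i)) {μ : DVal L}
    (hμ : CxOver v μ) : PerV Γ μ ↔ ∃ n : ℕ, 0 < n ∧ (fun y : X => g.inv y)^[n] x = x := by
  constructor
  · intro h
    obtain ⟨n, hn, h1⟩ := mv_eq_of_perV γ Γ hΓ hμ h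
    exact ⟨n, hn, (mv_pow_eq_iff f hγ x hv n).1 h1⟩
  · rintro ⟨n, hn, h1⟩
    obtain ⟨i, hi⟩ := hi
    exact perV_of_cxOver hm hL γ Γ hΓ hi hn ((mv_pow_eq_iff f hγ x hv n).2 h1) hμ

end scheme

end

end Pool.Agent.LibK3P
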