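import Pool.Agent.LibK3.N09
import Pool.Agent.LibK3.N10

/-!
THEOREM K3+ (automorphisms of positive entropy), geometric part: a surface with coordinates and an
automorphism (`Sys0`, no relation between the classes), and the growth hypothesis `Ent`.
-/

set_option autoImplicit false

open Pool.Agent.LibGMM Pool.Agent.LibK Pool.Agent.LibKB
open Pool.Agent.LibLB (PSurf RLR)
open Pool.Agent.LibCov80 (Over)
open Pool.Agent.LibK3

namespace Pool.Agent.LibK3P

/-- A surface with homogeneous coordinates `g` (one of them is `1`) and an automorphism `γ`. -/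
structure Sys0 (L : Type) [Field L] [Algebra ℂ L] where
  S : PSurf L
  ι : Type
  fin : Finite ι
  ne : Nonempty ι
  g : ι → L
  g_ne : ∀ i, g i ≠ 0
  one : ∃ i, g i = 1
  isDiv_hyp : IsDiv S.prm (hyp g)
  cl_hyp : S.cl (hyp g) = S.A
  /-- a point lies on a chart and its local ring is a localisation of the chart -/
  gen : ∀ x ∈ S.pts, ∃ i, crd g i ≤ x ∧ ∀ z ∈ x, ∃ u ∈ crd g i, ∃ v ∈ crd g i,
    v ≠ 0 ∧ v⁻¹ ∈ x ∧ z = u / v
  /-- every function is a quotient of elements of a chart -/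
  frac : ∀ i (z : L), ∃ u ∈ crd g i, ∃ v ∈ crd g i, v ≠ 0 ∧ z = u / v
  γ : L ≃ₐ[ℂ] L
  perm : Perm S γ

/-- The divisor `D` has no base points. -/
def BPF {L : Type} [Field L] [Algebra ℂ L] (S : PSurf L) (D : DVal L → ℤ) : Prop :=
  IsDiv S.prm D ∧ ∀ x ∈ S.pts, ∃ f, Gen S.prm x D f

namespace Sys0

variable {L : Type} [Field L] [Algebra ℂ L] (X : Sys0 L)

/-- The divisor `γ^m h`: `H m ν = - min ord_ν (γ^m g_i)`. -/
noncomputable def H (m : ℤ) : DVal L → ℤ := tr (X.γ ^ m) (hyp X.g)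

/-- Its class. -/
noncomputable def α (m : ℤ) : X.S.Λ := X.S.cl (X.H m)

/-- The curve `γ^m C`. -/
noncomputable def cv (C : RC L) (m : ℤ) : RC L := C.mv (X.γ ^ m)

/-- The prime divisor `ν` is periodic. -/
def Per (ν : DVal L) : Prop := ∃ n : ℕ, 0 < n ∧ mv (X.γ ^ n) ν = ν

/-- `Λ_m` grows like `l^|m|`. -/
def IsLam (l : ℝ) : Prop := 1 < l ∧ ∃ c C : ℝ, 0 < c ∧ 0 < C ∧ ∀ m : ℤ,
  c * l ^ |m| ≤ X.S.form (X.α m) X.S.A ∧ (X.S.form (X.α m) X.S.A : ℝ) ≤ C * l ^ |m|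

open Classical in
/-- The dynamical degree `λ`. -/
noncomputable def lam : ℝ := if h : ∃ l, X.IsLam l then h.choose else 2

/-- Positive entropy: the degrees of the curves `γ^m C` grow exponentially. -/
structure Ent (C : RC L) : Prop where
  mem : C.ν ∈ X.S.prm
  grow : ∃ μ c : ℝ, 1 < μ ∧ 0 < c ∧ ∀ m : ℕ, c * μ ^ m ≤ X.S.form X.S.A (X.S.cls (X.cv C m).ν)

/-- Positive entropy: the degrees of the classes `γ^m h` grow exponentially. -/
def PosEnt : Prop := ∃ μ c : ℝ, 1 < μ ∧ 0 < c ∧ ∀ m : ℕ, c * μ ^ m ≤ X.S.form (X.α m) X.S.A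

end Sys0

end Pool.Agent.LibK3P
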