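import Pool.Agent.LibK3.NP6
import Pool.Agent.LibK3P.Base

/-! Block C (symmetric forms): definitions. -/

set_option autoImplicit false

open Pool.Agent.LibGMM Pool.Agent.LibK Pool.Agent.LibKB
open Pool.Agent.LibLB (PSurf RLR)
open Pool.Agent.LibCov80 (Over)

open Pool.Agent.LibK3

namespace Pool.Agent.LibK3P

/-- The binary form with coefficients `a`. -/
noncomputable def bfm {R : Type} [CommRing R] (n : ℕ) (a : Fin (n + 1) → R) (p q : R) : R :=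
  ∑ k : Fin (n + 1), a k * p ^ (k : ℕ) * q ^ (n - (k : ℕ))

section

variable {L : Type} [Field L] [Algebra ℂ L]

/-- The sum of the contacts `≥ 2` of `C` with `B`. -/
noncomputable def bad (S : PSurf L) (C : RC L) (B : DVal L) : ℤ :=
  ∑ᶠ v, if 2 ≤ kap S C v B then kap S C v B else 0

/-- The slope `dy / dx` of the curve `C` is a root of `F`. -/
def IsRoot (C : RC L) (x y : L) (F : Polynomial L) : Prop :=
  (∀ i, F.coeff i ∈ C.ν.ring) ∧ x ∈ C.ν.ring ∧ y ∈ C.ν.ring ∧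
    ∀ δ : Derivation ℂ (RatFunc ℂ) (RatFunc ℂ),
      ∑ i ∈ Finset.range (F.natDegree + 1), C.ψ (F.coeff i) * (δ (C.ψ y)) ^ i *
        (δ (C.ψ x)) ^ (F.natDegree - i) = 0

/-- The functions used for the symmetric forms along the prime `B`: a uniformiser `b`, a function `w`
with transcendental residue, the dual derivations `D₁, D₂`, a section `t` of `N₁ h` which clears
their poles and does not vanish along `B`, and sections `P₁, P₂, Q` of `N h` with `x = P₁ / Q`,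
`y = P₂ / Q`. -/
structure CDat (X : Sys0 L) (B : DVal L) (x y : L) where
  b : L
  w : L
  D₁ : Derivation ℂ L L
  D₂ : Derivation ℂ L L
  N₁ : ℕ
  t : L
  N : ℕ
  P₁ : L
  P₂ : L
  Q : L
  ordb : B.ord b = 1
  memw : w ∈ B.ring
  ind : AlgebraicIndependent ℂ ![b, w]
  D₁b : D₁ b = 1
  D₁w : D₁ w = 0
  D₂b : D₂ b = 0
  D₂w : D₂ w = 1
  pres : ∀ z ∈ B.ring, D₁ z ∈ B.ring ∧ D₂ z ∈ B.ring
  t_ne : t ≠ 0
  t_sec : t ∈ sec X.S.prm fun ν => N₁ * hyp X.g ν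
  t_B : B.ord t + N₁ * hyp X.g B = 0
  t_pres : ∀ z₀ ∈ X.S.pts, ∀ f, LocEqn X.S.prm z₀ (fun ν => N₁ * hyp X.g ν) f → ∀ z ∈ z₀,
    t * f * D₁ z ∈ z₀ ∧ t * f * D₂ z ∈ z₀
  Q_ne : Q ≠ 0
  P₁_sec : P₁ ∈ sec X.S.prm fun ν => N * hyp X.g ν
  P₂_sec : P₂ ∈ sec X.S.prm fun ν => N * hyp X.g ν
  Q_sec : Q ∈ sec X.S.prm fun ν => N * hyp X.g ν
  hx : x = P₁ / Q
  hy : y = P₂ / Q

namespace CDat

variable {X : Sys0 L} {B : DVal L} {x y : L} (d : CDat X B x y)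

/-- The coefficients of the symmetric form. -/
noncomputable def coef (r : ℤ) (n : ℕ) (a : Fin (n + 1) → L) (k : Fin (n + 1)) : L :=
  (X.γ ^ r) (a k * d.Q ^ (2 * n))

/-- The value of the form on `D₂`, cleared of poles. -/
noncomputable def th (r : ℤ) (n : ℕ) (a : Fin (n + 1) → L) : L :=
  d.t ^ n * bfm n (d.coef r n a) (d.D₂ ((X.γ ^ r) x)) (d.D₂ ((X.γ ^ r) y))

/-- It is a section of this divisor. -/
noncomputable def Dv (r : ℤ) (n : ℕ) (ν : DVal L) : ℤ :=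
  n * d.N₁ * hyp X.g ν + n * (2 * d.N + 1) * X.H r ν

/-- The form as a polynomial in the slope; `E₁, E₂` are the derivations dual to `x, y`. -/
noncomputable def pol (E₁ E₂ : Derivation ℂ L L) (r : ℤ) (n : ℕ) (a : Fin (n + 1) → L) :
    Polynomial L :=
  bfm n (fun k => Polynomial.C (d.coef r n a k))
    (Polynomial.C (E₁ ((X.γ ^ r) x)) + Polynomial.X * Polynomial.C (E₂ ((X.γ ^ r) x)))
    (Polynomial.C (E₁ ((X.γ ^ r) y)) + Polynomial.X * Polynomial.C (E₂ ((X.γ ^ r) y)))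

/-- The form restricted to the curve `C`. -/
noncomputable def G (C : RC L) (δ : Derivation ℂ (RatFunc ℂ) (RatFunc ℂ)) (r : ℤ) (n : ℕ)
    (a : Fin (n + 1) → L) : RatFunc ℂ :=
  bfm n (fun k => C.ψ (d.coef r n a k)) (δ (C.ψ ((X.γ ^ r) x))) (δ (C.ψ ((X.γ ^ r) y)))

/-- Its order at `v`, as a section of `n (2 N + 1) H_r + n K`. -/
noncomputable def o (C : RC L) (δ : Derivation ℂ (RatFunc ℂ) (RatFunc ℂ)) (r : ℤ) (n : ℕ)
    (a : Fin (n + 1) → L) (v : Plc) : ℤ :=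
  n * (2 * d.N + 1) * ct X.S C v (X.H r) 1 + n * ordP v (wP v) + ordP v (d.G C δ r n a)

/-- The curve `C` is in general position. -/
structure Good (r : ℤ) (C : RC L) : Prop where
  mem : C.ν ∈ X.S.prm
  ne : C.ν ≠ B
  ordb : C.ν.ord d.b = 0
  ordw : C.ν.ord d.w = 0
  ordt : C.ν.ord d.t = 0
  hyp : hyp X.g C.ν = 0
  Hr : X.H r C.ν = 0
  ordx : C.ν.ord ((X.γ ^ r) x) = 0
  ordy : C.ν.ord ((X.γ ^ r) y) = 0
  ordQ : C.ν.ord ((X.γ ^ r) d.Q) = 0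
  pres : ∀ z ∈ C.ν.ring, d.D₁ z ∈ C.ν.ring ∧ d.D₂ z ∈ C.ν.ring
  chain : ∀ (δ : Derivation ℂ (RatFunc ℂ) (RatFunc ℂ)), ∀ z ∈ C.ν.ring,
    δ (C.ψ z) = C.ψ (d.D₁ z) * δ (C.ψ d.b) + C.ψ (d.D₂ z) * δ (C.ψ d.w)

/-- The primes `≠ B` where one of `b, w, t` is not a unit. -/
def sup : Set (DVal L) :=
  {T | T ∈ X.S.prm ∧ T ≠ B ∧ (T.ord d.b ≠ 0 ∨ T.ord d.w ≠ 0 ∨
    T.ord d.t + d.N₁ * LibK3.hyp X.g T ≠ 0)}

/-- The contact of `C` at `v` with these primes. -/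
noncomputable def sv (C : RC L) (v : Plc) : ℤ := ∑ᶠ T ∈ d.sup, kap X.S C v T

end CDat

end

end Pool.Agent.LibK3P
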