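import Pool.Agent.LibK3.N10
import Pool.Agent.LibK3P.CF0

/-! ROW CF5 (block C of K3): local memberships. 40 min.
PLAN. `sec_gam`: `ν.ord (γ^r z) = (mv (γ^r)⁻¹ ν).ord z` (`mv_ord`; `(γ ^ r)⁻¹` and `symm` agree by `rfl` or
`AlgEquiv.symm`/`inv` lemmas), `mv (γ^r)⁻¹ ν ∈ prm` (`(X.perm.pow r).prm'`), and `X.H r ν = hyp (mv (γ^r)⁻¹ ν)` by
definition of `tr`. `loc_coef`: `(X.S.pt hz₀).germ_mem` for the section `γ^r z` of `n H r` and its local equation `h ^ n`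
(`ν.ord (h ^ n) = n * ν.ord h`; there are `ord_pow` lemmas in LibKB/LibGMM).
`quot`: `D (u / v) = (v * D u - u * D v) / v ^ 2` (`Derivation.leibniz_div` or from `Derivation.leibniz` for `(u / v) * v`), so
`v ^ 2 * (c * D (u / v)) = v * (c * D u) - u * (c * D v) ∈ z₀`.
`loc_der`: `u = γ^r P * h ^ N`, `v = γ^r Q * h ^ N` (both in `z₀`, `v ≠ 0`), `u / v = γ^r (P / Q)`; `quot`.
`loc_bfm`: `c ^ n * h ^ (n * (2 * N + 1)) * bfm n coef p q = bfm n (fun k => h ^ n * γ^r (a k))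
(c * (h ^ (2 N) * (γ^r Q) ^ 2 * p)) (c * (h ^ (2 N) * (γ^r Q) ^ 2 * q))` termwise (`coef k = γ^r (a k) * (γ^r Q) ^ (2 n)`, the exponents of
`k` and `n - k` add up to `n`: `k ≤ n` from `Fin`), and a binary form of elements of `z₀` is in `z₀`
(`bfm_mem`). -/

set_option autoImplicit false

open Pool.Agent.LibGMM Pool.Agent.LibK Pool.Agent.LibKB
open Pool.Agent.LibLB (PSurf RLR)
open Pool.Agent.LibCov80 (Over)

open Pool.Agent.LibK3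

namespace Pool.Agent.LibK3P

theorem bfm_mem {L : Type} [Field L] [Algebra ℂ L] {R : Subalgebra ℂ L} {n : ℕ}
    {a : Fin (n + 1) → L} {p q : L} (ha : ∀ k, a k ∈ R) (hp : p ∈ R) (hq : q ∈ R) :
    bfm n a p q ∈ R := by
  unfold bfm
  exact sum_mem fun k _ => mul_mem (mul_mem (ha k) (pow_mem hp _)) (pow_mem hq _)

theorem quot_mem {L : Type} [Field L] [Algebra ℂ L] {R : Subalgebra ℂ L}
    {D : Derivation ℂ L L} {c u v : L} (hD : ∀ z ∈ R, c * D z ∈ R) (hu : u ∈ R) (hv : v ∈ R)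
    (hv0 : v ≠ 0) : c * (v ^ 2 * D (u / v)) ∈ R := by
  have h1 : u / v * v = u := div_mul_cancel₀ u hv0
  have h2 : D u = (u / v) * D v + v * D (u / v) := by
    conv_lhs => rw [← h1]
    rw [Derivation.leibniz]
    simp only [smul_eq_mul]
  have h3 : c * (v ^ 2 * D (u / v)) = v * (c * D u) - u * (c * D v) := by
    rw [h2]
    field_simp
    ring
  rw [h3]
  exact sub_mem (mul_mem hv (hD u hu)) (mul_mem hu (hD v hv))

variable {L : Type} [Field L] [Algebra ℂ L] {X : Sys0 L}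

theorem sec_gam {z : L} {n : ℤ} (hz : z ∈ sec X.S.prm fun ν => n * hyp X.g ν) (r : ℤ) :
    (X.γ ^ r) z ∈ sec X.S.prm fun ν => n * X.H r ν := by
  intro ν hν h0
  have hz0 : z ≠ 0 := by
    rintro rfl
    exact h0 (map_zero _)
  exact hz (mv (X.γ ^ r)⁻¹ ν) ((X.perm.pow r).prm' ν hν) hz0

theorem loc_coef {z : L} {n : ℕ} (hz : z ∈ sec X.S.prm fun ν => n * hyp X.g ν) (r : ℤ)
    {z₀ : Subalgebra ℂ L} (hz₀ : z₀ ∈ X.S.pts) {h : L} (hh : LocEqn X.S.prm z₀ (X.H r) h) :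
    h ^ n * (X.γ ^ r) z ∈ z₀ := by
  have h1 : LocEqn X.S.prm z₀ (fun ν => (n : ℤ) * X.H r ν) (h ^ n) := by
    refine ⟨pow_ne_zero _ hh.1, fun ν hν hle => ?_⟩
    rw [ord_pow ν hh.1 n, hh.2 ν hν hle]
  have h2 := (X.S.pt hz₀).germ_mem h1 (sec_gam hz r)
  rwa [mul_comm] at h2

/-- One of the two memberships. -/
private theorem CF5_der {z₀ : Subalgebra ℂ L} {h x : L} (P Q : L) (r : ℤ) (N : ℕ)
    (hx : x = P / Q) {D : Derivation ℂ L L} {c : L} (hD : ∀ z ∈ z₀, c * D z ∈ z₀)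
    (hP : h ^ N * (X.γ ^ r) P ∈ z₀) (hQ : h ^ N * (X.γ ^ r) Q ∈ z₀)
    (hQ0 : h ^ N * (X.γ ^ r) Q ≠ 0) :
    c * (h ^ (2 * N) * (X.γ ^ r) Q ^ 2 * D ((X.γ ^ r) x)) ∈ z₀ := by
  have h1 := quot_mem hD hP hQ hQ0
  have h2 : h ^ N ≠ 0 := left_ne_zero_of_mul hQ0
  have h3 : h ^ N * (X.γ ^ r) P / (h ^ N * (X.γ ^ r) Q) = (X.γ ^ r) x := by
    rw [hx, map_div₀, mul_div_mul_left _ _ h2]
  rw [h3] at h1
  have h4 : h ^ (2 * N) * (X.γ ^ r) Q ^ 2 = (h ^ N * (X.γ ^ r) Q) ^ 2 := by ring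
  rw [h4]
  exact h1

variable {B : DVal L} {x y : L} (d : CDat X B x y)

theorem CDat.loc_der (r : ℤ) {z₀ : Subalgebra ℂ L} (hz₀ : z₀ ∈ X.S.pts) {h : L}
    (hh : LocEqn X.S.prm z₀ (X.H r) h) {D : Derivation ℂ L L} {c : L}
    (hD : ∀ z ∈ z₀, c * D z ∈ z₀) :
    c * (h ^ (2 * d.N) * (X.γ ^ r) d.Q ^ 2 * D ((X.γ ^ r) x)) ∈ z₀ ∧
      c * (h ^ (2 * d.N) * (X.γ ^ r) d.Q ^ 2 * D ((X.γ ^ r) y)) ∈ z₀ := by
  have hv := loc_coef d.Q_sec r hz₀ hh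
  have hv0 : h ^ d.N * (X.γ ^ r) d.Q ≠ 0 :=
    mul_ne_zero (pow_ne_zero _ hh.1) ((map_ne_zero_iff _ (X.γ ^ r).injective).2 d.Q_ne)
  exact ⟨CF5_der d.P₁ d.Q r d.N d.hx hD (loc_coef d.P₁_sec r hz₀ hh) hv hv0,
    CF5_der d.P₂ d.Q r d.N d.hy hD (loc_coef d.P₂_sec r hz₀ hh) hv hv0⟩

/-- The identity of the homogeneous factors. -/
theorem CDat.bfm_scale (r : ℤ) (n : ℕ) (a : Fin (n + 1) → L) (c h p q : L) :
    c ^ n * h ^ (n * (2 * d.N + 1)) * bfm n (d.coef r n a) p q =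
      bfm n (fun k => h ^ n * (X.γ ^ r) (a k)) (c * (h ^ (2 * d.N) * (X.γ ^ r) d.Q ^ 2 * p))
        (c * (h ^ (2 * d.N) * (X.γ ^ r) d.Q ^ 2 * q)) := by
  unfold bfm
  rw [Finset.mul_sum]
  refine Finset.sum_congr rfl fun k _ => ?_
  obtain ⟨j, hj⟩ : ∃ j : ℕ, n = (k : ℕ) + j := ⟨n - k, by have := k.2; omega⟩
  have h1 : n - (k : ℕ) = j := by omega
  simp only [CDat.coef, map_mul, map_pow]
  rw [h1]
  generalize (X.γ ^ r) (a k) = A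
  generalize (X.γ ^ r) d.Q = T
  generalize (k : ℕ) = i at *
  rw [hj]
  ring

end Pool.Agent.LibK3P
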