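import Pool.Agent.LibK3P.Base
import Pool.Agent.LibCUR2.Main

set_option autoImplicit false

open Pool.Agent.LibGMM Pool.Agent.LibK Pool.Agent.LibKB
open Pool.Agent.LibLB (PSurf RLR)
open Pool.Agent.LibCov80 (Over)
open Pool.Agent.LibK3

namespace Pool.Agent.LibK3P

section

variable {L : Type} [Field L] [Algebra ℂ L] {S : PSurf L}


/-- There is a prime divisor. -/
private theorem P02_prm (S : PSurf L) : ∃ ν, ν ∈ S.prm := by
  obtain ⟨x, hx⟩ := S.ptsNe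
  obtain ⟨a, b, hab⟩ := S.coord x hx
  by_contra hcon
  push Not at hcon
  have h1 : a⁻¹ ∈ x := by
    rw [(S.pt hx).mem_iff]
    intro ν hν
    exact absurd hν (hcon ν)
  have h2 := hab.nonunit a⁻¹ h1 0 x.zero_mem
  rw [mul_inv_cancel₀ hab.a_ne, mul_zero, add_zero] at h2
  exact h2 rfl

/-- PLAN. Pick a point `x` on `ν` (`S.infPts`), a generating section `f` there: `h0 (D - prd ν) < h0 D`, so `(LibCUR2.curve S hν).2.2.1`
(see the proof of `LibCUR2.nef_serre`). -/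
theorem BPF.nef {D : DVal L → ℤ} (h : BPF S D) {ν : DVal L} (hν : ν ∈ S.prm) :
    0 ≤ S.form (S.cl D) (S.cls ν) := by
  obtain ⟨x, hx, hxν⟩ := (S.infPts ν hν).nonempty
  obtain ⟨f, hf1, hf2, hf3⟩ := h.2 x hx
  refine (LibCUR2.curve S hν).2.2.1 _ ?_
  have hsub : IsDiv S.prm (D - LibKB2.dlt ν) := LibKB2.IsDiv.sub' h.1 (LibKB2.isDiv_dlt _ _)
  have h1 : S.hh (S.cl D - S.cls ν) = h0 S.prm (D - LibKB2.dlt ν) := by
    rw [← PSurf.hh_cl hsub, LibCUR2.cl_sub S h.1 (LibKB2.isDiv_dlt _ _), LibCUR2.cl_dlt S hν]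
  rw [h1, PSurf.hh_cl h.1]
  have := S.finSec D h.1
  refine Submodule.finrank_lt_finrank_of_lt (lt_of_le_of_ne (sec_mono fun μ _ => ?_) fun heq => ?_)
  · rw [Pi.sub_apply, LibCUR2.dlt_eq_prd]
    have := prd_nonneg ν μ
    omega
  · rw [← heq] at hf1
    have h1 := hf1 ν hν hf2
    have h2 := hf3 ν hν hxν
    rw [Pi.sub_apply, LibKB2.dlt_self] at h1
    omega

theorem BPF.eff {D : DVal L → ℤ} (h : BPF S D) : 0 < S.hh (S.cl D) := by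
  obtain ⟨x, hx⟩ := S.ptsNe
  obtain ⟨f, hf1, hf2, -⟩ := h.2 x hx
  rw [PSurf.hh_cl h.1]
  have := S.finSec D h.1
  rw [Nat.pos_iff_ne_zero]
  intro h0
  have h1 : sec S.prm D = ⊥ := Submodule.finrank_eq_zero.1 h0
  rw [h1, Submodule.mem_bot] at hf1
  exact hf2 hf1

theorem BPF.add {D D' : DVal L → ℤ} (h : BPF S D) (h' : BPF S D') : BPF S (fun ν => D ν + D' ν) := by
  refine ⟨h.1.add h'.1, fun x hx => ?_⟩
  obtain ⟨f, hf1, hf2, hf3⟩ := h.2 x hx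
  obtain ⟨g, hg1, hg2, hg3⟩ := h'.2 x hx
  refine ⟨f * g, fun ν hν _ => ?_, mul_ne_zero hf2 hg2, fun ν hν hxν => ?_⟩
  · have h1 := hf1 ν hν hf2
    have h2 := hg1 ν hν hg2
    rw [ν.ord_mul _ _ hf2 hg2]
    change 0 ≤ ν.ord f + ν.ord g + (D ν + D' ν)
    omega
  · have h1 := hf3 ν hν hxν
    have h2 := hg3 ν hν hxν
    rw [ν.ord_mul _ _ hf2 hg2]
    change ν.ord f + ν.ord g + (D ν + D' ν) = 0
    omega

/-- PLAN. `tr_sec`, `tr_locEqn`-type transport of `Gen`; the points are permuted (`Perm.pts'`). -/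
theorem BPF.tr {γ : L ≃ₐ[ℂ] L} (hγ : Perm S γ) {D : DVal L → ℤ} (h : BPF S D) :
    BPF S (tr γ D) := by
  refine ⟨tr_isDiv hγ h.1, fun x hx => ?_⟩
  obtain ⟨f, hf1, hf2, hf3⟩ := h.2 _ (hγ.pts' x hx)
  refine ⟨γ f, tr_sec hγ hf1, fun h0 => hf2 ((map_eq_zero_iff γ γ.injective).1 h0),
    fun ν hν hxν => ?_⟩
  refine hf3 (mv γ⁻¹ ν) (hγ.prm' ν hν) ?_
  intro z hz
  obtain ⟨w, hw, rfl⟩ := Subalgebra.mem_map.1 hz
  have h1 : (mv γ⁻¹ ν).ord (γ⁻¹ w) = ν.ord w := congrArg ν.ord (γ.apply_symm_apply w)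
  change 0 ≤ (mv γ⁻¹ ν).ord (γ⁻¹ w)
  rw [h1]
  exact hxν hw

/-- PLAN. `S.serre α`. -/
theorem exists_bpf (α : S.Λ) : ∃ k₀ : ℕ, ∀ k : ℕ, k₀ ≤ k → ∀ D, IsDiv S.prm D →
    S.cl D = k • S.A + α → BPF S D := by
  obtain ⟨k₀, h⟩ := S.serre α
  exact ⟨k₀, fun k hk D hD hcl => ⟨hD, (h k hk D hD hcl).2.2⟩⟩

/-- `A` itself. PLAN. `S.sep`: two different points. -/
theorem bpf_A {D : DVal L → ℤ} (hD : IsDiv S.prm D) (h : S.cl D = S.A) : BPF S D := by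
  obtain ⟨ν, hν⟩ := P02_prm S
  refine ⟨hD, fun y hy => ?_⟩
  obtain ⟨x, hx, hxy⟩ : ∃ x ∈ S.pts, x ≠ y := by
    by_contra hcon
    push Not at hcon
    refine S.infPts ν hν ((Set.finite_singleton y).subset ?_)
    rintro x ⟨hx, -⟩
    exact hcon x hx
  obtain ⟨f, hf, -⟩ := S.sep D hD h x hx y hy hxy
  exact ⟨f, hf⟩

end

end Pool.Agent.LibK3P
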