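import Pool.Agent.LibK3P.P01
import Pool.Agent.LibK3P.P02

set_option autoImplicit false

open Pool.Agent.LibGMM Pool.Agent.LibK Pool.Agent.LibKB
open Pool.Agent.LibLB (PSurf RLR)
open Pool.Agent.LibCov80 (Over)
open Pool.Agent.LibK3

namespace Pool.Agent.LibK3P

section

variable {L : Type} [Field L] [Algebra ℂ L] {S : PSurf L}


private theorem P03_cmp {x y K : ℤ} (h : ∀ n : ℕ, (n : ℤ) ^ 2 * x ≤ n ^ 2 * y + K * (n + 1)) : x ≤ y := by
  by_contra hcon
  push Not at hcon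
  obtain ⟨k, hk⟩ : ∃ k : ℕ, K ≤ k := ⟨K.toNat, Int.self_le_toNat K⟩
  have h1 := h (k + 2)
  push_cast at h1
  have hk0 : (0 : ℤ) ≤ k := Int.natCast_nonneg k
  have h2 : ((k : ℤ) + 2) ^ 2 * (y + 1) ≤ ((k : ℤ) + 2) ^ 2 * x :=
    mul_le_mul_of_nonneg_left (by omega) (by positivity)
  have h3 : K * ((k : ℤ) + 2 + 1) ≤ k * ((k : ℤ) + 2 + 1) :=
    mul_le_mul_of_nonneg_right hk (by omega)
  nlinarith

private theorem P03_half {β β' : S.Λ} (hA : 0 < S.form S.A β) (hnef' : ∀ ν ∈ S.prm, 0 ≤ S.form β' (S.cls ν))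
    (heff' : 0 < S.hh β') (hh : ∀ n : ℕ, S.hh (n • β) = S.hh (n • β')) : S.form β β ≤ S.form β' β' := by
  obtain ⟨K1, h1⟩ := h0_lower (S := S) hA
  obtain ⟨K2, h2⟩ := h0_upper (S := S) hnef' heff'
  refine P03_cmp (K := K1 + K2) fun n => ?_
  have h3 := h1 n
  have h4 := h2 n
  rw [hh n] at h3
  nlinarith

private theorem P03_tr_pos {γ : L ≃ₐ[ℂ] L} (h : Perm S γ) {D : DVal L → ℤ} (hD : BPF S D)
    (hpos : 0 < S.form S.A (S.cl D)) : 0 < S.form S.A (S.cl (tr γ D)) := by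
  have h1 : 0 ≤ S.form S.A (S.cl (tr γ D)) :=
    Pool.Agent.LibCUR2.form_eff S (fun ν hν => zero_le_one.trans (Pool.Agent.LibCUR2.A_pos S hν))
      (hD.tr h).eff
  rcases h1.lt_or_eq with h2 | h2
  · exact h2
  · exfalso
    have h3 : S.cl (tr γ D) = 0 := Pool.Agent.LibCUR2.eq_zero_of_deg S (hD.tr h).eff h2.symm
    have hz : IsDiv S.prm (fun _ : DVal L => (0 : ℤ)) := by
      refine Set.finite_empty.subset ?_
      rintro ν ⟨-, h4⟩
      exact (h4 rfl).elim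
    have hz0 : S.cl (fun _ : DVal L => (0 : ℤ)) = 0 := by
      change ∑ᶠ ν ∈ S.prm, (0 : ℤ) • S.cls ν = 0
      simp
    have h4 := tr_cl h.inv (tr_isDiv h hD.1) hz (h3.trans hz0.symm)
    have h5 : tr γ⁻¹ (tr γ D) = D := by
      funext ν
      unfold tr
      rw [inv_inv, mv_inv_mv]
    have h6 : tr γ⁻¹ (fun _ : DVal L => (0 : ℤ)) = fun _ => 0 := rfl
    rw [h5, h6, hz0] at h4
    rw [h4, map_zero] at hpos
    exact lt_irrefl _ hpos

private theorem P03_sq {γ : L ≃ₐ[ℂ] L} (h : Perm S γ) {D : DVal L → ℤ} (hD : BPF S D)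
    (hpos : 0 < S.form S.A (S.cl D)) :
    S.form (S.cl (tr γ D)) (S.cl (tr γ D)) = S.form (S.cl D) (S.cl D) := by
  have hh : ∀ n : ℕ, S.hh (n • S.cl D) = S.hh (n • S.cl (tr γ D)) := by
    intro n
    have h1 : S.hh (n • S.cl D) = h0 S.prm (n • D) := by
      rw [← Pool.Agent.LibCUR2.cl_nsmul S hD.1 n]
      exact PSurf.hh_cl (Pool.Agent.LibCUR2.isDiv_nsmul S hD.1 n)
    have h2 : S.hh (n • S.cl (tr γ D)) = h0 S.prm (n • tr γ D) := by
      rw [← Pool.Agent.LibCUR2.cl_nsmul S (tr_isDiv h hD.1) n]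
      exact PSurf.hh_cl (Pool.Agent.LibCUR2.isDiv_nsmul S (tr_isDiv h hD.1) n)
    rw [h1, h2, ← tr_h0 h (n • D)]
    rfl
  refine le_antisymm ?_ ?_
  · exact P03_half (P03_tr_pos h hD hpos) (fun ν hν => hD.nef hν) hD.eff fun n => (hh n).symm
  · exact P03_half hpos (fun ν hν => (hD.tr h).nef hν) (hD.tr h).eff hh

private theorem P03_two {γ : L ≃ₐ[ℂ] L} (h : Perm S γ) {D D' : DVal L → ℤ} (hD : BPF S D)
    (hD' : BPF S D') (hpos : 0 < S.form S.A (S.cl D)) (hpos' : 0 < S.form S.A (S.cl D')) :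
    S.form (S.cl (tr γ D)) (S.cl (tr γ D')) = S.form (S.cl D) (S.cl D') := by
  have hDD : BPF S (D + D') := hD.add hD'
  have e1 : S.cl (D + D') = S.cl D + S.cl D' := Pool.Agent.LibCUR2.cl_add S hD.1 hD'.1
  have e2 : S.cl (tr γ (D + D')) = S.cl (tr γ D) + S.cl (tr γ D') :=
    Pool.Agent.LibCUR2.cl_add S (tr_isDiv h hD.1) (tr_isDiv h hD'.1)
  have h1 := P03_sq h hDD (by rw [e1, map_add]; exact add_pos hpos hpos')
  have h2 := P03_sq h hD hpos
  have h3 := P03_sq h hD' hpos'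
  rw [e1, e2] at h1
  simp only [map_add, LinearMap.add_apply] at h1
  have h4 := S.symm (S.cl (tr γ D')) (S.cl (tr γ D))
  have h5 := S.symm (S.cl D') (S.cl D)
  omega

/-- **The push forward is an isometry.**
PLAN. (1) Let `D` be `BPF` with `0 < form A (cl D)`. `tr γ D` is `BPF` (`BPF.tr`), nef and effective; `0 < form A (cl (tr γ D))`: it is `≥ 0`
(`LibCUR2.form_eff`), and if `= 0` then `cl (tr γ D) = 0` (`LibCUR2.eq_zero_of_deg`), so `tr γ D` is principal on the primes (`S.ex_div`), hence `D` is principal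
(apply `γ⁻¹`), `cl D = 0`: contradiction. `h0 (n D) = h0 (tr γ (n D)) = h0 (n tr γ D)` (`tr_h0`), so `h0_upper` and `h0_lower` for both classes give
`form (cl tr D) (cl tr D) = form (cl D) (cl D)` (compare the leading coefficients: `n² x ≤ n² y + K (n+1)` for all `n` gives `x ≤ y`).
(2) For `D, D'` both `BPF` with positive degree: the same for `D + D'`, so by polarisation `form (cl tr D) (cl tr D') = form (cl D) (cl D')`.
(3) General `D`, `D'`: with `A' := S.rep S.A` and `k` large, `k A'`, `D + k A'`, `D' + k A'` are `BPF` with positive degree (`exists_bpf`), and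
`D = (D + k A') - k A'`; expand bilinearly (`clOf_add`, `clOf_neg`, `tr` is additive). -/
theorem form_tr {γ : L ≃ₐ[ℂ] L} (h : Perm S γ) {D D' : DVal L → ℤ} (hD : IsDiv S.prm D)
    (hD' : IsDiv S.prm D') :
    S.form (S.cl (tr γ D)) (S.cl (tr γ D')) = S.form (S.cl D) (S.cl D') := by
  obtain ⟨k0, h0⟩ := exists_bpf (S := S) 0
  obtain ⟨k1, h1⟩ := exists_bpf (S := S) (S.cl D)
  obtain ⟨k2, h2⟩ := exists_bpf (S := S) (S.cl D')
  obtain ⟨a1, ha1⟩ : ∃ a : ℕ, -(S.form S.A (S.cl D)) ≤ a := ⟨_, Int.self_le_toNat _⟩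
  obtain ⟨a2, ha2⟩ : ∃ a : ℕ, -(S.form S.A (S.cl D')) ≤ a := ⟨_, Int.self_le_toNat _⟩
  set k : ℕ := k0 + k1 + k2 + a1 + a2 + 1 with hk
  have hA := S.isDiv_rep S.A
  have hE0 : IsDiv S.prm (k • S.rep S.A) := Pool.Agent.LibCUR2.isDiv_nsmul S hA k
  have hE1 : IsDiv S.prm (D + k • S.rep S.A) := hD.add hE0
  have hE2 : IsDiv S.prm (D' + k • S.rep S.A) := hD'.add hE0
  have c0 : S.cl (k • S.rep S.A) = k • S.A := by
    rw [Pool.Agent.LibCUR2.cl_nsmul S hA, S.cl_rep]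
  have c1 : S.cl (D + k • S.rep S.A) = k • S.A + S.cl D := Pool.Agent.LibCUR2.cl_Fn S hD k
  have c2 : S.cl (D' + k • S.rep S.A) = k • S.A + S.cl D' := Pool.Agent.LibCUR2.cl_Fn S hD' k
  have b0 : BPF S (k • S.rep S.A) := h0 k (by omega) _ hE0 (by rw [c0, add_zero])
  have b1 : BPF S (D + k • S.rep S.A) := h1 k (by omega) _ hE1 c1
  have b2 : BPF S (D' + k • S.rep S.A) := h2 k (by omega) _ hE2 c2
  have hkA : (k : ℤ) ≤ k * S.form S.A S.A := le_mul_of_one_le_right (Int.natCast_nonneg k) S.A_sq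
  have hkk : (k : ℤ) = k0 + k1 + k2 + a1 + a2 + 1 := by rw [hk]; push_cast; ring
  have p0 : 0 < S.form S.A (S.cl (k • S.rep S.A)) := by
    rw [c0, map_nsmul, nsmul_eq_mul]
    omega
  have p1 : 0 < S.form S.A (S.cl (D + k • S.rep S.A)) := by
    rw [c1, map_add, map_nsmul, nsmul_eq_mul]
    omega
  have p2 : 0 < S.form S.A (S.cl (D' + k • S.rep S.A)) := by
    rw [c2, map_add, map_nsmul, nsmul_eq_mul]
    omega
  have q12 := P03_two h b1 b2 p1 p2
  have q10 := P03_two h b1 b0 p1 p0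
  have q02 := P03_two h b0 b2 p0 p2
  have q00 := P03_two h b0 b0 p0 p0
  have t1 : S.cl (tr γ (D + k • S.rep S.A)) = S.cl (tr γ D) + S.cl (tr γ (k • S.rep S.A)) :=
    Pool.Agent.LibCUR2.cl_add S (tr_isDiv h hD) (tr_isDiv h hE0)
  have t2 : S.cl (tr γ (D' + k • S.rep S.A)) = S.cl (tr γ D') + S.cl (tr γ (k • S.rep S.A)) :=
    Pool.Agent.LibCUR2.cl_add S (tr_isDiv h hD') (tr_isDiv h hE0)
  have s1 : S.cl (D + k • S.rep S.A) = S.cl D + S.cl (k • S.rep S.A) :=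
    Pool.Agent.LibCUR2.cl_add S hD hE0
  have s2 : S.cl (D' + k • S.rep S.A) = S.cl D' + S.cl (k • S.rep S.A) :=
    Pool.Agent.LibCUR2.cl_add S hD' hE0
  rw [t1, t2, s1, s2] at q12
  rw [t1, s1] at q10
  rw [t2, s2] at q02
  simp only [map_add, LinearMap.add_apply] at q12 q10 q02
  omega

end

end Pool.Agent.LibK3P
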