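import Pool.Agent.LibK3.N26
import Pool.Agent.LibK3P.P03

set_option autoImplicit false

open Pool.Agent.LibGMM Pool.Agent.LibK Pool.Agent.LibKB
open Pool.Agent.LibLB (PSurf RLR)
open Pool.Agent.LibCov80 (Over)
open Pool.Agent.LibK3

namespace Pool.Agent.LibK3P

namespace Sys0

variable {L : Type} [Field L] [Algebra ℂ L] (X : Sys0 L)

private theorem P05_cl_prd {ν : DVal L} (hν : ν ∈ X.S.prm) : X.S.cl (prd ν) = X.S.cls ν :=
  LibLB.clOf_prd hν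

private theorem P05_cls_mv (m : ℤ) {ν : DVal L} (hν : ν ∈ X.S.prm) :
    X.S.cls (mv (X.γ ^ m) ν) = X.S.cl (tr (X.γ ^ m) (prd ν)) := by
  rw [tr_prd, P05_cl_prd X ((X.perm.pow m).prm ν hν)]

private theorem P05_α_add (i m : ℤ) : X.α (i + m) = X.S.cl (tr (X.γ ^ m) (X.H i)) := by
  rw [α, H, H, ← tr_mul, ← zpow_add, add_comm m i]

theorem isDiv_H (m : ℤ) : IsDiv X.S.prm (X.H m) := by
  exact tr_isDiv (X.perm.pow m) X.isDiv_hyp

theorem α_zero : X.α 0 = X.S.A := by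
  have h : X.H 0 = hyp X.g := by
    funext ν
    show tr (X.γ ^ (0 : ℤ)) (hyp X.g) ν = _
    rw [zpow_zero, tr, inv_one, mv_one]
  rw [α, h]
  exact X.cl_hyp

theorem hyp_nonneg (ν : DVal L) : 0 ≤ hyp X.g ν := by
  have := X.fin
  obtain ⟨i, hi⟩ := X.one
  have h1 : (⨅ i, ν.ord (X.g i)) ≤ ν.ord (X.g i) := ciInf_le (Finite.bddBelow_range _) i
  rw [hi, ν.ord_one] at h1
  rw [hyp]
  omega

theorem H_nonneg (m : ℤ) (ν : DVal L) : 0 ≤ X.H m ν := by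
  exact X.hyp_nonneg _

theorem H_eq (m : ℤ) (ν : DVal L) : X.H m ν = - ⨅ i, ν.ord ((X.γ ^ m) (X.g i)) := by
  rfl

/-- Local equations of `H m`. PLAN. `X.gen` at the point `γ^{-m} x`. -/
theorem locEqn_H (m : ℤ) {x : Subalgebra ℂ L} (hx : x ∈ X.S.pts) : ∃ i,
    (∀ j, (X.γ ^ m) (X.g j / X.g i) ∈ x) ∧ LocEqn X.S.prm x (X.H m) ((X.γ ^ m) (X.g i))⁻¹ := by
  have := X.fin
  have := X.ne
  have hy := (X.perm.pow m).pts' x hx
  obtain ⟨i, hi, -⟩ := X.gen _ hy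
  have h1 : ∀ j, (X.γ ^ m) (X.g j / X.g i) ∈ x := by
    intro j
    have h2 : X.g j / X.g i ∈ crd X.g i := Algebra.subset_adjoin ⟨j, rfl⟩
    obtain ⟨z, hz, hz'⟩ := Subalgebra.mem_map.1 (hi h2)
    have h3 : (X.γ ^ m) (X.g j / X.g i) = z := by
      rw [← hz']
      exact (X.γ ^ m).apply_symm_apply z
    rw [h3]
    exact hz
  refine ⟨i, h1, inv_ne_zero ((map_ne_zero _).2 (X.g_ne i)), fun ν _ hxν => ?_⟩
  rw [H_eq, ν.ord_inv]
  congr 1
  refine le_antisymm (le_ciInf fun j => ?_) (ciInf_le (Finite.bddBelow_range _) i)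
  have h2 : 0 ≤ ν.ord ((X.γ ^ m) (X.g j / X.g i)) := hxν (h1 j)
  have ni : (X.γ ^ m) (X.g i) ≠ 0 := (map_ne_zero _).2 (X.g_ne i)
  have nj : (X.γ ^ m) (X.g j) ≠ 0 := (map_ne_zero _).2 (X.g_ne j)
  rw [map_div₀, div_eq_mul_inv, ν.ord_mul _ _ nj (inv_ne_zero ni), ν.ord_inv] at h2
  omega

theorem bpf_H (m : ℤ) : BPF X.S (X.H m) := by
  have := X.fin
  refine ⟨X.isDiv_H m, fun x hx => ?_⟩
  obtain ⟨i, -, h1⟩ := X.locEqn_H m hx
  have ni : (X.γ ^ m) (X.g i) ≠ 0 := (map_ne_zero _).2 (X.g_ne i)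
  refine ⟨(X.γ ^ m) (X.g i), fun ν _ _ => ?_, ni, fun ν hν hxν => ?_⟩
  · rw [H_eq]
    have h2 : (⨅ i, ν.ord ((X.γ ^ m) (X.g i))) ≤ ν.ord ((X.γ ^ m) (X.g i)) :=
      ciInf_le (Finite.bddBelow_range _) i
    omega
  · rw [← h1.2 ν hν hxν, ν.ord_inv]
    ring

theorem A_sq_pos : 0 < X.S.form X.S.A X.S.A := by
  have := X.S.A_sq
  omega

/-- PLAN. `form_tr` with `γ ^ m`: `H (i + m) = tr (γ^m) (H i)`. -/
theorem form_α_α (i j m : ℤ) : X.S.form (X.α (i + m)) (X.α (j + m)) = X.S.form (X.α i) (X.α j) := by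
  rw [P05_α_add, P05_α_add, form_tr (X.perm.pow m) (X.isDiv_H i) (X.isDiv_H j)]
  rfl

theorem form_α_neg (m : ℤ) : X.S.form (X.α (-m)) X.S.A = X.S.form (X.α m) X.S.A := by
  have h := X.form_α_α (-m) 0 m
  rw [neg_add_cancel, zero_add, α_zero] at h
  rw [← h]
  exact X.S.symm _ _

theorem form_α_α' (i j : ℤ) : X.S.form (X.α i) (X.α j) = X.S.form (X.α (i - j)) X.S.A := by
  have h := X.form_α_α (i - j) 0 j
  rw [sub_add_cancel, zero_add, α_zero] at h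
  exact h

theorem mv_mem {ν : DVal L} (hν : ν ∈ X.S.prm) (m : ℤ) : mv (X.γ ^ m) ν ∈ X.S.prm := by
  exact (X.perm.pow m).prm ν hν

/-- PLAN. `tr (γ^m) (prd ν) = prd (mv (γ^m) ν)` (`tr_prd`), `form_tr`. -/
theorem form_α_mv (i m : ℤ) {ν : DVal L} (hν : ν ∈ X.S.prm) :
    X.S.form (X.α i) (X.S.cls (mv (X.γ ^ m) ν)) = X.S.form (X.α (i - m)) (X.S.cls ν) := by
  rw [P05_cls_mv X m hν]
  have h : X.α i = X.S.cl (tr (X.γ ^ m) (X.H (i - m))) := by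
    rw [← P05_α_add, sub_add_cancel]
  rw [h, form_tr (X.perm.pow m) (X.isDiv_H _) (isDiv_prd ν), P05_cl_prd X hν]
  rfl

theorem form_mv_mv (m : ℤ) {ν μ : DVal L} (hν : ν ∈ X.S.prm) (hμ : μ ∈ X.S.prm) :
    X.S.form (X.S.cls (mv (X.γ ^ m) ν)) (X.S.cls (mv (X.γ ^ m) μ)) =
      X.S.form (X.S.cls ν) (X.S.cls μ) := by
  rw [P05_cls_mv X m hν, P05_cls_mv X m hμ,
    form_tr (X.perm.pow m) (isDiv_prd ν) (isDiv_prd μ), P05_cl_prd X hν, P05_cl_prd X hμ]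

/-- PLAN. `= form A (cls (mv (γ^(-m)) ν)) ≥ 1` (`LibCUR2.A_pos`). -/
theorem form_α_pos (m : ℤ) {ν : DVal L} (hν : ν ∈ X.S.prm) : 1 ≤ X.S.form (X.α m) (X.S.cls ν) := by
  have h := X.form_α_mv 0 (-m) hν
  rw [α_zero, sub_neg_eq_add, zero_add] at h
  rw [← h]
  exact LibCUR2.A_pos X.S (X.mv_mem hν (-m))

/-- PLAN. `A` is the class of an effective nonzero divisor; `form_α_pos`. -/
theorem one_le_form_α_A (m : ℤ) : 1 ≤ X.S.form (X.α m) X.S.A := by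
  have h0 : 0 < X.S.hh X.S.A := by
    have h := (X.bpf_H 0).eff
    change 0 < X.S.hh (X.α 0) at h
    rwa [α_zero] at h
  have h1 : 0 ≤ X.S.form (X.α m) X.S.A :=
    LibCUR2.form_eff X.S (fun ν hν => zero_le_one.trans (X.form_α_pos m hν)) h0
  have h2 : X.S.form (X.α m) (X.α m) = X.S.form X.S.A X.S.A := by
    rw [X.form_α_α' m m, sub_self, α_zero]
  have h3 := X.S.A_sq
  by_contra h4
  have h5 : X.S.form X.S.A (X.α m) = 0 := by
    rw [X.S.symm]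
    omega
  rcases LibCUR2.hodge X.S h5 with h6 | h6
  · omega
  · have := h6 (X.α m)
    omega

theorem form_α_sq_nonneg (m : ℤ) : 0 ≤ X.S.form (X.α m) (X.α m) := by
  rw [X.form_α_α' m m, sub_self, α_zero]
  have := X.S.A_sq
  omega

/-- Any class is bounded by a multiple of the degree.
PLAN. For `k` large `k A + β` and `k A - β` are effective (`exists_bpf`, `BPF.eff`), so `form (α m)` of them is `≥ 0` (`LibCUR2.form_eff`). -/
theorem form_α_le (β : X.S.Λ) : ∃ k : ℕ, ∀ m : ℤ,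
    |X.S.form (X.α m) β| ≤ k * X.S.form (X.α m) X.S.A := by
  obtain ⟨k1, hk1⟩ := exists_bpf (S := X.S) β
  obtain ⟨k2, hk2⟩ := exists_bpf (S := X.S) (-β)
  refine ⟨max k1 k2, fun m => ?_⟩
  have h1 := (hk1 _ (le_max_left k1 k2) _ (X.S.isDiv_rep _) (X.S.cl_rep _)).eff
  have h2 := (hk2 _ (le_max_right k1 k2) _ (X.S.isDiv_rep _) (X.S.cl_rep _)).eff
  rw [X.S.cl_rep] at h1 h2
  have h3 := LibCUR2.form_eff X.S (fun ν hν => zero_le_one.trans (X.form_α_pos m hν)) h1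
  have h4 := LibCUR2.form_eff X.S (fun ν hν => zero_le_one.trans (X.form_α_pos m hν)) h2
  rw [map_add, map_nsmul, nsmul_eq_mul] at h3
  rw [map_add, map_nsmul, nsmul_eq_mul, map_neg] at h4
  rw [abs_le]
  constructor <;> linarith

/-- PLAN. `LibCUR2.nef_serre` for `β` and `- β`. -/
theorem exists_nef (β : X.S.Λ) : ∃ k : ℕ, ∀ ν ∈ X.S.prm,
    |X.S.form β (X.S.cls ν)| ≤ k * X.S.form X.S.A (X.S.cls ν) := by
  obtain ⟨k1, hk1⟩ := LibCUR2.nef_serre X.S β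
  obtain ⟨k2, hk2⟩ := LibCUR2.nef_serre X.S (-β)
  refine ⟨max k1 k2, fun ν hν => ?_⟩
  have h3 := hk1 _ (le_max_left k1 k2) ν hν
  have h4 := hk2 _ (le_max_right k1 k2) ν hν
  rw [map_add, LinearMap.add_apply, map_nsmul, LinearMap.smul_apply, nsmul_eq_mul] at h3
  rw [map_add, LinearMap.add_apply, map_nsmul, LinearMap.smul_apply, nsmul_eq_mul, map_neg,
    LinearMap.neg_apply] at h4
  rw [abs_le]
  constructor <;> linarith

end Sys0

end Pool.Agent.LibK3P
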