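import Pool.Agent.LibK3.N09
import Pool.Agent.LibK3P.CF5
import Pool.Agent.LibK3P.P05

/-! ROW CF10 (block C of K3): the order `o` is nonnegative, and its sum. 45 min.
Notation: `z₀ = ctr X.S C v` (`isCtr_ctr hC.mem v`: a point, `z₀ ≤ C.ν.ring`, `0 ≤ ordP v (ψ z)` on `z₀`), `h` a local equation of `H r` at
`z₀`, `ct X.S C v (X.H r) 1 = ordP v (ψ h)`, `ψ h ≠ 0` (`ct_eq` with `c = 1`, `C.ν.ord 1 = 0 = - H r C.ν` by `Good.Hr`).
`scale_psi`: apply the ring homomorphism `ψ : C.ν.ring → RatFunc ℂ` to the identity of binary forms: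
`ψ(h) ^ (n (2N+1)) * bfm n (ψ ∘ coef) p q = bfm n (ψ (h ^ n * γ^r (a k))) (ψ h ^ (2N) ψ(γ^r Q)^2 p) (..)`: termwise,
`ψ (coef k) = ψ (γ^r (a k)) * ψ (γ^r Q) ^ (2 n)`; `γ^r (a k)`, `γ^r Q`, `h` are in `C.ν.ring` (`sec_gam` with `H r C.ν = 0`; `h ∈ ring`: `C.ν.ord h =
H r C.ν = 0` if `z₀ ≤ C.ν.ring`, `LocEqn`). `der_loc`: `u = γ^r P * h ^ N`, `v' = γ^r Q * h ^ N ∈ z₀` (`loc_coef`), `γ^r (P / Q) = u / v'`, so in `ℂ(t)`:
`ψ (v') ^ 2 * δ (ψ (u / v')) = ψ v' * δ (ψ u) - ψ u * δ (ψ v')` (`ψ u = ψ (u / v') * ψ v'`, Leibniz), and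
`ordP v (wP v * δ (ψ z)) ≥ 0` for `z ∈ z₀` (`ordP_dt`). So `wP v * (ψ h ^ (2N) * ψ (γ^r Q) ^ 2 * δ (ψ (γ^r x)))` has order `≥ 0` at `v` (work in the
valuation ring of `P` from `exists_pl v`, i.e. with the subalgebra `P.ring`). `o_nonneg`: multiply: `wP ^ n * ψ(h)^(n(2N+1)) * G ∈ P.ring`
(`bfm_mem`), its order is `o v` if `G ≠ 0`.
`o_sum`: `o v = n (2N+1) ct + n ordP v (wP v) + ordP v G`, all three with finite support (`ct_finite`, `ordP_wP`, `sum_ordP hG`); `finsum_add_distrib`,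
`deg_eq` with `c = 1`: `∑ ct = form (α r) (cls C.ν)`; `∑ ordP v (wP v) = -2`; `∑ ordP v G = 0`. -/

set_option autoImplicit false

open Pool.Agent.LibGMM Pool.Agent.LibK Pool.Agent.LibKB
open Pool.Agent.LibLB (PSurf RLR)
open Pool.Agent.LibCov80 (Over)

open Pool.Agent.LibK3

namespace Pool.Agent.LibK3P

private theorem CF10_scale {R : Type} [CommRing R] (n N : ℕ) (a : Fin (n + 1) → R) (c H Q p q : R) :
    bfm n (fun k => H ^ n * a k) (c * (H ^ (2 * N) * Q ^ 2 * p)) (c * (H ^ (2 * N) * Q ^ 2 * q)) =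
      c ^ n * H ^ (n * (2 * N + 1)) * bfm n (fun k => a k * Q ^ (2 * n)) p q := by
  unfold bfm
  rw [Finset.mul_sum]
  refine Finset.sum_congr rfl fun k _ => ?_
  obtain ⟨m, hm⟩ : ∃ m, n = (k : ℕ) + m := ⟨n - k, by omega⟩
  have h1 : n - (k : ℕ) = m := by omega
  rw [h1]
  generalize (k : ℕ) = j at hm
  generalize a k = e
  subst hm
  ring

private theorem CF10_mem {P : DVal (RatFunc ℂ)} {v : Plc} (hP : ∀ f, P.ord f = ordP v f) {f : RatFunc ℂ} :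
    f ∈ P.ring ↔ 0 ≤ ordP v f := by
  rw [mem_ring, hP]

variable {L : Type} [Field L] [Algebra ℂ L] {X : Sys0 L} {B : DVal L} {x y : L} (d : CDat X B x y)

/-- the facts about the restriction to `C` -/
private theorem CF10_main {r : ℤ} {n : ℕ} {a : Fin (n + 1) → L}
    (ha : ∀ k, a k ∈ sec X.S.prm fun ν => n * hyp X.g ν) {C : RC L} (hC : d.Good r C)
    {δ : Derivation ℂ (RatFunc ℂ) (RatFunc ℂ)} (hδ : IsDt δ) (v : Plc)
    {P : DVal (RatFunc ℂ)} (hP : ∀ f, P.ord f = ordP v f) {h : L}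
    (hh : LocEqn X.S.prm (ctr X.S C v) (X.H r) h) :
    wP v ^ n * C.ψ h ^ (n * (2 * d.N + 1)) * d.G C δ r n a ∈ P.ring := by
  have hz := isCtr_ctr hC.mem v
  have hR : ∀ z, z ∈ ctr X.S C v → z ∈ C.ν.ring := fun z h => hz.le h
  have hnn : ∀ z, z ∈ ctr X.S C v → C.ψ z ∈ P.ring := fun z h => (CF10_mem hP).2 (hz.nonneg z h)
  have hhR : h ∈ C.ν.ring := by
    rw [mem_ring, hh.2 C.ν hC.mem hz.le, hC.Hr]
  have hpow : ∀ (m : ℕ) (z : L), z ∈ C.ν.ring → C.ψ (z ^ m) = C.ψ z ^ m := by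
    intro m z hz1
    induction m with
    | zero =>
      rw [pow_zero, pow_zero]
      have := C.const 1
      rwa [map_one, map_one] at this
    | succ m ih => rw [pow_succ, pow_succ, C.mul _ (pow_mem hz1 m) _ hz1, ih]
  have hQR : (X.γ ^ r) d.Q ∈ C.ν.ring := by
    rw [mem_ring, hC.ordQ]
  have hA : ∀ k, (X.γ ^ r) (a k) ∈ C.ν.ring := by
    intro k
    by_cases h0 : (X.γ ^ r) (a k) = 0
    · rw [h0]
      exact zero_mem _
    · have h1 := sec_gam (n := (n : ℤ)) (ha k) r C.ν hC.mem h0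
      simp only [hC.Hr, mul_zero, add_zero] at h1
      exact h1
  have hcoef : ∀ k, C.ψ (d.coef r n a k) = C.ψ ((X.γ ^ r) (a k)) * C.ψ ((X.γ ^ r) d.Q) ^ (2 * n) := by
    intro k
    unfold CDat.coef
    rw [map_mul, map_pow, C.mul _ (hA k) _ (pow_mem hQR _), hpow _ _ hQR]
  have hG : d.G C δ r n a = bfm n (fun k => C.ψ ((X.γ ^ r) (a k)) * C.ψ ((X.γ ^ r) d.Q) ^ (2 * n))
      (δ (C.ψ ((X.γ ^ r) x))) (δ (C.ψ ((X.γ ^ r) y))) := by
    unfold CDat.G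
    simp only [hcoef]
  rw [hG, ← CF10_scale]
  have hq1 : (X.γ ^ r) d.Q ≠ 0 := (map_ne_zero_iff _ (X.γ ^ r).injective).2 d.Q_ne
  have hvm : h ^ d.N * (X.γ ^ r) d.Q ∈ ctr X.S C v := loc_coef d.Q_sec r hz.pts hh
  have hV : C.ψ (h ^ d.N * (X.γ ^ r) d.Q) = C.ψ h ^ d.N * C.ψ ((X.γ ^ r) d.Q) := by
    rw [C.mul _ (pow_mem hhR _) _ hQR, hpow _ _ hhR]
  have hder : ∀ (z w : L), z ∈ C.ν.ring → h ^ d.N * (X.γ ^ r) w ∈ ctr X.S C v →
      (X.γ ^ r) w = z * (X.γ ^ r) d.Q →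
      wP v * (C.ψ h ^ (2 * d.N) * C.ψ ((X.γ ^ r) d.Q) ^ 2 * δ (C.ψ z)) ∈ P.ring := by
    intro z w hz1 hw hzw
    have hU : C.ψ (h ^ d.N * (X.γ ^ r) w) = C.ψ z * C.ψ (h ^ d.N * (X.γ ^ r) d.Q) := by
      rw [← C.mul _ hz1 _ (hR _ hvm), hzw]
      congr 1
      ring
    have hdU : δ (C.ψ (h ^ d.N * (X.γ ^ r) w)) = C.ψ z * δ (C.ψ (h ^ d.N * (X.γ ^ r) d.Q)) +
        C.ψ (h ^ d.N * (X.γ ^ r) d.Q) * δ (C.ψ z) := by
      rw [hU, Derivation.leibniz, smul_eq_mul, smul_eq_mul]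
    have e : wP v * (C.ψ h ^ (2 * d.N) * C.ψ ((X.γ ^ r) d.Q) ^ 2 * δ (C.ψ z)) =
        C.ψ (h ^ d.N * (X.γ ^ r) d.Q) * (wP v * δ (C.ψ (h ^ d.N * (X.γ ^ r) w))) -
        C.ψ (h ^ d.N * (X.γ ^ r) w) * (wP v * δ (C.ψ (h ^ d.N * (X.γ ^ r) d.Q))) := by
      rw [hdU, hU, hV]
      ring
    rw [e]
    have k1 := (CF10_mem hP).2 (ordP_dt hδ v (hz.nonneg _ hw))
    have k2 := (CF10_mem hP).2 (ordP_dt hδ v (hz.nonneg _ hvm))
    exact sub_mem (mul_mem (hnn _ hvm) k1) (mul_mem (hnn _ hw) k2)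
  refine bfm_mem (fun k => ?_) ?_ ?_
  · have h1 := hnn _ (loc_coef (n := n) (ha k) r hz.pts hh)
    rwa [C.mul _ (pow_mem hhR _) _ (hA k), hpow _ _ hhR] at h1
  · refine hder _ d.P₁ ?_ (loc_coef d.P₁_sec r hz.pts hh) ?_
    · rw [mem_ring, hC.ordx]
    · have e := congrArg (X.γ ^ r) d.hx
      rw [map_div₀] at e
      rw [e, div_mul_cancel₀ _ hq1]
  · refine hder _ d.P₂ ?_ (loc_coef d.P₂_sec r hz.pts hh) ?_
    · rw [mem_ring, hC.ordy]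
    · have e := congrArg (X.γ ^ r) d.hy
      rw [map_div₀] at e
      rw [e, div_mul_cancel₀ _ hq1]

theorem CDat.o_nonneg {r : ℤ} {n : ℕ} {a : Fin (n + 1) → L}
    (ha : ∀ k, a k ∈ sec X.S.prm fun ν => n * hyp X.g ν) {C : RC L} (hC : d.Good r C)
    {δ : Derivation ℂ (RatFunc ℂ) (RatFunc ℂ)} (hδ : IsDt δ) (hG : d.G C δ r n a ≠ 0)
    (v : Plc) : 0 ≤ d.o C δ r n a v := by
  obtain ⟨P, hP⟩ := exists_pl v
  have hz := isCtr_ctr hC.mem v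
  have hh := leq_spec (X.isDiv_H r) hz.pts
  have h1 := CF10_main d ha hC hδ v hP hh
  have h2 := ct_eq hC.mem hz (X.isDiv_H r) hh one_ne_zero
    (by rw [LibKB.ord_one, hC.Hr, neg_zero])
  rw [one_mul] at h2
  unfold CDat.o
  rw [h2.1]
  have hw := wP_ne v
  rw [CF10_mem hP, ← hP, P.ord_mul _ _ (mul_ne_zero (pow_ne_zero _ hw) (pow_ne_zero _ h2.2)) hG,
    P.ord_mul _ _ (pow_ne_zero _ hw) (pow_ne_zero _ h2.2), LibKB.ord_pow P hw, LibKB.ord_pow P h2.2,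
    hP, hP, hP] at h1
  push_cast at h1
  linarith

theorem CDat.o_sum {r : ℤ} {n : ℕ} {a : Fin (n + 1) → L} {C : RC L} (hC : d.Good r C)
    {δ : Derivation ℂ (RatFunc ℂ) (RatFunc ℂ)} (hG : d.G C δ r n a ≠ 0) :
    {v | d.o C δ r n a v ≠ 0}.Finite ∧ ∑ᶠ v, d.o C δ r n a v =
      n * (2 * d.N + 1) * X.S.form (X.α r) (X.S.cls C.ν) - 2 * n := by
  have h1 : C.ν.ord 1 = - X.H r C.ν := by rw [LibKB.ord_one, hC.Hr, neg_zero]
  have f1 := ct_finite hC.mem (X.isDiv_H r) one_ne_zero h1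
  have s1 := deg_eq hC.mem (X.isDiv_H r) one_ne_zero h1
  obtain ⟨f2, s2⟩ := ordP_wP
  obtain ⟨f3, s3⟩ := sum_ordP hG
  have g1 : (Function.support fun v => (n : ℤ) * (2 * d.N + 1) * ct X.S C v (X.H r) 1).Finite :=
    f1.subset fun v hv h => hv (by simp only [h, mul_zero])
  have g2 : (Function.support fun v => (n : ℤ) * ordP v (wP v)).Finite :=
    f2.subset fun v hv h => hv (by simp only [h, mul_zero])
  have g3 : (Function.support fun v => ordP v (d.G C δ r n a)).Finite := f3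
  have g12 : (Function.support fun v => (n : ℤ) * (2 * d.N + 1) * ct X.S C v (X.H r) 1 +
      (n : ℤ) * ordP v (wP v)).Finite := (g1.union g2).subset (Function.support_add _ _)
  constructor
  · exact (g12.union g3).subset (Function.support_add _ _)
  · show ∑ᶠ v, ((n : ℤ) * (2 * d.N + 1) * ct X.S C v (X.H r) 1 +
      (n : ℤ) * ordP v (wP v) + ordP v (d.G C δ r n a)) = _
    rw [finsum_add_distrib g12 g3, finsum_add_distrib g1 g2, s3, ← mul_finsum, ← mul_finsum,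
      s1, s2]
    show (n : ℤ) * (2 * d.N + 1) * X.S.form (X.α r) (X.S.cls C.ν) + n * -2 + 0 = _
    ring

end Pool.Agent.LibK3P
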