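import Pool.Agent.LibK3.N05
import Pool.Agent.LibK3P.CF5
import Pool.Agent.LibK3P.P05

/-! ROW CF11 (block C of K3): the local estimate along `B`. 60 min, STRONG.
Notation: `z₀ = ctr X.S C v` (`isCtr_ctr`), `P` the valuation of `v` (`exists_pl`), `f, h` local equations of `N₁ hyp`, `H r` at `z₀`,
`ψ = C.ψ`, `κ = kap X.S C v B`, `s = d.sv C v`, `β = wP v * δ (ψ b)`, `ω = wP v * δ (ψ w)`, `τ = t * f`.
PLAN. (1) `sup` is finite (`X.S.finDiv`; `b, w, t ≠ 0`; `X.isDiv_hyp`) and all its elements are primes `≠ C.ν` (`Good.ordb, ordw, ordt,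
hyp`), so `0 ≤ kap X.S C v T ≤ s` for `T ∈ sup`.
(2) Orders of functions: for `z ≠ 0` with `C.ν.ord z = 0`: `ordP v (ψ z) = ∑ᶠ T ∈ prm, T.ord z * kap X.S C v T` (`ct_ord` with `c = 1` and
`ct_eq_sum`). So with `k₀` (depending on `d` only) `≥ |T.ord b|, |T.ord w|, |T.ord t + N₁ hyp T|` for `T ∈ sup`:
`ordP v (ψ b) ≥ κ - k₀ s`; `ordP v (ψ w) ≥ - k₀ s` (`B.ord w ≥ 0`, `κ ≥ 0`); `ordP v (ψ τ) ≤ k₀ s` (`τ` is a local
equation of the divisor `ord t + N₁ hyp`, which vanishes at `B`: `ct_eq`, `ct_eq_sum`).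
(3) `β = 0` or `ordP v β ≥ κ - 1 - k₀ s` (`ordP_dt_ge`); `ω = 0` or `ordP v ω ≥ -(k₀ + 1) s` (if `s = 0`: no pole of
`w` passes through `z₀`, or simply `0 ≤ ordP v (ψ w)` by (2), and `ordP_dt`; if `s ≥ 1`: `ordP_dt_ge`).
(4) `U_i = τ * (h^(2N) (γ^r Q)^2 D_i (γ^r x))`, `V_i` the same with `y` (`i = 1, 2`), `A_k = h ^ n γ^r (a k)` are in `z₀` (`loc_der` with `c = τ`,
`t_pres`; `loc_coef`). `Good.chain` for `γ^r x`, `γ^r y`: `ψ τ ^ n * ψ h ^ (n(2N+1)) * wP ^ n * G =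
bfm n (ψ A_k) (ψ U_1 β + ψ U_2 ω) (ψ V_1 β + ψ V_2 ω)` (as `bfm_scale`, in `ℂ(t)`).
(5) Algebra (`bfm_split`): this is `ω ^ n * ψ (Ξ) + β * Y`, `Ξ = bfm n A U_2 V_2 = f ^ n h ^ (n(2N+1)) th` (`bfm_scale` with `c = τ`,
definition of `th`), and `Y` is a sum of products of elements of `ψ(z₀)` and `n - 1` factors `β` or `ω`, so
`Y = 0` or `ordP v Y ≥ -(n - 1)(2 k₀ + 1) s` (for `κ ≥ 1`: `ordP v β, ordP v ω ≥ -(2 k₀ + 1) s` or zero). A convenient way: let `R = P.ring`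
and choose `e ∈ ℂ(t)` with `ordP v e = (2 k₀ + 1) s`; then `e β, e ω ∈ R`, and
`(p β' + q ω')`-expansions are congruences modulo the ideal generated by `β' = e β`: `bfm n A (U_1 β' + U_2 ω') (V_1 β' + V_2 ω') - bfm n A (U_2 ω') (V_2 ω')
∈ β' R` (termwise `sub_dvd_pow_sub_pow`), and `bfm n A (U_2 ω') (V_2 ω') = ω' ^ n * bfm n A U_2 V_2`.
(6) `Ξ = 0` or `ordP v (ψ Ξ) ≥ κ`: `th ∈ sec (Dv - prd B)` and a local equation `q_B` of `prd B` at `z₀`: `Ξ / q_B ∈ z₀` (orders of all primes through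
`z₀`, `Pt.mem_iff`), `ordP v (ψ q_B) = κ` (`ct_eq`, `c = 1`, `prd B C.ν = 0`).
(7) Together: `e ^ n * (LHS of (4))` has order `≥ min (κ, κ - 1 - k₀ s + ..)`, i.e. `n ordP v (ψ τ) + o v ≥ κ - 1 - K₁ s`, so
`o v ≥ κ - 1 - K s` with `K = n (3 k₀ + 1) + ..` depending on `d, n` only. -/

set_option autoImplicit false

open Pool.Agent.LibGMM Pool.Agent.LibK Pool.Agent.LibKB
open Pool.Agent.LibLB (PSurf RLR)
open Pool.Agent.LibCov80 (Over)

open Pool.Agent.LibK3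

namespace Pool.Agent.LibK3P

private theorem CF11_scal {R : Type} [CommRing R] (n : ℕ) (c : Fin (n + 1) → R) (e s p q : R) :
    bfm n (fun k => e * c k) (s * p) (s * q) = e * s ^ n * bfm n c p q := by
  unfold bfm
  rw [Finset.mul_sum]
  refine Finset.sum_congr rfl fun k _ => ?_
  have : s ^ n = s ^ (k : ℕ) * s ^ (n - (k : ℕ)) := by
    rw [← pow_add]; congr 1; omega
  rw [this, mul_pow, mul_pow]
  ring

/-- Expansion of a binary form. -/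
theorem bfm_split {R : Type} [CommRing R] (n : ℕ) (A : Fin (n + 1) → R)
    (u₁ u₂ v₁ v₂ β ω : R) : ∃ Y : R,
      bfm n A (u₁ * β + u₂ * ω) (v₁ * β + v₂ * ω) = ω ^ n * bfm n A u₂ v₂ + β * Y := by
  have h1 : β ∣ bfm n A (u₁ * β + u₂ * ω) (v₁ * β + v₂ * ω) - bfm n A (u₂ * ω) (v₂ * ω) := by
    unfold bfm
    rw [← Finset.sum_sub_distrib]
    refine Finset.dvd_sum fun k _ => ?_
    have hx : β ∣ (u₁ * β + u₂ * ω) ^ (k : ℕ) - (u₂ * ω) ^ (k : ℕ) :=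
      dvd_trans ⟨u₁, by ring⟩ (sub_dvd_pow_sub_pow _ _ _)
    have hy : β ∣ (v₁ * β + v₂ * ω) ^ (n - (k : ℕ)) - (v₂ * ω) ^ (n - (k : ℕ)) :=
      dvd_trans ⟨v₁, by ring⟩ (sub_dvd_pow_sub_pow _ _ _)
    obtain ⟨a, ha⟩ := hx
    obtain ⟨b, hb⟩ := hy
    refine ⟨A k * (a * (v₁ * β + v₂ * ω) ^ (n - (k : ℕ)) + (u₂ * ω) ^ (k : ℕ) * b), ?_⟩
    linear_combination (A k * (v₁ * β + v₂ * ω) ^ (n - (k : ℕ))) * ha +
      (A k * (u₂ * ω) ^ (k : ℕ)) * hb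
  obtain ⟨Y, hY⟩ := h1
  refine ⟨Y, ?_⟩
  have h2 : bfm n A (u₂ * ω) (v₂ * ω) = ω ^ n * bfm n A u₂ v₂ := by
    have := CF11_scal n A 1 ω u₂ v₂
    simpa [mul_comm] using this
  rw [← h2]
  linear_combination hY

section Res

variable {L : Type} [Field L] [Algebra ℂ L] (C : RC L)

private theorem CF11_one : C.ψ 1 = 1 := by
  have := C.const 1
  simpa using this

private theorem CF11_zero : C.ψ 0 = 0 :=
  (C.zero_iff 0 (zero_mem C.ν.ring)).2 (Or.inl rfl)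

private theorem CF11_pow {z : L} (hz : z ∈ C.ν.ring) (k : ℕ) : C.ψ (z ^ k) = C.ψ z ^ k := by
  induction k with
  | zero => simp [CF11_one]
  | succ k ih => rw [pow_succ, C.mul _ (pow_mem hz k) _ hz, ih, pow_succ]

private theorem CF11_sum {ι : Type} (s : Finset ι) (f : ι → L) (hf : ∀ i ∈ s, f i ∈ C.ν.ring) :
    C.ψ (∑ i ∈ s, f i) = ∑ i ∈ s, C.ψ (f i) := by
  classical
  induction s using Finset.induction_on with
  | empty => simp [CF11_zero]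
  | insert a s ha ih =>
    rw [Finset.sum_insert ha, Finset.sum_insert ha,
      C.add _ (hf a (Finset.mem_insert_self a s)) _
        (sum_mem fun i hi => hf i (Finset.mem_insert_of_mem hi)),
      ih fun i hi => hf i (Finset.mem_insert_of_mem hi)]

private theorem CF11_bfm {n : ℕ} {a : Fin (n + 1) → L} {p q : L} (ha : ∀ k, a k ∈ C.ν.ring)
    (hp : p ∈ C.ν.ring) (hq : q ∈ C.ν.ring) :
    C.ψ (bfm n a p q) = bfm n (fun k => C.ψ (a k)) (C.ψ p) (C.ψ q) := by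
  unfold bfm
  rw [CF11_sum C _ _ fun k _ => mul_mem (mul_mem (ha k) (pow_mem hp _)) (pow_mem hq _)]
  refine Finset.sum_congr rfl fun k _ => ?_
  rw [C.mul _ (mul_mem (ha k) (pow_mem hp _)) _ (pow_mem hq _), C.mul _ (ha k) _ (pow_mem hp _),
    CF11_pow C hp, CF11_pow C hq]

private theorem CF11_ne {z : L} (hz : z ≠ 0) (h : C.ν.ord z = 0) : C.ψ z ≠ 0 := by
  intro h0
  rcases (C.zero_iff z (mem_ring.2 h.ge)).1 h0 with h1 | h1
  · exact hz h1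
  · omega

end Res

/-- A binary form with coefficients in a valuation ring. -/
private theorem CF11_mem {M : Type} [Field M] [Algebra ℂ M] (R : Subalgebra ℂ M) {n : ℕ}
    {a : Fin (n + 1) → M} {p q : M} (ha : ∀ k, a k ∈ R) (hp : p ∈ R) (hq : q ∈ R) :
    bfm n a p q ∈ R :=
  sum_mem fun k _ => mul_mem (mul_mem (ha k) (pow_mem hp _)) (pow_mem hq _)

/-- The expansion inside a subring. -/
private theorem CF11_split {M : Type} [Field M] [Algebra ℂ M] (R : Subalgebra ℂ M) {n : ℕ}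
    {A : Fin (n + 1) → M} {u₁ u₂ v₁ v₂ β ω : M} (hA : ∀ k, A k ∈ R) (h1 : u₁ ∈ R) (h2 : u₂ ∈ R)
    (h3 : v₁ ∈ R) (h4 : v₂ ∈ R) (h5 : β ∈ R) (h6 : ω ∈ R) : ∃ Y ∈ R,
      bfm n A (u₁ * β + u₂ * ω) (v₁ * β + v₂ * ω) = ω ^ n * bfm n A u₂ v₂ + β * Y := by
  obtain ⟨Y, hY⟩ := bfm_split (R := R) n (fun k => ⟨A k, hA k⟩) ⟨u₁, h1⟩ ⟨u₂, h2⟩ ⟨v₁, h3⟩
    ⟨v₂, h4⟩ ⟨β, h5⟩ ⟨ω, h6⟩
  refine ⟨Y, Y.2, ?_⟩
  have := congrArg (Subtype.val) hY
  simpa [bfm] using this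

variable {L : Type} [Field L] [Algebra ℂ L] {X : Sys0 L} {B : DVal L} {x y : L} (d : CDat X B x y)

private theorem CF11_b : d.b ≠ 0 := by
  intro h0
  have := d.ordb
  rw [h0, B.ord_zero] at this
  omega

private theorem CF11_w : d.w ≠ 0 := d.ind.ne_zero 1

private theorem CF11_divb : IsDiv X.S.prm (fun T => T.ord d.b) := X.S.finDiv d.b (CF11_b d)

private theorem CF11_divw : IsDiv X.S.prm (fun T => T.ord d.w) := X.S.finDiv d.w (CF11_w d)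

private theorem CF11_divt :
    IsDiv X.S.prm (fun T => T.ord d.t + d.N₁ * LibK3.hyp X.g T) :=
  IsDiv.add (X.S.finDiv d.t d.t_ne) (X.isDiv_hyp.zsmul d.N₁)

theorem CDat.sup_finite : d.sup.Finite := by
  refine (((CF11_divb d).union (CF11_divw d)).union (CF11_divt d)).subset ?_
  rintro T ⟨h1, -, h2 | h2 | h2⟩
  · exact Or.inl (Or.inl ⟨h1, h2⟩)
  · exact Or.inl (Or.inr ⟨h1, h2⟩)
  · exact Or.inr ⟨h1, h2⟩

/-- `ct` is the contact with `B` up to the contact with the support. -/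
private theorem CF11_ct {C : RC L} (hC : C.ν ∈ X.S.prm) (hB : B ∈ X.S.prm) (hCF : C.ν ∉ d.sup)
    (v : Plc) {D : DVal L → ℤ} (hD : IsDiv X.S.prm D) (h0 : D C.ν = 0)
    (hD' : ∀ T ∈ X.S.prm, T ≠ B → D T ≠ 0 → T ∈ d.sup) {k₀ : ℤ}
    (hk : ∀ T ∈ d.sup, |D T| ≤ k₀) :
    |ct X.S C v D 1 - D B * kap X.S C v B| ≤ k₀ * d.sv C v := by
  classical
  set F := d.sup_finite.toFinset with hF
  have hmF : ∀ T, T ∈ F ↔ T ∈ d.sup := fun T => Set.Finite.mem_toFinset _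
  have hBF : B ∉ F := by
    rw [hmF]
    exact fun h => h.2.1 rfl
  have e1 : ∑ᶠ T ∈ X.S.prm, D T * kap X.S C v T =
      ∑ T ∈ insert B F, D T * kap X.S C v T := by
    apply finsum_mem_eq_sum_of_inter_support_eq
    ext T
    simp only [Set.mem_inter_iff, Function.mem_support, Finset.coe_insert, Set.mem_insert_iff,
      Finset.mem_coe, hmF]
    constructor
    · rintro ⟨hT, hne⟩
      refine ⟨?_, hne⟩
      by_cases hTB : T = B
      · exact Or.inl hTB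
      · exact Or.inr (hD' T hT hTB (left_ne_zero_of_mul hne))
    · rintro ⟨hT | hT, hne⟩
      · exact ⟨hT ▸ hB, hne⟩
      · exact ⟨hT.1, hne⟩
  have e2 : d.sv C v = ∑ T ∈ F, kap X.S C v T :=
    finsum_mem_eq_finite_toFinset_sum _ d.sup_finite
  rw [ct_eq_sum hC v hD h0, e1, Finset.sum_insert hBF, add_sub_cancel_left, e2, Finset.mul_sum]
  refine (Finset.abs_sum_le_sum_abs _ _).trans (Finset.sum_le_sum fun T hT => ?_)
  have hT' := (hmF T).1 hT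
  have hTC : T ≠ C.ν := fun h => hCF (h ▸ hT')
  have hκ : 0 ≤ kap X.S C v T := kap_nonneg hC hT'.1 hTC v
  rw [abs_mul, abs_of_nonneg hκ]
  exact mul_le_mul_of_nonneg_right (hk T hT') hκ

private theorem CF11_sv {C : RC L} (hC : C.ν ∈ X.S.prm) (hCF : C.ν ∉ d.sup) (v : Plc) :
    0 ≤ d.sv C v := by
  have e2 : d.sv C v = ∑ T ∈ d.sup_finite.toFinset, kap X.S C v T :=
    finsum_mem_eq_finite_toFinset_sum _ d.sup_finite
  rw [e2]
  refine Finset.sum_nonneg fun T hT => ?_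
  have hT' := (Set.Finite.mem_toFinset _).1 hT
  exact kap_nonneg hC hT'.1 (fun h => hCF (h ▸ hT')) v

private theorem CF11_k : ∃ k₀ : ℤ, 0 ≤ k₀ ∧ (∀ T ∈ d.sup, |T.ord d.b| ≤ k₀) ∧
    (∀ T ∈ d.sup, |T.ord d.w| ≤ k₀) ∧
    ∀ T ∈ d.sup, |T.ord d.t + d.N₁ * LibK3.hyp X.g T| ≤ k₀ := by
  classical
  have key : ∀ g : DVal L → ℤ, ∃ k : ℤ, 0 ≤ k ∧ ∀ T ∈ d.sup, |g T| ≤ k := by
    intro g
    refine ⟨∑ T ∈ d.sup_finite.toFinset, |g T|, Finset.sum_nonneg fun _ _ => abs_nonneg _, ?_⟩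
    intro T hT
    exact Finset.single_le_sum (f := fun T => |g T|) (fun _ _ => abs_nonneg _)
      ((Set.Finite.mem_toFinset _).2 hT)
  obtain ⟨k1, h1, h1'⟩ := key fun T => T.ord d.b
  obtain ⟨k2, h2, h2'⟩ := key fun T => T.ord d.w
  obtain ⟨k3, h3, h3'⟩ := key fun T => T.ord d.t + d.N₁ * LibK3.hyp X.g T
  refine ⟨k1 + k2 + k3, by omega, fun T hT => ?_, fun T hT => ?_, fun T hT => ?_⟩
  · have := h1' T hT; omega
  · have := h2' T hT; omega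
  · have := h3' T hT; omega

/-- An element of given order. -/
private theorem CF11_ex (P : DVal (RatFunc ℂ)) (m : ℤ) : ∃ e : RatFunc ℂ, e ≠ 0 ∧ P.ord e = m := by
  obtain ⟨t, ht⟩ := P.exists_ord_one
  have h0 : t ≠ 0 := by
    rintro rfl
    rw [P.ord_zero] at ht
    omega
  exact ⟨t ^ m, zpow_ne_zero _ h0, by rw [LibKB.ord_zpow P h0, ht, mul_one]⟩

/-- The purely local part: orders of a binary form. -/
private theorem CF11_loc (P : DVal (RatFunc ℂ)) {n : ℕ} {A : Fin (n + 1) → RatFunc ℂ}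
    {u₁ u₂ v₁ v₂ β ω : RatFunc ℂ} (hA : ∀ k, A k ∈ P.ring) (h1 : u₁ ∈ P.ring) (h2 : u₂ ∈ P.ring)
    (h3 : v₁ ∈ P.ring) (h4 : v₂ ∈ P.ring) {m c : ℤ} (hm : 0 ≤ m) (hβ : Ge P (c - m) β)
    (hβ' : Ge P (-m) β) (hω : Ge P (-m) ω) (hΞ : Ge P c (bfm n A u₂ v₂))
    (hne : bfm n A (u₁ * β + u₂ * ω) (v₁ * β + v₂ * ω) ≠ 0) :
    c - n * m ≤ P.ord (bfm n A (u₁ * β + u₂ * ω) (v₁ * β + v₂ * ω)) := by
  obtain ⟨e, he0, he⟩ := CF11_ex P m
  have hge : Ge P m e := fun _ => he.ge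
  have hmem : ∀ z : RatFunc ℂ, Ge P 0 z → z ∈ P.ring := by
    intro z hz
    by_cases h0 : z = 0
    · rw [h0]; exact zero_mem _
    · exact mem_ring.2 (hz h0)
  have hmem' : ∀ z : RatFunc ℂ, z ∈ P.ring → Ge P 0 z := fun z hz _ => mem_ring.1 hz
  have hβe : e * β ∈ P.ring := hmem _ (by have := hge.mul hβ'; rwa [add_neg_cancel] at this)
  have hωe : e * ω ∈ P.ring := hmem _ (by have := hge.mul hω; rwa [add_neg_cancel] at this)
  obtain ⟨Y, hY, hs⟩ := CF11_split P.ring hA h1 h2 h3 h4 hβe hωe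
  have hscal : bfm n A (u₁ * (e * β) + u₂ * (e * ω)) (v₁ * (e * β) + v₂ * (e * ω)) =
      e ^ n * bfm n A (u₁ * β + u₂ * ω) (v₁ * β + v₂ * ω) := by
    have := CF11_scal n A 1 e (u₁ * β + u₂ * ω) (v₁ * β + v₂ * ω)
    rw [one_mul] at this
    rw [← this]
    congr 1
    · funext k; rw [one_mul]
    · ring
    · ring
  have hfirst : Ge P c ((e * ω) ^ n * bfm n A u₂ v₂) := by
    have := (hmem' _ (pow_mem hωe n)).mul hΞ
    rwa [zero_add] at this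
  have hsecond : Ge P c (e * β * Y) := by
    have := (hge.mul hβ).mul (hmem' _ hY)
    refine this.mono (by omega)
  have htot := hfirst.add hsecond
  rw [← hs, hscal] at htot
  have h5 := htot (mul_ne_zero (pow_ne_zero n he0) hne)
  rw [P.ord_mul _ _ (pow_ne_zero n he0) hne, LibKB.ord_pow P he0, he] at h5
  linarith

theorem CDat.local_est (hB : B ∈ X.S.prm) (n : ℕ) : ∃ K : ℤ, 0 ≤ K ∧ ∀ (r : ℤ)
    (a : Fin (n + 1) → L), (∀ k, a k ∈ sec X.S.prm fun ν => n * hyp X.g ν) →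
    (d.th r n a ∈ sec X.S.prm fun ν => d.Dv r n ν - prd B ν) → ∀ C : RC L, d.Good r C →
    ∀ δ : Derivation ℂ (RatFunc ℂ) (RatFunc ℂ), IsDt δ → d.G C δ r n a ≠ 0 → ∀ v : Plc,
      1 ≤ kap X.S C v B → kap X.S C v B - 1 - K * d.sv C v ≤ d.o C δ r n a v := by
  obtain ⟨k₀, hk0, hkb, hkw, hkt⟩ := CF11_k d
  refine ⟨n * (2 * k₀ + 1), by positivity, ?_⟩
  intro r a ha hth C hG δ hδ hG0 v hκ
  have hC := hG.mem
  have hctr := isCtr_ctr hC v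
  set z₀ := ctr X.S C v with hz₀
  have hpt := X.S.pt hctr.pts
  obtain ⟨f, hf⟩ := hpt.exists_loc (X.isDiv_hyp.zsmul d.N₁)
  obtain ⟨h, hh⟩ := hpt.exists_loc (X.isDiv_H r)
  obtain ⟨q, hq⟩ := hpt.exists_loc (isDiv_prd (P := X.S.prm) B)
  obtain ⟨P, hP⟩ := exists_pl v
  have hCF : C.ν ∉ d.sup := by
    rintro ⟨-, -, h1 | h1 | h1⟩
    · exact h1 hG.ordb
    · exact h1 hG.ordw
    · exact h1 (by rw [hG.ordt, hG.hyp]; ring)
  set κ := kap X.S C v B with hκdef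
  set s := d.sv C v with hs
  have hs0 : 0 ≤ s := CF11_sv d hC hCF v
  -- orders at `C`
  have hfC : C.ν.ord f = 0 := by
    have := hf.2 _ hC hctr.le
    simp only [hG.hyp, mul_zero] at this
    exact this
  have hhC : C.ν.ord h = 0 := by rw [hh.2 _ hC hctr.le, hG.Hr]
  have hqC : C.ν.ord q = 0 := by rw [hq.2 _ hC hctr.le, prd_ne hG.ne]
  have hτ0 : d.t * f ≠ 0 := mul_ne_zero d.t_ne hf.1
  have hτC : C.ν.ord (d.t * f) = 0 := by rw [C.ν.ord_mul _ _ d.t_ne hf.1, hG.ordt, hfC, add_zero]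
  have hτloc : LocEqn X.S.prm z₀ (fun T => T.ord d.t + d.N₁ * LibK3.hyp X.g T) (d.t * f) :=
    ⟨hτ0, fun T hT hz => by rw [T.ord_mul _ _ d.t_ne hf.1, hf.2 T hT hz]⟩
  -- the orders of `b`, `w`, `τ` at `v`
  have hob : κ - k₀ * s ≤ ordP v (C.ψ d.b) := by
    have h1 := CF11_ct d hC hB hCF v (CF11_divb d) hG.ordb
      (fun T hT hTB hT0 => ⟨hT, hTB, Or.inl hT0⟩) hkb
    rw [ct_ord hC v (CF11_b d) one_ne_zero (by rw [hG.ordb, LibKB.ord_one, neg_zero]), one_mul,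
      d.ordb, one_mul] at h1
    have := (abs_le.1 h1).1
    rw [← hs, ← hκdef] at this
    omega
  have how : - (k₀ * s) ≤ ordP v (C.ψ d.w) := by
    have h1 := CF11_ct d hC hB hCF v (CF11_divw d) hG.ordw
      (fun T hT hTB hT0 => ⟨hT, hTB, Or.inr (Or.inl hT0)⟩) hkw
    rw [ct_ord hC v (CF11_w d) one_ne_zero (by rw [hG.ordw, LibKB.ord_one, neg_zero]),
      one_mul] at h1
    have h2 := (abs_le.1 h1).1
    have h3 : 0 ≤ B.ord d.w * κ := mul_nonneg (mem_ring.1 d.memw) (by omega)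
    rw [← hs, ← hκdef] at h2
    omega
  have hoτ : ordP v (C.ψ (d.t * f)) ≤ k₀ * s := by
    have h1 := CF11_ct d hC hB hCF v (CF11_divt d) (by rw [hG.ordt, hG.hyp]; ring)
      (fun T hT hTB hT0 => ⟨hT, hTB, Or.inr (Or.inr hT0)⟩) hkt
    rw [(ct_eq hC hctr (CF11_divt d) hτloc one_ne_zero
      (by rw [LibKB.ord_one, hG.ordt, hG.hyp]; ring)).1, one_mul, d.t_B, zero_mul, sub_zero] at h1
    exact (abs_le.1 h1).2
  have hoq : ordP v (C.ψ q) = κ := by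
    have h1 := (ct_eq hC hctr (isDiv_prd (P := X.S.prm) B) hq one_ne_zero
      (by rw [LibKB.ord_one, prd_ne hG.ne, neg_zero])).1
    rw [one_mul] at h1
    exact h1.symm
  have hoh : ct X.S C v (X.H r) 1 = ordP v (C.ψ h) := by
    have h1 := (ct_eq hC hctr (X.isDiv_H r) hh one_ne_zero
      (by rw [LibKB.ord_one, hG.Hr, neg_zero])).1
    rwa [one_mul] at h1
  -- `β`, `ω`
  set β := wP v * δ (C.ψ d.b) with hβ
  set ω := wP v * δ (C.ψ d.w) with hω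
  have hgβ : Ge P (κ - 1 - k₀ * s) β := by
    intro hne
    have h1 : δ (C.ψ d.b) ≠ 0 := right_ne_zero_of_mul hne
    rw [hP]
    have := ordP_dt_ge hδ v h1
    rw [← hβ] at this
    omega
  have hgω : Ge P (-((k₀ + 1) * s)) ω := by
    intro hne
    have h1 : δ (C.ψ d.w) ≠ 0 := right_ne_zero_of_mul hne
    rw [hP]
    rcases hs0.eq_or_lt with h2 | h2
    · have h3 : 0 ≤ ordP v (C.ψ d.w) := by rw [← h2] at how; simpa using how
      have := ordP_dt hδ v h3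
      rw [← h2]; simpa using this
    · have h3 := ordP_dt_ge hδ v h1
      nlinarith
  -- membership
  have hxr : (X.γ ^ r) x ∈ C.ν.ring := mem_ring.2 hG.ordx.ge
  have hyr : (X.γ ^ r) y ∈ C.ν.ring := mem_ring.2 hG.ordy.ge
  have hQr : (X.γ ^ r) d.Q ∈ C.ν.ring := mem_ring.2 hG.ordQ.ge
  have hhr : h ∈ C.ν.ring := mem_ring.2 hhC.ge
  have hτr : d.t * f ∈ C.ν.ring := mem_ring.2 hτC.ge
  have hder1 := d.loc_der r hctr.pts hh (D := d.D₁) (c := d.t * f)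
    (fun z hz => (d.t_pres z₀ hctr.pts f hf z hz).1)
  have hder2 := d.loc_der r hctr.pts hh (D := d.D₂) (c := d.t * f)
    (fun z hz => (d.t_pres z₀ hctr.pts f hf z hz).2)
  set e := h ^ (2 * d.N) * (X.γ ^ r) d.Q ^ 2 with he
  have hAk : ∀ k, h ^ n * (X.γ ^ r) (a k) ∈ z₀ := fun k => loc_coef (ha k) r hctr.pts hh
  have her : e ∈ C.ν.ring := mul_mem (pow_mem hhr _) (pow_mem hQr _)
  have hpx := hG.pres _ hxr
  have hpy := hG.pres _ hyr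
  have hP0 : ∀ z ∈ z₀, C.ψ z ∈ P.ring := by
    intro z hz
    rw [mem_ring, hP]
    exact hctr.nonneg z hz
  -- `ψ` of the products
  have hψ : ∀ D : L, D ∈ C.ν.ring → C.ψ (d.t * f * (e * D)) = C.ψ (d.t * f) * (C.ψ e * C.ψ D) := by
    intro D hD
    rw [C.mul _ hτr _ (mul_mem her hD), C.mul _ her _ hD]
  have hX : C.ψ (d.t * f * (e * d.D₁ ((X.γ ^ r) x))) * β +
      C.ψ (d.t * f * (e * d.D₂ ((X.γ ^ r) x))) * ω =
      (C.ψ (d.t * f) * C.ψ e * wP v) * δ (C.ψ ((X.γ ^ r) x)) := by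
    rw [hψ _ hpx.1, hψ _ hpx.2, hG.chain δ _ hxr, hβ, hω]
    ring
  have hY : C.ψ (d.t * f * (e * d.D₁ ((X.γ ^ r) y))) * β +
      C.ψ (d.t * f * (e * d.D₂ ((X.γ ^ r) y))) * ω =
      (C.ψ (d.t * f) * C.ψ e * wP v) * δ (C.ψ ((X.γ ^ r) y)) := by
    rw [hψ _ hpy.1, hψ _ hpy.2, hG.chain δ _ hyr, hβ, hω]
    ring
  have har : ∀ k, (X.γ ^ r) (a k) ∈ C.ν.ring := by
    intro k
    by_cases h0 : (X.γ ^ r) (a k) = 0
    · rw [h0]; exact zero_mem _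
    · have := sec_gam (ha k) r C.ν hC h0
      simp only [hG.Hr, mul_zero, add_zero] at this
      exact mem_ring.2 this
  have hψh0 : C.ψ h ≠ 0 := CF11_ne C hh.1 hhC
  have hψτ0 : C.ψ (d.t * f) ≠ 0 := CF11_ne C hτ0 hτC
  have hQ0 : (X.γ ^ r) d.Q ≠ 0 := (map_ne_zero_iff (X.γ ^ r) (X.γ ^ r).injective).2 d.Q_ne
  have hψQ0 : C.ψ ((X.γ ^ r) d.Q) ≠ 0 := CF11_ne C hQ0 hG.ordQ
  have hψe : C.ψ e = C.ψ h ^ (2 * d.N) * C.ψ ((X.γ ^ r) d.Q) ^ 2 := by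
    rw [he, C.mul _ (pow_mem hhr _) _ (pow_mem hQr _), CF11_pow C hhr, CF11_pow C hQr]
  have hcoef : ∀ k, C.ψ (d.coef r n a k) =
      C.ψ ((X.γ ^ r) (a k)) * C.ψ ((X.γ ^ r) d.Q) ^ (2 * n) := by
    intro k
    unfold CDat.coef
    rw [map_mul, map_pow, C.mul _ (har k) _ (pow_mem hQr _), CF11_pow C hQr]
  -- the form
  have hmain : bfm n (fun k => C.ψ (h ^ n * (X.γ ^ r) (a k)))
      (C.ψ (d.t * f * (e * d.D₁ ((X.γ ^ r) x))) * β + C.ψ (d.t * f * (e * d.D₂ ((X.γ ^ r) x))) * ω)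
      (C.ψ (d.t * f * (e * d.D₁ ((X.γ ^ r) y))) * β + C.ψ (d.t * f * (e * d.D₂ ((X.γ ^ r) y))) * ω)
      = C.ψ (d.t * f) ^ n * C.ψ h ^ (n * (2 * d.N + 1)) * wP v ^ n * d.G C δ r n a := by
    rw [hX, hY]
    have e1 : (fun k => C.ψ (h ^ n * (X.γ ^ r) (a k))) =
        fun k => (C.ψ h ^ n * (C.ψ ((X.γ ^ r) d.Q) ^ (2 * n))⁻¹) * C.ψ (d.coef r n a k) := by
      funext k
      rw [hcoef, C.mul _ (pow_mem hhr _) _ (har k), CF11_pow C hhr]
      field_simp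
    rw [e1, CF11_scal]
    unfold CDat.G
    rw [hψe]
    field_simp
    ring
  have hΞ : Ge P κ (bfm n (fun k => C.ψ (h ^ n * (X.γ ^ r) (a k)))
      (C.ψ (d.t * f * (e * d.D₂ ((X.γ ^ r) x)))) (C.ψ (d.t * f * (e * d.D₂ ((X.γ ^ r) y))))) := by
    have hbs := d.bfm_scale r n a (d.t * f) h (d.D₂ ((X.γ ^ r) x)) (d.D₂ ((X.γ ^ r) y))
    have hmem1 : ∀ k, h ^ n * (X.γ ^ r) (a k) ∈ C.ν.ring := fun k => mul_mem (pow_mem hhr _) (har k)
    rw [← CF11_bfm C hmem1 (mul_mem hτr (mul_mem her hpx.2)) (mul_mem hτr (mul_mem her hpy.2)),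
      he, ← hbs]
    have hfth : (d.t * f) ^ n * h ^ (n * (2 * d.N + 1)) *
        bfm n (d.coef r n a) (d.D₂ ((X.γ ^ r) x)) (d.D₂ ((X.γ ^ r) y)) =
        f ^ n * h ^ (n * (2 * d.N + 1)) * d.th r n a := by
      unfold CDat.th
      rw [mul_pow]; ring
    rw [hfth]
    by_cases hth0 : d.th r n a = 0
    · rw [hth0, mul_zero, CF11_zero]
      exact fun h0 => absurd rfl h0
    have hΞ0 : f ^ n * h ^ (n * (2 * d.N + 1)) * d.th r n a ≠ 0 :=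
      mul_ne_zero (mul_ne_zero (pow_ne_zero _ hf.1) (pow_ne_zero _ hh.1)) hth0
    have hquo : (f ^ n * h ^ (n * (2 * d.N + 1)) * d.th r n a) / q ∈ z₀ := by
      rw [hpt.mem_iff]
      intro T hT hzT
      have h1 := hth T hT hth0
      have h2 := hf.2 T hT hzT
      have h3 := hh.2 T hT hzT
      have h4 := hq.2 T hT hzT
      rw [LibKB.ord_div T hΞ0 hq.1, T.ord_mul _ _ (mul_ne_zero (pow_ne_zero _ hf.1)
        (pow_ne_zero _ hh.1)) hth0, T.ord_mul _ _ (pow_ne_zero _ hf.1) (pow_ne_zero _ hh.1),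
        LibKB.ord_pow T hf.1, LibKB.ord_pow T hh.1, h2, h3, h4]
      unfold CDat.Dv at h1
      push_cast at h1 ⊢
      linarith
    have hqr : q ∈ C.ν.ring := mem_ring.2 hqC.ge
    have hprod : C.ψ (f ^ n * h ^ (n * (2 * d.N + 1)) * d.th r n a) =
        C.ψ q * C.ψ ((f ^ n * h ^ (n * (2 * d.N + 1)) * d.th r n a) / q) := by
      rw [← C.mul _ hqr _ (hctr.le hquo), mul_div_cancel₀ _ hq.1]
    rw [hprod]
    have g1 : Ge P κ (C.ψ q) := fun _ => by rw [hP, hoq]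
    have g2 : Ge P 0 (C.ψ ((f ^ n * h ^ (n * (2 * d.N + 1)) * d.th r n a) / q)) :=
      fun _ => mem_ring.1 (hP0 _ hquo)
    have := g1.mul g2
    rwa [add_zero] at this
  have hw0 : wP v ≠ 0 := wP_ne v
  have hne : bfm n (fun k => C.ψ (h ^ n * (X.γ ^ r) (a k)))
      (C.ψ (d.t * f * (e * d.D₁ ((X.γ ^ r) x))) * β + C.ψ (d.t * f * (e * d.D₂ ((X.γ ^ r) x))) * ω)
      (C.ψ (d.t * f * (e * d.D₁ ((X.γ ^ r) y))) * β + C.ψ (d.t * f * (e * d.D₂ ((X.γ ^ r) y))) * ω)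
      ≠ 0 := by
    rw [hmain]
    exact mul_ne_zero (mul_ne_zero (mul_ne_zero (pow_ne_zero _ hψτ0) (pow_ne_zero _ hψh0))
      (pow_ne_zero _ hw0)) hG0
  have hk0s : 0 ≤ k₀ * s := mul_nonneg hk0 hs0
  have hks : (k₀ + 1) * s = k₀ * s + s := by ring
  have hfin := CF11_loc P (m := (k₀ + 1) * s) (c := κ - 1) (fun k => hP0 _ (hAk k))
    (hP0 _ hder1.1) (hP0 _ hder2.1) (hP0 _ hder1.2) (hP0 _ hder2.2) (by omega)
    (hgβ.mono (by omega)) (hgβ.mono (by omega)) hgω (hΞ.mono (by omega)) hne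
  rw [hmain, P.ord_mul _ _ (mul_ne_zero (mul_ne_zero (pow_ne_zero _ hψτ0) (pow_ne_zero _ hψh0))
      (pow_ne_zero _ hw0)) hG0, P.ord_mul _ _ (mul_ne_zero (pow_ne_zero _ hψτ0)
      (pow_ne_zero _ hψh0)) (pow_ne_zero _ hw0), P.ord_mul _ _ (pow_ne_zero _ hψτ0)
      (pow_ne_zero _ hψh0), LibKB.ord_pow P hψτ0, LibKB.ord_pow P hψh0, LibKB.ord_pow P hw0,
      hP, hP, hP, hP] at hfin
  unfold CDat.o
  rw [hoh]
  have hn : (0 : ℤ) ≤ n := Int.natCast_nonneg n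
  have h6 : (n : ℤ) * ordP v (C.ψ (d.t * f)) ≤ n * (k₀ * s) := mul_le_mul_of_nonneg_left hoτ hn
  push_cast at hfin ⊢
  linarith [h6]

end Pool.Agent.LibK3P
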