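import Pool.Agent.LibK3P.P10
import Pool.Agent.LibK3.NP2

set_option autoImplicit false

open Pool.Agent.LibGMM Pool.Agent.LibK Pool.Agent.LibKB
open Pool.Agent.LibLB (PSurf RLR)
open Pool.Agent.LibCov80 (Over)
open Pool.Agent.LibK3

namespace Pool.Agent.LibK3P

namespace Sys0

variable {L : Type} [Field L] [Algebra ℂ L] (X : Sys0 L) {C : RC L}

/-- `X.gen` at the point `γ^{-m} x`. -/
private theorem P13_gen (m : ℤ) {x : Subalgebra ℂ L} (hx : x ∈ X.S.pts) : ∃ i,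
    (∀ w ∈ crd X.g i, (X.γ ^ m) w ∈ x) ∧
    LocEqn X.S.prm x (X.H m) ((X.γ ^ m) (X.g i))⁻¹ ∧
    ∀ z ∈ x, ∃ u ∈ crd X.g i, ∃ v ∈ crd X.g i,
      v ≠ 0 ∧ ((X.γ ^ m) v)⁻¹ ∈ x ∧ z = (X.γ ^ m) u / (X.γ ^ m) v := by
  have := X.fin
  have := X.ne
  set G : L ≃ₐ[ℂ] L := X.γ ^ m with hG
  have hP : Perm X.S G := X.perm.pow m
  have hmap : ∀ w, w ∈ x.map ((G⁻¹ : L ≃ₐ[ℂ] L) : L →ₐ[ℂ] L) → G w ∈ x := by
    intro w hw
    obtain ⟨z, hz, h1⟩ := Subalgebra.mem_map.1 hw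
    rw [← h1]
    have h2 : G (((G⁻¹ : L ≃ₐ[ℂ] L) : L →ₐ[ℂ] L) z) = z := G.apply_symm_apply z
    rw [h2]
    exact hz
  obtain ⟨i, hi, hgen⟩ := X.gen _ (hP.pts' x hx)
  have hcrd : ∀ w ∈ crd X.g i, G w ∈ x := fun w hw => hmap w (hi hw)
  have hgi : G (X.g i) ≠ 0 := fun h0 => X.g_ne i ((map_eq_zero_iff G G.injective).1 h0)
  refine ⟨i, hcrd, ⟨inv_ne_zero hgi, fun ν hν hxν => ?_⟩, fun z hz => ?_⟩
  · have h1 : ∀ j, ν.ord (G (X.g i)) ≤ ν.ord (G (X.g j)) := by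
      intro j
      have hgj : G (X.g j) ≠ 0 := fun h0 => X.g_ne j ((map_eq_zero_iff G G.injective).1 h0)
      have h2 : G (X.g j / X.g i) ∈ x := hcrd _ (Algebra.subset_adjoin ⟨j, rfl⟩)
      have h3 : 0 ≤ ν.ord (G (X.g j / X.g i)) := hxν h2
      rw [map_div₀, ord_div ν hgj hgi] at h3
      omega
    have h2 : ⨅ j, ν.ord (G (X.g j)) = ν.ord (G (X.g i)) :=
      le_antisymm (ciInf_le (Set.finite_range _).bddBelow i) (le_ciInf h1)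
    rw [X.H_eq m ν, ← hG, h2, ord_inv ν hgi]
  · have h1 : (G⁻¹ : L ≃ₐ[ℂ] L) z ∈ x.map ((G⁻¹ : L ≃ₐ[ℂ] L) : L →ₐ[ℂ] L) :=
      Subalgebra.mem_map.2 ⟨z, hz, rfl⟩
    obtain ⟨u, hu, v, hv, hv0, hv', h2⟩ := hgen _ h1
    refine ⟨u, hu, v, hv, hv0, ?_, ?_⟩
    · have h3 := hmap _ hv'
      rwa [map_inv₀] at h3
    · have h3 : G ((G⁻¹ : L ≃ₐ[ℂ] L) z) = z := G.apply_symm_apply z
      rw [← map_div₀, ← h2, h3]

/-- Some coordinate is not constant on the curve. -/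
private theorem P13_nonconst (hC : C.ν ∈ X.S.prm) (m : ℤ) {x : Subalgebra ℂ L}
    (hx : x ∈ X.S.pts) (hxC : x ≤ (X.cv C m).ν.ring) {i : X.ι}
    (h1 : ∀ w ∈ crd X.g i, (X.γ ^ m) w ∈ x)
    (h2 : ∀ z ∈ x, ∃ u ∈ crd X.g i, ∃ v ∈ crd X.g i,
      v ≠ 0 ∧ ((X.γ ^ m) v)⁻¹ ∈ x ∧ z = (X.γ ^ m) u / (X.γ ^ m) v) :
    ∃ j, ∀ c : ℂ, (X.cv C m).ψ ((X.γ ^ m) (X.g j / X.g i)) ≠ RatFunc.C c := by
  by_contra hcon
  push Not at hcon
  set G : L ≃ₐ[ℂ] L := X.γ ^ m with hG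
  set C' : RC L := X.cv C m with hC'def
  have hC' : C'.ν ∈ X.S.prm := X.cv_mem hC m
  have s1 : ∀ w ∈ crd X.g i, ∃ c : ℂ, C'.ψ (G w) = RatFunc.C c := by
    intro w hw
    have key : G w ∈ C'.ν.ring ∧ ∃ c : ℂ, C'.ψ (G w) = RatFunc.C c := by
      refine Algebra.adjoin_induction
        (p := fun w _ => G w ∈ C'.ν.ring ∧ ∃ c : ℂ, C'.ψ (G w) = RatFunc.C c) ?_ ?_ ?_ ?_ hw
      · rintro _ ⟨j, rfl⟩
        exact ⟨hxC (h1 _ (Algebra.subset_adjoin ⟨j, rfl⟩)), hcon j⟩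
      · intro c
        rw [AlgEquiv.commutes]
        exact ⟨C'.ν.ring.algebraMap_mem c, c, C'.const c⟩
      · rintro a b _ _ ⟨ha, ca, hca⟩ ⟨hb, cb, hcb⟩
        refine ⟨by rw [map_add]; exact C'.ν.ring.add_mem ha hb, ca + cb, ?_⟩
        rw [map_add, C'.add _ ha _ hb, hca, hcb, map_add]
      · rintro a b _ _ ⟨ha, ca, hca⟩ ⟨hb, cb, hcb⟩
        refine ⟨by rw [map_mul]; exact C'.ν.ring.mul_mem ha hb, ca * cb, ?_⟩
        rw [map_mul, C'.mul _ ha _ hb, hca, hcb, map_mul]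
    exact key.2
  have s2 : ∀ z ∈ x, ∃ c : ℂ, C'.ψ z = RatFunc.C c := by
    intro z hz
    obtain ⟨u, hu, v, hv, hv0, hv', hzuv⟩ := h2 z hz
    obtain ⟨cu, hcu⟩ := s1 u hu
    obtain ⟨cv, hcv⟩ := s1 v hv
    have hGv : G v ≠ 0 := fun h0 => hv0 ((map_eq_zero_iff G G.injective).1 h0)
    have e1 : C'.ψ (G v) * C'.ψ (G v)⁻¹ = 1 := by
      rw [← C'.mul _ (hxC (h1 v hv)) _ (hxC hv'), mul_inv_cancel₀ hGv, psi_one]
    have e2 : C'.ψ (G v)⁻¹ = RatFunc.C cv⁻¹ := by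
      rw [map_inv₀, ← hcv]
      exact eq_inv_of_mul_eq_one_right e1
    refine ⟨cu * cv⁻¹, ?_⟩
    rw [hzuv, div_eq_mul_inv, C'.mul _ (hxC (h1 u hu)) _ (hxC hv'), hcu, e2, map_mul]
  have hess : C'.ν ∈ Ess x := (X.S.ess x hx C'.ν).2 ⟨hC', hxC⟩
  obtain ⟨P, hP⟩ := exists_pl none
  obtain ⟨t, ht⟩ := P.exists_ord_one
  obtain ⟨z, hz, hzt⟩ := C'.surj t
  obtain ⟨a, ha, b, hb, hb0, hbo, hzab⟩ := hess.2 z hz
  obtain ⟨ca, hca⟩ := s2 a ha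
  obtain ⟨cb, hcb⟩ := s2 b hb
  have hψb : C'.ψ b ≠ 0 := (psi_ne_iff hb0 (hxC hb)).2 hbo
  have e1 : C'.ψ z * C'.ψ b = C'.ψ a := by
    rw [← C'.mul _ hz _ (hxC hb), hzab, div_mul_cancel₀ _ hb0]
  have e2 : t = RatFunc.C (ca / cb) := by
    rw [← hzt, map_div₀, ← hca, ← hcb]
    exact eq_div_of_mul_eq hψb e1
  rw [hP, e2, LibK3.ordP_C] at ht
  exact zero_ne_one ht

/-- Multiplicities of `C_m` are bounded by the degree of `C`.
PLAN. As `LibK3/N19.lean` (same proof: see the plan there), no growth is used. -/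
theorem mult_le (hC : C.ν ∈ X.S.prm) (m : ℤ) {x : Subalgebra ℂ L} (hx : x ∈ X.S.pts)
    (hxC : x ≤ (X.cv C m).ν.ring) : ∃ u ∈ x, u⁻¹ ∉ x ∧ (X.cv C m).ψ u ≠ 0 ∧
      {v | ctr X.S (X.cv C m) v = x}.Finite ∧
      ∑ᶠ v ∈ {v | ctr X.S (X.cv C m) v = x}, ordP v ((X.cv C m).ψ u) ≤
        X.S.form X.S.A (X.S.cls C.ν) := by
  obtain ⟨i, hi1, hi2, hi3⟩ := X.P13_gen m hx
  obtain ⟨j, hj⟩ := X.P13_nonconst hC m hx hxC hi1 hi3
  set G : L ≃ₐ[ℂ] L := X.γ ^ m with hG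
  have hC' : (X.cv C m).ν ∈ X.S.prm := X.cv_mem hC m
  have hdeg : X.S.form (X.S.cl (X.H m)) (X.S.cls (X.cv C m).ν) =
      X.S.form X.S.A (X.S.cls C.ν) := by
    have h1 := X.form_H_cv hC m m
    rw [sub_self, X.α_zero] at h1
    exact h1
  set C' : RC L := X.cv C m with hC'def
  have hG0 : ∀ k, G (X.g k) ≠ 0 := fun k h0 => X.g_ne k ((map_eq_zero_iff G G.injective).1 h0)
  have hzj : G (X.g j / X.g i) ∈ x := hi1 _ (Algebra.subset_adjoin ⟨j, rfl⟩)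
  obtain ⟨a, b, hab⟩ := X.S.coord x hx
  obtain ⟨c₀, p, hp, q, hq, hdec⟩ := hab.decomp _ hzj
  set u : L := G (X.g j / X.g i) - algebraMap ℂ L c₀ with hu
  have hc₀x : algebraMap ℂ L c₀ ∈ x := x.algebraMap_mem c₀
  have hux : u ∈ x := x.sub_mem hzj hc₀x
  have hψu : C'.ψ u ≠ 0 := by
    intro h0
    rw [hu, psi_sub (hxC hzj) (hxC hc₀x), C'.const, sub_eq_zero] at h0
    exact hj c₀ h0
  have hu0 : u ≠ 0 := by
    intro h0
    rw [h0, psi_zero] at hψu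
    exact hψu rfl
  have huab : u = a * p + b * q := by
    rw [hu, hdec]
    ring
  have huinv : u⁻¹ ∉ x := by
    intro h0
    refine hab.nonunit (p * u⁻¹) (x.mul_mem hp h0) (q * u⁻¹) (x.mul_mem hq h0) ?_
    have h1 : a * (p * u⁻¹) + b * (q * u⁻¹) = (a * p + b * q) * u⁻¹ := by ring
    rw [h1, ← huab, mul_inv_cancel₀ hu0]
  set c : L := G (X.g i) with hc
  have hc0 : c ≠ 0 := hG0 i
  have hcD : C'.ν.ord c = - X.H m C'.ν := by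
    have h1 := hi2.2 C'.ν hC' hxC
    rw [ord_inv C'.ν hc0] at h1
    omega
  have hDiv := X.isDiv_H m
  -- the two local estimates
  have hloc : ∀ v, 0 ≤ ct X.S C' v (X.H m) c ∧
      0 ≤ ordP v (C'.ψ u) + ct X.S C' v (X.H m) c := by
    intro v
    have hy := isCtr_ctr hC' v
    obtain ⟨i', hi1', hi2', -⟩ := X.P13_gen m hy.pts
    obtain ⟨e1, e2⟩ := ct_eq hC' hy hDiv hi2' hc0 hcD
    have hw : G (X.g i / X.g i') ∈ ctr X.S C' v := hi1' _ (Algebra.subset_adjoin ⟨i, rfl⟩)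
    have hw' : G (X.g j / X.g i') ∈ ctr X.S C' v := hi1' _ (Algebra.subset_adjoin ⟨j, rfl⟩)
    have e3 : c * (G (X.g i'))⁻¹ = G (X.g i / X.g i') := by
      rw [map_div₀, hc, div_eq_mul_inv]
    rw [← hG, e3] at e1 e2
    refine ⟨by rw [e1]; exact hy.nonneg _ hw, ?_⟩
    have e4 : u * G (X.g i / X.g i') =
        G (X.g j / X.g i') - algebraMap ℂ L c₀ * G (X.g i / X.g i') := by
      have h1 := hG0 i
      have h2 := hG0 i'
      rw [hu, map_div₀, map_div₀, map_div₀]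
      field_simp
    have e5 : u * G (X.g i / X.g i') ∈ ctr X.S C' v := by
      rw [e4]
      exact Subalgebra.sub_mem _ hw' (Subalgebra.mul_mem _ (Subalgebra.algebraMap_mem _ c₀) hw)
    have e6 := hy.nonneg _ e5
    rw [C'.mul _ (hxC hux) _ (hy.le hw), LibK3.ordP_mul v hψu e2, ← e1] at e6
    exact e6
  have hat : ∀ v, ctr X.S C' v = x → ct X.S C' v (X.H m) c = 0 ∧ 0 < ordP v (C'.ψ u) := by
    intro v hv
    have hy := isCtr_ctr hC' v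
    rw [hv] at hy
    have e1 := (ct_eq hC' hy hDiv hi2 hc0 hcD).1
    rw [mul_inv_cancel₀ hc0, psi_one, ← map_one (RatFunc.C (K := ℂ)), LibK3.ordP_C] at e1
    refine ⟨e1, ?_⟩
    rcases hy.pos u hux huinv with h1 | h1
    · exact absurd h1 hψu
    · exact h1
  obtain ⟨hS1, hsum1⟩ := sum_ordP hψu
  have hS2 := ct_finite hC' hDiv hc0 hcD
  have hsum2 := deg_eq hC' hDiv hc0 hcD
  have hTsub : {v | ctr X.S C' v = x} ⊆ {v | ordP v (C'.ψ u) ≠ 0} := by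
    intro v hv
    exact (hat v hv).2.ne'
  have hT : {v | ctr X.S C' v = x}.Finite := hS1.subset hTsub
  refine ⟨u, hux, huinv, hψu, hT, ?_⟩
  rw [← hdeg, ← hsum2, finsum_mem_eq_finite_toFinset_sum _ hT]
  classical
  set F : Finset Plc := hS1.toFinset ∪ hS2.toFinset with hF
  have f1 : ∑ᶠ v, ordP v (C'.ψ u) = ∑ v ∈ F, ordP v (C'.ψ u) := by
    refine finsum_eq_sum_of_support_subset _ fun v hv => ?_
    rw [Finset.mem_coe, hF, Finset.mem_union]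
    exact Or.inl ((Set.Finite.mem_toFinset hS1).2 hv)
  have f2 : ∑ᶠ v, ct X.S C' v (X.H m) c = ∑ v ∈ F, ct X.S C' v (X.H m) c := by
    refine finsum_eq_sum_of_support_subset _ fun v hv => ?_
    rw [Finset.mem_coe, hF, Finset.mem_union]
    exact Or.inr ((Set.Finite.mem_toFinset hS2).2 hv)
  have f3 : hT.toFinset ⊆ F := by
    intro v hv
    rw [hF, Finset.mem_union]
    exact Or.inl ((Set.Finite.mem_toFinset hS1).2 (hTsub ((Set.Finite.mem_toFinset hT).1 hv)))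
  calc ∑ v ∈ hT.toFinset, ordP v (C'.ψ u)
      = ∑ v ∈ hT.toFinset, (ordP v (C'.ψ u) + ct X.S C' v (X.H m) c) := by
        refine Finset.sum_congr rfl fun v hv => ?_
        rw [(hat v ((Set.Finite.mem_toFinset hT).1 hv)).1, add_zero]
    _ ≤ ∑ v ∈ F, (ordP v (C'.ψ u) + ct X.S C' v (X.H m) c) :=
        Finset.sum_le_sum_of_subset_of_nonneg f3 fun v _ _ => (hloc v).2
    _ = ∑ᶠ v, ct X.S C' v (X.H m) c := by
        rw [Finset.sum_add_distrib, ← f1, ← f2, hsum1, zero_add]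

end Sys0

end Pool.Agent.LibK3P
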