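import Pool.Agent.LibK3.AJ5
import Pool.Agent.LibK3.SP2
import Pool.Agent.LibK3P.CF10
import Pool.Agent.LibK3P.CF11
import Pool.Agent.LibK3P.P13

/-! ROW CF12 (block C of K3): the bad contacts are bounded by the orders. 50 min.
Let `C' = X.cv C m`, `a₀ = form A (cls C.ν)`, `κ_v = kap X.S C' v B`, `s_v = d.sv C' v`, `o_v = d.o C' δ r n a v ≥ 0` (`o_nonneg`).
PLAN. (1) `#{v | κ_v ≥ 1 and s_v ≥ 1} ≤ |Z| a₀` where `Z = ⋃_(T ∈ sup) {x ∈ pts | x ≤ B.ring, x ≤ T.ring}` is finite (`finite_common`, `sup_finite`) and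
independent of `m`: such a place has its centre in `Z` (`kap_pos_iff`; `s_v ≥ 1` gives `T ∈ sup` with `kap > 0`), and over a point `x`
on `C'` lie at most `a₀` places: `mult_le`: `u ∈ x` non-unit, `ψ u ≠ 0`, `∑_(v over x) ordP v (ψ u) ≤ a₀`, every term is `≥ 1` (`isCtr_ctr`, field `pos`).
(2) `M := a₀ * max_(T ∈ sup) |form (cls B) (cls T)|`: if `κ_v > M` then `kap X.S C' v T ≤ M` for all `T ∈ sup`: `arc_le` with the `u` of `mult_le` for
`x = ctr C' v`: `min κ_v (kap T) ≤ ordP v (ψ u) form (B, T) ≤ M` (a single term of a finite sum of nonnegative terms;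
`form (B, T) ≥ 0` by `LibCUR2.C1'`; `T ≠ B`, `T ≠ C'.ν`, `B ≠ C'.ν` by `Good`). So `s_v ≤ |sup| M`.
(3) For `κ_v ≥ 2`: if `s_v = 0`: `κ_v ≤ 2 (κ_v - 1) ≤ 2 o_v` (`local_est`). If `s_v ≥ 1` and `κ_v > M`: `κ_v ≤ o_v + 1 + K |sup| M`; if `κ_v ≤ M`:
`κ_v ≤ M ≤ o_v + M`. So `κ_v ≤ 2 o_v + K'` in these cases, `K' = 1 + K |sup| M + M`.
(4) Sum over the finite set `{v | κ_v ≠ 0}` (`sum_kap`): `bad ≤ 2 ∑ o_v + K' |Z| a₀` (`finsum_le_finsum`-style comparison; pass to `Finset.sum` over a finite set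
containing the supports of `κ`, `o`), `o_sum`: `∑ o_v ≤ n (2N+1) form (α r) (cls C'.ν)`. -/

set_option autoImplicit false

open Pool.Agent.LibGMM Pool.Agent.LibK Pool.Agent.LibKB
open Pool.Agent.LibLB (PSurf RLR)
open Pool.Agent.LibCov80 (Over)

open Pool.Agent.LibK3

namespace Pool.Agent.LibK3P

/-- over a point of the curve lie at most `a₀` places -/
private theorem CF12_fiber {L : Type} [Field L] [Algebra ℂ L] (X : Sys0 L) {C : RC L}
    (hC : C.ν ∈ X.S.prm) (m : ℤ) {z : Subalgebra ℂ L} (hz : z ∈ X.S.pts) :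
    ∃ s : Finset Plc, (∀ v, ctr X.S (X.cv C m) v = z → v ∈ s) ∧
      (s.card : ℤ) ≤ X.S.form X.S.A (X.S.cls C.ν) := by
  have ha₀ : 1 ≤ X.S.form X.S.A (X.S.cls C.ν) := by
    have h1 := X.form_α_pos 0 hC
    rwa [X.α_zero] at h1
  have hC' := X.cv_mem hC m
  by_cases hzC : z ≤ (X.cv C m).ν.ring
  · obtain ⟨u, hu, hu', hu0, hfin, hsum⟩ := X.mult_le hC m hz hzC
    refine ⟨hfin.toFinset, fun v hv => hfin.mem_toFinset.2 hv, ?_⟩
    rw [finsum_mem_eq_finite_toFinset_sum _ hfin] at hsum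
    refine le_trans ?_ hsum
    have h1 : ∀ v ∈ hfin.toFinset, (1 : ℤ) ≤ ordP v ((X.cv C m).ψ u) := by
      intro v hv
      have h2 : ctr X.S (X.cv C m) v = z := hfin.mem_toFinset.1 hv
      have h3 := isCtr_ctr hC' v
      rw [h2] at h3
      rcases h3.pos u hu hu' with h4 | h4
      · exact absurd h4 hu0
      · omega
    have h5 := Finset.sum_le_sum h1
    rw [Finset.sum_const, nsmul_eq_mul, mul_one] at h5
    exact h5
  · refine ⟨∅, fun v h3 => ?_, ?_⟩
    · exfalso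
      apply hzC
      have h4 := (isCtr_ctr hC' v).le
      rwa [h3] at h4
    · rw [Finset.card_empty]
      simp only [Nat.cast_zero]
      omega

/-- a non-unit of small order at the place -/
private theorem CF12_ord {L : Type} [Field L] [Algebra ℂ L] (X : Sys0 L) {C : RC L}
    (hC : C.ν ∈ X.S.prm) (m : ℤ) (v : Plc) : ∃ u ∈ ctr X.S (X.cv C m) v,
      u⁻¹ ∉ ctr X.S (X.cv C m) v ∧ (X.cv C m).ψ u ≠ 0 ∧ 0 ≤ ordP v ((X.cv C m).ψ u) ∧
      ordP v ((X.cv C m).ψ u) ≤ X.S.form X.S.A (X.S.cls C.ν) := by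
  have hC' := X.cv_mem hC m
  have h0 := isCtr_ctr hC' v
  obtain ⟨u, hu, hu', hu0, hfin, hsum⟩ := X.mult_le hC m h0.pts h0.le
  refine ⟨u, hu, hu', hu0, h0.nonneg u hu, le_trans ?_ hsum⟩
  rw [finsum_mem_eq_finite_toFinset_sum _ hfin]
  refine Finset.single_le_sum (f := fun w => ordP w ((X.cv C m).ψ u)) (fun w hw => ?_)
    (hfin.mem_toFinset.2 rfl)
  have h2 : ctr X.S (X.cv C m) w = ctr X.S (X.cv C m) v := hfin.mem_toFinset.1 hw
  have h3 := isCtr_ctr hC' w
  rw [h2] at h3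
  exact h3.nonneg u hu

variable {L : Type} [Field L] [Algebra ℂ L] {X : Sys0 L} {B : DVal L} {x y : L} (d : CDat X B x y)

private theorem CF12_sup_ne {r : ℤ} {C : RC L} (hg : d.Good r C) {T : DVal L} (hT : T ∈ d.sup) :
    T ≠ C.ν := by
  rintro rfl
  obtain ⟨-, -, h⟩ := hT
  rcases h with h | h | h
  · exact h hg.ordb
  · exact h hg.ordw
  · apply h
    rw [hg.ordt, hg.hyp, mul_zero, add_zero]

theorem CDat.bad_le (hB : B ∈ X.S.prm) {C : RC L} (hC : C.ν ∈ X.S.prm) {r : ℤ} {n : ℕ}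
    {a : Fin (n + 1) → L} (ha : ∀ k, a k ∈ sec X.S.prm fun ν => n * hyp X.g ν)
    (hth : d.th r n a ∈ sec X.S.prm fun ν => d.Dv r n ν - prd B ν) : ∃ K : ℤ, ∀ m : ℤ,
      d.Good r (X.cv C m) → ∀ δ : Derivation ℂ (RatFunc ℂ) (RatFunc ℂ), IsDt δ →
        d.G (X.cv C m) δ r n a ≠ 0 → bad X.S (X.cv C m) B ≤
          2 * (n * (2 * d.N + 1)) * X.S.form (X.α r) (X.S.cls (X.cv C m).ν) + K := by
  classical
  obtain ⟨K, hK0, hK⟩ := d.local_est hB n
  have hsupf := d.sup_finite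
  obtain ⟨a₀, ha₀⟩ : ∃ a₀ : ℤ, a₀ = X.S.form X.S.A (X.S.cls C.ν) := ⟨_, rfl⟩
  have ha₀1 : 1 ≤ a₀ := by
    have h1 := X.form_α_pos 0 hC
    rw [X.α_zero] at h1
    rw [ha₀]
    exact h1
  have hZ : (⋃ T ∈ d.sup, {z | z ∈ X.S.pts ∧ z ≤ B.ring ∧ z ≤ T.ring}).Finite :=
    hsupf.biUnion fun T hT => finite_common hB hT.1 hT.2.1.symm
  obtain ⟨F₁, hF₁⟩ : ∃ F₁ : ℤ, F₁ = ∑ T ∈ hsupf.toFinset, |X.S.form (X.S.cls B) (X.S.cls T)| :=
    ⟨_, rfl⟩
  have hF₁0 : 0 ≤ F₁ := by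
    rw [hF₁]
    exact Finset.sum_nonneg fun T _ => abs_nonneg _
  obtain ⟨M, hM⟩ : ∃ M : ℤ, M = a₀ * F₁ := ⟨_, rfl⟩
  have hM0 : 0 ≤ M := by
    rw [hM]
    exact mul_nonneg (by omega) hF₁0
  obtain ⟨K', hK'⟩ : ∃ K' : ℤ, K' = 1 + K * (hsupf.toFinset.card * M) + M := ⟨_, rfl⟩
  have hK'0 : 0 ≤ K' := by
    rw [hK']
    have h1 : 0 ≤ K * (hsupf.toFinset.card * M) :=
      mul_nonneg hK0 (mul_nonneg (Int.natCast_nonneg _) hM0)
    omega
  refine ⟨K' * (hZ.toFinset.card * a₀), fun m hg δ hδ hG => ?_⟩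
  have hC' := X.cv_mem hC m
  have hBC : B ≠ (X.cv C m).ν := hg.ne.symm
  have hκ0 : ∀ v, 0 ≤ kap X.S (X.cv C m) v B := kap_nonneg hC' hB hBC
  have ho0 : ∀ v, 0 ≤ d.o (X.cv C m) δ r n a v := d.o_nonneg ha hg hδ hG
  obtain ⟨hof, hosum⟩ := d.o_sum hg hG
  have hTn : ∀ T ∈ d.sup, ∀ v, 0 ≤ kap X.S (X.cv C m) v T := fun T hT =>
    kap_nonneg hC' hT.1 (CF12_sup_ne d hg hT)
  have hsv : ∀ v, d.sv (X.cv C m) v = ∑ T ∈ hsupf.toFinset, kap X.S (X.cv C m) v T := by
    intro v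
    rw [CDat.sv, finsum_mem_eq_finite_toFinset_sum _ hsupf]
  -- (2)
  have hMv : ∀ v, M < kap X.S (X.cv C m) v B →
      d.sv (X.cv C m) v ≤ hsupf.toFinset.card * M := by
    intro v hv
    rw [hsv v]
    have h1 : ∀ T ∈ hsupf.toFinset, kap X.S (X.cv C m) v T ≤ M := by
      intro T hT
      have hT' : T ∈ d.sup := hsupf.mem_toFinset.1 hT
      obtain ⟨u, hu, hu', hu0, hu1, hu2⟩ := CF12_ord X hC m v
      have h2 := arc_le hC' hB hT'.1 hT'.2.1.symm hBC (CF12_sup_ne d hg hT') v hu hu' hu0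
      have h3 : ordP v ((X.cv C m).ψ u) * X.S.form (X.S.cls B) (X.S.cls T) ≤ M := by
        calc ordP v ((X.cv C m).ψ u) * X.S.form (X.S.cls B) (X.S.cls T)
            ≤ ordP v ((X.cv C m).ψ u) * |X.S.form (X.S.cls B) (X.S.cls T)| :=
              mul_le_mul_of_nonneg_left (le_abs_self _) hu1
          _ ≤ a₀ * |X.S.form (X.S.cls B) (X.S.cls T)| :=
              mul_le_mul_of_nonneg_right (by rw [ha₀]; exact hu2) (abs_nonneg _)
          _ ≤ a₀ * F₁ := by
              refine mul_le_mul_of_nonneg_left ?_ (by omega)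
              rw [hF₁]
              exact Finset.single_le_sum
                (f := fun T => |X.S.form (X.S.cls B) (X.S.cls T)|) (fun T _ => abs_nonneg _) hT
          _ = M := hM.symm
      have h4 := le_trans h2 h3
      rcases min_le_iff.1 h4 with h5 | h5
      · omega
      · exact h5
    have h6 := Finset.sum_le_sum h1
    rw [Finset.sum_const, nsmul_eq_mul] at h6
    exact h6
  -- the exceptional places
  have hZp : ∀ z ∈ hZ.toFinset, z ∈ X.S.pts := by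
    intro z hz
    have h1 := hZ.mem_toFinset.1 hz
    simp only [Set.mem_iUnion] at h1
    obtain ⟨T, hT, h2⟩ := h1
    exact h2.1
  choose! fib hfib hcard using fun z (hz : z ∈ X.S.pts) => CF12_fiber X hC m hz
  let Wf : Finset Plc := hZ.toFinset.biUnion fib
  have hWcard : (Wf.card : ℤ) ≤ hZ.toFinset.card * a₀ := by
    have h1 : (Wf.card : ℤ) ≤ ∑ z ∈ hZ.toFinset, ((fib z).card : ℤ) := by
      exact_mod_cast Finset.card_biUnion_le
    refine le_trans h1 ?_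
    have h2 : ∀ z ∈ hZ.toFinset, ((fib z).card : ℤ) ≤ a₀ := by
      intro z hz
      rw [ha₀]
      exact hcard z (hZp z hz)
    have h3 := Finset.sum_le_sum h2
    rw [Finset.sum_const, nsmul_eq_mul] at h3
    exact h3
  have hW : ∀ v, 1 ≤ kap X.S (X.cv C m) v B → v ∉ Wf → d.sv (X.cv C m) v = 0 := by
    intro v hv hvW
    rw [hsv v]
    refine Finset.sum_eq_zero fun T hT => ?_
    have hT' : T ∈ d.sup := hsupf.mem_toFinset.1 hT
    by_contra h1
    have h2 : 0 < kap X.S (X.cv C m) v T := lt_of_le_of_ne (hTn T hT' v) (Ne.symm h1)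
    have h3 := (kap_pos_iff hC' hT'.1 (CF12_sup_ne d hg hT') v).1 h2
    have h4 := (kap_pos_iff hC' hB hBC v).1 (by omega)
    apply hvW
    have h5 : ctr X.S (X.cv C m) v ∈ hZ.toFinset := by
      rw [hZ.mem_toFinset]
      exact Set.mem_biUnion hT' ⟨(isCtr_ctr hC' v).pts, h4, h3⟩
    rw [Finset.mem_biUnion]
    exact ⟨_, h5, hfib _ (hZp _ h5) v rfl⟩
  -- (3)
  have hest : ∀ v, (if 2 ≤ kap X.S (X.cv C m) v B then kap X.S (X.cv C m) v B else 0) ≤
      2 * d.o (X.cv C m) δ r n a v + (if v ∈ Wf then K' else 0) := by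
    intro v
    have h0 := ho0 v
    by_cases hv2 : 2 ≤ kap X.S (X.cv C m) v B
    · rw [if_pos hv2]
      have h1 := hK r a ha hth (X.cv C m) hg δ hδ hG v (by omega)
      by_cases hvW : v ∈ Wf
      · rw [if_pos hvW]
        by_cases hvM : M < kap X.S (X.cv C m) v B
        · have h2 := hMv v hvM
          have h3 : K * d.sv (X.cv C m) v ≤ K * (hsupf.toFinset.card * M) :=
            mul_le_mul_of_nonneg_left h2 hK0
          rw [hK']
          omega
        · have h3 : 0 ≤ K * (hsupf.toFinset.card * M) :=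
            mul_nonneg hK0 (mul_nonneg (Int.natCast_nonneg _) hM0)
          rw [hK']
          omega
      · rw [if_neg hvW]
        rw [hW v (by omega) hvW, mul_zero] at h1
        omega
    · rw [if_neg hv2]
      have h2 : (0 : ℤ) ≤ if v ∈ Wf then K' else 0 := by
        split_ifs
        · exact hK'0
        · exact le_rfl
      omega
  -- (4)
  obtain ⟨hκf, -⟩ := sum_kap hC' hB hBC
  let F : Finset Plc := hκf.toFinset ∪ hof.toFinset ∪ Wf
  have hbad : bad X.S (X.cv C m) B =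
      ∑ v ∈ F, if 2 ≤ kap X.S (X.cv C m) v B then kap X.S (X.cv C m) v B else 0 := by
    rw [bad]
    refine finsum_eq_sum_of_support_subset _ ?_
    intro v hv
    rw [Function.mem_support] at hv
    rw [Finset.mem_coe, Finset.mem_union, Finset.mem_union, Set.Finite.mem_toFinset]
    left
    left
    intro h1
    apply hv
    rw [h1, if_neg (by norm_num)]
  have hosum' : ∑ v ∈ F, d.o (X.cv C m) δ r n a v =
      n * (2 * d.N + 1) * X.S.form (X.α r) (X.S.cls (X.cv C m).ν) - 2 * n := by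
    rw [← hosum]
    refine (finsum_eq_sum_of_support_subset _ ?_).symm
    intro v hv
    rw [Function.mem_support] at hv
    rw [Finset.mem_coe, Finset.mem_union, Finset.mem_union]
    left
    right
    rw [Set.Finite.mem_toFinset]
    exact hv
  have hWsum : (∑ v ∈ F, if v ∈ Wf then K' else 0) = Wf.card * K' := by
    rw [Finset.sum_ite_mem, Finset.inter_eq_right.2 Finset.subset_union_right, Finset.sum_const,
      nsmul_eq_mul]
  have h1 := Finset.sum_le_sum fun v (_ : v ∈ F) => hest v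
  rw [← hbad, Finset.sum_add_distrib, ← Finset.mul_sum, hosum', hWsum] at h1
  have h2 : (Wf.card : ℤ) * K' ≤ hZ.toFinset.card * a₀ * K' :=
    mul_le_mul_of_nonneg_right hWcard hK'0
  have h3 : (0 : ℤ) ≤ n := Int.natCast_nonneg n
  nlinarith [h1, h2, h3]

end Pool.Agent.LibK3P
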