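import Pool.Agent.LibK3.N23
import Pool.Agent.LibK3P.P05

/-! ROW CF3 (block C of K3): a section `t` which clears the poles of two derivations and does not vanish along
`B`; functions as quotients of sections. 45 min.
PLAN. `exists_t`. For `i : X.ι` the chart `crd X.g i` is generated by the `g j / g i`. Let
`E ν = max` over the finitely many triples `(i, j, D ∈ {D₁, D₂})` with `crd X.g i ≤ ν.ring` of `max 0 (- ν.ord (D (g j / g i)))`
(`0` if `D (..) = 0`): finite support (`X.S.finDiv`), `0 ≤ E ν`, and `E B = 0` by `hpres` (`g j / g i ∈ B.ring` for these `i`).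
`exists_pole` with `D := hyp X.g` (`X.isDiv_hyp`, `X.cl_hyp`), `T := B`: `k = N₁`, `q = t` with
`E ν ≤ ν.ord t + N₁ * hyp ν` and equality `= 0` at `B`. So `t ∈ sec`. `t_pres`: let `z ∈ z₀`, `z₀ ∈ X.S.pts`; by `X.gen` there is a chart `i`
with `crd i ≤ z₀` and `z = u / v`, `u, v ∈ crd i`, `v⁻¹ ∈ z₀`. For a prime `ν` through `z₀` (`z₀ ≤ ν.ring`):
`ν.ord (D u) ≥ - E ν` for all `u ∈ crd i` (`Algebra.adjoin_induction`, Leibniz; state it as `D u = 0 ∨ ..` or as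
`t * f * D u ∈ ν.ring`), the same for `u / v`. With `f` a local equation of `N₁ hyp` at `z₀`: `ν.ord (t * f * D z) ≥ 0` for all primes
`ν` through `z₀`, so it is in `z₀` (`(X.S.pt hz₀).mem_iff`).
`exists_PQ`: take `i` with `g i = 1` (`X.one`): `x = u / v`, `y = u' / v'` (`X.frac i`), `u, v, u', v' ∈ crd i`; `Q = v v'`,
`P₁ = u v'`, `P₂ = u' v`. Every `z ∈ crd i` is in `sec (N hyp)` for some `N` (`Algebra.adjoin_induction`: generators
`g j / 1` are in `sec hyp`: `ν.ord (g j) ≥ - hyp ν` (`ciInf_le`, finite index type `X.fin`), constants in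
`sec 0`; sums: `hyp ≥ 0` (`hyp_nonneg`) allows to increase `N`; products add). -/

set_option autoImplicit false

open Pool.Agent.LibGMM Pool.Agent.LibK Pool.Agent.LibKB
open Pool.Agent.LibLB (PSurf RLR)
open Pool.Agent.LibCov80 (Over)

open Pool.Agent.LibK3

namespace Pool.Agent.LibK3P

variable {L : Type} [Field L] [Algebra ℂ L] (X : Sys0 L)


/-- one summand of the pole divisor -/
private noncomputable def CF3_e {ι : Type} (g : ι → L) (D : Derivation ℂ L L) (i j : ι)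
    (ν : DVal L) : ℤ := by
  classical
  exact if crd g i ≤ ν.ring then max 0 (- ν.ord (D (g j / g i))) else 0

private theorem CF3_e_nonneg {ι : Type} (g : ι → L) (D : Derivation ℂ L L) (i j : ι)
    (ν : DVal L) : 0 ≤ CF3_e g D i j ν := by
  unfold CF3_e
  split_ifs
  · exact le_max_left _ _
  · exact le_rfl

private theorem CF3_e_ge {ι : Type} (g : ι → L) (D : Derivation ℂ L L) (i j : ι)
    (ν : DVal L) (h : crd g i ≤ ν.ring) : - ν.ord (D (g j / g i)) ≤ CF3_e g D i j ν := by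
  unfold CF3_e
  rw [if_pos h]
  exact le_max_right _ _

private theorem CF3_e_zero {ι : Type} (g : ι → L) (D : Derivation ℂ L L) (i j : ι)
    (ν : DVal L) (h : ∀ z ∈ ν.ring, D z ∈ ν.ring) : CF3_e g D i j ν = 0 := by
  unfold CF3_e
  split_ifs with h1
  · have h2 : g j / g i ∈ ν.ring := h1 (Algebra.subset_adjoin ⟨j, rfl⟩)
    have h3 : 0 ≤ ν.ord (D (g j / g i)) := mem_ring.1 (h _ h2)
    exact max_eq_left (by omega)
  · rfl

private theorem CF3_e_isDiv {P : Set (DVal L)} (hP : FinDiv P) {ι : Type} (g : ι → L)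
    (D : Derivation ℂ L L) (i j : ι) : IsDiv P (CF3_e g D i j) := by
  by_cases h0 : D (g j / g i) = 0
  · refine Set.finite_empty.subset ?_
    rintro ν ⟨_, h2⟩
    apply h2
    unfold CF3_e
    split_ifs
    · rw [h0, ν.ord_zero]
      simp
    · rfl
  · refine (hP _ h0).subset ?_
    rintro ν ⟨h1, h2⟩
    refine ⟨h1, fun h3 => h2 ?_⟩
    unfold CF3_e
    split_ifs
    · rw [h3]
      simp
    · rfl

private theorem CF3_isDiv_sum {P : Set (DVal L)} {κ : Type} (s : Finset κ)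
    (e : κ → DVal L → ℤ) (h : ∀ k ∈ s, IsDiv P (e k)) : IsDiv P (fun ν => ∑ k ∈ s, e k ν) := by
  classical
  refine (Set.Finite.biUnion s.finite_toSet fun k hk => h k hk).subset ?_
  rintro ν ⟨h1, h2⟩
  obtain ⟨k, hk, h3⟩ := Finset.exists_ne_zero_of_sum_ne_zero h2
  exact Set.mem_biUnion hk ⟨h1, h3⟩

private theorem CF3_single {κ : Type} [Fintype κ] (f : κ → ℤ) (h : ∀ k, 0 ≤ f k) (k : κ) :
    f k ≤ ∑ k, f k := Finset.single_le_sum (fun k _ => h k) (Finset.mem_univ k)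

private theorem CF3_adj {ι : Type} (g : ι → L) (D : Derivation ℂ L L) (i : ι) (ν : DVal L)
    (hi : crd g i ≤ ν.ring) (s : L) (hs : ∀ j, s * D (g j / g i) ∈ ν.ring) :
    ∀ u ∈ crd g i, s * D u ∈ ν.ring := by
  intro u hu
  unfold crd at hu
  induction hu using Algebra.adjoin_induction with
  | mem x hx =>
    obtain ⟨j, rfl⟩ := hx
    exact hs j
  | algebraMap r =>
    rw [Derivation.map_algebraMap, mul_zero]
    exact ν.ring.zero_mem
  | add x y hx hy h1 h2 =>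
    rw [map_add, mul_add]
    exact ν.ring.add_mem h1 h2
  | mul x y hx hy h1 h2 =>
    rw [Derivation.leibniz, smul_eq_mul, smul_eq_mul]
    have h3 : s * (x * D y + y * D x) = x * (s * D y) + y * (s * D x) := by ring
    rw [h3]
    exact ν.ring.add_mem (ν.ring.mul_mem (hi hx) h2) (ν.ring.mul_mem (hi hy) h1)

private theorem CF3_quot (D : Derivation ℂ L L) (ν : DVal L) (s z u v : L) (hv : v ≠ 0)
    (hz : z = u / v) (hzν : z ∈ ν.ring) (hvν : v⁻¹ ∈ ν.ring) (h1 : s * D u ∈ ν.ring)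
    (h2 : s * D v ∈ ν.ring) : s * D z ∈ ν.ring := by
  have h3 : v * z = u := by rw [hz]; field_simp
  have h4 : D u = v * D z + z * D v := by
    rw [← h3, Derivation.leibniz, smul_eq_mul, smul_eq_mul]
  have h5 : s * D z = v⁻¹ * (s * D u) - v⁻¹ * z * (s * D v) := by
    rw [h4]
    field_simp
    ring
  rw [h5]
  exact ν.ring.sub_mem (ν.ring.mul_mem hvν h1) (ν.ring.mul_mem (ν.ring.mul_mem hvν hzν) h2)

theorem exists_t {B : DVal L} (hB : B ∈ X.S.prm) {D₁ D₂ : Derivation ℂ L L}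
    (hpres : ∀ z ∈ B.ring, D₁ z ∈ B.ring ∧ D₂ z ∈ B.ring) : ∃ (N₁ : ℕ) (t : L), t ≠ 0 ∧
      t ∈ sec X.S.prm (fun ν => N₁ * hyp X.g ν) ∧ B.ord t + N₁ * hyp X.g B = 0 ∧
      ∀ z₀ ∈ X.S.pts, ∀ f, LocEqn X.S.prm z₀ (fun ν => N₁ * hyp X.g ν) f → ∀ z ∈ z₀,
        t * f * D₁ z ∈ z₀ ∧ t * f * D₂ z ∈ z₀ := by
  classical
  have := X.fin
  have : Fintype X.ι := Fintype.ofFinite X.ι
  obtain ⟨E, hE⟩ : ∃ E : DVal L → ℤ, ∀ ν, E ν =
      (∑ p : X.ι × X.ι, CF3_e X.g D₁ p.1 p.2 ν) + ∑ p : X.ι × X.ι, CF3_e X.g D₂ p.1 p.2 ν :=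
    ⟨_, fun _ => rfl⟩
  have hEdiv : IsDiv X.S.prm E := by
    have h1 := CF3_isDiv_sum (P := X.S.prm) Finset.univ
      (fun (p : X.ι × X.ι) ν => CF3_e X.g D₁ p.1 p.2 ν)
      (fun p _ => CF3_e_isDiv X.S.finDiv X.g D₁ p.1 p.2)
    have h2 := CF3_isDiv_sum (P := X.S.prm) Finset.univ
      (fun (p : X.ι × X.ι) ν => CF3_e X.g D₂ p.1 p.2 ν)
      (fun p _ => CF3_e_isDiv X.S.finDiv X.g D₂ p.1 p.2)
    exact (h1.add h2).congr fun ν _ => (hE ν).symm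
  have hE0 : ∀ ν ∈ X.S.prm, 0 ≤ E ν := fun ν _ => by
    rw [hE]
    exact add_nonneg (Finset.sum_nonneg fun p _ => CF3_e_nonneg _ _ _ _ _)
      (Finset.sum_nonneg fun p _ => CF3_e_nonneg _ _ _ _ _)
  have hEB : E B = 0 := by
    have h1 : ∑ p : X.ι × X.ι, CF3_e X.g D₁ p.1 p.2 B = 0 :=
      Finset.sum_eq_zero fun p _ => CF3_e_zero _ _ _ _ _ fun z hz => (hpres z hz).1
    have h2 : ∑ p : X.ι × X.ι, CF3_e X.g D₂ p.1 p.2 B = 0 :=
      Finset.sum_eq_zero fun p _ => CF3_e_zero _ _ _ _ _ fun z hz => (hpres z hz).2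
    rw [hE, h1, h2, add_zero]
  have hE1 : ∀ ν, ∀ i j, crd X.g i ≤ ν.ring → - ν.ord (D₁ (X.g j / X.g i)) ≤ E ν := by
    intro ν i j h
    have h1 := CF3_e_ge X.g D₁ i j ν h
    have h2 : CF3_e X.g D₁ i j ν ≤ ∑ p : X.ι × X.ι, CF3_e X.g D₁ p.1 p.2 ν :=
      CF3_single (fun p : X.ι × X.ι => CF3_e X.g D₁ p.1 p.2 ν)
        (fun p => CF3_e_nonneg X.g D₁ p.1 p.2 ν) (i, j)
    have h3 : 0 ≤ ∑ p : X.ι × X.ι, CF3_e X.g D₂ p.1 p.2 ν :=
      Finset.sum_nonneg fun p _ => CF3_e_nonneg _ _ _ _ _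
    rw [hE]
    omega
  have hE2 : ∀ ν, ∀ i j, crd X.g i ≤ ν.ring → - ν.ord (D₂ (X.g j / X.g i)) ≤ E ν := by
    intro ν i j h
    have h1 := CF3_e_ge X.g D₂ i j ν h
    have h2 : CF3_e X.g D₂ i j ν ≤ ∑ p : X.ι × X.ι, CF3_e X.g D₂ p.1 p.2 ν :=
      CF3_single (fun p : X.ι × X.ι => CF3_e X.g D₂ p.1 p.2 ν)
        (fun p => CF3_e_nonneg X.g D₂ p.1 p.2 ν) (i, j)
    have h3 : 0 ≤ ∑ p : X.ι × X.ι, CF3_e X.g D₁ p.1 p.2 ν :=
      Finset.sum_nonneg fun p _ => CF3_e_nonneg _ _ _ _ _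
    rw [hE]
    omega
  obtain ⟨k₀, hk⟩ := exists_pole hEdiv hE0 hB hEB X.isDiv_hyp X.cl_hyp
  obtain ⟨t, ht0, ht1, ht2⟩ := hk k₀ le_rfl
  have key : ∀ D : Derivation ℂ L L,
      (∀ ν, ∀ i j, crd X.g i ≤ ν.ring → - ν.ord (D (X.g j / X.g i)) ≤ E ν) →
      ∀ z₀ ∈ X.S.pts, ∀ f, LocEqn X.S.prm z₀ (fun ν => k₀ * hyp X.g ν) f → ∀ z ∈ z₀,
        t * f * D z ∈ z₀ := by
    intro D hD z₀ hz₀ f hf z hz
    obtain ⟨i, hi, hgen⟩ := X.gen z₀ hz₀
    obtain ⟨u, hu, v, hv, hv0, hvi, hzuv⟩ := hgen z hz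
    rw [(X.S.pt hz₀).mem_iff]
    intro ν hν hxν
    have hiν : crd X.g i ≤ ν.ring := hi.trans hxν
    have hs : ∀ j, (t * f) * D (X.g j / X.g i) ∈ ν.ring := by
      intro j
      by_cases h0 : D (X.g j / X.g i) = 0
      · rw [h0, mul_zero]
        exact ν.ring.zero_mem
      · rw [mem_ring, ν.ord_mul _ _ (mul_ne_zero ht0 hf.1) h0, ν.ord_mul _ _ ht0 hf.1,
          hf.2 ν hν hxν]
        have h1 := ht1 ν hν
        have h2 := hD ν i j hiν
        linarith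
    exact mem_ring.1 (CF3_quot D ν (t * f) z u v hv0 hzuv (hxν hz) (hxν hvi)
      (CF3_adj X.g D i ν hiν _ hs u hu) (CF3_adj X.g D i ν hiν _ hs v hv))
  refine ⟨k₀, t, ht0, ?_, ht2, fun z₀ hz₀ f hf z hz =>
    ⟨key D₁ hE1 z₀ hz₀ f hf z hz, key D₂ hE2 z₀ hz₀ f hf z hz⟩⟩
  intro ν hν _
  exact (hE0 ν hν).trans (ht1 ν hν)

private theorem CF3_mono {N M : ℕ} (h : N ≤ M) {z : L}
    (hz : z ∈ sec X.S.prm (fun ν => N * hyp X.g ν)) :
    z ∈ sec X.S.prm (fun ν => M * hyp X.g ν) := by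
  intro ν hν h0
  have h1 := hz ν hν h0
  have h2 := X.hyp_nonneg ν
  have h3 : (N : ℤ) * hyp X.g ν ≤ (M : ℤ) * hyp X.g ν :=
    mul_le_mul_of_nonneg_right (by exact_mod_cast h) h2
  change 0 ≤ ν.ord z + (N : ℤ) * hyp X.g ν at h1
  change 0 ≤ ν.ord z + (M : ℤ) * hyp X.g ν
  linarith

private theorem CF3_mul {N M : ℕ} {z w : L}
    (hz : z ∈ sec X.S.prm (fun ν => N * hyp X.g ν))
    (hw : w ∈ sec X.S.prm (fun ν => M * hyp X.g ν)) :
    z * w ∈ sec X.S.prm (fun ν => (N + M : ℕ) * hyp X.g ν) := by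
  intro ν hν h0
  have hz0 : z ≠ 0 := left_ne_zero_of_mul h0
  have hw0 : w ≠ 0 := right_ne_zero_of_mul h0
  have h1 := hz ν hν hz0
  have h2 := hw ν hν hw0
  change 0 ≤ ν.ord z + (N : ℤ) * hyp X.g ν at h1
  change 0 ≤ ν.ord w + (M : ℤ) * hyp X.g ν at h2
  rw [ν.ord_mul _ _ hz0 hw0]
  push_cast
  rw [add_mul]
  linarith

private theorem CF3_chart {i : X.ι} (hi : X.g i = 1) :
    ∀ z ∈ crd X.g i, ∃ N : ℕ, z ∈ sec X.S.prm (fun ν => N * hyp X.g ν) := by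
  intro z hz
  have := X.fin
  unfold crd at hz
  induction hz using Algebra.adjoin_induction with
  | mem x hx =>
    obtain ⟨j, rfl⟩ := hx
    refine ⟨1, ?_⟩
    intro ν hν _
    change 0 ≤ ν.ord (X.g j / X.g i) + ((1 : ℕ) : ℤ) * hyp X.g ν
    rw [hi, div_one]
    have h1 : ⨅ i, ν.ord (X.g i) ≤ ν.ord (X.g j) := ciInf_le (Set.finite_range _).bddBelow j
    unfold hyp
    push_cast
    linarith
  | algebraMap r =>
    refine ⟨0, ?_⟩
    intro ν hν _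
    change 0 ≤ ν.ord (algebraMap ℂ L r) + ((0 : ℕ) : ℤ) * hyp X.g ν
    rw [ν.ord_const]
    simp
  | add x y hx hy h1 h2 =>
    obtain ⟨N, hN⟩ := h1
    obtain ⟨M, hM⟩ := h2
    exact ⟨max N M, Submodule.add_mem _ (CF3_mono X (le_max_left _ _) hN)
      (CF3_mono X (le_max_right _ _) hM)⟩
  | mul x y hx hy h1 h2 =>
    obtain ⟨N, hN⟩ := h1
    obtain ⟨M, hM⟩ := h2
    exact ⟨N + M, CF3_mul X hN hM⟩

theorem exists_PQ (x y : L) : ∃ (N : ℕ) (P₁ P₂ Q : L), Q ≠ 0 ∧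
    P₁ ∈ sec X.S.prm (fun ν => N * hyp X.g ν) ∧ P₂ ∈ sec X.S.prm (fun ν => N * hyp X.g ν) ∧
    Q ∈ sec X.S.prm (fun ν => N * hyp X.g ν) ∧ x = P₁ / Q ∧ y = P₂ / Q := by
  obtain ⟨i, hi⟩ := X.one
  obtain ⟨u, hu, v, hv, hv0, hx⟩ := X.frac i x
  obtain ⟨u', hu', v', hv', hv0', hy⟩ := X.frac i y
  obtain ⟨N₁, h1⟩ := CF3_chart X hi _ ((crd X.g i).mul_mem hu hv')
  obtain ⟨N₂, h2⟩ := CF3_chart X hi _ ((crd X.g i).mul_mem hu' hv)
  obtain ⟨N₃, h3⟩ := CF3_chart X hi _ ((crd X.g i).mul_mem hv hv')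
  refine ⟨max N₁ (max N₂ N₃), u * v', u' * v, v * v', mul_ne_zero hv0 hv0',
    CF3_mono X (le_max_left _ _) h1,
    CF3_mono X ((le_max_left _ _).trans (le_max_right _ _)) h2,
    CF3_mono X ((le_max_right _ _).trans (le_max_right _ _)) h3, ?_, ?_⟩
  · rw [hx]
    field_simp
  · rw [hy]
    field_simp

end Pool.Agent.LibK3P
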