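import Pool.Agent.LibK3.CF1
import Pool.Agent.LibK3.CF2
import Pool.Agent.LibK3.CH0
import Pool.Agent.LibK3P.CF0
import Pool.Agent.LibK3P.CF3
import Pool.Agent.LibK3P.CH3

/-! ROW CF4 (block C of K3): existence of the data, general position. 35 min.
PLAN. `exists_cdat`: CF1 (`exists_w`, `ind_of_residue`, `B.exists_ord_one`), `exists_dual` (`X.S.dim`), CF2 for `D₁`, `D₂`
(`1, 0 ∈ B.ring`), CF3. `exists_good`: `T` = the union of `{B}`, the finite sets `{ν ∈ prm | ν.ord f ≠ 0}` (`X.S.finDiv`) for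
`f = b, w, t, (γ^r) x, (γ^r) y, (γ^r) Q` (all nonzero: `b, w` from `ind` (`AlgebraicIndependent.ne_zero`), `x, y` from `hxy`;
`γ^r` is injective), `{ν ∈ prm | hyp ν ≠ 0}` (`X.isDiv_hyp`), `{ν ∈ prm | H r ν ≠ 0}` (`X.isDiv_H`), and the set of `chain_rule X d.ind`. -/

set_option autoImplicit false

open Pool.Agent.LibGMM Pool.Agent.LibK Pool.Agent.LibKB
open Pool.Agent.LibLB (PSurf RLR)
open Pool.Agent.LibCov80 (Over)

open Pool.Agent.LibK3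

namespace Pool.Agent.LibK3P

variable {L : Type} [Field L] [Algebra ℂ L] (X : Sys0 L)

theorem exists_cdat {B : DVal L} (hB : B ∈ X.S.prm) (x y : L) : Nonempty (CDat X B x y) := by
  obtain ⟨b, hb⟩ := B.exists_ord_one
  obtain ⟨w, hw', hw⟩ := exists_w hB
  have hind := ind_of_residue hb hw
  obtain ⟨D₁, D₂, h1, h2, h3, h4⟩ := exists_dual X.S.dim hind
  have p1 := pres_of_residue hB hb hw' hw D₁ (by rw [h1]; exact one_mem _)
    (by rw [h2]; exact zero_mem _)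
  have p2 := pres_of_residue hB hb hw' hw D₂ (by rw [h3]; exact zero_mem _)
    (by rw [h4]; exact one_mem _)
  obtain ⟨N₁, t, t1, t2, t3, t4⟩ := exists_t X hB (fun z hz => ⟨p1 z hz, p2 z hz⟩)
  obtain ⟨N, P₁, P₂, Q, q1, q2, q3, q4, q5, q6⟩ := exists_PQ X x y
  exact ⟨{ b := b, w := w, D₁ := D₁, D₂ := D₂, N₁ := N₁, t := t, N := N, P₁ := P₁, P₂ := P₂,
           Q := Q, ordb := hb, memw := hw', ind := hind, D₁b := h1, D₁w := h2, D₂b := h3,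
           D₂w := h4, pres := fun z hz => ⟨p1 z hz, p2 z hz⟩, t_ne := t1, t_sec := t2,
           t_B := t3, t_pres := t4, Q_ne := q1, P₁_sec := q2, P₂_sec := q3, Q_sec := q4,
           hx := q5, hy := q6 }⟩

private theorem CF4_fin (S : PSurf L) {f : L} (hf : f ≠ 0) :
    {ν : DVal L | ν ∈ S.prm ∧ ν.ord f ≠ 0}.Finite := S.finDiv f hf

theorem CDat.exists_good {X : Sys0 L} {B : DVal L} {x y : L} (d : CDat X B x y)
    (hxy : AlgebraicIndependent ℂ ![x, y]) (r : ℤ) : ∃ T : Set (DVal L), T.Finite ∧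
      ∀ C : RC L, C.ν ∈ X.S.prm → C.ν ∉ T → d.Good r C := by
  have hx0 : x ≠ 0 := by simpa using hxy.ne_zero 0
  have hy0 : y ≠ 0 := by simpa using hxy.ne_zero 1
  have hb0 : d.b ≠ 0 := by simpa using d.ind.ne_zero 0
  have hw0 : d.w ≠ 0 := by simpa using d.ind.ne_zero 1
  have hg : ∀ z : L, z ≠ 0 → (X.γ ^ r) z ≠ 0 := fun z hz => by
    rw [Ne, map_eq_zero_iff _ (X.γ ^ r).injective]
    exact hz
  obtain ⟨T₀, hT₀, hch⟩ := chain_rule X d.ind d.D₁b d.D₁w d.D₂b d.D₂w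
  have f1 := CF4_fin X.S hb0
  have f2 := CF4_fin X.S hw0
  have f3 := CF4_fin X.S d.t_ne
  have f4 := CF4_fin X.S (hg x hx0)
  have f5 := CF4_fin X.S (hg y hy0)
  have f6 := CF4_fin X.S (hg d.Q d.Q_ne)
  have f7 : {ν : DVal L | ν ∈ X.S.prm ∧ LibK3.hyp X.g ν ≠ 0}.Finite := X.isDiv_hyp
  have f8 : {ν : DVal L | ν ∈ X.S.prm ∧ X.H r ν ≠ 0}.Finite := X.isDiv_H r
  refine ⟨{B} ∪ T₀ ∪ {ν : DVal L | ν ∈ X.S.prm ∧ ν.ord d.b ≠ 0} ∪
    {ν : DVal L | ν ∈ X.S.prm ∧ ν.ord d.w ≠ 0} ∪ {ν : DVal L | ν ∈ X.S.prm ∧ ν.ord d.t ≠ 0} ∪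
    {ν : DVal L | ν ∈ X.S.prm ∧ ν.ord ((X.γ ^ r) x) ≠ 0} ∪
    {ν : DVal L | ν ∈ X.S.prm ∧ ν.ord ((X.γ ^ r) y) ≠ 0} ∪
    {ν : DVal L | ν ∈ X.S.prm ∧ ν.ord ((X.γ ^ r) d.Q) ≠ 0} ∪
    {ν : DVal L | ν ∈ X.S.prm ∧ LibK3.hyp X.g ν ≠ 0} ∪
    {ν : DVal L | ν ∈ X.S.prm ∧ X.H r ν ≠ 0},
    ((((((((((Set.finite_singleton B).union hT₀).union f1).union f2).union f3).union f4).union
      f5).union f6).union f7).union f8), ?_⟩
  intro C hC hCT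
  simp only [Set.mem_union, Set.mem_singleton_iff, Set.mem_ofPred_eq, not_or, not_and, not_not]
    at hCT
  obtain ⟨⟨⟨⟨⟨⟨⟨⟨⟨c1, c2⟩, c3⟩, c4⟩, c5⟩, c6⟩, c7⟩, c8⟩, c9⟩, c10⟩ := hCT
  obtain ⟨-, -, e3, e4⟩ := hch C hC c2
  exact { mem := hC, ne := c1, ordb := c3 hC, ordw := c4 hC, ordt := c5 hC, hyp := c9 hC,
          Hr := c10 hC, ordx := c6 hC, ordy := c7 hC, ordQ := c8 hC, pres := e3, chain := e4 }

end Pool.Agent.LibK3P
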