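import Pool.Agent.LibK3P.CF5
import Pool.Agent.LibK3P.P05

/-! ROW CF6 (block C of K3): `th` is a section of `Dv`; it is linear in `a`. 30 min.
PLAN. `th_sec`: let `ν ∈ prm`, `th ≠ 0`. Take a point `z₀ ≤ ν.ring` (`X.S.infPts`), local equations `f` of `N₁ hyp` and `h` of
`H r` at `z₀` (`(X.S.pt hz₀).exists_loc`, `isDiv_H`, `X.isDiv_hyp` with `IsDiv.zsmul`). With `c = t * f`: `D₂`, `hD` from
`d.t_pres`: `loc_der` and `loc_coef` and `bfm_scale`, `bfm_mem`: `(t f) ^ n * h ^ (n (2 N + 1)) * bfm .. ∈ z₀ ≤ ν.ring`. Its order is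
`ν.ord th + n N₁ hyp ν + n (2 N + 1) H r ν`. `th_local` is the same statement kept as a membership.
`th_add`, `th_smul`: `bfm` is linear in `a` and `γ^r` is `ℂ`-linear (`map_add`, `map_smul`, `Algebra.smul_def`). -/

set_option autoImplicit false

open Pool.Agent.LibGMM Pool.Agent.LibK Pool.Agent.LibKB
open Pool.Agent.LibLB (PSurf RLR)
open Pool.Agent.LibCov80 (Over)

open Pool.Agent.LibK3

namespace Pool.Agent.LibK3P

variable {L : Type} [Field L] [Algebra ℂ L] {X : Sys0 L} {B : DVal L} {x y : L} (d : CDat X B x y)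

theorem CDat.th_local (r : ℤ) (n : ℕ) {a : Fin (n + 1) → L}
    (ha : ∀ k, a k ∈ sec X.S.prm fun ν => n * hyp X.g ν) {z₀ : Subalgebra ℂ L}
    (hz₀ : z₀ ∈ X.S.pts) {f h : L} (hf : LocEqn X.S.prm z₀ (fun ν => d.N₁ * hyp X.g ν) f)
    (hh : LocEqn X.S.prm z₀ (X.H r) h) :
    f ^ n * h ^ (n * (2 * d.N + 1)) * d.th r n a ∈ z₀ := by
  have hD : ∀ z ∈ z₀, d.t * f * d.D₂ z ∈ z₀ := fun z hz => (d.t_pres z₀ hz₀ f hf z hz).2
  have h1 := d.loc_der r hz₀ hh hD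
  have h2 := bfm_mem (n := n) (fun k => loc_coef (ha k) r hz₀ hh) h1.1 h1.2
  rw [← d.bfm_scale r n a (d.t * f) h] at h2
  have h3 : f ^ n * h ^ (n * (2 * d.N + 1)) * d.th r n a =
      (d.t * f) ^ n * h ^ (n * (2 * d.N + 1)) *
        bfm n (d.coef r n a) (d.D₂ ((X.γ ^ r) x)) (d.D₂ ((X.γ ^ r) y)) := by
    unfold CDat.th
    rw [mul_pow]
    ring
  rw [h3]
  exact h2

theorem CDat.th_sec (r : ℤ) (n : ℕ) {a : Fin (n + 1) → L}
    (ha : ∀ k, a k ∈ sec X.S.prm fun ν => n * hyp X.g ν) :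
    d.th r n a ∈ sec X.S.prm (d.Dv r n) := by
  intro ν hν h0
  obtain ⟨z₀, hz₀, hle⟩ := (X.S.infPts ν hν).nonempty
  obtain ⟨f, hf⟩ := (X.S.pt hz₀).exists_loc (X.isDiv_hyp.zsmul (d.N₁ : ℤ))
  obtain ⟨h, hh⟩ := (X.S.pt hz₀).exists_loc (X.isDiv_H r)
  have h1 : 0 ≤ ν.ord (f ^ n * h ^ (n * (2 * d.N + 1)) * d.th r n a) :=
    hle (d.th_local r n ha hz₀ hf hh)
  rw [ν.ord_mul _ _ (mul_ne_zero (pow_ne_zero _ hf.1) (pow_ne_zero _ hh.1)) h0,
    ν.ord_mul _ _ (pow_ne_zero _ hf.1) (pow_ne_zero _ hh.1), ord_pow ν hf.1, ord_pow ν hh.1,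
    hf.2 ν hν hle, hh.2 ν hν hle] at h1
  have h2 : d.Dv r n ν = (n : ℤ) * (d.N₁ * hyp X.g ν) +
      ((n * (2 * d.N + 1) : ℕ) : ℤ) * X.H r ν := by
    unfold CDat.Dv
    push_cast
    ring
  rw [h2]
  linarith

theorem CDat.th_add (r : ℤ) (n : ℕ) (a a' : Fin (n + 1) → L) :
    d.th r n (a + a') = d.th r n a + d.th r n a' := by
  unfold CDat.th
  rw [← mul_add]
  congr 1
  unfold bfm
  rw [← Finset.sum_add_distrib]
  refine Finset.sum_congr rfl fun k _ => ?_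
  simp only [CDat.coef, Pi.add_apply, add_mul, map_add]

theorem CDat.th_smul (r : ℤ) (n : ℕ) (c : ℂ) (a : Fin (n + 1) → L) :
    d.th r n (c • a) = c • d.th r n a := by
  unfold CDat.th
  rw [← mul_smul_comm]
  congr 1
  unfold bfm
  rw [Finset.smul_sum]
  refine Finset.sum_congr rfl fun k _ => ?_
  simp only [CDat.coef, Pi.smul_apply, smul_mul_assoc, map_smul]

end Pool.Agent.LibK3P
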