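import Pool.Agent.LibK3P.All
import Pool.Agent.LibK3P.CF6
import Pool.Agent.LibCUR2.Geo

/-! ROW CF7 (block C of K3): a form which vanishes along `B`. 50 min, STRONG.
PLAN. Let `V = sec (n hyp)` (finite dimensional: `X.S.finSec`), `W = sec (Dv r n)`, `W' = sec (Dv - prd B)`. The linear map
`(Fin (n + 1) → V) → W / W'` (`th_add`, `th_smul`, `th_sec`; `W' ≤ W` seen in `L`: use the restriction to `V`-valued `a` and the quotient
`L ⧸ W'` or a count of dimensions) has a nonzero kernel if `(n + 1) * dim V > dim W - dim W'`.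
`dim W - dim W' ≤ max 0 (form(cl Dv, B) + 1)`: `LibCUR2.C1`, `LibCUR2.C2` (`LibCUR2.h0_sub` for `h0 (D - prd B)`,
`PSurf.hh_cl`), and `cl (Dv r n) = (n N₁) • A + (n (2 N + 1)) • α r` (`clOf_add`, `clOf_zsmul`, `X.cl_hyp`, `Sys.α`), so
`form ≤ n (N₁ form(A, B) + (2 N + 1) C λ^r)` (`X.growth hB`, `|r| = r`) `≤ C₁ n λ^r` for `r ≥ 0`.
`dim V = h0 (n hyp)`: `X.S.serre 0` with `cl = n • A + 0`: `2 dim V = 2 χ + form(n A, n A - K) ≥ n ^ 2 A^2 - n |A K| + 2 χ ≥ n ^ 2 / 2` for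
`n ≥ n₀` (`X.S.A_sq`), so `(n + 1) dim V ≥ n ^ 3 / 4`. Choose `n = ⌈K₀ λ^(r / 2)⌉₊` with `K₀ ^ 2 / 4 ≥ 2 (C₁ + 1)`: then
`n ^ 3 / 4 > C₁ n λ^r + 1`, `n ≥ n₀` for `r ≥ r₀` (`λ > 1`), `n ≤ (K₀ + 1) λ^(r / 2)`. Here `λ^(r/2)` is the real power
`X.lam ^ ((r : ℝ) / 2)` with square `X.lam ^ r`. -/

set_option autoImplicit false

open Pool.Agent.LibGMM Pool.Agent.LibK Pool.Agent.LibKB
open Pool.Agent.LibLB (PSurf RLR)
open Pool.Agent.LibCov80 (Over)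

open Pool.Agent.LibK3

namespace Pool.Agent.LibK3P

variable {L : Type} [Field L] [Algebra ℂ L] {X : Sys0 L} {B : DVal L} {x y : L} (d : CDat X B x y)

/-- A nonzero vector with image in a large subspace. -/
private theorem CF7_ker {V W : Type} [AddCommGroup V] [Module ℂ V] [AddCommGroup W] [Module ℂ W]
    [Module.Finite ℂ V] [Module.Finite ℂ W] (T : V →ₗ[ℂ] W) (W' : Submodule ℂ W)
    (h : Module.finrank ℂ W < Module.finrank ℂ V + Module.finrank ℂ W') :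
    ∃ v : V, v ≠ 0 ∧ T v ∈ W' := by
  by_contra hcon
  push Not at hcon
  have h1 : Function.Injective (W'.mkQ ∘ₗ T) := by
    rw [← LinearMap.ker_eq_bot, LinearMap.ker_eq_bot']
    intro v hv
    by_contra h0
    refine hcon v h0 ?_
    rw [LinearMap.comp_apply, Submodule.mkQ_apply, Submodule.Quotient.mk_eq_zero] at hv
    exact hv
  have h2 := LinearMap.finrank_le_finrank_of_injective h1
  have h3 := Submodule.finrank_quotient_add_finrank W'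
  omega

/-- The linear map `a ↦ th a`. -/
private noncomputable def CF7_T (r : ℤ) (n : ℕ) :
    (Fin (n + 1) → sec X.S.prm fun ν => n * hyp X.g ν) →ₗ[ℂ] sec X.S.prm (d.Dv r n) where
  toFun a := ⟨d.th r n fun k => (a k : L), d.th_sec r n fun k => (a k).2⟩
  map_add' a a' := Subtype.ext (d.th_add r n (fun k => (a k : L)) fun k => (a' k : L))
  map_smul' c a := Subtype.ext (d.th_smul r n c fun k => (a k : L))

private theorem CF7_exists (r : ℤ) (n : ℕ)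
    (h : h0 X.S.prm (d.Dv r n) < (n + 1) * h0 X.S.prm (fun ν => n * hyp X.g ν) +
      h0 X.S.prm (fun ν => d.Dv r n ν - prd B ν)) :
    ∃ a : Fin (n + 1) → L, a ≠ 0 ∧ (∀ k, a k ∈ sec X.S.prm fun ν => n * hyp X.g ν) ∧
      d.th r n a ∈ sec X.S.prm fun ν => d.Dv r n ν - prd B ν := by
  have hdD : IsDiv X.S.prm (d.Dv r n) :=
    (X.isDiv_hyp.zsmul _).add ((X.isDiv_H r).zsmul _)
  have hdV : IsDiv X.S.prm (fun ν => (n : ℤ) * hyp X.g ν) := X.isDiv_hyp.zsmul _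
  haveI : Module.Finite ℂ (sec X.S.prm (d.Dv r n)) := X.S.finSec _ hdD
  haveI : Module.Finite ℂ (sec X.S.prm fun ν => (n : ℤ) * hyp X.g ν) := X.S.finSec _ hdV
  have hle : (sec X.S.prm fun ν => d.Dv r n ν - prd B ν) ≤ sec X.S.prm (d.Dv r n) :=
    sec_mono fun ν _ => by
      have := prd_nonneg B ν
      omega
  obtain ⟨v, hv, hT⟩ := CF7_ker (CF7_T d r n)
    ((sec X.S.prm fun ν => d.Dv r n ν - prd B ν).comap (sec X.S.prm (d.Dv r n)).subtype) (by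
      rw [(Submodule.comapSubtypeEquivOfLe hle).finrank_eq, Module.finrank_pi_fintype,
        Finset.sum_const, Finset.card_univ, Fintype.card_fin, smul_eq_mul]
      exact h)
  refine ⟨fun k => (v k : L), fun h0 => hv ?_, fun k => (v k).2, hT⟩
  funext k
  exact Subtype.ext (congrFun h0 k)

private theorem CF7_Dv (hB : B ∈ X.S.prm) (r : ℤ) (n : ℕ) :
    (h0 X.S.prm (d.Dv r n) : ℤ) ≤ h0 X.S.prm (fun ν => d.Dv r n ν - prd B ν) +
      (n * d.N₁ * X.S.form X.S.A (X.S.cls B) +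
        n * (2 * d.N + 1) * X.S.form (X.α r) (X.S.cls B)) + 1 := by
  have hdD : IsDiv X.S.prm (d.Dv r n) :=
    (X.isDiv_hyp.zsmul _).add ((X.isDiv_H r).zsmul _)
  have hdE : IsDiv X.S.prm (fun ν => d.Dv r n ν - prd B ν) := by
    have h1 := hdD.add (isDiv_prd B (P := X.S.prm)).neg
    exact h1.congr fun ν _ => (sub_eq_add_neg _ _).symm
  have hcl : X.S.cl (d.Dv r n) = ((n : ℤ) * d.N₁) • X.S.A + ((n : ℤ) * (2 * d.N + 1)) • X.α r := by
    have h1 : X.S.cl (d.Dv r n) = X.S.cl (fun ν => ((n : ℤ) * d.N₁) * hyp X.g ν) +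
        X.S.cl (fun ν => ((n : ℤ) * (2 * d.N + 1)) * X.H r ν) :=
      LibLB.clOf_add (X.isDiv_hyp.zsmul _) ((X.isDiv_H r).zsmul _)
    have h2 : X.S.cl (fun ν => ((n : ℤ) * d.N₁) * hyp X.g ν) =
        ((n : ℤ) * d.N₁) • X.S.cl (hyp X.g) := LibLB.clOf_zsmul _ X.isDiv_hyp
    have h3 : X.S.cl (fun ν => ((n : ℤ) * (2 * d.N + 1)) * X.H r ν) =
        ((n : ℤ) * (2 * d.N + 1)) • X.S.cl (X.H r) := LibLB.clOf_zsmul _ (X.isDiv_H r)
    rw [h1, h2, h3, X.cl_hyp]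
    rfl
  have hsub : X.S.cl (fun ν => d.Dv r n ν - prd B ν) = X.S.cl (d.Dv r n) - X.S.cls B := by
    have h1 : X.S.cl (fun ν => d.Dv r n ν - prd B ν) = X.S.cl (d.Dv r n) - X.S.cl (prd B) :=
      LibCUR2.cl_sub X.S hdD (isDiv_prd B)
    have h2 : X.S.cl (prd B) = X.S.cls B := LibLB.clOf_prd hB
    rw [h1, h2]
  have hform : X.S.form (X.S.cl (d.Dv r n)) (X.S.cls B) =
      n * d.N₁ * X.S.form X.S.A (X.S.cls B) +
        n * (2 * d.N + 1) * X.S.form (X.α r) (X.S.cls B) := by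
    rw [hcl]
    simp only [map_add, map_zsmul, LinearMap.add_apply, LinearMap.smul_apply, smul_eq_mul]
  have hA : 1 ≤ X.S.form X.S.A (X.S.cls B) := by
    have h1 := X.form_α_pos 0 hB
    rwa [X.α_zero] at h1
  have hr := X.form_α_pos r hB
  have hpos : 0 ≤ X.S.form (X.S.cl (d.Dv r n)) (X.S.cls B) := by
    rw [hform]
    positivity
  have key := (LibCUR2.curve X.S hB).2.2.2.1 _ hpos
  rw [← hsub, LibLB.PSurf.hh_cl hdE, LibLB.PSurf.hh_cl hdD, hform] at key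
  exact key

private theorem CF7_V (X : Sys0 L) : ∃ n₁ : ℕ, ∀ n : ℕ, n₁ ≤ n →
    (n : ℤ) ^ 2 ≤ 4 * (h0 X.S.prm (fun ν => n * hyp X.g ν) : ℤ) := by
  obtain ⟨k₀, hk⟩ := LibCUR2.hh_serre X.S 0
  refine ⟨k₀ + 2 * (X.S.form X.S.A X.S.K).natAbs + 4 * X.S.chi0.natAbs + 1, fun n hn => ?_⟩
  have h1 := hk n (by omega)
  have hcl : X.S.cl (fun ν => (n : ℤ) * hyp X.g ν) = n • X.S.A + 0 := by
    have h2 : X.S.cl (fun ν => (n : ℤ) * hyp X.g ν) = (n : ℤ) • X.S.cl (hyp X.g) :=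
      LibLB.clOf_zsmul _ X.isDiv_hyp
    rw [h2, X.cl_hyp, add_zero, natCast_zsmul]
  have h3 : X.S.hh (n • X.S.A + 0) = h0 X.S.prm (fun ν => (n : ℤ) * hyp X.g ν) := by
    rw [← hcl]
    exact LibLB.PSurf.hh_cl (X.isDiv_hyp.zsmul _)
  rw [h3] at h1
  have h4 : X.S.form (n • X.S.A + 0) (n • X.S.A + 0 - X.S.K) =
      (n : ℤ) ^ 2 * X.S.form X.S.A X.S.A - n * X.S.form X.S.A X.S.K := by
    simp only [add_zero, map_sub, map_nsmul, LinearMap.smul_apply, nsmul_eq_mul]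
    ring
  rw [h4] at h1
  have h5 := X.S.A_sq
  have h6 : X.S.form X.S.A X.S.K ≤ (X.S.form X.S.A X.S.K).natAbs := Int.le_natAbs
  have h7 : -((X.S.chi0.natAbs : ℕ) : ℤ) ≤ X.S.chi0 := by omega
  have h8 : (2 * (X.S.form X.S.A X.S.K).natAbs + 4 * X.S.chi0.natAbs + 1 : ℤ) ≤ n := by
    have : 2 * (X.S.form X.S.A X.S.K).natAbs + 4 * X.S.chi0.natAbs + 1 ≤ n := by omega
    exact_mod_cast this
  have h9 : (0 : ℤ) ≤ n := Int.natCast_nonneg _
  generalize X.S.form X.S.A X.S.A = a at *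
  generalize X.S.form X.S.A X.S.K = k at *
  generalize X.S.chi0 = χ at *
  have h10 : (n : ℤ) ^ 2 ≤ n ^ 2 * a := le_mul_of_one_le_right (by positivity) h5
  have h11 : (n : ℤ) * k ≤ n * k.natAbs := mul_le_mul_of_nonneg_left h6 h9
  have h12 : (n : ℤ) * (2 * k.natAbs + 4 * χ.natAbs + 1) ≤ n * n :=
    mul_le_mul_of_nonneg_left h8 h9
  have h13 : (χ.natAbs : ℤ) ≤ n * χ.natAbs := by
    have h14 : (1 : ℤ) ≤ n := by
      have h15 : (0 : ℤ) ≤ k.natAbs := Int.natCast_nonneg _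
      have h16 : (0 : ℤ) ≤ χ.natAbs := Int.natCast_nonneg _
      linarith
    exact le_mul_of_one_le_left (Int.natCast_nonneg _) h14
  nlinarith

theorem CDat.exists_a (hE : X.PosEnt) (hB : B ∈ X.S.prm) : ∃ (C' : ℝ) (r₀ : ℕ), 0 < C' ∧ ∀ r : ℕ, r₀ ≤ r →
    ∃ (n : ℕ) (a : Fin (n + 1) → L), 1 ≤ n ∧ (n : ℝ) ≤ C' * X.lam ^ ((r : ℝ) / 2) ∧ a ≠ 0 ∧
      (∀ k, a k ∈ sec X.S.prm fun ν => n * hyp X.g ν) ∧
      d.th r n a ∈ sec X.S.prm fun ν => d.Dv r n ν - prd B ν := by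
  obtain ⟨C, hC, hgr⟩ := X.growth_le hE hB
  obtain ⟨n₁, hn₁⟩ := CF7_V X
  have hlam := X.lam_gt
  have hlam0 : 0 < X.lam := by linarith
  have hA : 1 ≤ X.S.form X.S.A (X.S.cls B) := by
    have h1 := X.form_α_pos 0 hB
    rwa [X.α_zero] at h1
  have hA' : (0 : ℝ) ≤ X.S.form X.S.A (X.S.cls B) := by
    exact_mod_cast (zero_le_one.trans hA)
  obtain ⟨C₁, hC₁⟩ : ∃ C₁ : ℝ, C₁ = d.N₁ * X.S.form X.S.A (X.S.cls B) + (2 * d.N + 1) * C :=
    ⟨_, rfl⟩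
  have hC₁0 : 0 ≤ C₁ := by
    rw [hC₁]
    positivity
  have hs1 : 1 < X.lam ^ ((1 : ℝ) / 2) := Real.one_lt_rpow hlam (by norm_num)
  obtain ⟨r₀, hr₀⟩ := Filter.eventually_atTop.1
    ((tendsto_pow_atTop_atTop_of_one_lt hs1).eventually_ge_atTop (n₁ : ℝ))
  refine ⟨2 * (C₁ + 1) + 1, r₀, by linarith, fun r hr => ?_⟩
  obtain ⟨t, ht⟩ : ∃ t : ℝ, t = X.lam ^ ((r : ℝ) / 2) := ⟨_, rfl⟩
  rw [← ht]
  have ht1 : 1 ≤ t := by
    rw [ht]
    exact Real.one_le_rpow hlam.le (by positivity)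
  have htn : (n₁ : ℝ) ≤ t := by
    have h1 := hr₀ r hr
    rw [← Real.rpow_mul_natCast hlam0.le] at h1
    have h2 : (r : ℝ) / 2 = 1 / 2 * r := by ring
    rw [ht, h2]
    exact h1
  have ht2 : t ^ 2 = X.lam ^ r := by
    rw [ht, ← Real.rpow_natCast (X.lam ^ ((r : ℝ) / 2)) 2, ← Real.rpow_mul hlam0.le,
      ← Real.rpow_natCast X.lam r]
    congr 1
    push_cast
    ring
  obtain ⟨n, hn⟩ : ∃ n : ℕ, n = ⌈2 * (C₁ + 1) * t⌉₊ := ⟨_, rfl⟩
  have hlo : 2 * (C₁ + 1) * t ≤ n := by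
    rw [hn]
    exact Nat.le_ceil _
  have hup : (n : ℝ) ≤ (2 * (C₁ + 1) + 1) * t := by
    have h1 := Nat.ceil_lt_add_one (a := 2 * (C₁ + 1) * t) (by positivity)
    rw [← hn] at h1
    linarith
  have htn' : t ≤ n := by
    refine le_trans ?_ hlo
    have h1 : 0 ≤ C₁ * t := by positivity
    nlinarith
  have hn1 : (1 : ℝ) ≤ n := ht1.trans htn'
  have hnn : n₁ ≤ n := by exact_mod_cast htn.trans htn'
  have hlr : 1 ≤ X.lam ^ r := one_le_pow₀ hlam.le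
  have hv : (n : ℝ) ^ 2 ≤ 4 * (h0 X.S.prm (fun ν => (n : ℤ) * hyp X.g ν) : ℝ) := by
    exact_mod_cast hn₁ n hnn
  have hD : (h0 X.S.prm (d.Dv r n) : ℝ) ≤ h0 X.S.prm (fun ν => d.Dv r n ν - prd B ν) +
      (n * d.N₁ * X.S.form X.S.A (X.S.cls B) +
        n * (2 * d.N + 1) * X.S.form (X.α r) (X.S.cls B)) + 1 := by
    exact_mod_cast CF7_Dv d hB r n
  have hf : (X.S.form (X.α r) (X.S.cls B) : ℝ) ≤ C * X.lam ^ r := by
    have h1 := hgr r
    rw [abs_of_nonneg (Int.natCast_nonneg r), zpow_natCast] at h1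
    exact h1
  obtain ⟨v, hv'⟩ : ∃ v : ℝ, v = (h0 X.S.prm (fun ν => (n : ℤ) * hyp X.g ν) : ℝ) := ⟨_, rfl⟩
  rw [← hv'] at hv
  have e1 : (n : ℝ) * d.N₁ * X.S.form X.S.A (X.S.cls B) +
      n * (2 * d.N + 1) * X.S.form (X.α r) (X.S.cls B) ≤ n * (C₁ * X.lam ^ r) := by
    have h1 : (n : ℝ) * (2 * d.N + 1) * X.S.form (X.α r) (X.S.cls B) ≤
        n * (2 * d.N + 1) * (C * X.lam ^ r) := mul_le_mul_of_nonneg_left hf (by positivity)
    have h2 : (n : ℝ) * d.N₁ * X.S.form X.S.A (X.S.cls B) ≤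
        n * d.N₁ * X.S.form X.S.A (X.S.cls B) * X.lam ^ r :=
      le_mul_of_one_le_right (by positivity) hlr
    have h3 : (n : ℝ) * (C₁ * X.lam ^ r) =
        n * d.N₁ * X.S.form X.S.A (X.S.cls B) * X.lam ^ r +
          n * (2 * d.N + 1) * (C * X.lam ^ r) := by
      rw [hC₁]
      ring
    rw [h3]
    exact add_le_add h2 h1
  have e2 : 4 * (C₁ + 1) * X.lam ^ r ≤ (n : ℝ) ^ 2 := by
    have h1 : (2 * (C₁ + 1) * t) ^ 2 ≤ (n : ℝ) ^ 2 := pow_le_pow_left₀ (by positivity) hlo 2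
    have h2 : (2 * (C₁ + 1) * t) ^ 2 = 4 * (C₁ + 1) * X.lam ^ r * (C₁ + 1) := by
      rw [← ht2]
      ring
    rw [h2] at h1
    refine le_trans ?_ h1
    exact le_mul_of_one_le_right (by positivity) (by linarith)
  have e3 : n * (C₁ * X.lam ^ r) + 1 ≤ (n : ℝ) * v := by
    have h1 : (C₁ + 1) * X.lam ^ r ≤ v := by linarith
    have h2 : (n : ℝ) * ((C₁ + 1) * X.lam ^ r) ≤ n * v :=
      mul_le_mul_of_nonneg_left h1 (by positivity)
    have h3 : 1 ≤ (n : ℝ) * X.lam ^ r := one_le_mul_of_one_le_of_one_le hn1 hlr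
    have h4 : (n : ℝ) * ((C₁ + 1) * X.lam ^ r) = n * (C₁ * X.lam ^ r) + n * X.lam ^ r := by ring
    linarith
  have e4 : 0 < v := by
    have h1 : (1 : ℝ) ≤ (n : ℝ) ^ 2 := one_le_pow₀ hn1
    linarith
  have key : h0 X.S.prm (d.Dv r n) < (n + 1) * h0 X.S.prm (fun ν => (n : ℤ) * hyp X.g ν) +
      h0 X.S.prm (fun ν => d.Dv r n ν - prd B ν) := by
    have h1 : (h0 X.S.prm (d.Dv r n) : ℝ) <
        (n + 1) * (h0 X.S.prm (fun ν => (n : ℤ) * hyp X.g ν) : ℝ) +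
          h0 X.S.prm (fun ν => d.Dv r n ν - prd B ν) := by
      rw [← hv']
      linarith
    exact_mod_cast h1
  obtain ⟨a, ha0, ha, hth⟩ := CF7_exists d r n key
  refine ⟨n, a, ?_, hup, ha0, ha, hth⟩
  exact_mod_cast hn1

end Pool.Agent.LibK3P
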