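import Pool.Agent.LibK3P.All
import Pool.Agent.LibK3P.CF0

/-! ROW CF8 (block C of K3): the polynomial is not zero. 45 min. Mostly Mathlib.
PLAN. `jac_ne`: `x' = γ^r x`, `y' = γ^r y` are algebraically independent (the algebra automorphism `γ^r` preserves algebraic
independence: `AlgebraicIndependent.map'`/`AlgHom` injective), so there are dual derivations `F₁, F₂` of `x', y'`
(`exists_dual`, `X.S.dim`). If `E₁ x' * E₂ y' - E₁ y' * E₂ x' = 0` there is `(c₁, c₂) ≠ 0` in `L ^ 2` with
`D := c₁ • E₁ + c₂ • E₂` killing `x'` and `y'`; a derivation which kills `x', y'` is zero because `L` is algebraic over `ℂ(x', y')`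
(`X.S.dim`; see the proof or the uniqueness part of `exists_dual` in `Chain`, or Mathlib's
`Derivation` lemmas: minimal polynomial, characteristic zero); but `D x = c₁`, `D y = c₂`. CONTRADICTION.
`bfm_ne`: (`R` a field, `j = u v' - u' v ≠ 0`) for `c : Fin (n + 1) → R`, `c ≠ 0`, the polynomial
`∑ k, C (c k) * (C u + X * C u') ^ k * (C v + X * C v') ^ (n - k)` is not zero. Proof: consider two
variables, or: if it is zero then, for all `s` in `R` with `v + s v' ≠ 0`, `τ = (u + s u') / (v + s v')` is a root of
`∑ c k T ^ k`; the map `s ↦ τ` is injective (its determinant is `j ≠ 0`), `R` is infinite (characteristic zero), `v + s v'` vanishes for at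
most one `s` (`(v, v') ≠ 0` since `j ≠ 0`), so `∑ c k T ^ k` has infinitely many roots: all `c k = 0`.
`pol_ne`: `coef k ≠ 0` for some `k` (`γ^r` injective, `Q ≠ 0`). -/

set_option autoImplicit false

open Pool.Agent.LibGMM Pool.Agent.LibK Pool.Agent.LibKB
open Pool.Agent.LibLB (PSurf RLR)
open Pool.Agent.LibCov80 (Over)

open Pool.Agent.LibK3

namespace Pool.Agent.LibK3P

theorem bfm_ne {R : Type} [Field R] [CharZero R] {n : ℕ} {c : Fin (n + 1) → R} (hc : c ≠ 0)
    {u u' v v' : R} (h : u * v' - u' * v ≠ 0) :
    bfm n (fun k => Polynomial.C (c k)) (Polynomial.C u + Polynomial.X * Polynomial.C u')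
      (Polynomial.C v + Polynomial.X * Polynomial.C v') ≠ 0 := by
  intro h0
  have heval : ∀ s : R, ∑ k : Fin (n + 1), c k * (u + s * u') ^ (k : ℕ) *
      (v + s * v') ^ (n - (k : ℕ)) = 0 := by
    intro s
    have := congrArg (Polynomial.eval s) h0
    simpa [bfm, Polynomial.eval_finsetSum, mul_comm s] using this
  let F : Polynomial R := ∑ k : Fin (n + 1), Polynomial.C (c k) * Polynomial.X ^ (k : ℕ)
  have hF : F = 0 := by
    let S : Set R := {s | v + s * v' ≠ 0}
    have hSc : Sᶜ.Finite := by
      by_cases hv' : v' = 0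
      · have hv : v ≠ 0 := by
          rintro rfl; apply h; rw [hv']; ring
        have : Sᶜ = ∅ := by
          ext s
          simp [S, hv', hv]
        rw [this]; exact Set.finite_empty
      · refine (Set.finite_singleton (-v / v')).subset ?_
        intro s hs
        have hs' : v + s * v' = 0 := by
          by_contra hne; exact hs hne
        rw [Set.mem_singleton_iff, eq_div_iff hv']
        linear_combination hs'
    have hSinf : S.Infinite := by
      have := hSc.infinite_compl
      rwa [compl_compl] at this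
    have hinj : Set.InjOn (fun s : R => (u + s * u') / (v + s * v')) S := by
      intro s hs t ht hst
      have hs' : v + s * v' ≠ 0 := hs
      have ht' : v + t * v' ≠ 0 := ht
      simp only at hst
      rw [div_eq_div_iff hs' ht'] at hst
      have h2 : (t - s) * (u * v' - u' * v) = 0 := by linear_combination hst
      rcases mul_eq_zero.1 h2 with h3 | h3
      · exact (sub_eq_zero.1 h3).symm
      · exact absurd h3 h
    refine Polynomial.eq_zero_of_infinite_isRoot F ((hSinf.image hinj).mono ?_)
    rintro _ ⟨s, hs, rfl⟩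
    have hs' : v + s * v' ≠ 0 := hs
    show Polynomial.IsRoot F ((u + s * u') / (v + s * v'))
    rw [Polynomial.IsRoot, Polynomial.eval_finsetSum]
    have h3 := heval s
    have h4 : (v + s * v') ^ n * ∑ k : Fin (n + 1), Polynomial.eval ((u + s * u') / (v + s * v'))
        (Polynomial.C (c k) * Polynomial.X ^ (k : ℕ)) = 0 := by
      rw [← h3, Finset.mul_sum]
      refine Finset.sum_congr rfl fun k _ => ?_
      have hk : (k : ℕ) ≤ n := by have := k.2; omega
      rw [Polynomial.eval_mul, Polynomial.eval_C, Polynomial.eval_pow, Polynomial.eval_X, div_pow]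
      have hpow : (v + s * v') ^ n = (v + s * v') ^ (k : ℕ) * (v + s * v') ^ (n - (k : ℕ)) := by
        rw [← pow_add]; congr 1; omega
      rw [hpow]
      have hk0 : (v + s * v') ^ (k : ℕ) ≠ 0 := pow_ne_zero _ hs'
      field_simp
    rcases mul_eq_zero.1 h4 with h5 | h5
    · exact absurd h5 (pow_ne_zero _ hs')
    · exact h5
  apply hc
  funext k
  have := congrArg (fun P => Polynomial.coeff P (k : ℕ)) hF
  simp only [F, Polynomial.finsetSum_coeff, Polynomial.coeff_C_mul, Polynomial.coeff_X_pow,
    Polynomial.coeff_zero, mul_ite, mul_one, mul_zero] at this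
  rw [Finset.sum_eq_single k] at this
  · simpa using this
  · intro b _ hb
    rw [if_neg]
    intro he
    exact hb (Fin.ext he).symm
  · intro hk; exact absurd (Finset.mem_univ k) hk

/-- a derivation which kills a transcendence basis is zero -/
private theorem CF8_der_zero {L : Type} [Field L] [Algebra ℂ L] (htr : Algebra.trdeg ℂ L = 2) {x y : L}
    (h : AlgebraicIndependent ℂ ![x, y]) (D : Derivation ℂ L L) (hx : D x = 0) (hy : D y = 0)
    (z : L) : D z = 0 := by
  have hb : IsTranscendenceBasis ℂ ![x, y] := by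
    apply AlgebraicIndependent.isTranscendenceBasis_of_lift_trdeg_le_of_finite h
    rw [htr]; simp
  let K0 : IntermediateField ℂ L :=
    { carrier := {z | D z = 0}
      mul_mem' := by
        intro a b ha hb
        simp only [Set.mem_ofPred_eq] at *
        rw [Derivation.leibniz, ha, hb]; simp
      one_mem' := by simp
      add_mem' := by
        intro a b ha hb
        simp only [Set.mem_ofPred_eq] at *
        rw [map_add, ha, hb, add_zero]
      zero_mem' := by simp
      algebraMap_mem' := by intro c; simp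
      inv_mem' := by
        intro a ha
        simp only [Set.mem_ofPred_eq] at *
        rw [Derivation.leibniz_inv, ha]; simp }
  have hK0 : ∀ z ∈ K0, D z = 0 := fun z hz => hz
  have halg : Algebra.IsAlgebraic K0 L := by
    have h1 := hb.isAlgebraic
    constructor
    intro z
    have h2 := h1.isAlgebraic z
    obtain ⟨p, hp0, hp⟩ := h2
    have hle : Algebra.adjoin ℂ (Set.range ![x, y]) ≤ K0.toSubalgebra := by
      rw [Algebra.adjoin_le_iff]
      rintro _ ⟨i, rfl⟩
      fin_cases i
      · exact hx
      · exact hy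
    refine ⟨p.map (Subalgebra.inclusion hle).toRingHom, ?_, ?_⟩
    · rw [Ne, Polynomial.map_eq_zero_iff]
      · exact hp0
      · exact Subalgebra.inclusion_injective hle
    · rw [← hp, Polynomial.aeval_def, Polynomial.eval₂_map, Polynomial.aeval_def]
      rfl
  have hsep : Algebra.IsSeparable K0 L := inferInstance
  have hun : Algebra.FormallyUnramified K0 L := Algebra.FormallyUnramified.of_isSeparable K0 L
  let D' : Derivation K0 L L :=
    { toFun := D
      map_add' := map_add D
      map_smul' := by
        intro c w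
        rw [Algebra.smul_def, Derivation.leibniz]
        have : D (algebraMap K0 L c) = 0 := hK0 _ c.2
        rw [this, smul_zero, add_zero]
        rfl
      map_one_eq_zero' := by simp
      leibniz' := fun a b => D.leibniz a b }
  have hD' : D' = 0 := by
    have : D'.liftKaehlerDifferential = 0 := Subsingleton.elim _ _
    ext w
    rw [← Derivation.liftKaehlerDifferential_comp_D D' w, this]; rfl
  have := congrArg (fun E : Derivation K0 L L => E z) hD'
  exact this

variable {L : Type} [Field L] [Algebra ℂ L] {X : Sys0 L} {B : DVal L} {x y : L}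

theorem jac_ne (X : Sys0 L) {x y x' y' : L} (h : AlgebraicIndependent ℂ ![x, y])
    (h' : AlgebraicIndependent ℂ ![x', y']) {E₁ E₂ : Derivation ℂ L L}
    (h1 : E₁ x = 1) (h2 : E₁ y = 0) (h3 : E₂ x = 0) (h4 : E₂ y = 1) :
    E₁ x' * E₂ y' - E₂ x' * E₁ y' ≠ 0 := by
  intro h0
  obtain ⟨c₁, c₂, hc, e1, e2⟩ : ∃ c₁ c₂ : L, (c₁ ≠ 0 ∨ c₂ ≠ 0) ∧
      c₁ * E₁ x' + c₂ * E₂ x' = 0 ∧ c₁ * E₁ y' + c₂ * E₂ y' = 0 := by
    by_cases ha : E₂ x' ≠ 0 ∨ E₁ x' ≠ 0
    · refine ⟨E₂ x', -E₁ x', ?_, by ring, by linear_combination -h0⟩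
      rcases ha with ha | ha
      · exact Or.inl ha
      · exact Or.inr (neg_ne_zero.2 ha)
    · rw [not_or, not_not, not_not] at ha
      obtain ⟨ha1, ha2⟩ := ha
      by_cases hb : E₂ y' ≠ 0 ∨ E₁ y' ≠ 0
      · refine ⟨E₂ y', -E₁ y', ?_, by rw [ha1, ha2]; ring, by ring⟩
        rcases hb with hb | hb
        · exact Or.inl hb
        · exact Or.inr (neg_ne_zero.2 hb)
      · rw [not_or, not_not, not_not] at hb
        obtain ⟨hb1, hb2⟩ := hb
        exact ⟨1, 0, Or.inl one_ne_zero, by rw [ha1, ha2]; ring, by rw [hb1, hb2]; ring⟩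
  have hD := CF8_der_zero X.S.dim h' (c₁ • E₁ + c₂ • E₂)
    (by simpa using e1) (by simpa using e2)
  have hx := hD x
  have hy := hD y
  simp only [Derivation.add_apply, Derivation.smul_apply, smul_eq_mul, h1, h2, h3, h4,
    mul_one, mul_zero, add_zero, zero_add] at hx hy
  rcases hc with hc | hc
  · exact hc hx
  · exact hc hy

theorem CDat.pol_ne (d : CDat X B x y) (h : AlgebraicIndependent ℂ ![x, y])
    {E₁ E₂ : Derivation ℂ L L} (h1 : E₁ x = 1) (h2 : E₁ y = 0) (h3 : E₂ x = 0) (h4 : E₂ y = 1)
    (r : ℤ) {n : ℕ} {a : Fin (n + 1) → L} (ha : a ≠ 0) : d.pol E₁ E₂ r n a ≠ 0 := by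
  have : CharZero L := charZero_of_injective_algebraMap (algebraMap ℂ L).injective
  have hind : AlgebraicIndependent ℂ ![(X.γ ^ r) x, (X.γ ^ r) y] := by
    have := h.map' (f := ((X.γ ^ r : L ≃ₐ[ℂ] L) : L →ₐ[ℂ] L)) (X.γ ^ r).injective
    convert this using 1
    ext i
    fin_cases i <;> rfl
  have hj := jac_ne X h hind h1 h2 h3 h4
  have hc : d.coef r n a ≠ 0 := by
    intro h0
    apply ha
    funext k
    have hk := congrFun h0 k
    have hk' : (X.γ ^ r) (a k * d.Q ^ (2 * n)) = 0 := hk
    have := (map_eq_zero_iff (X.γ ^ r) (X.γ ^ r).injective).1 hk'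
    rcases mul_eq_zero.1 this with h5 | h5
    · exact h5
    · exact absurd h5 (pow_ne_zero _ d.Q_ne)
  exact bfm_ne hc hj

end Pool.Agent.LibK3P
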