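import Pool.Agent.LibK3.NP2
import Pool.Agent.LibK3.NP5
import Pool.Agent.LibK3P.CF0
import Pool.Agent.LibK3P.CH3
import Pool.Agent.LibK3P.P12

/-! ROW CF9 (block C of K3): if the form vanishes on `C_m` then the slope is a root. 50 min.
PLAN. `F = d.pol E₁ E₂ r n a` (`hF : F ≠ 0`). Finite set to avoid: `T` of `chain_rule X hxy` for `E₁, E₂`, the primes with nonzero order of one
of the nonzero ones among `F.coeff i` (`i ≤ n`), `(γ^r) x`, `(γ^r) y`, `x`, `y`, `coef k`, `E_i ((γ^r) x)`, `E_i ((γ^r) y)` (`X.S.finDiv`); `cv_avoid` gives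
`m₀`; also `cv_nonconst` for `x` (`x ∉ range` since algebraically independent). Let `C' = X.cv C m`, `ψ = C'.ψ`, `δ₀` with `IsDt δ₀`
(`exists_dt`), `p = δ₀ (ψ x) ≠ 0` (a function with `d / dt = 0` is constant: from `ordP_dt'`, `ordP_wP` or `der` facts: if `f` is not constant
there is a place `v` with `ordP v (f - C c) ≠ 0` for a suitable constant `c` (`const_of_nonneg`), then `ordP_dt'`), `q = δ₀ (ψ y)`.
By the chain rule `δ₀ (ψ (γ^r x)) = ψ (E₁ (γ^r x)) * p + ψ (E₂ (γ^r x)) * q`, the same for `y`. `ψ` is additive and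
multiplicative on the ring, so `G = ∑ k, ψ(coef k) (ψ(..) p + ψ(..) q)^k (..)^(n-k)`, and this is
`∑_(i ≤ n) ψ (F.coeff i) * q ^ i * p ^ (n - i)` (both sides: homogenisation; prove it through the ring homomorphism
`ρ : C'.ν.ring → RatFunc ℂ` given by `ψ`: `F` is the image of a polynomial over the ring; evaluate
`F^ρ` at `q / p` and multiply by `p ^ n`: `p ^ n * eval (q / p) (bfm ..) = bfm .. (p * ..) (p * ..)`). As `F.natDegree ≤ n`, `G = p ^ (n - natDegree) *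
∑_(i ≤ natDegree) ψ (F.coeff i) q ^ i p ^ (natDegree - i)`. So the last sum is `0`. For a general `δ`: `δ f = δ X * δ₀ f`
(`der_eq`), the sum is multiplied by `(δ X) ^ natDegree`. -/

set_option autoImplicit false

open Pool.Agent.LibGMM Pool.Agent.LibK Pool.Agent.LibKB
open Pool.Agent.LibLB (PSurf RLR)
open Pool.Agent.LibCov80 (Over)

open Pool.Agent.LibK3

namespace Pool.Agent.LibK3P

private theorem CF9_bfm_map {R R' : Type} [CommRing R] [CommRing R'] (f : R →+* R') (n : ℕ)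
    (a : Fin (n + 1) → R) (p q : R) : f (bfm n a p q) = bfm n (fun k => f (a k)) (f p) (f q) := by
  unfold bfm
  rw [map_sum]
  refine Finset.sum_congr rfl fun k _ => ?_
  rw [map_mul, map_mul, map_pow, map_pow]

private theorem CF9_bfm_hom {R : Type} [CommRing R] (n : ℕ) (a : Fin (n + 1) → R) (t p q : R) :
    t ^ n * bfm n a p q = bfm n a (t * p) (t * q) := by
  unfold bfm
  rw [Finset.mul_sum]
  refine Finset.sum_congr rfl fun k _ => ?_
  have hk : (k : ℕ) ≤ n := Nat.lt_succ_iff.1 k.2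
  have e : t ^ n = t ^ (k : ℕ) * t ^ (n - (k : ℕ)) := by
    rw [← pow_add]
    congr 1
    omega
  rw [e, mul_pow, mul_pow]
  ring

section

variable {L : Type} [Field L] [Algebra ℂ L]

private theorem CF9_psi_zero (C : RC L) : C.ψ 0 = 0 := by
  have h := C.const 0
  rwa [map_zero, map_zero] at h

private theorem CF9_psi_one (C : RC L) : C.ψ 1 = 1 := by
  have h := C.const 1
  rwa [map_one, map_one] at h

/-- the residue map as a ring homomorphism -/
private noncomputable def CF9_rho (C : RC L) : C.ν.ring →+* RatFunc ℂ where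
  toFun z := C.ψ z
  map_one' := CF9_psi_one C
  map_mul' z w := C.mul z z.2 w w.2
  map_zero' := CF9_psi_zero C
  map_add' z w := C.add z z.2 w w.2

private theorem CF9_dt {δ : Derivation ℂ (RatFunc ℂ) (RatFunc ℂ)} (h : IsDt δ) {f : RatFunc ℂ}
    (hf : ∀ c, f ≠ RatFunc.C c) : δ f ≠ 0 := by
  by_cases h1 : ∀ v, 0 ≤ ordP v f
  · obtain ⟨c, hc⟩ := const_of_nonneg h1
    exact absurd hc (hf c)
  · push Not at h1
    obtain ⟨v, hv⟩ := h1
    have hf0 : f ≠ 0 := by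
      rintro rfl
      exact hf 0 (map_zero _).symm
    exact (ordP_dt' h v hf0 hv.ne).1

/-- homogenisation -/
private theorem CF9_alg (C : RC L) (n : ℕ) (c : Fin (n + 1) → L) (u1 u2 v1 v2 : L)
    (hc : ∀ k, c k ∈ C.ν.ring) (hu1 : u1 ∈ C.ν.ring) (hu2 : u2 ∈ C.ν.ring) (hv1 : v1 ∈ C.ν.ring)
    (hv2 : v2 ∈ C.ν.ring) {p q : RatFunc ℂ} (hp : p ≠ 0) {F : Polynomial L}
    (hF : F = bfm n (fun k => Polynomial.C (c k)) (Polynomial.C u1 + Polynomial.X * Polynomial.C u2)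
      (Polynomial.C v1 + Polynomial.X * Polynomial.C v2))
    (h0 : bfm n (fun k => C.ψ (c k)) (C.ψ u1 * p + C.ψ u2 * q) (C.ψ v1 * p + C.ψ v2 * q) = 0) :
    (∀ i, F.coeff i ∈ C.ν.ring) ∧
      ∑ i ∈ Finset.range (F.natDegree + 1), C.ψ (F.coeff i) * q ^ i * p ^ (F.natDegree - i) = 0 := by
  set P : Polynomial C.ν.ring := bfm n (fun k => Polynomial.C (⟨c k, hc k⟩ : C.ν.ring))
    (Polynomial.C (⟨u1, hu1⟩ : C.ν.ring) + Polynomial.X * Polynomial.C (⟨u2, hu2⟩ : C.ν.ring))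
    (Polynomial.C (⟨v1, hv1⟩ : C.ν.ring) + Polynomial.X * Polynomial.C (⟨v2, hv2⟩ : C.ν.ring)) with hP
  set ι : C.ν.ring →+* L := C.ν.ring.val.toRingHom with hι
  have hιinj : Function.Injective ι := Subtype.val_injective
  have hFP : F = P.map ι := by
    rw [hF, hP, ← Polynomial.coe_mapRingHom, CF9_bfm_map]
    simp only [Polynomial.coe_mapRingHom, Polynomial.map_add, Polynomial.map_mul, Polynomial.map_C,
      Polynomial.map_X]
    rfl
  have hco : ∀ i, F.coeff i = ((P.coeff i : C.ν.ring) : L) := by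
    intro i
    rw [hFP, Polynomial.coeff_map]
    rfl
  have hdeg : F.natDegree = P.natDegree := by
    rw [hFP, Polynomial.natDegree_map_eq_of_injective hιinj]
  have hev : (P.map (CF9_rho C)).eval (q / p) = 0 := by
    have e1 : (P.map (CF9_rho C)).eval (q / p) = bfm n (fun k => C.ψ (c k))
        (C.ψ u1 + q / p * C.ψ u2) (C.ψ v1 + q / p * C.ψ v2) := by
      rw [Polynomial.eval_map, ← Polynomial.coe_eval₂RingHom, hP, CF9_bfm_map]
      simp only [Polynomial.coe_eval₂RingHom, Polynomial.eval₂_add, Polynomial.eval₂_mul,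
        Polynomial.eval₂_C, Polynomial.eval₂_X]
      rfl
    have e2 : p ^ n * (P.map (CF9_rho C)).eval (q / p) = 0 := by
      rw [e1, CF9_bfm_hom]
      have e3 : p * (C.ψ u1 + q / p * C.ψ u2) = C.ψ u1 * p + C.ψ u2 * q := by
        field_simp
      have e4 : p * (C.ψ v1 + q / p * C.ψ v2) = C.ψ v1 * p + C.ψ v2 * q := by
        field_simp
      rw [e3, e4, h0]
    rcases mul_eq_zero.1 e2 with h | h
    · exact absurd h (pow_ne_zero n hp)
    · exact h
  refine ⟨fun i => by rw [hco i]; exact (P.coeff i).2, ?_⟩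
  have hlt : (P.map (CF9_rho C)).natDegree < F.natDegree + 1 := by
    rw [hdeg]
    exact Nat.lt_succ_of_le Polynomial.natDegree_map_le
  rw [Polynomial.eval_eq_sum_range' hlt] at hev
  have e5 : ∑ i ∈ Finset.range (F.natDegree + 1), C.ψ (F.coeff i) * q ^ i * p ^ (F.natDegree - i) =
      p ^ F.natDegree * ∑ i ∈ Finset.range (F.natDegree + 1),
        (P.map (CF9_rho C)).coeff i * (q / p) ^ i := by
    rw [Finset.mul_sum]
    refine Finset.sum_congr rfl fun i hi => ?_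
    have hi' : i ≤ F.natDegree := Nat.lt_succ_iff.1 (Finset.mem_range.1 hi)
    have e6 : (P.map (CF9_rho C)).coeff i = C.ψ (F.coeff i) := by
      rw [Polynomial.coeff_map, hco i]
      rfl
    have e7 : p ^ F.natDegree = p ^ (F.natDegree - i) * p ^ i := by
      rw [← pow_add]
      congr 1
      omega
    rw [e6, e7, div_pow]
    field_simp
  rw [e5, hev, mul_zero]

end

variable {L : Type} [Field L] [Algebra ℂ L] {X : Sys0 L} {B : DVal L} {x y : L}

private theorem CF9_ring {C : RC L} (hC : X.Ent C) (z : L) :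
    ∃ m₀ : ℕ, ∀ m : ℕ, m₀ ≤ m → z ∈ (X.cv C m).ν.ring := by
  by_cases hz : z = 0
  · exact ⟨0, fun m _ => hz ▸ Subalgebra.zero_mem _⟩
  · obtain ⟨m₀, h⟩ := X.cv_avoid hC (X.S.finDiv z hz)
    refine ⟨m₀, fun m hm => ?_⟩
    have h1 := h m hm
    have h2 : (X.cv C m).ν.ord z = 0 := by
      by_contra hcon
      exact h1 ⟨X.cv_mem hC.mem m, hcon⟩
    rw [mem_ring, h2]

private theorem CF9_ringF {C : RC L} (hC : X.Ent C) {n : ℕ} (z : Fin n → L) :
    ∃ m₀ : ℕ, ∀ m : ℕ, m₀ ≤ m → ∀ k, z k ∈ (X.cv C m).ν.ring := by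
  choose f hf using fun k => CF9_ring (X := X) hC (z k)
  exact ⟨Finset.univ.sup f, fun m hm k => hf k m (le_trans (Finset.le_sup (Finset.mem_univ k)) hm)⟩

theorem CDat.isRoot (d : CDat X B x y) (hxy : AlgebraicIndependent ℂ ![x, y])
    {E₁ E₂ : Derivation ℂ L L} (h1 : E₁ x = 1) (h2 : E₁ y = 0) (h3 : E₂ x = 0) (h4 : E₂ y = 1)
    (r : ℤ) {n : ℕ} {a : Fin (n + 1) → L} (hF : d.pol E₁ E₂ r n a ≠ 0) {C : RC L}
    (hC : X.Ent C) : ∃ m₀ : ℕ, ∀ m : ℕ, m₀ ≤ m →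
      ∀ δ : Derivation ℂ (RatFunc ℂ) (RatFunc ℂ), IsDt δ →
        d.G (X.cv C m) δ r n a = 0 → IsRoot (X.cv C m) x y (d.pol E₁ E₂ r n a) := by
  obtain ⟨T, hTf, hT⟩ := chain_rule X hxy h1 h2 h3 h4
  obtain ⟨m1, hm1⟩ := X.cv_avoid hC hTf
  obtain ⟨m2, hm2⟩ := CF9_ring (X := X) hC ((X.γ ^ r) x)
  obtain ⟨m3, hm3⟩ := CF9_ring (X := X) hC ((X.γ ^ r) y)
  obtain ⟨m4, hm4⟩ := CF9_ringF (X := X) hC (d.coef r n a)
  have hx : x ∉ Set.range (algebraMap ℂ L) := by
    rintro ⟨c, hc⟩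
    have h5 := hxy.transcendental 0
    apply h5
    have h6 : (![x, y] : Fin 2 → L) 0 = algebraMap ℂ L c := hc.symm
    rw [h6]
    exact isAlgebraic_algebraMap c
  obtain ⟨m5, hm5⟩ := X.cv_nonconst hC hx
  refine ⟨m1 + m2 + m3 + m4 + m5, fun m hm δ hδ hG => ?_⟩
  have hC' := X.cv_mem hC.mem (m : ℤ)
  obtain ⟨hxr, hyr, hE, hch⟩ := hT (X.cv C m) hC' (hm1 m (by omega))
  have hgx := hm2 m (by omega)
  have hgy := hm3 m (by omega)
  have hco := hm4 m (by omega)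
  have hp : δ ((X.cv C m).ψ x) ≠ 0 := CF9_dt hδ (hm5 m (by omega)).2
  have e1 := hch δ _ hgx
  have e2 := hch δ _ hgy
  have h0 : bfm n (fun k => (X.cv C m).ψ (d.coef r n a k))
      ((X.cv C m).ψ (E₁ ((X.γ ^ r) x)) * δ ((X.cv C m).ψ x) +
        (X.cv C m).ψ (E₂ ((X.γ ^ r) x)) * δ ((X.cv C m).ψ y))
      ((X.cv C m).ψ (E₁ ((X.γ ^ r) y)) * δ ((X.cv C m).ψ x) +
        (X.cv C m).ψ (E₂ ((X.γ ^ r) y)) * δ ((X.cv C m).ψ y)) = 0 := by
    rw [← e1, ← e2]
    exact hG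
  obtain ⟨hc, hs⟩ := CF9_alg (X.cv C m) n (d.coef r n a) _ _ _ _ hco (hE _ hgx).1 (hE _ hgx).2
    (hE _ hgy).1 (hE _ hgy).2 hp (F := d.pol E₁ E₂ r n a) rfl h0
  refine ⟨hc, hxr, hyr, fun δ' => ?_⟩
  have e3 : ∀ f, δ' f = δ' RatFunc.X * δ f := fun f => der_eq hδ f
  have e4 : ∑ i ∈ Finset.range ((d.pol E₁ E₂ r n a).natDegree + 1),
      (X.cv C m).ψ ((d.pol E₁ E₂ r n a).coeff i) * (δ' ((X.cv C m).ψ y)) ^ i *
        (δ' ((X.cv C m).ψ x)) ^ ((d.pol E₁ E₂ r n a).natDegree - i) =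
      (δ' RatFunc.X) ^ (d.pol E₁ E₂ r n a).natDegree *
        ∑ i ∈ Finset.range ((d.pol E₁ E₂ r n a).natDegree + 1),
          (X.cv C m).ψ ((d.pol E₁ E₂ r n a).coeff i) * (δ ((X.cv C m).ψ y)) ^ i *
            (δ ((X.cv C m).ψ x)) ^ ((d.pol E₁ E₂ r n a).natDegree - i) := by
    rw [Finset.mul_sum]
    refine Finset.sum_congr rfl fun i hi => ?_
    have hi' : i ≤ (d.pol E₁ E₂ r n a).natDegree := Nat.lt_succ_iff.1 (Finset.mem_range.1 hi)
    rw [e3 ((X.cv C m).ψ y), e3 ((X.cv C m).ψ x), mul_pow, mul_pow]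
    have e7 : (δ' RatFunc.X) ^ (d.pol E₁ E₂ r n a).natDegree =
        (δ' RatFunc.X) ^ i * (δ' RatFunc.X) ^ ((d.pol E₁ E₂ r n a).natDegree - i) := by
      rw [← pow_add]
      congr 1
      omega
    rw [e7]
    ring
  rw [e4, hs, mul_zero]

end Pool.Agent.LibK3P
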