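import Pool.Agent.LibK3P.All
import Pool.Agent.LibK3P.CF4
import Pool.Agent.LibK3P.CF7
import Pool.Agent.LibK3P.CF8
import Pool.Agent.LibK3P.CF9
import Pool.Agent.LibK3P.CF12

/-! ROW CF13 (block C of K3): conclusion. 45 min.
PLAN. `d` from `exists_cdat`; `E₁, E₂` from `exists_dual X.S.dim hxy`; `C', r₀` from `d.exists_a hC.posEnt hB`; `N = d.N`. `growth hC`: constants
`c, C₁ > 0` with `c λ^|j| ≤ form (α j) (cls C.ν) ≤ C₁ λ^|j|`. By `form_H_cv`: `form (α r) (cls (cv C m).ν) = form (α (r - m)) (cls C.ν) ≤ C₁ λ^(m - r)` for `m ≥ r`,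
and `form A (cls (cv C m).ν) = form (α 0) .. = form (α (-m)) (cls C.ν) ≥ c λ^m` (`α_zero`). Choose `r ≥ r₀` with
`2 C' (2N+1) C₁ λ^(-r/2) ≤ (ε / 2) c` (`λ > 1`: `tendsto` or Archimedean); `n, a` from `exists_a`; `K` from `bad_le`; `F = d.pol E₁ E₂ r n a ≠ 0` (`pol_ne`);
`m₀` = max of `r`, the `m₀` of `isRoot`, the `m₀` of `cv_avoid` for the set of `exists_good` (then `Good r (cv C m)` with `cv_mem`), and one with `K ≤ (ε / 2) c λ^m`. For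
`m ≥ m₀`: `δ` from `exists_dt`; if `G = 0`: `IsRoot`. If not: `bad ≤ 2 n (2N+1) C₁ λ^(m - r) + K` and
`n ≤ C' λ^(r/2)`: `≤ 2 C' (2N+1) C₁ λ^(-r/2) λ^m + K ≤ ε c λ^m ≤ ε a_m`. -/

set_option autoImplicit false

open Pool.Agent.LibGMM Pool.Agent.LibK Pool.Agent.LibKB
open Pool.Agent.LibLB (PSurf RLR)
open Pool.Agent.LibCov80 (Over)

open Pool.Agent.LibK3

namespace Pool.Agent.LibK3P

variable {L : Type} [Field L] [Algebra ℂ L]

/-- The choice of `r`. -/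
private theorem CF13_exists_r {l c A ε : ℝ} (hl : 1 < l) (hc : 0 < c) (hε : 0 < ε)
    (r₀ : ℕ) : ∃ r : ℕ, r₀ ≤ r ∧ A * l ^ (-((r : ℝ) / 2)) ≤ ε / 2 * c := by
  have h1 : Filter.Tendsto (fun r : ℕ => A * l ^ (-((r : ℝ) / 2))) Filter.atTop (nhds (A * 0)) := by
    refine Filter.Tendsto.const_mul A ?_
    have h2 : ∀ r : ℕ, l ^ (-((r : ℝ) / 2)) = (l ^ (-(1 / 2 : ℝ))) ^ r := by
      intro r
      rw [← Real.rpow_natCast, ← Real.rpow_mul (by linarith)]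
      congr 1
      ring
    simp_rw [h2]
    refine tendsto_pow_atTop_nhds_zero_of_lt_one (by positivity) ?_
    rw [Real.rpow_neg (by linarith)]
    refine inv_lt_one_of_one_lt₀ ?_
    exact Real.one_lt_rpow hl (by norm_num)
  rw [mul_zero] at h1
  have h2 : 0 < ε / 2 * c := by positivity
  have h3 := (h1.eventually (ge_mem_nhds h2)).and (Filter.eventually_ge_atTop r₀)
  obtain ⟨r, h4, h5⟩ := h3.exists
  exact ⟨r, h5, h4⟩

/-- `l ^ m` grows. -/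
private theorem CF13_exists_m {l B : ℝ} (hl : 1 < l) {c : ℝ} (hc : 0 < c) :
    ∃ m₀ : ℕ, ∀ m : ℕ, m₀ ≤ m → B ≤ c * l ^ m := by
  obtain ⟨n, hn⟩ := pow_unbounded_of_one_lt (B / c) hl
  refine ⟨n, fun m hm => ?_⟩
  have h1 : l ^ n ≤ l ^ m := pow_le_pow_right₀ hl.le hm
  have h2 : B / c ≤ l ^ m := hn.le.trans h1
  rw [div_le_iff₀ hc] at h2
  linarith

/-- **Block C.** -/
theorem blockC (X : Sys0 L) {C : RC L} (hC : X.Ent C) {x y : L}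
    (hxy : AlgebraicIndependent ℂ ![x, y]) {B : DVal L} (hB : B ∈ X.S.prm) {ε : ℝ} (hε : 0 < ε) :
    ∃ (F : Polynomial L) (m₀ : ℕ), F ≠ 0 ∧ ∀ m : ℕ, m₀ ≤ m → IsRoot (X.cv C m) x y F ∨
      (bad X.S (X.cv C m) B : ℝ) ≤ ε * X.S.form X.S.A (X.S.cls (X.cv C m).ν) := by
  obtain ⟨d⟩ := exists_cdat X hB x y
  obtain ⟨E₁, E₂, h1, h2, h3, h4⟩ := exists_dual X.S.dim hxy
  obtain ⟨C', r₀, hC', hex⟩ := d.exists_a hC.posEnt hB
  obtain ⟨c, C₁, hc, hC₁, hgr⟩ := X.growth hC.posEnt hC.mem hC.not_per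
  have hl := X.lam_gt
  have hl0 : 0 < X.lam := by linarith
  obtain ⟨r, hr, hrε⟩ := CF13_exists_r (l := X.lam) (c := c)
    (A := 2 * C' * (2 * d.N + 1) * C₁) (ε := ε) hl hc hε r₀
  obtain ⟨n, a, hn, hnC, ha0, ha, hth⟩ := hex r hr
  obtain ⟨K, hK⟩ := d.bad_le hB hC.mem ha hth
  have hF := d.pol_ne hxy h1 h2 h3 h4 (r : ℤ) ha0
  obtain ⟨m₁, hm₁⟩ := d.isRoot hxy h1 h2 h3 h4 (r : ℤ) hF hC
  obtain ⟨T, hT, hgood⟩ := d.exists_good hxy (r : ℤ)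
  obtain ⟨m₂, hm₂⟩ := X.cv_avoid hC hT
  obtain ⟨m₃, hm₃⟩ := CF13_exists_m (l := X.lam) (B := K) hl (c := ε / 2 * c) (by positivity)
  obtain ⟨δ, hδ⟩ := exists_dt
  refine ⟨d.pol E₁ E₂ r n a, max (max m₁ m₂) (max m₃ r), hF, fun m hm => ?_⟩
  have k1 : m₁ ≤ m := (le_max_left _ _).trans ((le_max_left _ _).trans hm)
  have k2 : m₂ ≤ m := (le_max_right _ _).trans ((le_max_left _ _).trans hm)
  have k3 : m₃ ≤ m := (le_max_left _ _).trans ((le_max_right _ _).trans hm)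
  have k4 : r ≤ m := (le_max_right _ _).trans ((le_max_right _ _).trans hm)
  by_cases hG : d.G (X.cv C m) δ r n a = 0
  · left
    exact hm₁ m k1 δ hδ hG
  right
  have hgd := hgood (X.cv C m) (X.cv_mem hC.mem m) (hm₂ m k2)
  have hb := hK m hgd δ hδ hG
  have g1 := (hgr ((r : ℤ) - m)).2
  have g2 := (hgr (-(m : ℤ))).1
  have e1 := X.form_H_cv hC.mem (r : ℤ) (m : ℤ)
  have e2 := X.form_H_cv hC.mem (0 : ℤ) (m : ℤ)
  rw [X.α_zero, zero_sub] at e2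
  rw [e1] at hb
  rw [e2]
  have a1 : |(r : ℤ) - m| = ((m - r : ℕ) : ℤ) := by
    rw [abs_of_nonpos (by omega)]
    omega
  have a2 : |(-(m : ℤ))| = (m : ℤ) := by rw [abs_neg, abs_of_nonneg (by omega)]
  rw [a1, zpow_natCast] at g1
  rw [a2, zpow_natCast] at g2
  have hb' : (bad X.S (X.cv C m) B : ℝ) ≤
      2 * (n * (2 * d.N + 1)) * (X.S.form (X.α (r - m)) (X.S.cls C.ν) : ℝ) + K := by
    exact_mod_cast hb
  have hpow : X.lam ^ (m - r : ℕ) = X.lam ^ m * X.lam ^ (-(r : ℝ)) := by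
    rw [pow_sub₀ _ hl0.ne' k4, Real.rpow_neg hl0.le, Real.rpow_natCast]
  have hsplit : X.lam ^ ((r : ℝ) / 2) * X.lam ^ (-(r : ℝ)) = X.lam ^ (-((r : ℝ) / 2)) := by
    rw [← Real.rpow_add hl0]
    congr 1
    ring
  have hP : 0 < X.lam ^ m := pow_pos hl0 m
  have hQ : 0 < X.lam ^ (-(r : ℝ)) := Real.rpow_pos_of_pos hl0 _
  have hN : (0 : ℝ) ≤ 2 * (d.N : ℝ) + 1 := by positivity
  have hn0 : (0 : ℝ) ≤ n := by positivity
  -- first term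
  have s1 : 2 * ((n : ℝ) * (2 * d.N + 1)) * (X.S.form (X.α (r - m)) (X.S.cls C.ν) : ℝ) ≤
      2 * ((n : ℝ) * (2 * d.N + 1)) * (C₁ * (X.lam ^ m * X.lam ^ (-(r : ℝ)))) := by
    rw [hpow] at g1
    exact mul_le_mul_of_nonneg_left g1 (by positivity)
  have s2 : 2 * ((n : ℝ) * (2 * d.N + 1)) * (C₁ * (X.lam ^ m * X.lam ^ (-(r : ℝ)))) ≤
      2 * ((C' * X.lam ^ ((r : ℝ) / 2)) * (2 * d.N + 1)) *
        (C₁ * (X.lam ^ m * X.lam ^ (-(r : ℝ)))) := by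
    have : 0 ≤ (2 * (d.N : ℝ) + 1) * (C₁ * (X.lam ^ m * X.lam ^ (-(r : ℝ)))) := by positivity
    nlinarith [mul_le_mul_of_nonneg_right hnC this]
  have s3 : 2 * ((C' * X.lam ^ ((r : ℝ) / 2)) * (2 * d.N + 1)) *
        (C₁ * (X.lam ^ m * X.lam ^ (-(r : ℝ)))) =
      (2 * C' * (2 * d.N + 1) * C₁ * X.lam ^ (-((r : ℝ) / 2))) * X.lam ^ m := by
    rw [← hsplit]; ring
  have s4 : (2 * C' * (2 * d.N + 1) * C₁ * X.lam ^ (-((r : ℝ) / 2))) * X.lam ^ m ≤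
      (ε / 2 * c) * X.lam ^ m := mul_le_mul_of_nonneg_right hrε hP.le
  have s5 := hm₃ m k3
  have s6 : ε * (c * X.lam ^ m) ≤ ε * (X.S.form (X.α (-(m : ℤ))) (X.S.cls C.ν) : ℝ) :=
    mul_le_mul_of_nonneg_left g2 hε.le
  linarith

end Pool.Agent.LibK3P
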