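import Pool.Agent.LibK3P.All
import Pool.Agent.LibK3.IDefs

/-!
THEOREM K3: interfaces between the blocks D, C and the final theorem (A).
-/

set_option autoImplicit false

open Pool.Agent.LibGMM Pool.Agent.LibK Pool.Agent.LibKB
open Pool.Agent.LibLB (PSurf RLR)
open Pool.Agent.LibCov80 (Over)

open Pool.Agent.LibK3

namespace Pool.Agent.LibK3P

section

variable {L : Type} [Field L] [Algebra ℂ L]

end

/-- **Block D** (from block U): if `M / L` is ramified over `B` and `C_m` lifts then `C_m` has many bad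
contacts with one of finitely many fixed curves. -/
def StatementD0 : Prop :=
  ∀ (L : Type) [Field L] [Algebra ℂ L] (X : Sys0 L) (C : RC L), X.Ent C →
    ∀ (M : Type) [Field M] [Algebra ℂ M] [Algebra L M] [IsScalarTower ℂ L M]
      [FiniteDimensional L M] (B : DVal L) (Q : DVal M) (e : ℕ), B ∈ X.S.prm → ¬ X.Per B →
      Over Q B e → 2 ≤ e →
    ∃ (W : Finset (DVal L)), (∀ T ∈ W, T ∈ X.S.prm) ∧ ∃ c K : ℝ, 0 < c ∧ ∃ m₀ : ℕ,
      ∀ m : ℕ, m₀ ≤ m → ∀ C' : RC M, C'.Lift (X.cv C m) →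
      c * X.S.form X.S.A (X.S.cls (X.cv C m).ν) - K ≤ ∑ T ∈ W, (Bad X.S (X.cv C m) T : ℝ)

/-- **Block C**: for every curve `B` and `ε > 0` there is a polynomial `F ≠ 0` such that for all large `m` the
slope of `C_m` is a root of `F` or the bad contacts of `C_m` with `B` are few. -/
def StatementC0 : Prop :=
  ∀ (L : Type) [Field L] [Algebra ℂ L] (X : Sys0 L) (C : RC L), X.Ent C →
    ∀ x y : L, AlgebraicIndependent ℂ ![x, y] → ∀ B ∈ X.S.prm, ∀ ε : ℝ, 0 < ε →
    ∃ (F : Polynomial L) (n : ℕ), F ≠ 0 ∧ F.natDegree ≤ n ∧ ∃ m₀ : ℕ, ∀ m : ℕ, m₀ ≤ m →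
      Slope (X.cv C m) x y F n ∨
        (Bad X.S (X.cv C m) B : ℝ) ≤ ε * X.S.form X.S.A (X.S.cls (X.cv C m).ν)

end Pool.Agent.LibK3P
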