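import Pool.Agent.LibK3P.All
import Pool.Agent.LibK3.U7B
import Pool.Agent.LibK3.U6
import Pool.Agent.LibK3.U6S

/-!
ROW [K3 U7].

**Lifts of `C_m` meet the prime divisor `Q` often.** Assembly of block U.

Proof. Let `S = X.S`, `H = hyp X.g` (`X.isDiv_hyp`, `X.cl_hyp`, `hyp_nonneg`), `B = bel L Q`, `d = [M : L]`. `exists_D0` gives `D₀`, `N ≥ 1`, `cl D₀ = N A`. `E := divE D₀ Q` satisfies the hypotheses of `exists_section`. By `growth` (for `B`) and `growthA` (symmetric form: `S.symm`) there is `ρ > 0`, `ρ ≤ N`, with `2 ρ d form A (α m) ≤ form (α m) (cls B)` for all `m : ℤ`. `CK` from `form_α_le X K`. `Λ₀` from `exists_section`.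
Write `a m := form A (cls (cv C m).ν)` (`= form (α (0 - m)) (cls C.ν)` by `form_H_cv` with `j = 0`, `α_zero`), and `form (α j) (cls (cv C m).ν) = form (α (j - m)) (cls C.ν)`. With `growth` for `C.ν`: `c₁ lam ^ |i| ≤ form (α i) (cls C.ν) ≤ C₁ lam ^ |i|`. So for `m ≥ j ≥ 0`: `form (α j) (cls (cv C m).ν) ≤ C₁ lam ^ (m - j) ≤ (C₁ / c₁) lam ^ (-j) a m`. Choose `j` (called `m1`) so large that
`(C₁ / c₁) lam ^ (-j) ≤ ρ / 4` and `Λ₀ ≤ form A (α j)` (`growthA`, `lam > 1`). `H' := X.H j` (`isDiv_H`; nef: `form_α_pos`; square: `form_α_sq_nonneg`). `β₀` with `1 / β₀ ≤ ρ / 4`. `exists_section` gives `β, u, s`. `D := u H + β H'`: `form (cl D) (cls (cv C m).ν) = u a m + β form (α j) (..) ≤ β (N - ρ) a m + a m + β (ρ / 4) a m ≤ β (N - ρ / 2) a m` for `m ≥ j`.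
For `m` large (`cv_avoid`) `(cv C m).ν` is not in the supports of `H`, `H'`, `D₀` (finite: `IsDiv`) and not below a `P ∈ prmM` with `P.ord s ≠ 0` (`finDivM`; `C'.ν` lies over `(cv C m).ν`: `bel_eq hl.isOver`). `sum_ineq` gives `β (N a m - ∑ᶠ) ≤ β (N - ρ / 2) a m`; divide by `β ≥ 1`: `c := ρ / 2`.
-/

set_option autoImplicit false
set_option linter.unusedSectionVars false

open Pool.Agent.LibGMM Pool.Agent.LibK Pool.Agent.LibKB
open Pool.Agent.LibLB (PSurf RLR)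
open Pool.Agent.LibCov80 (Over)
open Pool.Agent.LibCUR2

open Pool.Agent.LibK3

namespace Pool.Agent.LibK3P

variable {L : Type} [Field L] [Algebra ℂ L] {M : Type} [Field M] [Algebra ℂ M] [Algebra L M]
  [IsScalarTower ℂ L M] [FiniteDimensional L M]

theorem lift_meets (X : Sys0 L) {C₀ : RC L} (hC : X.Ent C₀) {Q : DVal M}
    (hQ : Q ∈ prmM M X.S) (hQp : ¬ X.Per (bel L Q)) :
    ∃ D₀ : DVal L → ℤ, IsDiv X.S.prm D₀ ∧ (∀ ν ∈ X.S.prm, 0 ≤ D₀ ν) ∧ 1 ≤ D₀ (bel L Q) ∧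
      ∃ c : ℝ, 0 < c ∧ ∃ m₀ : ℕ, ∀ m : ℕ, m₀ ≤ m → D₀ (X.cv C₀ m).ν = 0 ∧
        ∀ C' : RC M, C'.Lift (X.cv C₀ m) →
          c * X.S.form X.S.A (X.S.cls (X.cv C₀ m).ν) ≤
            ((∑ᶠ v ∈ {v | MeetsAt X.S (X.cv C₀ m) C' Q v}, ct X.S (X.cv C₀ m) v D₀ 1 : ℤ) : ℝ) := by
  have hB : bel L Q ∈ X.S.prm := hQ
  obtain ⟨q, N, D₀, -, hN1, hD₀, hD₀0, hD₀B, hclD₀, -⟩ := exists_D0 X.S X.isDiv_hyp X.cl_hyp hB
  have hEQ : divE D₀ Q Q = 0 := by simp [divE]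
  have hE : ∀ P ∈ prmM M X.S, P ≠ Q → divE D₀ Q P = ram L P * D₀ (bel L P) := by
    intro P _ hPQ
    simp [divE, hPQ]
  obtain ⟨d, hd⟩ : ∃ d : ℕ, d = Module.finrank L M := ⟨_, rfl⟩
  have hd1 : 1 ≤ d := by rw [hd]; exact Module.finrank_pos
  have hd0 : (0 : ℝ) < d := by exact_mod_cast hd1
  have hN0 : (1 : ℝ) ≤ N := by exact_mod_cast hN1
  have hlam := X.lam_gt
  have hlam0 : 0 < X.lam := by linarith
  obtain ⟨c₁, C₁, hc₁, _, hgB⟩ := X.growth hC.posEnt hB hQp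
  obtain ⟨cA, CA, hcA, hCA, hgA⟩ := X.growthA hC.posEnt
  obtain ⟨c₂, C₂, hc₂, hC₂, hgC⟩ := X.growth hC.posEnt hC.mem hC.not_per
  obtain ⟨ρ, hρd⟩ : ∃ ρ : ℝ, ρ = min (N : ℝ) (c₁ / (2 * d * CA)) := ⟨_, rfl⟩
  have hρ : 0 < ρ := by
    rw [hρd]; exact lt_min (by linarith) (by positivity)
  have hρN : ρ ≤ N := by rw [hρd]; exact min_le_left _ _
  have hρ2 : 2 * ρ * d * CA ≤ c₁ := by
    have h1 : ρ ≤ c₁ / (2 * d * CA) := by rw [hρd]; exact min_le_right _ _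
    rw [le_div_iff₀ (by positivity)] at h1
    linarith
  obtain ⟨k, hk⟩ := X.form_α_le X.S.K
  obtain ⟨Λ₀, hΛ₀⟩ := exists_section X.S X.isDiv_hyp X.cl_hyp hD₀ hD₀0 N hclD₀ Q hQ hD₀B
    (divE D₀ Q) hEQ hE ρ hρ hρN k
  obtain ⟨j, hj⟩ := pow_unbounded_of_one_lt (max (4 * C₂ / (c₂ * ρ)) (Λ₀ / cA)) hlam
  have hj1 : 4 * C₂ / (c₂ * ρ) ≤ X.lam ^ j := ((le_max_left _ _).trans_lt hj).le
  have hj2 : Λ₀ / cA ≤ X.lam ^ j := ((le_max_right _ _).trans_lt hj).le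
  obtain ⟨β₀, hβ₀⟩ := exists_nat_ge (4 / ρ)
  have hαj : X.S.cl (X.H j) = X.α j := rfl
  have habs : |(j : ℤ)| = j := abs_of_nonneg (Int.natCast_nonneg j)
  have hsymA : X.S.form X.S.A (X.α j) = X.S.form (X.α j) X.S.A := X.S.symm _ _
  have hAj := hgA j
  rw [habs, zpow_natCast] at hAj
  have hBj := hgB j
  rw [habs, zpow_natCast] at hBj
  obtain ⟨β, u, s, hβ1, hβ2, hu, hs0, hs⟩ := hΛ₀ (X.H j) (X.isDiv_H j)
    (fun ν hν => zero_le_one.trans (X.form_α_pos j hν)) (X.form_α_sq_nonneg j)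
    (by
      rw [hαj, hsymA]
      exact_mod_cast hk j)
    (by
      rw [hαj, hsymA, ← hd]
      calc 2 * ρ * d * (X.S.form (X.α j) X.S.A : ℝ) ≤ 2 * ρ * d * (CA * X.lam ^ j) :=
            mul_le_mul_of_nonneg_left hAj.2 (by positivity)
        _ = 2 * ρ * d * CA * X.lam ^ j := by ring
        _ ≤ c₁ * X.lam ^ j := mul_le_mul_of_nonneg_right hρ2 (by positivity)
        _ ≤ _ := hBj.1)
    (by
      rw [hαj, hsymA]
      rw [div_le_iff₀ hcA] at hj2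
      linarith [hAj.1]) β₀
  have hβpos : (1 : ℝ) ≤ β := by exact_mod_cast hβ2
  have hβρ : 1 ≤ β * (ρ / 4) := by
    have h1 : 4 / ρ ≤ (β : ℝ) := hβ₀.trans (by exact_mod_cast hβ1)
    rw [div_le_iff₀ hρ] at h1
    linarith
  obtain ⟨D, hD⟩ : ∃ D : DVal L → ℤ, D = fun ν => (u : ℤ) * hyp X.g ν + (β : ℤ) * X.H j ν :=
    ⟨_, rfl⟩
  rw [← hD] at hs
  have hDdiv : IsDiv X.S.prm D := by
    rw [hD]; exact (X.isDiv_hyp.zsmul u).add ((X.isDiv_H j).zsmul β)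
  have hclD : X.S.cl D = (u : ℤ) • X.S.A + (β : ℤ) • X.α j := by
    rw [hD, ← X.cl_hyp, ← hαj]
    unfold LibLB.PSurf.cl
    rw [LibLB.clOf_add (X.isDiv_hyp.zsmul u) ((X.isDiv_H j).zsmul β),
      LibLB.clOf_zsmul _ X.isDiv_hyp, LibLB.clOf_zsmul _ (X.isDiv_H j)]
  obtain ⟨T, hTd⟩ : ∃ T : Set (DVal L), T = {ν | ν ∈ X.S.prm ∧ D ν ≠ 0} ∪
    {ν | ν ∈ X.S.prm ∧ D₀ ν ≠ 0} ∪ (bel L '' {P | P ∈ prmM M X.S ∧ P.ord s ≠ 0}) := ⟨_, rfl⟩
  have hT : T.Finite := by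
    rw [hTd]
    exact ((show {ν | ν ∈ X.S.prm ∧ D ν ≠ 0}.Finite from hDdiv).union
      (show {ν | ν ∈ X.S.prm ∧ D₀ ν ≠ 0}.Finite from hD₀)).union
      ((finDivM X.S s hs0).image _)
  obtain ⟨m₀, hm₀⟩ := X.cv_avoid hC hT
  refine ⟨D₀, hD₀, hD₀0, hD₀B, ρ / 2, by positivity, max m₀ j, fun m hm => ?_⟩
  have hmT := hm₀ m ((le_max_left _ _).trans hm)
  have hmj : j ≤ m := (le_max_right _ _).trans hm
  have hmprm := X.cv_mem hC.mem m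
  rw [hTd] at hmT
  simp only [Set.mem_union, Set.mem_ofPred_eq, Set.mem_image, not_or, not_and, not_exists,
    not_not] at hmT
  obtain ⟨⟨hDm, hD₀m⟩, hsm⟩ := hmT
  refine ⟨hD₀m hmprm, fun C' hl => ?_⟩
  have hbel : bel L C'.ν = (X.cv C₀ m).ν := bel_eq hl.isOver
  have hC'prm : C'.ν ∈ prmM M X.S := by
    change bel L C'.ν ∈ X.S.prm
    rw [hbel]; exact hmprm
  have hsC : C'.ν.ord s = 0 := by
    by_contra hne
    exact hsm C'.ν ⟨hC'prm, hne⟩ hbel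
  have key := sum_ineq X.S hmprm hl Q hDdiv hD₀ hD₀0 β hs0 hs hsC (hDm hmprm) (hD₀m hmprm)
  obtain ⟨sg, hsg⟩ : ∃ sg : ℤ, sg = ∑ᶠ v ∈ {v | MeetsAt X.S (X.cv C₀ m) C' Q v},
    ct X.S (X.cv C₀ m) v D₀ 1 := ⟨_, rfl⟩
  obtain ⟨am, ham⟩ : ∃ am : ℤ, am = X.S.form X.S.A (X.S.cls (X.cv C₀ m).ν) := ⟨_, rfl⟩
  obtain ⟨bm, hbm⟩ : ∃ bm : ℤ, bm = X.S.form (X.α j) (X.S.cls (X.cv C₀ m).ν) := ⟨_, rfl⟩
  rw [← hsg, ← ham]
  rw [← hsg, hclD₀, hclD] at key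
  simp only [map_add, map_smul, LinearMap.add_apply, LinearMap.smul_apply, smul_eq_mul] at key
  rw [← ham, ← hbm] at key
  have key' : (β : ℝ) * (N * am - sg) ≤ u * am + β * bm := by exact_mod_cast key
  have ham' : c₂ * X.lam ^ m ≤ am := by
    have h1 := X.form_H_cv hC.mem 0 m
    rw [X.α_zero, ← ham] at h1
    have h2 := (hgC (0 - m)).1
    rw [← h1, zero_sub, abs_neg, abs_of_nonneg (Int.natCast_nonneg m), zpow_natCast] at h2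
    exact h2
  have hbm' : (bm : ℝ) ≤ C₂ * (X.lam ^ m / X.lam ^ j) := by
    have h1 := X.form_H_cv hC.mem j m
    rw [← hbm] at h1
    have h2 := (hgC (j - m)).2
    have h3 : |(j : ℤ) - m| = (m : ℤ) - j := by
      rw [abs_sub_comm, abs_of_nonneg (by omega)]
    rw [← h1, h3, zpow_sub₀ hlam0.ne', zpow_natCast, zpow_natCast] at h2
    exact h2
  have ham0 : (0 : ℝ) ≤ am := le_trans (by positivity) ham'
  have hbm2 : (bm : ℝ) ≤ ρ / 4 * am := by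
    have hlj : 0 < X.lam ^ j := by positivity
    have h1 : C₂ * (X.lam ^ m / X.lam ^ j) ≤ ρ / 4 * (c₂ * X.lam ^ m) := by
      rw [div_le_iff₀ (by positivity)] at hj1
      rw [← mul_div_assoc, div_le_iff₀ hlj]
      have h2 : 0 ≤ X.lam ^ m := by positivity
      nlinarith [mul_le_mul_of_nonneg_right hj1 h2]
    calc (bm : ℝ) ≤ _ := hbm'
      _ ≤ _ := h1
      _ ≤ _ := mul_le_mul_of_nonneg_left ham' (by positivity)
  have hfin : (β : ℝ) * (ρ / 2 * am) ≤ β * sg := by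
    have h1 : (u : ℝ) * am ≤ (β * (N - ρ) + 1) * am := mul_le_mul_of_nonneg_right hu ham0
    have h2 : (β : ℝ) * bm ≤ β * (ρ / 4 * am) :=
      mul_le_mul_of_nonneg_left hbm2 (by linarith)
    have h3 : 1 * (am : ℝ) ≤ β * (ρ / 4) * am := mul_le_mul_of_nonneg_right hβρ ham0
    nlinarith [h1, h2, h3, key']
  exact le_of_mul_le_mul_left hfin (by linarith)


end Pool.Agent.LibK3P
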