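import Pool.Agent.LibK3P.All
import Pool.Agent.LibK3.DR1
import Pool.Agent.LibK3P.U7
import Pool.Agent.LibK3P.IDefs

/-!
Block D: the counting argument, and `statementD`.
-/

set_option autoImplicit false
set_option linter.unusedSectionVars false

open Pool.Agent.LibGMM Pool.Agent.LibK Pool.Agent.LibKB
open Pool.Agent.LibLB (PSurf RLR)
open Pool.Agent.LibCov80 (Over)

open Pool.Agent.LibK3

namespace Pool.Agent.LibK3P

section

variable {L : Type} [Field L] [Algebra ℂ L]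

/-- At most `A · C₀` places of `C_m` lie over a point. -/
theorem card_over_pt (X : Sys0 L) {C₀ : RC L} (hC : C₀.ν ∈ X.S.prm) {x : Subalgebra ℂ L}
    (hx : x ∈ X.S.pts) (m : ℤ) : ∃ F : Finset Plc,
      (∀ v, v ∈ F ↔ ctr X.S (X.cv C₀ m) v = x) ∧
      F.card ≤ (X.S.form X.S.A (X.S.cls C₀.ν)).toNat := by
  classical
  by_cases hxC : x ≤ (X.cv C₀ m).ν.ring
  · obtain ⟨u, hu, hu', hu0, hfin, hle⟩ := X.mult_le hC m hx hxC
    refine ⟨hfin.toFinset, fun v => by rw [Set.Finite.mem_toFinset]; exact Iff.rfl, ?_⟩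
    have h1 : ∀ v ∈ hfin.toFinset, (1 : ℤ) ≤ ordP v ((X.cv C₀ m).ψ u) := by
      intro v hv
      rw [Set.Finite.mem_toFinset] at hv
      have hv' : ctr X.S (X.cv C₀ m) v = x := hv
      have h2 := isCtr_ctr (X.cv_mem hC m) v
      rw [hv'] at h2
      have h3 := (h2.pos u hu hu').resolve_left hu0
      omega
    have h2 : (hfin.toFinset.card : ℤ) ≤ ∑ v ∈ hfin.toFinset, ordP v ((X.cv C₀ m).ψ u) := by
      have := Finset.sum_le_sum h1
      simpa using this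
    have h3 : ∑ᶠ v ∈ {v | ctr X.S (X.cv C₀ m) v = x}, ordP v ((X.cv C₀ m).ψ u) =
        ∑ v ∈ hfin.toFinset, ordP v ((X.cv C₀ m).ψ u) := by
      refine finsum_mem_eq_finite_toFinset_sum _ hfin
    rw [h3] at hle
    omega
  · refine ⟨∅, fun v => ?_, by simp⟩
    constructor
    · intro h
      simp at h
    · intro h
      exfalso
      apply hxC
      rw [← h]
      exact (isCtr_ctr (X.cv_mem hC m) v).le

/-- Boundedly many places of `C_m` lie over a finite set of points. -/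
theorem card_over (X : Sys0 L) {C₀ : RC L} (hC : C₀.ν ∈ X.S.prm) {S₁ : Set (Subalgebra ℂ L)}
    (hS : S₁.Finite) (hS' : S₁ ⊆ X.S.pts) : ∃ K : ℕ, ∀ m : ℤ, ∃ F : Finset Plc,
      (∀ v, v ∈ F ↔ ctr X.S (X.cv C₀ m) v ∈ S₁) ∧ F.card ≤ K := by
  classical
  refine ⟨hS.toFinset.card * (X.S.form X.S.A (X.S.cls C₀.ν)).toNat, fun m => ?_⟩
  have h1 : ∀ x : Subalgebra ℂ L, ∃ F : Finset Plc, x ∈ S₁ →
      (∀ v, v ∈ F ↔ ctr X.S (X.cv C₀ m) v = x) ∧
      F.card ≤ (X.S.form X.S.A (X.S.cls C₀.ν)).toNat := by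
    intro x
    by_cases hx : x ∈ S₁
    · obtain ⟨F, hF⟩ := card_over_pt X hC (hS' hx) m
      exact ⟨F, fun _ => hF⟩
    · exact ⟨∅, fun h => absurd h hx⟩
  choose F hF using h1
  refine ⟨hS.toFinset.biUnion F, fun v => ?_, ?_⟩
  · rw [Finset.mem_biUnion]
    constructor
    · rintro ⟨x, hx, hv⟩
      rw [Set.Finite.mem_toFinset] at hx
      rw [((hF x hx).1 v).1 hv]
      exact hx
    · intro hv
      exact ⟨_, (Set.Finite.mem_toFinset _).2 hv, ((hF _ hv).1 v).2 rfl⟩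
  · refine Finset.card_biUnion_le.trans ?_
    refine (Finset.sum_le_card_nsmul _ _ _ fun x hx => (hF x ?_).2).trans ?_
    · rwa [Set.Finite.mem_toFinset] at hx
    · rw [smul_eq_mul]

open Classical in
/-- `Bad` as a sum over a finite set containing the support of the contacts. -/
theorem Bad_eq_sum {S : PSurf L} {C : RC L} {T : DVal L} {F : Finset Plc}
    (hF : ∀ v, kap S C v T ≠ 0 → v ∈ F) :
    Bad S C T = ∑ v ∈ F, if 2 ≤ kap S C v T then kap S C v T else 0 := by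
  unfold Bad
  refine finsum_eq_sum_of_support_subset _ ?_
  intro v hv
  refine hF v fun h => hv ?_
  beta_reduce
  rw [h]
  simp

theorem Bad_nonneg {S : PSurf L} {C : RC L} {T : DVal L} : 0 ≤ Bad S C T := by
  classical
  unfold Bad
  refine finsum_nonneg fun v => ?_
  split_ifs <;> omega

open Classical in
/-- The contacts with `D₀` at the places of `R` are paid by the bad contacts. -/
theorem sum_le_bad {S : PSurf L} {C : RC L} (hC : C.ν ∈ S.prm) {D₀ : DVal L → ℤ}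
    (hD : IsDiv S.prm D₀) (h0 : ∀ ν ∈ S.prm, 0 ≤ D₀ ν) (h1 : D₀ C.ν = 0) {B : DVal L}
    (hB : B ∈ S.prm) (hDB : 1 ≤ D₀ B) (R : Set Plc) (G : Finset Plc)
    (hR : ∀ v ∈ R, v ∉ G → 2 ≤ kap S C v B) :
    ∑ᶠ v ∈ R, ct S C v D₀ 1 ≤
      (∑ T ∈ hD.toFinset, D₀ T) * (2 * ∑ T ∈ hD.toFinset, Bad S C T + G.card) := by
  classical
  have hW : ∀ T, T ∈ hD.toFinset ↔ T ∈ S.prm ∧ D₀ T ≠ 0 := fun T => by
    rw [Set.Finite.mem_toFinset]
    exact Iff.rfl
  have hWC : ∀ T ∈ hD.toFinset, T ≠ C.ν := by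
    rintro T hT rfl
    exact ((hW _).1 hT).2 h1
  have hBW : B ∈ hD.toFinset := (hW B).2 ⟨hB, by omega⟩
  have hct : ∀ v, ct S C v D₀ 1 = ∑ T ∈ hD.toFinset, D₀ T * kap S C v T := by
    intro v
    rw [ct_eq_sum hC v hD h1]
    refine finsum_mem_eq_sum_of_subset _ ?_ ?_
    · rintro T ⟨hT1, hT2⟩
      rw [Finset.mem_coe, hW]
      refine ⟨hT1, fun h => hT2 ?_⟩
      change D₀ T * kap S C v T = 0
      rw [h, zero_mul]
    · intro T hT
      exact ((hW T).1 hT).1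
  -- the support
  have hfin : ∀ T ∈ hD.toFinset, {v | kap S C v T ≠ 0}.Finite := fun T hT =>
    (sum_kap hC ((hW T).1 hT).1 (hWC T hT)).1
  have hfin2 : (⋃ T ∈ hD.toFinset, {v | kap S C v T ≠ 0}).Finite :=
    Set.Finite.biUnion (Finset.finite_toSet _) hfin
  obtain ⟨F, hF⟩ : ∃ F : Finset Plc, ∀ v, v ∈ F ↔ ∃ T ∈ hD.toFinset, kap S C v T ≠ 0 := by
    refine ⟨hfin2.toFinset, fun v => ?_⟩
    rw [Set.Finite.mem_toFinset, Set.mem_iUnion₂]
    simp only [Set.mem_ofPred_eq, exists_prop]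
  have hsum : ∑ᶠ v ∈ R, ct S C v D₀ 1 = ∑ v ∈ F.filter (· ∈ R), ct S C v D₀ 1 := by
    refine finsum_mem_eq_sum_of_inter_support_eq _ ?_
    ext v
    rw [Finset.coe_filter]
    simp only [Set.mem_inter_iff, Function.mem_support, Set.mem_ofPred_eq]
    constructor
    · rintro ⟨hv1, hv2⟩
      refine ⟨⟨(hF v).2 ?_, hv1⟩, hv2⟩
      by_contra hcon
      push Not at hcon
      apply hv2
      rw [hct v]
      exact Finset.sum_eq_zero fun T hT => by rw [hcon T hT, mul_zero]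
    · rintro ⟨⟨_, hv1⟩, hv2⟩
      exact ⟨hv1, hv2⟩
  have hk0 : ∀ T ∈ hD.toFinset, ∀ v, 0 ≤ kap S C v T := fun T hT v =>
    kap_nonneg hC ((hW T).1 hT).1 (hWC T hT) v
  -- one prime
  have hT1 : ∀ T ∈ hD.toFinset, ∑ v ∈ F.filter (· ∈ R), kap S C v T ≤
      Bad S C T + Bad S C B + G.card := by
    intro T hT
    have hb : ∀ T' ∈ hD.toFinset, Bad S C T' =
        ∑ v ∈ F, if 2 ≤ kap S C v T' then kap S C v T' else 0 := fun T' hT' =>
      Bad_eq_sum fun v hv => (hF v).2 ⟨T', hT', hv⟩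
    have hb2 : ∀ T' ∈ hD.toFinset, ∑ v ∈ F.filter (· ∈ R),
        (if 2 ≤ kap S C v T' then kap S C v T' else 0) ≤ Bad S C T' := by
      intro T' hT'
      rw [hb T' hT']
      refine Finset.sum_le_sum_of_subset_of_nonneg (Finset.filter_subset _ _) fun v _ _ => ?_
      split_ifs <;> omega
    have hb3 : ∑ v ∈ F.filter (· ∈ R), (if v ∈ G then (1 : ℤ) else 0) ≤ G.card := by
      rw [Finset.sum_ite_mem, Finset.sum_const, nsmul_eq_mul, mul_one]
      exact_mod_cast Finset.card_le_card Finset.inter_subset_right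
    have h2 : ∑ v ∈ F.filter (· ∈ R), kap S C v T ≤ ∑ v ∈ F.filter (· ∈ R),
        ((if 2 ≤ kap S C v T then kap S C v T else 0) +
          (if 2 ≤ kap S C v B then kap S C v B else 0) + (if v ∈ G then (1 : ℤ) else 0)) := by
      refine Finset.sum_le_sum fun v hv => ?_
      have hvR : v ∈ R := (Finset.mem_filter.1 hv).2
      have h3 := hk0 T hT v
      have h4 := hk0 B hBW v
      have h5 := hR v hvR
      by_cases hG : v ∈ G
      · rw [if_pos hG]
        split_ifs <;> omega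
      · have h6 := h5 hG
        rw [if_neg hG, if_pos h6]
        split_ifs <;> omega
    rw [Finset.sum_add_distrib, Finset.sum_add_distrib] at h2
    have h3 := hb2 T hT
    have h4 := hb2 B hBW
    linarith
  rw [hsum]
  calc ∑ v ∈ F.filter (· ∈ R), ct S C v D₀ 1
      = ∑ T ∈ hD.toFinset, D₀ T * ∑ v ∈ F.filter (· ∈ R), kap S C v T := by
        rw [Finset.sum_congr rfl fun v _ => hct v, Finset.sum_comm]
        exact Finset.sum_congr rfl fun T _ => by rw [Finset.mul_sum]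
    _ ≤ ∑ T ∈ hD.toFinset, D₀ T * (Bad S C T + Bad S C B + G.card) := by
        refine Finset.sum_le_sum fun T hT => ?_
        exact mul_le_mul_of_nonneg_left (hT1 T hT) (h0 T ((hW T).1 hT).1)
    _ ≤ ∑ T ∈ hD.toFinset, D₀ T * (2 * ∑ T ∈ hD.toFinset, Bad S C T + G.card) := by
        refine Finset.sum_le_sum fun T hT => ?_
        refine mul_le_mul_of_nonneg_left ?_ (h0 T ((hW T).1 hT).1)
        have h2 : Bad S C T ≤ ∑ T ∈ hD.toFinset, Bad S C T :=
          Finset.single_le_sum (f := fun T => Bad S C T) (fun _ _ => Bad_nonneg) hT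
        have h3 : Bad S C B ≤ ∑ T ∈ hD.toFinset, Bad S C T :=
          Finset.single_le_sum (f := fun T => Bad S C T) (fun _ _ => Bad_nonneg) hBW
        linarith
    _ = _ := by rw [Finset.sum_mul]

end

/-- **Block D.** -/
theorem statementD0 : StatementD0 := by
  intro L _ _ X C hC M _ _ _ _ _ B Q e hB hBp hQB he
  classical
  have hbel : bel L Q = B := bel_eq hQB
  have hram : ram L Q = e := ram_eq hQB
  have hQ : Q ∈ prmM M X.S := by
    change bel L Q ∈ X.S.prm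
    rw [hbel]
    exact hB
  obtain ⟨D₀, hD, h0, h1, c, hc, m₀, hm⟩ := lift_meets X hC hQ (by rw [hbel]; exact hBp)
  obtain ⟨S₁, hS1, hS2, hS3⟩ := kap_two X.S hQ (by omega)
  obtain ⟨K, hK⟩ := card_over X hC.mem hS1 hS2
  rw [hbel] at h1 hS3
  have hW : ∀ T, T ∈ hD.toFinset ↔ T ∈ X.S.prm ∧ D₀ T ≠ 0 := fun T => by
    rw [Set.Finite.mem_toFinset]
    exact Iff.rfl
  have hBW : B ∈ hD.toFinset := (hW B).2 ⟨hB, by omega⟩
  have hσ : (1 : ℤ) ≤ ∑ T ∈ hD.toFinset, D₀ T := by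
    refine h1.trans (Finset.single_le_sum (f := fun T => D₀ T) (fun T hT => ?_) hBW)
    exact h0 T ((hW T).1 hT).1
  have hσ' : (0 : ℝ) < ((∑ T ∈ hD.toFinset, D₀ T : ℤ) : ℝ) := by
    exact_mod_cast (lt_of_lt_of_le zero_lt_one hσ)
  refine ⟨hD.toFinset, fun T hT => ((hW T).1 hT).1,
    c / (2 * ((∑ T ∈ hD.toFinset, D₀ T : ℤ) : ℝ)), K / 2, by positivity, m₀,
    fun m hm1 C' hl => ?_⟩
  obtain ⟨h2, h3⟩ := hm m hm1
  have h4 := h3 C' hl
  obtain ⟨G, hG1, hG2⟩ := hK m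
  have hCp := X.cv_mem hC.mem (m : ℤ)
  have hCB : (X.cv C (m : ℤ)).ν ≠ B := by
    intro h
    rw [h] at h2
    omega
  have h5 := sum_le_bad hCp hD h0 h2 hB h1 {v | MeetsAt X.S (X.cv C m) C' Q v} G
    fun v hv hvG => hS3 _ hCp hCB C' hl v hv fun h => hvG ((hG1 v).2 h)
  have h6 : ((∑ᶠ v ∈ {v | MeetsAt X.S (X.cv C m) C' Q v}, ct X.S (X.cv C m) v D₀ 1 : ℤ) : ℝ) ≤
      ((∑ T ∈ hD.toFinset, D₀ T : ℤ) : ℝ) *
        (2 * ∑ T ∈ hD.toFinset, (Bad X.S (X.cv C m) T : ℝ) + G.card) := by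
    exact_mod_cast h5
  have h7 : (G.card : ℝ) ≤ K := by exact_mod_cast hG2
  have h8 := h4.trans h6
  generalize ((∑ T ∈ hD.toFinset, D₀ T : ℤ) : ℝ) = σ at *
  generalize (∑ T ∈ hD.toFinset, (Bad X.S (X.cv C m) T : ℝ)) = β at *
  have h9 : c * (X.S.form X.S.A (X.S.cls (X.cv C m).ν) : ℝ) ≤ σ * (2 * β + K) :=
    h8.trans (mul_le_mul_of_nonneg_left (by linarith) hσ'.le)
  rw [div_mul_eq_mul_div, sub_le_iff_le_add, div_le_iff₀ (by positivity)]
  linarith

end Pool.Agent.LibK3P
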