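import Pool.Agent.LibK3.N26
import Pool.Agent.LibK3P.Base

set_option autoImplicit false

open Pool.Agent.LibGMM Pool.Agent.LibK Pool.Agent.LibKB
open Pool.Agent.LibLB (PSurf RLR)
open Pool.Agent.LibCov80 (Over)
open Pool.Agent.LibK3

namespace Pool.Agent.LibK3P

private theorem P14_min {ι : Type} [Finite ι] [Nonempty ι] (f : ι → ℤ) (c : ℤ) :
    (⨅ i, (f i - c)) = (⨅ i, f i) - c := by
  obtain ⟨i1, hi1⟩ := Finite.exists_min f
  have h1 : (⨅ i, f i) = f i1 :=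
    le_antisymm (ciInf_le (Finite.bddBelow_range _) i1) (le_ciInf hi1)
  have h2 : (⨅ i, (f i - c)) = f i1 - c :=
    le_antisymm (ciInf_le (Finite.bddBelow_range _) i1) (le_ciInf fun i => by
      have := hi1 i
      omega)
  rw [h1, h2]

private theorem P14_ess {L : Type} [Field L] [Algebra ℂ L] (γ : L ≃ₐ[ℂ] L) {x : Subalgebra ℂ L}
    {ν : DVal L} (h : ν ∈ LibKB.Ess x) : mv γ ν ∈ LibKB.Ess (x.map (γ : L →ₐ[ℂ] L)) := by
  obtain ⟨h1, h2⟩ := h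
  refine ⟨?_, ?_⟩
  · rintro _ ⟨z, hz, rfl⟩
    show 0 ≤ ν.ord (γ.symm (γ z))
    rw [AlgEquiv.symm_apply_apply]
    exact h1 hz
  · intro f hf
    obtain ⟨a, ha, b, hb, hb0, hbo, hab⟩ := h2 (γ.symm f) hf
    refine ⟨γ a, ⟨a, ha, rfl⟩, γ b, ⟨b, hb, rfl⟩, ?_, ?_, ?_⟩
    · exact (map_ne_zero γ).2 hb0
    · show ν.ord (γ.symm (γ b)) = 0
      rw [AlgEquiv.symm_apply_apply]
      exact hbo
    · rw [← map_div₀, ← hab, AlgEquiv.apply_symm_apply]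

/-- The system of a surface with an automorphism.
PLAN. As `LibK3/N26.lean` (`exists_sys`), without the relation. -/
theorem exists_sys0 {L : Type} [Field L] [Algebra ℂ L] {Y : NormalModel L}
    (hY : LibL.IsSmoothSurface Y) {γ : L ≃ₐ[ℂ] L}
    (h1 : ∀ x ∈ LibLB.closedPts Y, x.map (γ : L →ₐ[ℂ] L) ∈ LibLB.closedPts Y)
    (h2 : ∀ x ∈ LibLB.closedPts Y, x.map (γ.symm : L →ₐ[ℂ] L) ∈ LibLB.closedPts Y) :
    ∃ X : Sys0 L, X.S.prm = primes Y ∧ X.S.pts = LibLB.closedPts Y ∧ X.γ = γ ∧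
      ∃ (e : X.ι ≃ Y.ι) (i₀ : Y.ι), ∀ i, X.g i = (Y.g (e i) : L) / Y.g i₀ := by
  obtain ⟨B, hB, hpts⟩ := LibCUR.exists_data Y hY
  haveI := Y.fin
  haveI := Y.ne
  obtain ⟨i₀⟩ := Y.ne
  obtain ⟨g₀, hg₀'⟩ : ∃ g₀ : L, g₀ = (Y.g i₀ : L) := ⟨_, rfl⟩
  have hg₀ : g₀ ≠ 0 := by
    rw [hg₀']
    exact (Y.g i₀).ne_zero
  obtain ⟨g, hgd⟩ : ∃ g : Y.ι → L, g = fun i => (Y.g i : L) / g₀ := ⟨_, rfl⟩
  have hg : ∀ i, g i ≠ 0 := by
    intro i
    rw [hgd]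
    exact div_ne_zero (Y.g i).ne_zero hg₀
  have hone : g i₀ = 1 := by
    rw [hgd, hg₀']
    exact div_self (Y.g i₀).ne_zero
  have hcrd : ∀ i, crd g i = chart Y.g i := by
    intro i
    have h1 : (fun j => g j / g i) = fun j => (Y.g j : L) / (Y.g i : L) := by
      funext j
      rw [hgd]
      exact div_div_div_cancel_right₀ hg₀ _ _
    rw [crd, chart, h1]
  have hhyp : ∀ ν : DVal L, hyp g ν = hypZ Y ν + ν.ord g₀ := by
    intro ν
    have h1 : (fun i => ν.ord (g i)) = fun i => ν.ord (Y.g i : L) - ν.ord g₀ := by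
      funext i
      rw [hgd]
      show ν.ord ((Y.g i : L) / g₀) = _
      rw [div_eq_mul_inv, ν.ord_mul _ _ (Y.g i).ne_zero (inv_ne_zero hg₀), ν.ord_inv]
      ring
    rw [hyp, hypZ, h1, P14_min]
    ring
  have hdiv : IsDiv B.prm (hyp g) := by
    have h1 : IsDiv B.prm (fun ν => B.A ν + ν.ord g₀) :=
      B.divA.add (LibKB2.isDiv_ord B.finDiv hg₀)
    refine h1.subset ?_
    rintro ν ⟨h2, h3⟩
    refine ⟨h2, ?_⟩
    show B.A ν + ν.ord g₀ ≠ 0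
    rw [hhyp] at h3
    rw [hB.A ν (by rw [← hB.prm]; exact h2)]
    exact h3
  have hcl : B.toPSurf.cl (hyp g) = B.toPSurf.A := by
    show LibLB.clOf B.prm B.cls (hyp g) = B.cla ⟨B.A, B.divA⟩
    rw [show LibLB.clOf B.prm B.cls (hyp g) = B.cla ⟨hyp g, hdiv⟩ from B.clOf_eq ⟨hyp g, hdiv⟩,
      B.cla_eq]
    refine ⟨g₀⁻¹, inv_ne_zero hg₀, fun ν hν => ?_⟩
    show B.A ν = hyp g ν + ν.ord g₀⁻¹
    rw [hhyp, hB.A ν (by rw [← hB.prm]; exact hν), ν.ord_inv]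
    ring
  have hgen : ∀ x ∈ B.pts, ∃ i, crd g i ≤ x ∧ ∀ z ∈ x, ∃ u ∈ crd g i, ∃ v ∈ crd g i,
      v ≠ 0 ∧ v⁻¹ ∈ x ∧ z = u / v := by
    intro x hx
    rw [hpts] at hx
    obtain ⟨p, -, rfl⟩ := hx
    have h1 : (1 : chart Y.g p.i) ∉ p.P := fun h1 => p.prime.ne_top ((Ideal.eq_top_iff_one _).2 h1)
    refine ⟨p.i, ?_, ?_⟩
    · rw [hcrd]
      intro z hz
      exact ⟨⟨z, hz⟩, 1, h1, by simp⟩
    · rintro z ⟨u, v, hv, rfl⟩
      rw [hcrd]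
      have hv0 : (v : L) ≠ 0 := by
        intro h2
        apply hv
        have h3 : v = 0 := Subtype.ext h2
        rw [h3]
        exact p.P.zero_mem
      exact ⟨u, u.2, v, v.2, hv0, ⟨1, v, hv, by simp⟩, rfl⟩
  have hprm : ∀ δ : L ≃ₐ[ℂ] L, (∀ x ∈ B.pts, x.map (δ : L →ₐ[ℂ] L) ∈ B.pts) →
      ∀ ν ∈ B.prm, mv δ ν ∈ B.prm := by
    intro δ hδ ν hν
    obtain ⟨x, hx, hxν⟩ := (B.infPts ν hν).nonempty
    have h1 : ν ∈ LibKB.Ess x := (B.ess x hx ν).2 ⟨hν, hxν⟩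
    exact ((B.ess _ (hδ x hx) _).1 (P14_ess δ h1)).1
  have hp1 : ∀ x ∈ B.pts, x.map (γ : L →ₐ[ℂ] L) ∈ B.pts := by
    rw [hpts]
    exact h1
  have hp2 : ∀ x ∈ B.pts, x.map (γ.symm : L →ₐ[ℂ] L) ∈ B.pts := by
    rw [hpts]
    exact h2
  refine ⟨{ S := B.toPSurf
            ι := Y.ι
            fin := Y.fin
            ne := Y.ne
            g := g
            g_ne := hg
            one := ⟨i₀, hone⟩
            isDiv_hyp := hdiv
            cl_hyp := hcl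
            gen := hgen
            frac := by
              intro i z
              obtain ⟨u, hu, v, hv, hv0, hz⟩ := Y.frac i z
              rw [hcrd]
              exact ⟨u, hu, v, hv, hv0, hz⟩
            γ := γ
            perm := ⟨hprm γ hp1, hprm γ.symm hp2, hp1, hp2⟩
            }, hB.prm, hpts, rfl, Equiv.refl _, i₀, ?_⟩
  have hgi : ∀ i : Y.ι, g i = (Y.g i : L) / Y.g i₀ := by
    intro i
    rw [hgd, hg₀']
  exact hgi

end Pool.Agent.LibK3P
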