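import Pool.Agent.LibK3P.Base

set_option autoImplicit false

open Pool.Agent.LibGMM Pool.Agent.LibK Pool.Agent.LibKB
open Pool.Agent.LibLB (PSurf RLR)
open Pool.Agent.LibCov80 (Over)
open Pool.Agent.LibK3

namespace Pool.Agent.LibK3P

private theorem P15_ord_div {L : Type} [Field L] [Algebra ℂ L] (ν : DVal L) {a b : L} (ha : a ≠ 0)
    (hb : b ≠ 0) : ν.ord (a / b) = ν.ord a - ν.ord b := by
  have h1 : ν.ord (a / b * b) = ν.ord (a / b) + ν.ord b := ν.ord_mul _ _ (div_ne_zero ha hb) hb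
  rw [div_mul_cancel₀ a hb] at h1
  omega

private theorem P15_inf {L : Type} [Field L] [Algebra ℂ L] (X : Sys0 L) (ν : DVal L) {i : X.ι}
    (hi : ∀ j, X.g j / X.g i ∈ ν.ring) : ⨅ j, ν.ord (X.g j) = ν.ord (X.g i) := by
  have := X.fin
  have := X.ne
  refine le_antisymm (ciInf_le (Set.finite_range fun j => ν.ord (X.g j)).bddBelow i)
    (le_ciInf fun j => ?_)
  have h1 : 0 ≤ ν.ord (X.g j / X.g i) := hi j
  rw [P15_ord_div ν (X.g_ne j) (X.g_ne i)] at h1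
  omega

/-- **The degree of a rational curve in the embedding.** If `C` lies on the chart `i₀` and `E v` is the maximal pole order at `v` of the functions `g j / g i₀` restricted to `C`
then `form A C = ∑ E v`.
PLAN. `deg_eq` for `D = hyp X.g` (class `A`) and `c := X.g i₀`: `C.ν.ord (g i₀) = - hyp C.ν` because all `g j / g i₀` are in `C.ν.ring`. At `v` with centre `x` and index `i` of `X.gen`: `(g i)⁻¹` is a local
equation of `hyp` at `x`, so `ct v = ordP v (ψ (g i₀ / g i))` (`ct_eq`). All `g j / g i ∈ x`: with `z j := ψ (g j / g i₀)`, `z j = ψ (g j / g i) * z i` and `ordP v (ψ (g j / g i)) ≥ 0`, `ψ (g i₀ / g i) = (z i)⁻¹`, so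
`- ordP v (z i) = ct v` is the maximum of the `- ordP v (z j)` over the `j` with `z j ≠ 0`: equal to `E v`. -/
theorem form_A_eq {L : Type} [Field L] [Algebra ℂ L] (X : Sys0 L) {C : RC L} (hC : C.ν ∈ X.S.prm)
    {i₀ : X.ι} (hi : ∀ j, X.g j / X.g i₀ ∈ C.ν.ring) {E : Plc → ℤ}
    (h1 : ∀ v j, C.ψ (X.g j / X.g i₀) ≠ 0 → - E v ≤ ordP v (C.ψ (X.g j / X.g i₀)))
    (h2 : ∀ v, ∃ j, C.ψ (X.g j / X.g i₀) ≠ 0 ∧ ordP v (C.ψ (X.g j / X.g i₀)) = - E v) :
    X.S.form X.S.A (X.S.cls C.ν) = ∑ᶠ v, E v := by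
  have hc : X.g i₀ ≠ 0 := X.g_ne i₀
  have hcD : C.ν.ord (X.g i₀) = - hyp X.g C.ν := by
    unfold hyp
    rw [neg_neg, P15_inf X C.ν hi]
  have h := deg_eq hC X.isDiv_hyp hc hcD
  rw [X.cl_hyp] at h
  rw [← h]
  refine finsum_congr fun v => ?_
  have hx := isCtr_ctr hC v
  obtain ⟨i, hi', -⟩ := X.gen _ hx.pts
  have hmem : ∀ j, X.g j / X.g i ∈ ctr X.S C v := fun j => hi' (Algebra.subset_adjoin ⟨j, rfl⟩)
  have hloc : LocEqn X.S.prm (ctr X.S C v) (hyp X.g) (X.g i)⁻¹ := by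
    refine ⟨inv_ne_zero (X.g_ne i), fun ν hν hxν => ?_⟩
    unfold hyp
    rw [ord_inv ν (X.g_ne i), P15_inf X ν fun j => hxν (hmem j)]
  obtain ⟨h3, h4⟩ := ct_eq hC hx X.isDiv_hyp hloc hc hcD
  rw [← div_eq_mul_inv] at h3 h4
  have h5 : C.ψ (X.g i / X.g i₀) * C.ψ (X.g i₀ / X.g i) = 1 := by
    rw [← C.mul _ (hi i) _ (hx.le (hmem i₀)), div_mul_div_comm, mul_comm (X.g i),
      div_self (mul_ne_zero hc (X.g_ne i)), psi_one]
  have h6 : C.ψ (X.g i / X.g i₀) ≠ 0 := fun h6 => by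
    rw [h6, zero_mul] at h5
    exact zero_ne_one h5
  have h7 := ordP_mul v h6 h4
  rw [h5, ← map_one (RatFunc.C (K := ℂ)), LibK3.ordP_C] at h7
  refine le_antisymm ?_ ?_
  · have h8 := h1 v i h6
    rw [h3]
    omega
  · obtain ⟨j, hj, hj'⟩ := h2 v
    have h8 : X.g j / X.g i₀ = X.g j / X.g i * (X.g i / X.g i₀) := by
      rw [div_mul_div_cancel₀ (X.g_ne i)]
    rw [h8, C.mul _ (hx.le (hmem j)) _ (hi i)] at hj hj'
    have h9 : C.ψ (X.g j / X.g i) ≠ 0 := left_ne_zero_of_mul hj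
    rw [ordP_mul v h9 h6] at hj'
    have h10 := hx.nonneg _ (hmem j)
    rw [h3]
    omega

end Pool.Agent.LibK3P
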