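import Pool.Agent.LibK3P.P10
import Pool.Agent.LibK3P.P14
import Pool.Agent.LibK3P.P15
import Pool.Agent.LibK3P.PDefs

/-! The system of a surface with an automorphism and a rational curve whose degrees grow. -/

set_option autoImplicit false

open Pool.Agent.LibGMM Pool.Agent.LibK Pool.Agent.LibKB
open Pool.Agent.LibLB (PSurf RLR)
open Pool.Agent.LibCov80 (Over)
open Pool.Agent.LibK3

namespace Pool.Agent.LibK3P

theorem exists_ent {L : Type} [Field L] [Algebra ℂ L] {Y : NormalModel L} {γ : L ≃ₐ[ℂ] L}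
    (hY : Dyn0 Y γ) {C₀ : RC L} (hC₀ : C₀.ν ∈ primes Y) (hG : Grow Y γ C₀) :
    ∃ X : Sys0 L, X.S.prm = primes Y ∧ X.S.pts = LibLB.closedPts Y ∧ X.γ = γ ∧ X.Ent C₀ := by
  obtain ⟨X, h1, h2, rfl, e, i₁, h3⟩ := exists_sys0 hY.smooth hY.pts hY.pts'
  refine ⟨X, h1, h2, rfl, ?_, ?_⟩
  · rw [h1]; exact hC₀
  obtain ⟨μ, c, hμ, hc, hgr⟩ := hG
  refine ⟨μ, c, hμ, hc, fun m => ?_⟩
  obtain ⟨d, ⟨i₀, E, k1, k2, k3, k4⟩, hd⟩ := hgr m
  have hcv : X.cv C₀ m = C₀.mv (X.γ ^ m) := by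
    unfold Sys0.cv
    rw [zpow_natCast]
  have hmem : (X.cv C₀ m).ν ∈ X.S.prm := by
    refine X.cv_mem ?_ m
    rw [h1]; exact hC₀
  have hq : ∀ j : Y.ι, (Y.g j : L) / Y.g i₀ = X.g (e.symm j) / X.g (e.symm i₀) := by
    intro j
    rw [h3, h3, e.apply_symm_apply, e.apply_symm_apply]
    have h0 : (Y.g i₁ : L) ≠ 0 := by
      intro h0
      exact X.g_ne (e.symm i₁) (by rw [h3, h0, div_zero])
    rw [div_div_div_cancel_right₀ h0]
  rw [← hcv] at k1 k2 k3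
  have key := form_A_eq X hmem (i₀ := e.symm i₀) (E := E)
    (fun j => by
      have := k1 (e j)
      rwa [hq, e.symm_apply_apply] at this)
    (fun v j h => by
      have h5 := k2 v (e j)
      rw [hq, e.symm_apply_apply] at h5
      exact h5 h)
    (fun v => by
      obtain ⟨j, h5, h6⟩ := k3 v
      rw [hq] at h5 h6
      exact ⟨e.symm j, h5, h6⟩)
  rw [key, k4]
  exact hd

end Pool.Agent.LibK3P
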