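import Pool.Agent.LibK3P.P12
import Pool.Agent.LibK3P.PF0

/-! `StatementNC`, `StatementFin`. -/

set_option autoImplicit false

open Pool.Agent.LibGMM Pool.Agent.LibK Pool.Agent.LibKB
open Pool.Agent.LibLB (PSurf RLR)
open Pool.Agent.LibCov80 (Over)
open Pool.Agent.LibK3

namespace Pool.Agent.LibK3P

theorem statementNC : StatementNC := by
  intro L _ _ Y γ hY C₀ hC₀ hG z hz
  obtain ⟨X, h1, h2, rfl, hE⟩ := exists_ent hY hC₀ hG
  obtain ⟨m₀, hm₀⟩ := X.cv_nonconst hE hz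
  refine ⟨m₀, fun m hm => ?_⟩
  have h3 := hm₀ m hm
  have hcv : X.cv C₀ m = C₀.mv (X.γ ^ m) := by
    unfold Sys0.cv
    rw [zpow_natCast]
  rw [hcv] at h3
  exact h3

theorem statementFin : StatementFin := by
  intro L _ _ Y γ hY C₀ hC₀ hG z hz
  obtain ⟨X, h1, h2, rfl, hE⟩ := exists_ent hY hC₀ hG
  obtain ⟨m₀, hm₀⟩ := X.cv_avoid hE (X.S.finDiv z hz)
  refine ⟨m₀, fun m hm => ?_⟩
  have hcv : X.cv C₀ m = C₀.mv (X.γ ^ m) := by
    unfold Sys0.cv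
    rw [zpow_natCast]
  have h3 := hm₀ m hm
  have h4 := X.cv_mem hE.mem (m : ℤ)
  rw [hcv] at h3 h4
  by_contra hcon
  exact h3 ⟨h4, hcon⟩

end Pool.Agent.LibK3P
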