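import Pool.Agent.LibK3P.Base

set_option autoImplicit false

open Pool.Agent.LibGMM Pool.Agent.LibK Pool.Agent.LibKB
open Pool.Agent.LibLB (PSurf RLR)
open Pool.Agent.LibCov80 (Over)
open Pool.Agent.LibK3

namespace Pool.Agent.LibK3P

section

variable {L : Type} [Field L] [Algebra ℂ L] {S : PSurf L}


/-- PLAN. If `form B u = 0`, `form B B > 0` then `form u u ≤ 0`: put `w := (form A u) • B - (form A B) • u`, `form A w = 0`, so `form w w ≤ 0` (`LibCUR2.hodge`),
`form w w = (form A u)² form B B + (form A B)² form u u`, and `form A B ≠ 0` (otherwise `form B B ≤ 0` by `hodge`). -/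
theorem neg_of_orth {B : S.Λ} (hB : 0 < S.form B B) {u : S.Λ} (hu : S.form B u = 0) :
    S.form u u ≤ 0 := by
  have hAB : S.form S.A B ≠ 0 := by
    intro h0
    rcases Pool.Agent.LibCUR2.hodge S h0 with h1 | h1
    · omega
    · have := h1 B
      omega
  have hsq : 0 < S.form S.A B ^ 2 := by positivity
  have hw : S.form S.A (S.form S.A u • B - S.form S.A B • u) = 0 := by
    simp only [map_sub, map_smul, smul_eq_mul]
    ring
  have huB : S.form u B = 0 := by rw [S.symm u B]; exact hu
  have hww : S.form (S.form S.A u • B - S.form S.A B • u) (S.form S.A u • B - S.form S.A B • u) =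
      S.form S.A u ^ 2 * S.form B B + S.form S.A B ^ 2 * S.form u u := by
    simp only [map_sub, map_smul, smul_eq_mul, LinearMap.sub_apply, LinearMap.smul_apply, hu, huB]
    ring
  have hle : S.form S.A u ^ 2 * S.form B B + S.form S.A B ^ 2 * S.form u u ≤ 0 := by
    rw [← hww]
    rcases Pool.Agent.LibCUR2.hodge S hw with h1 | h1
    · exact h1.le
    · exact (h1 _).le
  have h3 : 0 ≤ S.form S.A u ^ 2 * S.form B B := mul_nonneg (sq_nonneg _) hB.le
  by_contra hcon
  push Not at hcon
  have := mul_pos hsq hcon
  linarith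

/-- Cauchy-Schwarz on the orthogonal complement of `B`.
PLAN. `form (s u + t v) (s u + t v) ≤ 0` for all integers `s, t` (`neg_of_orth`): discriminant; e.g. `s = form v v`, `t = - form u v` if `form v v < 0`; if
`form v v = 0` and `form u u = 0`: `± 2 form u v ≤ 0`; the case `form v v = 0`, `form u u < 0` by symmetry. -/
theorem cs {B : S.Λ} (hB : 0 < S.form B B) {u v : S.Λ} (hu : S.form B u = 0)
    (hv : S.form B v = 0) : S.form u v ^ 2 ≤ S.form u u * S.form v v := by
  have key : ∀ s t : ℤ, s ^ 2 * S.form u u + 2 * (s * t) * S.form u v + t ^ 2 * S.form v v ≤ 0 := by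
    intro s t
    have h1 : S.form B (s • u + t • v) = 0 := by
      simp only [map_add, map_smul, hu, hv, smul_zero, add_zero]
    have h2 := neg_of_orth hB h1
    have h3 : S.form (s • u + t • v) (s • u + t • v) =
        s ^ 2 * S.form u u + 2 * (s * t) * S.form u v + t ^ 2 * S.form v v := by
      simp only [map_add, map_smul, smul_eq_mul, LinearMap.add_apply, LinearMap.smul_apply,
        S.symm v u]
      ring
    rw [h3] at h2
    exact h2
  have hu0 : S.form u u ≤ 0 := neg_of_orth hB hu
  have hv0 : S.form v v ≤ 0 := neg_of_orth hB hv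
  set a := S.form u u
  set b := S.form u v
  set c := S.form v v
  rcases hv0.lt_or_eq with hc | hc
  · have h1 := key c (-b)
    have h2 : c * (a * c - b ^ 2) ≤ 0 := by linarith [h1, (by ring :
      c ^ 2 * a + 2 * (c * -b) * b + (-b) ^ 2 * c = c * (a * c - b ^ 2))]
    by_contra hcon
    push Not at hcon
    have h3 : 0 < c * (a * c - b ^ 2) := mul_pos_of_neg_of_neg hc (by linarith)
    linarith
  · rw [hc, mul_zero]
    by_contra hcon
    push Not at hcon
    have hb1 : 1 ≤ b ^ 2 := hcon
    have h1 := key 1 ((1 - a) * b)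
    rw [hc] at h1
    have h2 : 2 * (1 - a) * b ^ 2 + a ≤ 0 := by linarith [h1, (by ring :
      1 ^ 2 * a + 2 * (1 * ((1 - a) * b)) * b + ((1 - a) * b) ^ 2 * 0 = 2 * (1 - a) * b ^ 2 + a)]
    have h3 : 2 * (1 - a) * 1 ≤ 2 * (1 - a) * b ^ 2 :=
      mul_le_mul_of_nonneg_left hb1 (by linarith)
    linarith

/-- PLAN. `u' := (form B B) • u - (form B u) • B` is orthogonal to `B`. -/
theorem sq_le {B : S.Λ} (hB : 0 < S.form B B) (u : S.Λ) :
    S.form B B * S.form u u ≤ S.form B u ^ 2 := by
  have h1 : S.form B (S.form B B • u - S.form B u • B) = 0 := by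
    simp only [map_sub, map_smul, smul_eq_mul]
    ring
  have h2 := neg_of_orth hB h1
  have h3 : S.form (S.form B B • u - S.form B u • B) (S.form B B • u - S.form B u • B) =
      S.form B B * (S.form B B * S.form u u - S.form B u ^ 2) := by
    simp only [map_sub, map_smul, smul_eq_mul, LinearMap.sub_apply, LinearMap.smul_apply,
      S.symm u B]
    ring
  rw [h3] at h2
  by_contra hcon
  push Not at hcon
  have := mul_pos hB (sub_pos.2 hcon)
  linarith

/-- Cauchy-Schwarz for the components orthogonal to `B`, without division: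
`(B² (u.v) - (B.u)(B.v))² ≤ ((B.u)² - B² u²) ((B.v)² - B² v²)`.
PLAN. `cs` for `(B²) u - (B.u) B` and `(B²) v - (B.v) B`; divide by `B² * B²`. -/
theorem cs_comp {B : S.Λ} (hB : 0 < S.form B B) (u v : S.Λ) :
    (S.form B B * S.form u v - S.form B u * S.form B v) ^ 2 ≤
      (S.form B u ^ 2 - S.form B B * S.form u u) * (S.form B v ^ 2 - S.form B B * S.form v v) := by
  have h1 : S.form B (S.form B B • u - S.form B u • B) = 0 := by
    simp only [map_sub, map_smul, smul_eq_mul]
    ring
  have h2 : S.form B (S.form B B • v - S.form B v • B) = 0 := by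
    simp only [map_sub, map_smul, smul_eq_mul]
    ring
  have h3 := cs hB h1 h2
  have e1 : S.form (S.form B B • u - S.form B u • B) (S.form B B • u - S.form B u • B) =
      S.form B B * (S.form B B * S.form u u - S.form B u ^ 2) := by
    simp only [map_sub, map_smul, smul_eq_mul, LinearMap.sub_apply, LinearMap.smul_apply,
      S.symm u B]
    ring
  have e2 : S.form (S.form B B • v - S.form B v • B) (S.form B B • v - S.form B v • B) =
      S.form B B * (S.form B B * S.form v v - S.form B v ^ 2) := by
    simp only [map_sub, map_smul, smul_eq_mul, LinearMap.sub_apply, LinearMap.smul_apply,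
      S.symm v B]
    ring
  have e3 : S.form (S.form B B • u - S.form B u • B) (S.form B B • v - S.form B v • B) =
      S.form B B * (S.form B B * S.form u v - S.form B u * S.form B v) := by
    simp only [map_sub, map_smul, smul_eq_mul, LinearMap.sub_apply, LinearMap.smul_apply,
      S.symm u B]
    ring
  rw [e1, e2, e3] at h3
  have hB2 : 0 < S.form B B ^ 2 := by positivity
  refine le_of_mul_le_mul_left ?_ hB2
  nlinarith [h3]

end

end Pool.Agent.LibK3P
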