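import Mathlib

set_option autoImplicit false

namespace Pool.Agent.LibK3P

private lemma geom_cauchy {x : ℕ → ℝ} {q A : ℝ} (hq1 : q < 1)
    (h : ∀ m, |x (m + 1) - x m| ≤ A * q ^ m) :
    ∃ L : ℝ, Filter.Tendsto x Filter.atTop (nhds L) ∧ ∀ m, |x m - L| ≤ A * q ^ m / (1 - q) := by
  have hd : ∀ n, dist (x n) (x (n + 1)) ≤ A * q ^ n := by
    intro n
    rw [dist_comm, Real.dist_eq]
    exact h n
  obtain ⟨L, hL⟩ := cauchySeq_tendsto_of_complete (cauchySeq_of_le_geometric q A hq1 hd)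
  refine ⟨L, hL, fun m => ?_⟩
  have := dist_le_of_le_geometric_of_tendsto q A hq1 hd hL m
  rwa [Real.dist_eq] at this

private lemma sqrt_lower {x y z : ℝ} (hz : 0 < z) (hx : z ≤ x) (hy : z ≤ y) :
    z ≤ Real.sqrt (x * y) := by
  rw [Real.le_sqrt' hz]
  nlinarith [mul_le_mul hx hy hz.le (hz.le.trans hx)]

private lemma div_le_geom {K s c μ : ℝ} {m : ℕ} (hc : 0 < c) (hμ : 1 < μ)
    (hs : c * μ ^ m ≤ s) : K / s ≤ |K| / c * (μ⁻¹) ^ m := by
  have hμ0 : 0 < μ := by linarith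
  have hpos : 0 < c * μ ^ m := by positivity
  have hs0 : 0 < s := lt_of_lt_of_le hpos hs
  calc K / s ≤ |K| / s := by
        apply div_le_div_of_nonneg_right (le_abs_self K) hs0.le
    _ ≤ |K| / (c * μ ^ m) := by
        apply div_le_div_of_nonneg_left (abs_nonneg K) hpos hs
    _ = |K| / c * (μ⁻¹) ^ m := by
        rw [inv_pow]
        field_simp

private lemma abs_log_le {t k : ℝ} (ht : 0 < t) (hk : 1 / t ≤ k) :
    |Real.log t| ≤ (1 + k) * |t - 1| := by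
  have h1 : Real.log t ≤ t - 1 := Real.log_le_sub_one_of_pos ht
  have h2 : -Real.log t ≤ 1 / t - 1 := by
    have := Real.log_le_sub_one_of_pos (x := 1 / t) (by positivity)
    rwa [one_div, Real.log_inv, ← one_div] at this
  have hk0 : 0 < k := lt_of_lt_of_le (by positivity) hk
  have h3 : 1 / t - 1 ≤ k * |t - 1| := by
    have e : 1 / t - 1 = (1 / t) * (1 - t) := by field_simp
    rw [e]
    calc (1 / t) * (1 - t) ≤ (1 / t) * |t - 1| := by
          apply mul_le_mul_of_nonneg_left _ (by positivity)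
          rw [abs_sub_comm]
          exact le_abs_self _
      _ ≤ k * |t - 1| := mul_le_mul_of_nonneg_right hk (abs_nonneg _)
  have h4 : t - 1 ≤ |t - 1| := le_abs_self _
  have h5 : 0 ≤ |t - 1| := abs_nonneg _
  have h6 : 0 ≤ k * |t - 1| := by positivity
  rw [abs_le]
  constructor
  · nlinarith
  · nlinarith

/-- The analytic lemma: almost constant ratios.
PLAN. `r m := Λ m / Λ (m + 1)`, `|r (m+1) - r m| ≤ K / √(Λ (m+1) * Λ (m+2)) ≤ K' μ^(-m)` (as `Λ m ≥ c μ^m`), so `r` is Cauchy with limit `r∞`, and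
`|r m - r∞| ≤ K'' μ^(-m)`. `r m ≥ 1 / k`, so `r∞ ≥ 1 / k > 0`. `∑ |r m / r∞ - 1| < ∞`, so the products `∏_{m < n} (r m / r∞)` stay between two positive constants
(`Real.multipliable...` or: `log (r m / r∞)` is summable: `|log x| ≤ 2 |x - 1|` for `x` near `1`; bounded partial sums). `Λ n = Λ 0 / ∏_{m<n} r m`, so
`Λ n * r∞^n` lies between two positive constants: with `l := 1 / r∞`: `c' l^n ≤ Λ n ≤ C' l^n`. `l > 1`: otherwise `Λ n ≤ C'` is bounded, against `Λ n ≥ c μ^n`. -/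
theorem growth_of_ratio {Λ : ℕ → ℝ} {c μ K k : ℝ} (hc : 0 < c) (hμ : 1 < μ) (hk : 0 < k)
    (h1 : ∀ m, c * μ ^ m ≤ Λ m) (h2 : ∀ m, Λ (m + 1) ≤ k * Λ m)
    (h3 : ∀ m, |Λ (m + 1) / Λ (m + 2) - Λ m / Λ (m + 1)| ≤ K / Real.sqrt (Λ (m + 1) * Λ (m + 2))) :
    ∃ l c' C' : ℝ, 1 < l ∧ 0 < c' ∧ 0 < C' ∧ ∀ m, c' * l ^ m ≤ Λ m ∧ Λ m ≤ C' * l ^ m := by
  have hμ0 : 0 < μ := by linarith
  have hpos : ∀ m, 0 < Λ m := fun m => lt_of_lt_of_le (by positivity) (h1 m)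
  have hq0 : 0 < μ⁻¹ := by positivity
  have hq1 : μ⁻¹ < 1 := inv_lt_one_of_one_lt₀ hμ
  have hmono : ∀ m n : ℕ, m ≤ n → c * μ ^ m ≤ Λ n := by
    intro m n hmn
    refine le_trans ?_ (h1 n)
    apply mul_le_mul_of_nonneg_left _ hc.le
    exact pow_le_pow_right₀ hμ.le hmn
  obtain ⟨r, hr⟩ : ∃ r : ℕ → ℝ, r = fun m => Λ m / Λ (m + 1) := ⟨_, rfl⟩
  have hrm : ∀ m, r m = Λ m / Λ (m + 1) := fun m => by rw [hr]
  have hstep : ∀ m, |r (m + 1) - r m| ≤ |K| / c * (μ⁻¹) ^ m := by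
    intro m
    rw [hrm, hrm]
    refine le_trans (h3 m) ?_
    apply div_le_geom hc hμ
    exact sqrt_lower (by positivity) (hmono m (m + 1) (by omega)) (hmono m (m + 2) (by omega))
  obtain ⟨L, hL, hLm⟩ := geom_cauchy hq1 hstep
  have hrk : ∀ m, 1 / k ≤ r m := by
    intro m
    rw [hrm, div_le_div_iff₀ hk (hpos _)]
    have := h2 m
    linarith
  have hLk : 1 / k ≤ L := ge_of_tendsto' hL hrk
  have hL0 : 0 < L := lt_of_lt_of_le (by positivity) hLk
  have hr0 : ∀ m, 0 < r m := fun m => lt_of_lt_of_le (by positivity) (hrk m)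
  have hlogstep : ∀ n, |Real.log (Λ (n + 1) * L ^ (n + 1)) - Real.log (Λ n * L ^ n)| ≤
      ((1 + k * L) * (|K| / c / (1 - μ⁻¹) / L)) * (μ⁻¹) ^ n := by
    intro n
    have hΛ := hpos n
    have hΛ1 := hpos (n + 1)
    have e1 : Real.log (Λ (n + 1) * L ^ (n + 1)) - Real.log (Λ n * L ^ n) =
        - Real.log (r n / L) := by
      rw [← Real.log_div (by positivity) (by positivity), ← Real.log_inv]
      congr 1
      rw [hrm]
      field_simp
      ring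
    rw [e1, abs_neg]
    have hrn := hr0 n
    have ht : 0 < r n / L := by positivity
    have hk' : 1 / (r n / L) ≤ k * L := by
      rw [one_div, inv_div, div_le_iff₀ hrn]
      have := hrk n
      rw [div_le_iff₀ hk] at this
      nlinarith
    refine le_trans (abs_log_le ht hk') ?_
    have e2 : |r n / L - 1| = |r n - L| / L := by
      have : r n / L - 1 = (r n - L) / L := by field_simp
      rw [this, abs_div, abs_of_pos hL0]
    rw [e2, mul_assoc]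
    apply mul_le_mul_of_nonneg_left _ (by positivity)
    have h4 := hLm n
    calc |r n - L| / L ≤ (|K| / c * μ⁻¹ ^ n / (1 - μ⁻¹)) / L :=
          div_le_div_of_nonneg_right h4 hL0.le
      _ = |K| / c / (1 - μ⁻¹) / L * μ⁻¹ ^ n := by ring
  obtain ⟨M, -, hM⟩ := geom_cauchy (x := fun n => Real.log (Λ n * L ^ n)) hq1 hlogstep
  obtain ⟨E, hE⟩ : ∃ E : ℝ, E = ((1 + k * L) * (|K| / c / (1 - μ⁻¹) / L)) / (1 - μ⁻¹) :=
    ⟨_, rfl⟩
  have h1q : 0 < 1 - μ⁻¹ := by linarith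
  have hE0 : 0 ≤ ((1 + k * L) * (|K| / c / (1 - μ⁻¹) / L)) := by positivity
  have hbd : ∀ m, |Real.log (Λ m * L ^ m) - M| ≤ E := by
    intro m
    refine le_trans (hM m) ?_
    rw [hE]
    apply div_le_div_of_nonneg_right _ h1q.le
    have : μ⁻¹ ^ m ≤ 1 := pow_le_one₀ hq0.le hq1.le
    exact mul_le_of_le_one_right hE0 this
  have hfin : ∀ m, Real.exp (M - E) * (L⁻¹) ^ m ≤ Λ m ∧ Λ m ≤ Real.exp (M + E) * (L⁻¹) ^ m := by
    intro m
    have hm := abs_le.mp (hbd m)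
    have ha : 0 < Λ m * L ^ m := mul_pos (hpos m) (by positivity)
    have hlo : Real.exp (M - E) ≤ Λ m * L ^ m := by
      rw [← Real.le_log_iff_exp_le ha]
      linarith [hm.1]
    have hhi : Λ m * L ^ m ≤ Real.exp (M + E) := by
      rw [← Real.log_le_iff_le_exp ha]
      linarith [hm.2]
    have hLp : 0 < (L⁻¹) ^ m := by positivity
    have e : Λ m = (Λ m * L ^ m) * (L⁻¹) ^ m := by
      rw [mul_assoc, ← mul_pow, mul_inv_cancel₀ hL0.ne', one_pow, mul_one]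
    constructor
    · rw [e]
      exact mul_le_mul_of_nonneg_right hlo hLp.le
    · rw [e]
      exact mul_le_mul_of_nonneg_right hhi hLp.le
  refine ⟨L⁻¹, Real.exp (M - E), Real.exp (M + E), ?_, Real.exp_pos _, Real.exp_pos _, hfin⟩
  by_contra hcon
  have hl1 : L⁻¹ ≤ 1 := not_lt.mp hcon
  obtain ⟨n, hn⟩ := pow_unbounded_of_one_lt (Real.exp (M + E) / c) hμ
  have h5 := (hfin n).2
  have h6 := h1 n
  have h7 : (L⁻¹) ^ n ≤ 1 := pow_le_one₀ (by positivity) hl1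
  have h8 : Real.exp (M + E) < μ ^ n * c := by
    rwa [div_lt_iff₀ hc] at hn
  have h9 : Real.exp (M + E) * (L⁻¹) ^ n ≤ Real.exp (M + E) :=
    mul_le_of_le_one_right (Real.exp_pos _).le h7
  linarith

/-- PLAN. `s m := b m / Λ m` is Cauchy, `|s (m+1) - s m| ≤ K' l^(-m)`; the limit `θ` satisfies `|s m - θ| ≤ K'' l^(-m)`, multiply by `Λ m ≤ C' l^m`. -/
theorem limit_of_ratio {Λ b : ℕ → ℝ} {l c C K : ℝ} (hl : 1 < l) (hc : 0 < c) (hC : 0 < C)
    (h1 : ∀ m, c * l ^ m ≤ Λ m ∧ Λ m ≤ C * l ^ m)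
    (h3 : ∀ m, |b (m + 1) / Λ (m + 1) - b m / Λ m| ≤ K / Real.sqrt (Λ m * Λ (m + 1))) :
    ∃ θ K' : ℝ, ∀ m, |b m - Λ m * θ| ≤ K' := by
  have hl0 : 0 < l := by linarith
  have hpos : ∀ m, 0 < Λ m := fun m => lt_of_lt_of_le (by positivity) (h1 m).1
  have hq0 : 0 < l⁻¹ := by positivity
  have hq1 : l⁻¹ < 1 := inv_lt_one_of_one_lt₀ hl
  have hmono : ∀ m n : ℕ, m ≤ n → c * l ^ m ≤ Λ n := by
    intro m n hmn
    refine le_trans ?_ (h1 n).1
    apply mul_le_mul_of_nonneg_left _ hc.le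
    exact pow_le_pow_right₀ hl.le hmn
  have hstep : ∀ m, |(fun n => b n / Λ n) (m + 1) - (fun n => b n / Λ n) m| ≤
      |K| / c * (l⁻¹) ^ m := by
    intro m
    refine le_trans (h3 m) ?_
    apply div_le_geom hc hl
    exact sqrt_lower (by positivity) (hmono m m le_rfl) (hmono m (m + 1) (by omega))
  obtain ⟨θ, -, hθ⟩ := geom_cauchy (x := fun n => b n / Λ n) hq1 hstep
  refine ⟨θ, C * (|K| / c / (1 - l⁻¹)), fun m => ?_⟩
  have hΛ := hpos m
  have h1q : 0 < 1 - l⁻¹ := by linarith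
  have e : b m - Λ m * θ = Λ m * (b m / Λ m - θ) := by
    field_simp
  rw [e, abs_mul, abs_of_pos hΛ]
  have hlm : l ^ m * (l⁻¹) ^ m = 1 := by
    rw [← mul_pow, mul_inv_cancel₀ hl0.ne', one_pow]
  calc Λ m * |b m / Λ m - θ| ≤ (C * l ^ m) * (|K| / c * (l⁻¹) ^ m / (1 - l⁻¹)) := by
        apply mul_le_mul (h1 m).2 (hθ m) (abs_nonneg _) (by positivity)
    _ = C * (|K| / c / (1 - l⁻¹)) * (l ^ m * (l⁻¹) ^ m) := by ring
    _ = C * (|K| / c / (1 - l⁻¹)) := by rw [hlm, mul_one]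

end Pool.Agent.LibK3P
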