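import Pool.Agent.LibK3P.P04
import Pool.Agent.LibK3P.P05
import Pool.Agent.LibK3P.P06

section

set_option autoImplicit false

open Pool.Agent.LibGMM Pool.Agent.LibK Pool.Agent.LibKB
open Pool.Agent.LibLB (PSurf RLR)
open Pool.Agent.LibCov80 (Over)
open Pool.Agent.LibK3

namespace Pool.Agent.LibK3P

namespace Sys0

variable {L : Type} [Field L] [Algebra ℂ L] (X : Sys0 L)

/-- The Cauchy-Schwarz estimate for consecutive classes.
PLAN. Let `a = Λ_m`, `b = Λ_(m+1)` (positive integers, `Λ_m := form (α m) A`), `y := a • α (m+1) - b • α m`: `form A y = 0`,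
`form y y = (a² + b²) A² - 2 a b Λ_1` (`form_α_α'`), and `- form y y ≤ 2 a b Λ_1`. `β' := A² • β - (form A β) • A` is orthogonal to `A`, `form y β' = A² form y β`.
`cs`: `(A² form y β)² ≤ 2 a b Λ_1 * (- form β' β')`. Divide by `a b`: `|form (α (m+1)) β / b - form (α m) β / a| = |form y β| / (a b) ≤ K / √(a b)`. -/
theorem ratio_le (β : X.S.Λ) : ∃ K : ℝ, ∀ m : ℤ,
    |(X.S.form (X.α (m + 1)) β : ℝ) / X.S.form (X.α (m + 1)) X.S.A -
      (X.S.form (X.α m) β : ℝ) / X.S.form (X.α m) X.S.A| ≤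
    K / Real.sqrt ((X.S.form (X.α m) X.S.A : ℝ) * X.S.form (X.α (m + 1)) X.S.A) := by
  have hs1 : (1 : ℤ) ≤ X.S.form X.S.A X.S.A := by
    have h := X.A_sq_pos
    omega
  obtain ⟨s, hs⟩ : ∃ s : ℤ, s = X.S.form X.S.A X.S.A := ⟨_, rfl⟩
  rw [← hs] at hs1
  obtain ⟨Q, hQ⟩ : ∃ Q : ℤ, Q = X.S.form X.S.A β ^ 2 - s * X.S.form β β := ⟨_, rfl⟩
  have hQ0 : 0 ≤ Q := by
    have h := sq_le X.A_sq_pos β
    rw [← hs] at h
    rw [hQ]
    linarith
  obtain ⟨t, ht⟩ : ∃ t : ℤ, t = X.S.form (X.α 1) X.S.A := ⟨_, rfl⟩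
  have ht1 : 1 ≤ t := by
    rw [ht]
    exact X.one_le_form_α_A 1
  refine ⟨Real.sqrt (2 * t * Q), fun m => ?_⟩
  obtain ⟨a, ha⟩ : ∃ a : ℤ, a = X.S.form (X.α m) X.S.A := ⟨_, rfl⟩
  obtain ⟨b, hb⟩ : ∃ b : ℤ, b = X.S.form (X.α (m + 1)) X.S.A := ⟨_, rfl⟩
  have ha1 : 1 ≤ a := by
    rw [ha]
    exact X.one_le_form_α_A m
  have hb1 : 1 ≤ b := by
    rw [hb]
    exact X.one_le_form_α_A (m + 1)
  rw [← ha, ← hb]
  obtain ⟨p, hp⟩ : ∃ p : ℤ, p = X.S.form (X.α (m + 1)) β := ⟨_, rfl⟩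
  obtain ⟨q, hq⟩ : ∃ q : ℤ, q = X.S.form (X.α m) β := ⟨_, rfl⟩
  rw [← hp, ← hq]
  have haa : X.S.form (X.α m) (X.α m) = s := by
    rw [X.form_α_α', sub_self, X.α_zero, hs]
  have hbb : X.S.form (X.α (m + 1)) (X.α (m + 1)) = s := by
    rw [X.form_α_α', sub_self, X.α_zero, hs]
  have hba : X.S.form (X.α (m + 1)) (X.α m) = t := by
    rw [X.form_α_α', show m + 1 - m = 1 by ring, ht]
  have hab : X.S.form (X.α m) (X.α (m + 1)) = t := by
    rw [X.S.symm, hba]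
  have hAa : X.S.form X.S.A (X.α m) = a := by
    rw [X.S.symm, ha]
  have hAb : X.S.form X.S.A (X.α (m + 1)) = b := by
    rw [X.S.symm, hb]
  have key := cs_comp X.A_sq_pos (a • X.α (m + 1) - b • X.α m) β
  simp only [map_sub, map_zsmul, LinearMap.sub_apply, LinearMap.smul_apply, smul_eq_mul,
    haa, hbb, hba, hab, hAa, hAb, ← hs, ← hp, ← hq] at key
  rw [← hQ] at key
  have h1 : (s * (a * p - b * q)) ^ 2 ≤ s * (2 * a * b * t) * Q := by
    have h2 : (a * b - b * a) ^ 2 - s * (a * (a * s - b * t) - b * (a * t - b * s)) ≤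
        s * (2 * a * b * t) := by
      have h3 : 0 ≤ s * (s * (a ^ 2 + b ^ 2)) := by positivity
      nlinarith
    have h4 : (s * (a * p - b * q) - (a * b - b * a) * X.S.form X.S.A β) ^ 2 =
        (s * (a * p - b * q)) ^ 2 := by ring
    calc (s * (a * p - b * q)) ^ 2
        = (s * (a * p - b * q) - (a * b - b * a) * X.S.form X.S.A β) ^ 2 := h4.symm
      _ ≤ ((a * b - b * a) ^ 2 - s * (a * (a * s - b * t) - b * (a * t - b * s))) * Q := key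
      _ ≤ s * (2 * a * b * t) * Q := mul_le_mul_of_nonneg_right h2 hQ0
  have h5 : (a * p - b * q) ^ 2 ≤ 2 * t * Q * (a * b) := by
    have h6 : s ^ 2 * (a * p - b * q) ^ 2 ≤ s ^ 2 * (2 * t * Q * (a * b)) := by
      have h7 : 0 ≤ 2 * t * Q * (a * b) := by positivity
      have h8 : s * (2 * t * Q * (a * b)) ≤ s ^ 2 * (2 * t * Q * (a * b)) := by
        have : s ≤ s ^ 2 := by nlinarith
        exact mul_le_mul_of_nonneg_right this h7
      calc s ^ 2 * (a * p - b * q) ^ 2 = (s * (a * p - b * q)) ^ 2 := by ring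
        _ ≤ s * (2 * a * b * t) * Q := h1
        _ = s * (2 * t * Q * (a * b)) := by ring
        _ ≤ _ := h8
    exact le_of_mul_le_mul_left h6 (by positivity)
  have haR : (0 : ℝ) < a := by exact_mod_cast (by omega : 0 < a)
  have hbR : (0 : ℝ) < b := by exact_mod_cast (by omega : 0 < b)
  have h9 : (p : ℝ) / b - q / a = (a * p - b * q) / (a * b) := by
    field_simp
  have h5R : ((a : ℝ) * p - b * q) ^ 2 ≤ 2 * t * Q * (a * b) := by exact_mod_cast h5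
  have h10 : ((p : ℝ) / b - q / a) ^ 2 ≤ 2 * t * Q / (a * b) := by
    rw [h9, div_pow, div_le_div_iff₀ (by positivity) (by positivity)]
    have h11 : (0 : ℝ) < a * b := by positivity
    calc ((a : ℝ) * p - b * q) ^ 2 * (a * b) ≤ 2 * t * Q * (a * b) * (a * b) :=
          mul_le_mul_of_nonneg_right h5R h11.le
      _ = 2 * t * Q * (a * b) ^ 2 := by ring
  have h12 := Real.abs_le_sqrt h10
  rw [Real.sqrt_div' _ (by positivity)] at h12
  exact h12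

/-- The same for negative indices. PLAN. The same proof, or `ratio_le` at `- m - 1` and `form_α_neg`. -/
theorem ratio_le_neg (β : X.S.Λ) : ∃ K : ℝ, ∀ m : ℤ,
    |(X.S.form (X.α (-(m + 1))) β : ℝ) / X.S.form (X.α (m + 1)) X.S.A -
      (X.S.form (X.α (-m)) β : ℝ) / X.S.form (X.α m) X.S.A| ≤
    K / Real.sqrt ((X.S.form (X.α m) X.S.A : ℝ) * X.S.form (X.α (m + 1)) X.S.A) := by
  obtain ⟨K, hK⟩ := X.ratio_le β
  refine ⟨K, fun m => ?_⟩
  have h := hK (-(m + 1))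
  rw [show -(m + 1) + 1 = -m by ring, X.form_α_neg m, X.form_α_neg (m + 1), abs_sub_comm,
    mul_comm] at h
  exact h

/-- PLAN. `growth_of_ratio` for `Λ m := form (α m) A`, `m : ℕ`: `h3` is `ratio_le` for `β := α 1` (`form (α (m+1)) (α 1) = Λ_m`, `form_α_α'`);
`h2`: `k A - α 1` effective (`exists_bpf`), so `Λ_(m+1) = form (α (m+1)) A = form (α m) (α (-1)) ≤ k form (α m) A`: use `form_α_le` for `β := α (-1)`. Negative `m`: `form_α_neg`. -/
theorem exists_isLam (h : X.PosEnt) : ∃ l, X.IsLam l := by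
  obtain ⟨μ, c, hμ, hc, h1⟩ := h
  obtain ⟨k, hk⟩ := X.form_α_le (X.α (-1))
  obtain ⟨K, hK⟩ := X.ratio_le (X.α 1)
  have h2 : ∀ m : ℕ, (X.S.form (X.α ((m + 1 : ℕ) : ℤ)) X.S.A : ℝ) ≤
      (k + 1 : ℝ) * X.S.form (X.α (m : ℤ)) X.S.A := by
    intro m
    have h3 := hk (m : ℤ)
    rw [X.form_α_α', show (m : ℤ) - -1 = ((m + 1 : ℕ) : ℤ) by push_cast; ring] at h3
    have h4 := (le_abs_self _).trans h3
    have h5 := X.one_le_form_α_A (m : ℤ)
    have h6 : X.S.form (X.α ((m + 1 : ℕ) : ℤ)) X.S.A ≤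
        ((k : ℤ) + 1) * X.S.form (X.α (m : ℤ)) X.S.A := by nlinarith
    exact_mod_cast h6
  have h3 : ∀ m : ℕ, |(X.S.form (X.α ((m + 1 : ℕ) : ℤ)) X.S.A : ℝ) /
        X.S.form (X.α ((m + 2 : ℕ) : ℤ)) X.S.A -
      (X.S.form (X.α (m : ℤ)) X.S.A : ℝ) / X.S.form (X.α ((m + 1 : ℕ) : ℤ)) X.S.A| ≤
      K / Real.sqrt ((X.S.form (X.α ((m + 1 : ℕ) : ℤ)) X.S.A : ℝ) *
        X.S.form (X.α ((m + 2 : ℕ) : ℤ)) X.S.A) := by
    intro m
    have h4 := hK ((m + 1 : ℕ) : ℤ)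
    rw [X.form_α_α' (((m + 1 : ℕ) : ℤ) + 1) 1, X.form_α_α' ((m + 1 : ℕ) : ℤ) 1,
      show ((m + 1 : ℕ) : ℤ) + 1 - 1 = ((m + 1 : ℕ) : ℤ) by ring,
      show ((m + 1 : ℕ) : ℤ) - 1 = (m : ℤ) by push_cast; ring,
      show ((m + 1 : ℕ) : ℤ) + 1 = ((m + 2 : ℕ) : ℤ) by push_cast; ring] at h4
    exact h4
  obtain ⟨l, c', C', hl, hc', hC', h4⟩ := growth_of_ratio
    (Λ := fun m : ℕ => (X.S.form (X.α (m : ℤ)) X.S.A : ℝ)) (k := (k + 1 : ℝ)) hc hμ
    (by positivity) h1 h2 h3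
  refine ⟨l, hl, c', C', hc', hC', fun m => ?_⟩
  have h5 := h4 m.natAbs
  have h6 : l ^ |m| = l ^ m.natAbs := by
    rw [← Int.natCast_natAbs, zpow_natCast]
  have h7 : X.S.form (X.α ((m.natAbs : ℕ) : ℤ)) X.S.A = X.S.form (X.α m) X.S.A := by
    rcases Int.natAbs_eq m with h8 | h8
    · rw [← h8]
    · conv_rhs => rw [h8]
      rw [X.form_α_neg]
  simp only [h7] at h5
  rw [h6]
  exact h5

theorem isLam_lam (h : X.PosEnt) : X.IsLam X.lam := by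
  have h1 := X.exists_isLam h
  unfold lam
  rw [dif_pos h1]
  exact h1.choose_spec

theorem lam_gt : 1 < X.lam := by
  unfold lam
  split_ifs with h1
  · exact h1.choose_spec.1
  · norm_num

/-- PLAN. `isLam_lam`. -/
theorem growthA (h : X.PosEnt) : ∃ c C : ℝ, 0 < c ∧ 0 < C ∧ ∀ m : ℤ,
    c * X.lam ^ |m| ≤ X.S.form (X.α m) X.S.A ∧
      (X.S.form (X.α m) X.S.A : ℝ) ≤ C * X.lam ^ |m| := by
  exact (X.isLam_lam h).2

/-- PLAN. `limit_of_ratio`, `ratio_le`. -/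
theorem exists_theta (h : X.PosEnt) (β : X.S.Λ) : ∃ θ K : ℝ, ∀ m : ℕ,
    |(X.S.form (X.α m) β : ℝ) - X.S.form (X.α m) X.S.A * θ| ≤ K := by
  obtain ⟨hl, c, C, hc, hC, h1⟩ := X.isLam_lam h
  obtain ⟨K, hK⟩ := X.ratio_le β
  refine limit_of_ratio (Λ := fun m : ℕ => (X.S.form (X.α (m : ℤ)) X.S.A : ℝ))
    (b := fun m : ℕ => (X.S.form (X.α (m : ℤ)) β : ℝ)) (K := K) hl hc hC (fun m => ?_)
    (fun m => ?_)
  · have h2 := h1 (m : ℤ)
    rw [Nat.abs_cast, zpow_natCast] at h2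
    exact h2
  · have h2 := hK (m : ℤ)
    have h3 : ((m + 1 : ℕ) : ℤ) = (m : ℤ) + 1 := by push_cast; ring
    simp only [h3]
    exact h2

theorem exists_theta_neg (h : X.PosEnt) (β : X.S.Λ) : ∃ θ K : ℝ, ∀ m : ℕ,
    |(X.S.form (X.α (-m)) β : ℝ) - X.S.form (X.α m) X.S.A * θ| ≤ K := by
  obtain ⟨hl, c, C, hc, hC, h1⟩ := X.isLam_lam h
  obtain ⟨K, hK⟩ := X.ratio_le_neg β
  refine limit_of_ratio (Λ := fun m : ℕ => (X.S.form (X.α (m : ℤ)) X.S.A : ℝ))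
    (b := fun m : ℕ => (X.S.form (X.α (-(m : ℤ))) β : ℝ)) (K := K) hl hc hC (fun m => ?_)
    (fun m => ?_)
  · have h2 := h1 (m : ℤ)
    rw [Nat.abs_cast, zpow_natCast] at h2
    exact h2
  · have h2 := hK (m : ℤ)
    have h3 : ((m + 1 : ℕ) : ℤ) = (m : ℤ) + 1 := by push_cast; ring
    simp only [h3]
    exact h2

end Sys0

end Pool.Agent.LibK3P

end

section

set_option autoImplicit false

open Pool.Agent.LibGMM Pool.Agent.LibK Pool.Agent.LibKB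
open Pool.Agent.LibLB (PSurf RLR)
open Pool.Agent.LibCov80 (Over)
open Pool.Agent.LibK3

namespace Pool.Agent.LibK3P

private theorem P08_real {b p x t y a2 Q C n : ℝ} (hn : 0 < n) (hb : 0 < b) (hp : 0 ≤ p)
    (hC : 0 < C) (hbp : 8 * C * p ≤ b) (hx : n ≤ x) (ht0 : 0 ≤ t) (ht : t ≤ 2 * C * n)
    (hy : -(n * Q) ≤ y) (ha : 0 ≤ a2) (hsq : 0 ≤ t ^ 2 - b * y)
    (hcs : (b * x - p * t) ^ 2 ≤ (p ^ 2 - b * a2) * (t ^ 2 - b * y)) :
    n * b ≤ 2 * (p ^ 2 * Q) := by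
  have hnb : 0 < n * b := mul_pos hn hb
  have h1 : p * t ≤ n * b / 4 := by
    have e1 : p * t ≤ p * (2 * C * n) := mul_le_mul_of_nonneg_left ht hp
    have e2 : 8 * C * p * n ≤ b * n := mul_le_mul_of_nonneg_right hbp hn.le
    linarith
  have h2 : b * n ≤ b * x := mul_le_mul_of_nonneg_left hx hb.le
  have h3 : 3 / 4 * (n * b) ≤ b * x - p * t := by linarith
  have h4 : (3 / 4 * (n * b)) ^ 2 ≤ (b * x - p * t) ^ 2 := pow_le_pow_left₀ (by positivity) h3 2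
  have h5 : (p ^ 2 - b * a2) * (t ^ 2 - b * y) ≤ p ^ 2 * (t ^ 2 - b * y) :=
    mul_le_mul_of_nonneg_right (by linarith [mul_nonneg hb.le ha]) hsq
  have h6 : t ^ 2 ≤ (2 * C * n) ^ 2 := pow_le_pow_left₀ ht0 ht 2
  have h7 : b * -(n * Q) ≤ b * y := mul_le_mul_of_nonneg_left hy hb.le
  have h8 : p ^ 2 * (t ^ 2 - b * y) ≤ p ^ 2 * ((2 * C * n) ^ 2 + b * (n * Q)) :=
    mul_le_mul_of_nonneg_left (by linarith) (sq_nonneg p)
  have h9 : (8 * C * p) ^ 2 ≤ b ^ 2 := pow_le_pow_left₀ (by positivity) hbp 2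
  have h10 : (8 * C * p) ^ 2 * n ^ 2 ≤ b ^ 2 * n ^ 2 :=
    mul_le_mul_of_nonneg_right h9 (sq_nonneg n)
  have h11 : (n * b) * (n * b) ≤ (n * b) * (2 * (p ^ 2 * Q)) := by
    have e1 := h4.trans (hcs.trans (h5.trans h8))
    nlinarith
  exact le_of_mul_le_mul_left h11 hnb

namespace Sys0

variable {L : Type} [Field L] [Algebra ℂ L] (X : Sys0 L)

private theorem P08_per {ν : DVal L} {a b : ℤ} (hab : a < b)
    (h : mv (X.γ ^ a) ν = mv (X.γ ^ b) ν) : X.Per ν := by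
  refine ⟨(b - a).toNat, by omega, ?_⟩
  have h1 := congrArg (mv (X.γ ^ (-a))) h
  rw [← mv_mul, ← mv_mul, ← zpow_add, ← zpow_add, neg_add_cancel, zpow_zero, mv_one] at h1
  have h2 : ((b - a).toNat : ℤ) = -a + b := by omega
  rw [← zpow_natCast, h2]
  exact h1.symm

private theorem P08_inj {ν : DVal L} (h : ¬ X.Per ν) {a b : ℤ}
    (hab : mv (X.γ ^ a) ν = mv (X.γ ^ b) ν) : a = b := by
  rcases lt_trichotomy a b with h1 | h1 | h1
  · exact absurd (P08_per X h1 hab) h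
  · exact h1
  · exact absurd (P08_per X h1 hab.symm) h

/-- The two classes used. -/
private theorem P08_B (N : ℕ) :
    X.S.form (X.α N + X.α (-N)) (X.α N + X.α (-N)) =
      2 * X.S.form X.S.A X.S.A + 2 * X.S.form (X.α (2 * N)) X.S.A ∧
    X.S.form (X.α N + X.α (-N)) X.S.A = 2 * X.S.form (X.α N) X.S.A := by
  have h1 := X.form_α_α' N N
  have h2 := X.form_α_α' N (-N)
  have h3 := X.form_α_α' (-N) N
  have h4 := X.form_α_α' (-N) (-N)
  have h5 := X.form_α_neg (2 * N)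
  have h6 := X.form_α_neg N
  rw [sub_self, X.α_zero] at h1
  rw [sub_self, X.α_zero] at h4
  have e2 : (N : ℤ) - -N = 2 * N := by ring
  have e3 : -(N : ℤ) - N = -(2 * N) := by ring
  rw [e2] at h2
  rw [e3, h5] at h3
  constructor
  · rw [LinearMap.map_add₂, map_add, map_add, h1, h2, h3, h4]
    ring
  · rw [LinearMap.map_add₂, h6]
    ring

private theorem P08_sum {T : ℕ → DVal L} (hT : ∀ i, T i ∈ X.S.prm)
    (hinj : Function.Injective T) {Q : ℤ}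
    (hQ : ∀ i, -Q ≤ X.S.form (X.S.cls (T i)) (X.S.cls (T i))) (N n : ℕ) :
    -(n * Q) ≤ X.S.form (∑ i ∈ Finset.range n, X.S.cls (T (N + i)))
      (∑ i ∈ Finset.range n, X.S.cls (T (N + i))) := by
  have h1 : X.S.form (∑ i ∈ Finset.range n, X.S.cls (T (N + i)))
      (∑ i ∈ Finset.range n, X.S.cls (T (N + i))) =
      ∑ i ∈ Finset.range n, ∑ j ∈ Finset.range n,
        X.S.form (X.S.cls (T (N + i))) (X.S.cls (T (N + j))) := by
    rw [LinearMap.map_sum₂]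
    exact Finset.sum_congr rfl fun i _ => map_sum _ _ _
  have h2 : ∑ i ∈ Finset.range n, -Q ≤ ∑ i ∈ Finset.range n, ∑ j ∈ Finset.range n,
      X.S.form (X.S.cls (T (N + i))) (X.S.cls (T (N + j))) := by
    refine Finset.sum_le_sum fun i hi => ?_
    rw [← Finset.add_sum_erase _ _ hi]
    have h3 : 0 ≤ ∑ j ∈ (Finset.range n).erase i,
        X.S.form (X.S.cls (T (N + i))) (X.S.cls (T (N + j))) := by
      refine Finset.sum_nonneg fun j hj => ?_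
      refine LibCUR2.C1' X.S (hT _) (hT _) fun h4 => ?_
      have h5 := hinj h4
      exact (Finset.ne_of_mem_erase hj) (by omega)
    linarith [hQ (N + i)]
  rw [h1]
  refine le_trans (le_of_eq ?_) h2
  rw [Finset.sum_const, Finset.card_range, nsmul_eq_mul]
  ring

private theorem P08_core (h : X.PosEnt) {T : ℕ → DVal L} (hT : ∀ i, T i ∈ X.S.prm)
    (hinj : Function.Injective T) {Q : ℤ} (hQ0 : 0 ≤ Q)
    (hQ : ∀ i, -Q ≤ X.S.form (X.S.cls (T i)) (X.S.cls (T i))) {C : ℝ}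
    (hb : ∀ N i : ℕ, N ≤ i → (X.S.form (X.α N) (X.S.cls (T i)) : ℝ) ≤ C ∧
      (X.S.form (X.α (-N)) (X.S.cls (T i)) : ℝ) ≤ C) : False := by
  obtain ⟨c₁, C₁, hc₁, hC₁, hΛ⟩ := X.growthA h
  have hl := X.lam_gt
  have hl0 : 0 < X.lam := zero_lt_one.trans hl
  have hC : 0 < C := by
    have h1 : (1 : ℝ) ≤ X.S.form (X.α ((0 : ℕ) : ℤ)) (X.S.cls (T 0)) := by
      exact_mod_cast X.form_α_pos ((0 : ℕ) : ℤ) (hT 0)
    linarith [(hb 0 0 le_rfl).1]
  obtain ⟨N, hN⟩ := pow_unbounded_of_one_lt (8 * C * C₁ / c₁) hl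
  obtain ⟨hBB, hBA⟩ := P08_B X N
  set B := X.α N + X.α (-N) with hBdef
  -- numbers
  have hA1 : (0 : ℝ) < X.S.form X.S.A X.S.A := by exact_mod_cast X.A_sq_pos
  have hpN := hΛ (N : ℤ)
  have hp2N := hΛ (2 * (N : ℤ))
  have e1 : |(N : ℤ)| = ((N : ℕ) : ℤ) := abs_of_nonneg (by positivity)
  have e2 : |2 * (N : ℤ)| = ((2 * N : ℕ) : ℤ) := by
    rw [abs_of_nonneg (by positivity)]
    push_cast
    ring
  rw [e1, zpow_natCast] at hpN
  rw [e2, zpow_natCast] at hp2N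
  have hBBr : ((X.S.form B B : ℤ) : ℝ) =
      2 * (X.S.form X.S.A X.S.A : ℝ) + 2 * (X.S.form (X.α (2 * N)) X.S.A : ℝ) := by
    rw [hBB]
    push_cast
    ring
  have hBAr : ((X.S.form B X.S.A : ℤ) : ℝ) = 2 * (X.S.form (X.α N) X.S.A : ℝ) := by
    rw [hBA]
    push_cast
    ring
  have hpow : 0 < X.lam ^ N := pow_pos hl0 N
  have hp0 : (0 : ℝ) ≤ X.S.form B X.S.A := by
    rw [hBAr]
    have := (mul_pos hc₁ hpow).le.trans hpN.1
    linarith
  have hbpos : (0 : ℝ) < X.S.form B B := by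
    rw [hBBr]
    have := (mul_pos hc₁ (pow_pos hl0 (2 * N))).le.trans hp2N.1
    linarith
  have hbp : 8 * C * (X.S.form B X.S.A : ℝ) ≤ X.S.form B B := by
    rw [hBBr, hBAr]
    have h1 : 8 * C * C₁ ≤ c₁ * X.lam ^ N := by
      have := (div_lt_iff₀ hc₁).mp hN
      linarith
    have h2 : 8 * C * C₁ * X.lam ^ N ≤ c₁ * X.lam ^ N * X.lam ^ N :=
      mul_le_mul_of_nonneg_right h1 hpow.le
    have h3 : X.lam ^ (2 * N) = X.lam ^ N * X.lam ^ N := by rw [two_mul, pow_add]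
    have h4 : 8 * C * (2 * (X.S.form (X.α N) X.S.A : ℝ)) ≤ 8 * C * (2 * (C₁ * X.lam ^ N)) := by
      have := hpN.2
      gcongr
    have h5 := hp2N.1
    rw [h3] at h5
    linarith
  have hBpos : 0 < X.S.form B B := by exact_mod_cast hbpos
  obtain ⟨n, hn⟩ := exists_nat_gt (2 * ((X.S.form B X.S.A : ℝ) ^ 2 * Q) / X.S.form B B)
  have hn0 : (0 : ℝ) < n := by
    refine lt_of_le_of_lt ?_ hn
    have : (0 : ℝ) ≤ Q := by exact_mod_cast hQ0
    positivity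
  set s := ∑ i ∈ Finset.range n, X.S.cls (T (N + i)) with hs
  have hy : -((n : ℝ) * Q) ≤ X.S.form s s := by
    have := P08_sum X hT hinj hQ N n
    rw [← hs] at this
    exact_mod_cast this
  have hx : (n : ℝ) ≤ X.S.form X.S.A s := by
    have h1 : ∑ i ∈ Finset.range n, (1 : ℤ) ≤ ∑ i ∈ Finset.range n,
        X.S.form X.S.A (X.S.cls (T (N + i))) :=
      Finset.sum_le_sum fun i _ => LibCUR2.A_pos X.S (hT _)
    have h2 : X.S.form X.S.A s = ∑ i ∈ Finset.range n, X.S.form X.S.A (X.S.cls (T (N + i))) := by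
      rw [hs, map_sum]
    rw [← h2, Finset.sum_const, Finset.card_range, nsmul_eq_mul, mul_one] at h1
    exact_mod_cast h1
  have hBs : X.S.form B s = ∑ i ∈ Finset.range n,
      (X.S.form (X.α N) (X.S.cls (T (N + i))) + X.S.form (X.α (-N)) (X.S.cls (T (N + i)))) := by
    rw [hs, map_sum]
    refine Finset.sum_congr rfl fun i _ => ?_
    rw [hBdef, LinearMap.map_add₂]
  have ht0 : (0 : ℝ) ≤ X.S.form B s := by
    have h1 : 0 ≤ X.S.form B s := by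
      rw [hBs]
      refine Finset.sum_nonneg fun i _ => ?_
      linarith [X.form_α_pos N (hT (N + i)), X.form_α_pos (-N) (hT (N + i))]
    exact_mod_cast h1
  have ht : (X.S.form B s : ℝ) ≤ 2 * C * n := by
    rw [hBs]
    push_cast
    have h1 : ∑ i ∈ Finset.range n, ((X.S.form (X.α N) (X.S.cls (T (N + i))) : ℝ) +
        (X.S.form (X.α (-N)) (X.S.cls (T (N + i))) : ℝ)) ≤ ∑ i ∈ Finset.range n, (2 * C) := by
      refine Finset.sum_le_sum fun i _ => ?_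
      have h2 := hb N (N + i) (Nat.le_add_right N i)
      linarith [h2.1, h2.2]
    refine h1.trans (le_of_eq ?_)
    rw [Finset.sum_const, Finset.card_range, nsmul_eq_mul]
    ring
  have hsq : (0 : ℝ) ≤ (X.S.form B s : ℝ) ^ 2 - X.S.form B B * X.S.form s s := by
    have := sq_le hBpos s
    have h2 : ((X.S.form B B * X.S.form s s : ℤ) : ℝ) ≤ ((X.S.form B s ^ 2 : ℤ) : ℝ) := by
      exact_mod_cast this
    push_cast at h2
    linarith
  have hcs : ((X.S.form B B : ℝ) * X.S.form X.S.A s - X.S.form B X.S.A * X.S.form B s) ^ 2 ≤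
      ((X.S.form B X.S.A : ℝ) ^ 2 - X.S.form B B * X.S.form X.S.A X.S.A) *
        ((X.S.form B s : ℝ) ^ 2 - X.S.form B B * X.S.form s s) := by
    exact_mod_cast cs_comp hBpos X.S.A s
  have hfin := P08_real hn0 hbpos hp0 hC hbp hx ht0 ht hy hA1.le hsq hcs
  have h1 := (div_lt_iff₀ hbpos).mp hn
  linarith

/-- **Curves of bounded degree in one direction are periodic.**
PLAN. Suppose `ν` is not periodic. Then the primes `ν_i := mv (γ^(-i)) ν`, `i ≥ 0`, are pairwise different. Notation `Λ_m = form (α m) A`, `λ = lam`.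
Fix `N` and put `B := α N + α (-N)`: `B² = 2 A² + 2 Λ_(2N)` (`form_α_α'`). For `i ≥ N`: `form B (cls ν_i) = form (α (N + i)) (cls ν) + form (α (i - N)) (cls ν) ≤ 2 C`
(`form_α_mv`, hypothesis). `s := ∑_{i ∈ [N, N + n)} cls ν_i`: `form s s ≥ n form (cls ν) (cls ν)` (`form_mv_mv` for the squares, `LibCUR2.C1'` for the others),
`form A s ≥ n` (`LibCUR2.A_pos`), `0 ≤ form B s ≤ 2 C n`. `cs_comp` for `B`, `u := A`, `v := s`:
`(B² (A.s) - (B.A)(B.s))² ≤ ((B.A)² - B² A²) ((B.s)² - B² s²)`. Here `B.A = 2 Λ_N ≤ 2 C₁ λ^N`, `2 c₁ λ^(2N) ≤ B² ≤ C₂ λ^(2N)` (`growthA`). Divide by `(B²)²`: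
`(n - C₃ n λ^(-N))² ≤ C₄ (C₅ n² λ^(-2N) + n |ν²|)` (as long as `n ≥ C₃ n λ^(-N)`), with constants independent of `N` and `n` [`((B.A)² - B² A²) / B² ≤ (B.A)²/B² ≤ C₄`,
`((B.s)² - B² s²)/B² ≤ 4 C² n²/B² + n |ν²|`]. Choose `N` with `C₃ λ^(-N) ≤ 1/2` and `C₄ C₅ λ^(-2N) ≤ 1/8`: `n²/4 ≤ n²/8 + C₄ n |ν²|` for all `n`: false for `n` large. -/
theorem per_of_bounded (h : X.PosEnt) {ν : DVal L} (hν : ν ∈ X.S.prm) {C : ℝ}
    (hb : ∀ m : ℕ, (X.S.form (X.α m) (X.S.cls ν) : ℝ) ≤ C) : X.Per ν := by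
  by_contra hper
  have hsqr : ∀ i : ℕ, -|X.S.form (X.S.cls ν) (X.S.cls ν)| ≤
      X.S.form (X.S.cls (mv (X.γ ^ (-(i : ℤ))) ν)) (X.S.cls (mv (X.γ ^ (-(i : ℤ))) ν)) := by
    intro i
    rw [X.form_mv_mv (-(i : ℤ)) hν hν]
    exact neg_abs_le _
  refine P08_core X h (T := fun i => mv (X.γ ^ (-(i : ℤ))) ν) (fun i => X.mv_mem hν _) ?_
    (abs_nonneg (X.S.form (X.S.cls ν) (X.S.cls ν))) hsqr (C := C) ?_
  · intro i j hij
    have := P08_inj X hper hij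
    omega
  · intro N i hNi
    have h1 := X.form_α_mv N (-(i : ℤ)) hν
    have h2 := X.form_α_mv (-N) (-(i : ℤ)) hν
    have e1 : (N : ℤ) - -(i : ℤ) = ((N + i : ℕ) : ℤ) := by push_cast; ring
    have e2 : -(N : ℤ) - -(i : ℤ) = ((i - N : ℕ) : ℤ) := by omega
    rw [e1] at h1
    rw [e2] at h2
    constructor
    · rw [h1]
      exact hb _
    · rw [h2]
      exact hb _

/-- The same in the other direction. PLAN. The same proof with `ν_i := mv (γ^i) ν`; or apply `per_of_bounded` to the system with `γ⁻¹`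
(same `S`, `g`; `α` is replaced by `α (-·)`). -/
theorem per_of_bounded_neg (h : X.PosEnt) {ν : DVal L} (hν : ν ∈ X.S.prm) {C : ℝ}
    (hb : ∀ m : ℕ, (X.S.form (X.α (-m)) (X.S.cls ν) : ℝ) ≤ C) : X.Per ν := by
  by_contra hper
  have hsqr : ∀ i : ℕ, -|X.S.form (X.S.cls ν) (X.S.cls ν)| ≤
      X.S.form (X.S.cls (mv (X.γ ^ (i : ℤ)) ν)) (X.S.cls (mv (X.γ ^ (i : ℤ)) ν)) := by
    intro i
    rw [X.form_mv_mv (i : ℤ) hν hν]
    exact neg_abs_le _
  refine P08_core X h (T := fun i => mv (X.γ ^ (i : ℤ)) ν) (fun i => X.mv_mem hν _) ?_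
    (abs_nonneg (X.S.form (X.S.cls ν) (X.S.cls ν))) hsqr (C := C) ?_
  · intro i j hij
    have := P08_inj X hper hij
    omega
  · intro N i hNi
    have h1 := X.form_α_mv N (i : ℤ) hν
    have h2 := X.form_α_mv (-N) (i : ℤ) hν
    have e1 : (N : ℤ) - (i : ℤ) = -((i - N : ℕ) : ℤ) := by omega
    have e2 : -(N : ℤ) - (i : ℤ) = -((N + i : ℕ) : ℤ) := by push_cast; ring
    rw [e1] at h1
    rw [e2] at h2
    constructor
    · rw [h1]
      exact hb _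
    · rw [h2]
      exact hb _

end Sys0

end Pool.Agent.LibK3P

end

section

set_option autoImplicit false

open Pool.Agent.LibGMM Pool.Agent.LibK Pool.Agent.LibKB
open Pool.Agent.LibLB (PSurf RLR)
open Pool.Agent.LibCov80 (Over)
open Pool.Agent.LibK3

namespace Pool.Agent.LibK3P

private theorem P09_side {F Λ : ℕ → ℝ} {θ K c l : ℝ} (hc : 0 < c) (hF : ∀ m, 1 ≤ F m)
    (hΛ : ∀ m, 1 ≤ Λ m) (hl : ∀ m, c * l ^ m ≤ Λ m) (h : ∀ m, |F m - Λ m * θ| ≤ K)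
    (hu : ¬ ∀ m, F m ≤ K) : ∃ c' : ℝ, 0 < c' ∧ ∀ m, c' * l ^ m ≤ F m := by
  have hθ : 0 < θ := by
    by_contra hcon
    push Not at hcon
    apply hu
    intro m
    have h1 := (abs_le.1 (h m)).2
    have h2 : Λ m * θ ≤ 0 := mul_nonpos_of_nonneg_of_nonpos (by linarith [hΛ m]) hcon
    linarith
  have hK : 0 ≤ K := (abs_nonneg _).trans (h 0)
  refine ⟨θ * c / (1 + K), by positivity, fun m => ?_⟩
  rw [div_mul_eq_mul_div, div_le_iff₀ (by positivity)]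
  have h1 := (abs_le.1 (h m)).1
  have h2 := mul_le_mul_of_nonneg_right (hl m) hθ.le
  have h3 := mul_le_mul_of_nonneg_right (hF m) hK
  linarith

namespace Sys0

variable {L : Type} [Field L] [Algebra ℂ L] (X : Sys0 L)

private theorem P09_le (h : X.PosEnt) (ν : DVal L) : ∃ C : ℝ, 0 < C ∧ ∀ m : ℤ,
      (X.S.form (X.α m) (X.S.cls ν) : ℝ) ≤ C * X.lam ^ |m| := by
  obtain ⟨k, hk⟩ := X.form_α_le (X.S.cls ν)
  obtain ⟨c, C, hc, hC, hcC⟩ := X.growthA h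
  have hlam : 0 < X.lam := by linarith [X.lam_gt]
  refine ⟨k * C + 1, by positivity, fun m => ?_⟩
  have h1 : (X.S.form (X.α m) (X.S.cls ν) : ℝ) ≤ (k : ℝ) * (X.S.form (X.α m) X.S.A : ℝ) := by
    have := (le_abs_self _).trans (hk m)
    exact_mod_cast this
  have h2 := mul_le_mul_of_nonneg_left (hcC m).2 (Nat.cast_nonneg (α := ℝ) k)
  have h3 : 0 < X.lam ^ |m| := zpow_pos hlam _
  have h4 : (k * C + 1) * X.lam ^ |m| = (k : ℝ) * (C * X.lam ^ |m|) + X.lam ^ |m| := by ring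
  rw [h4]
  linarith

/-- Growth of the degree of a curve which is not periodic.
PLAN. Upper bound: `form_α_le` and `growthA`. Lower bound for `m ≥ 0`: `exists_theta` for `β = cls ν`: `θ ≥ 0` because `form (α m) (cls ν) ≥ 0` and `Λ_m → ∞`; if `θ = 0` then
`form (α m) (cls ν) ≤ K`, so `ν` is periodic (`per_of_bounded`). So `θ > 0`: `form ≥ θ Λ_m - K ≥ c' λ^m` for `m` large, and `≥ 1` (`form_α_pos`) for the finitely many others. The same for
`m ≤ 0`. -/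
theorem growth (h : X.PosEnt) {ν : DVal L} (hν : ν ∈ X.S.prm) (hn : ¬ X.Per ν) :
    ∃ c C : ℝ, 0 < c ∧ 0 < C ∧ ∀ m : ℤ,
    c * X.lam ^ |m| ≤ X.S.form (X.α m) (X.S.cls ν) ∧
      (X.S.form (X.α m) (X.S.cls ν) : ℝ) ≤ C * X.lam ^ |m| := by
  obtain ⟨C, hC, hup⟩ := X.P09_le h ν
  obtain ⟨c, C₁, hc, hC₁, hcC⟩ := X.growthA h
  obtain ⟨θ, K, hθ⟩ := X.exists_theta h (X.S.cls ν)
  obtain ⟨θ', K', hθ'⟩ := X.exists_theta_neg h (X.S.cls ν)
  have hpos : ∀ m : ℤ, (1 : ℝ) ≤ X.S.form (X.α m) (X.S.cls ν) := fun m => by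
    exact_mod_cast X.form_α_pos m hν
  have hA : ∀ m : ℕ, (1 : ℝ) ≤ X.S.form (X.α m) X.S.A := fun m => by
    exact_mod_cast X.one_le_form_α_A m
  have hAl : ∀ m : ℕ, c * X.lam ^ m ≤ X.S.form (X.α m) X.S.A := fun m => by
    have := (hcC m).1
    rw [Nat.abs_cast, zpow_natCast] at this
    exact this
  obtain ⟨c₁, hc₁, h1⟩ := P09_side (F := fun m : ℕ => (X.S.form (X.α m) (X.S.cls ν) : ℝ))
    (Λ := fun m : ℕ => (X.S.form (X.α m) X.S.A : ℝ)) hc (fun m => hpos m) hA hAl hθ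
    (fun hb => hn (X.per_of_bounded h hν hb))
  obtain ⟨c₂, hc₂, h2⟩ := P09_side (F := fun m : ℕ => (X.S.form (X.α (-m)) (X.S.cls ν) : ℝ))
    (Λ := fun m : ℕ => (X.S.form (X.α m) X.S.A : ℝ)) hc (fun m => hpos (-m)) hA hAl hθ'
    (fun hb => hn (X.per_of_bounded_neg h hν hb))
  have hlam : 0 < X.lam := by linarith [X.lam_gt]
  refine ⟨min c₁ c₂, C, lt_min hc₁ hc₂, hC, fun m => ⟨?_, hup m⟩⟩
  have h3 : 0 < X.lam ^ |m| := zpow_pos hlam _
  rcases Int.eq_nat_or_neg m with ⟨n, rfl | rfl⟩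
  · refine (mul_le_mul_of_nonneg_right (min_le_left _ _) h3.le).trans ?_
    rw [Nat.abs_cast, zpow_natCast]
    exact h1 n
  · refine (mul_le_mul_of_nonneg_right (min_le_right _ _) h3.le).trans ?_
    rw [abs_neg, Nat.abs_cast, zpow_natCast]
    exact h2 n

/-- The upper bound holds for all curves. -/
theorem growth_le (h : X.PosEnt) {ν : DVal L} (hν : ν ∈ X.S.prm) : ∃ C : ℝ, 0 < C ∧ ∀ m : ℤ,
      (X.S.form (X.α m) (X.S.cls ν) : ℝ) ≤ C * X.lam ^ |m| := X.P09_le h ν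

private theorem P09_stab {ν : DVal L} {n : ℕ} (h : mv (X.γ ^ n) ν = ν) (q : ℤ) :
    mv (X.γ ^ ((n : ℤ) * q)) ν = ν := by
  have hn : mv (X.γ ^ (n : ℤ)) ν = ν := by rw [zpow_natCast]; exact h
  have hn' : mv (X.γ ^ (-(n : ℤ))) ν = ν := by
    conv_lhs => rw [← hn]
    rw [← mv_mul, ← zpow_add, neg_add_cancel, zpow_zero, mv_one]
  induction q using Int.induction_on with
  | zero => rw [mul_zero, zpow_zero, mv_one]
  | succ i ih => rw [mul_add, mul_one, zpow_add, mv_mul, hn, ih]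
  | pred i ih => rw [mul_sub, mul_one, sub_eq_add_neg, zpow_add, mv_mul, hn', ih]

/-- PLAN. For a periodic prime `ν` (period `n`) and any prime `μ`, `form (cls ν) (cls (mv (γ^m) μ)) = form (cls (mv (γ^(-m)) ν)) (cls μ)` takes at most `n` values. -/
theorem form_per_le {ν μ : DVal L} (hν : ν ∈ X.S.prm) (hμ : μ ∈ X.S.prm) (hn : X.Per ν) :
    ∃ K : ℤ, ∀ m : ℤ, X.S.form (X.S.cls ν) (X.S.cls (mv (X.γ ^ m) μ)) ≤ K := by
  obtain ⟨n, hn0, hn⟩ := hn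
  refine ⟨∑ r ∈ Finset.range n, |X.S.form (X.S.cls (mv (X.γ ^ (r : ℤ)) ν)) (X.S.cls μ)|, fun m => ?_⟩
  have e1 : X.S.form (X.S.cls ν) (X.S.cls (mv (X.γ ^ m) μ)) =
      X.S.form (X.S.cls (mv (X.γ ^ (-m)) ν)) (X.S.cls μ) := by
    rw [← X.form_mv_mv (-m) hν (X.mv_mem hμ m), ← mv_mul, ← zpow_add, neg_add_cancel, zpow_zero,
      mv_one]
  have hnz : (n : ℤ) ≠ 0 := by exact_mod_cast hn0.ne'
  have hr0 : 0 ≤ (-m) % (n : ℤ) := Int.emod_nonneg _ hnz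
  have hr1 : (-m) % (n : ℤ) < n := Int.emod_lt_of_pos _ (by exact_mod_cast hn0)
  obtain ⟨r, hr⟩ := Int.eq_ofNat_of_zero_le hr0
  have e2 : mv (X.γ ^ (-m)) ν = mv (X.γ ^ (r : ℤ)) ν := by
    have e3 : -m = (r : ℤ) + (n : ℤ) * ((-m) / (n : ℤ)) := by
      rw [← hr]
      exact (Int.emod_add_mul_ediv (-m) (n : ℤ)).symm
    conv_lhs => rw [e3]
    rw [zpow_add, mv_mul, X.P09_stab hn]
  rw [e1, e2]
  refine (le_abs_self _).trans ?_
  exact Finset.single_le_sum (f := fun r : ℕ =>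
    |X.S.form (X.S.cls (mv (X.γ ^ (r : ℤ)) ν)) (X.S.cls μ)|) (fun _ _ => abs_nonneg _)
    (Finset.mem_range.2 (by omega))

end Sys0

end Pool.Agent.LibK3P

end

section

set_option autoImplicit false

open Pool.Agent.LibGMM Pool.Agent.LibK Pool.Agent.LibKB
open Pool.Agent.LibLB (PSurf RLR)
open Pool.Agent.LibCov80 (Over)
open Pool.Agent.LibK3

namespace Pool.Agent.LibK3P

namespace Sys0

variable {L : Type} [Field L] [Algebra ℂ L] (X : Sys0 L) {C : RC L}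

theorem cv_mem (hC : C.ν ∈ X.S.prm) (m : ℤ) : (X.cv C m).ν ∈ X.S.prm := X.mv_mem hC m

/-- The degree of `H j` on `C_m`. PLAN. `form_α_mv`. -/
theorem form_H_cv (hC : C.ν ∈ X.S.prm) (j m : ℤ) :
    X.S.form (X.α j) (X.S.cls (X.cv C m).ν) = X.S.form (X.α (j - m)) (X.S.cls C.ν) :=
  X.form_α_mv j m hC

/-- PLAN. `form_mv_mv`. -/
theorem form_cv_cv (hC : C.ν ∈ X.S.prm) (j m : ℤ) :
    X.S.form (X.S.cls (X.cv C j).ν) (X.S.cls (X.cv C m).ν) =
      X.S.form (X.S.cls (X.cv C (j - m)).ν) (X.S.cls C.ν) := by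
  have h1 := X.form_mv_mv m (X.mv_mem hC (j - m)) hC
  rw [← mv_mul, ← zpow_add, add_sub_cancel] at h1
  exact h1

private theorem P10_A_cv (hC : C.ν ∈ X.S.prm) (m : ℤ) :
    X.S.form X.S.A (X.S.cls (X.cv C m).ν) = X.S.form (X.α (-m)) (X.S.cls C.ν) := by
  rw [← X.α_zero, X.form_H_cv hC, zero_sub]

/-- PLAN. `form A (cls C_m) = form (α (-m)) (cls C) ≤ k Λ_(-m) = k Λ_m` (`form_α_le`, `form_α_neg`). -/
theorem Ent.posEnt (h : X.Ent C) : X.PosEnt := by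
  obtain ⟨μ, c, hμ, hc, hg⟩ := h.grow
  obtain ⟨k, hk⟩ := X.form_α_le (X.S.cls C.ν)
  refine ⟨μ, c / (k + 1), hμ, by positivity, fun m => ?_⟩
  have h1 := hg m
  rw [X.P10_A_cv h.mem] at h1
  have h2 : (X.S.form (X.α (-(m : ℤ))) (X.S.cls C.ν) : ℝ) ≤
      (k : ℝ) * (X.S.form (X.α m) X.S.A : ℝ) := by
    have := (le_abs_self _).trans (hk (-(m : ℤ)))
    rw [X.form_α_neg] at this
    exact_mod_cast this
  have h3 : (1 : ℝ) ≤ X.S.form (X.α m) X.S.A := by exact_mod_cast X.one_le_form_α_A m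
  rw [div_mul_eq_mul_div, div_le_iff₀ (by positivity)]
  linarith

private theorem P10_stab {γ : L ≃ₐ[ℂ] L} {ν : DVal L} {n : ℕ} (h : mv (γ ^ n) ν = ν) (q : ℕ) :
    mv (γ ^ (n * q)) ν = ν := by
  induction q with
  | zero => rw [mul_zero, pow_zero, mv_one]
  | succ i ih => rw [mul_add, mul_one, pow_add, mv_mul, h, ih]

/-- PLAN. A periodic curve has finitely many different degrees `form A (cls C_m)`. -/
theorem Ent.not_per (h : X.Ent C) : ¬ X.Per C.ν := by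
  rintro ⟨n, hn0, hn⟩
  obtain ⟨μ, c, hμ, hc, hg⟩ := h.grow
  obtain ⟨q, hq⟩ := pow_unbounded_of_one_lt ((X.S.form X.S.A (X.S.cls C.ν) : ℝ) / c) hμ
  have h1 := hg (n * q)
  have e : (X.cv C ((n * q : ℕ) : ℤ)).ν = C.ν := by
    show mv (X.γ ^ ((n * q : ℕ) : ℤ)) C.ν = C.ν
    rw [zpow_natCast]
    exact P10_stab hn q
  rw [e] at h1
  rw [div_lt_iff₀ hc] at hq
  have h2 : μ ^ q ≤ μ ^ (n * q) := pow_le_pow_right₀ hμ.le (Nat.le_mul_of_pos_left q hn0)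
  have h3 := mul_le_mul_of_nonneg_left h2 hc.le
  linarith

private theorem P10_lt (h : X.Ent C) {j m : ℤ} (hjm : j < m) : (X.cv C j).ν ≠ (X.cv C m).ν := by
  intro he
  apply Ent.not_per X h
  have he' : mv (X.γ ^ j) C.ν = mv (X.γ ^ m) C.ν := he
  refine ⟨(m - j).toNat, by omega, ?_⟩
  have h1 : (((m - j).toNat : ℕ) : ℤ) = -j + m := by omega
  rw [← zpow_natCast, h1, zpow_add, mv_mul, ← he', ← mv_mul, ← zpow_add, neg_add_cancel, zpow_zero,
    mv_one]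

theorem cv_injective (h : X.Ent C) {j m : ℤ} (hjm : j ≠ m) : (X.cv C j).ν ≠ (X.cv C m).ν := by
  rcases lt_or_gt_of_ne hjm with h1 | h1
  · exact X.P10_lt h h1
  · exact (X.P10_lt h h1).symm

/-- Finite sets of primes are avoided. PLAN. `cv_injective`. -/
theorem cv_avoid (h : X.Ent C) {T : Set (DVal L)} (hT : T.Finite) :
    ∃ m₀ : ℕ, ∀ m : ℕ, m₀ ≤ m → (X.cv C m).ν ∉ T := by
  have hinj : Function.Injective fun m : ℕ => (X.cv C m).ν := by
    intro a b hab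
    by_contra hne
    exact X.cv_injective h (by exact_mod_cast hne : (a : ℤ) ≠ (b : ℤ)) hab
  obtain ⟨m₀, hm₀⟩ := (hT.preimage hinj.injOn).bddAbove
  refine ⟨m₀ + 1, fun m hm hmT => ?_⟩
  have := hm₀ (show m ∈ (fun m : ℕ => (X.cv C m).ν) ⁻¹' T from hmT)
  omega

/-- PLAN. `growth` for `C.ν`. -/
theorem growth_cv (h : X.Ent C) : ∃ c C' : ℝ, 0 < c ∧ 0 < C' ∧ ∀ m : ℤ,
    c * X.lam ^ |m| ≤ X.S.form X.S.A (X.S.cls (X.cv C m).ν) ∧
      (X.S.form X.S.A (X.S.cls (X.cv C m).ν) : ℝ) ≤ C' * X.lam ^ |m| := by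
  obtain ⟨c, C', hc, hC', hg⟩ := X.growth (Ent.posEnt X h) h.mem (Ent.not_per X h)
  refine ⟨c, C', hc, hC', fun m => ?_⟩
  have := hg (-m)
  rw [abs_neg] at this
  rw [X.P10_A_cv h.mem]
  exact this

end Sys0

end Pool.Agent.LibK3P

end
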