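import Pool.Agent.LibK3P.P10

set_option autoImplicit false

open Pool.Agent.LibGMM Pool.Agent.LibK Pool.Agent.LibKB
open Pool.Agent.LibLB (PSurf RLR)
open Pool.Agent.LibCov80 (Over)
open Pool.Agent.LibK3

namespace Pool.Agent.LibK3P

/-- the estimate in real numbers -/
private theorem p11_real {p q t dl dm d0 uv uu c₁ C₁ c₂ C₂ : ℝ} (ht : 1 ≤ t) (hp : 0 < p)
    (hd0 : 0 < d0) (hc₁ : 0 < c₁) (hC₁ : 0 < C₁) (hc₂ : 0 < c₂) (hC₂ : 0 < C₂)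
    (hq1 : c₁ * t ≤ q) (hq2 : q ≤ C₁ * t) (hl1 : c₂ * t ≤ dl) (hl2 : dl ≤ C₂ * t)
    (hm1 : c₂ * t ≤ dm) (hm2 : dm ≤ C₂ * t) (huv : 0 ≤ uv)
    (hX : p < q → 0 ≤ 2 * q * d0 * dl - p * (d0 ^ 2 + dl ^ 2) - (q ^ 2 - p ^ 2) * uu)
    (hY : p < q → 0 ≤ 2 * q * d0 * dm - p * (d0 ^ 2 + dm ^ 2) - (q ^ 2 - p ^ 2) * uu)
    (hU : p < q → ((q ^ 2 - p ^ 2) * uv - (q * (dl * dm + d0 ^ 2) - p * (d0 * dm + dl * d0))) ^ 2 ≤
      (2 * q * d0 * dl - p * (d0 ^ 2 + dl ^ 2) - (q ^ 2 - p ^ 2) * uu) *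
        (2 * q * d0 * dm - p * (d0 ^ 2 + dm ^ 2) - (q ^ 2 - p ^ 2) * uu)) :
    c₁ * c₂ ^ 2 / C₁ ^ 2 * t - ((2 * p * d0 * C₂ + (2 * C₁ * C₂ * d0 + C₁ ^ 2 * |uu|)) / C₁ ^ 2 +
      c₁ * c₂ ^ 2 / C₁ ^ 2 * (p / c₁)) ≤ uv := by
  have hpos1 : 0 ≤ (2 * p * d0 * C₂ + (2 * C₁ * C₂ * d0 + C₁ ^ 2 * |uu|)) / C₁ ^ 2 := by
    have := abs_nonneg uu
    positivity
  have hpos2 : 0 ≤ c₁ * c₂ ^ 2 / C₁ ^ 2 * (p / c₁) := by positivity
  have ht0 : 0 < t := by linarith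
  have hq0 : 0 < q := lt_of_lt_of_le (by positivity) hq1
  by_cases hpq : p < q
  · obtain ⟨Δ, hΔ⟩ : ∃ Δ : ℝ, Δ = q ^ 2 - p ^ 2 := ⟨_, rfl⟩
    have hΔ0 : 0 < Δ := by
      rw [hΔ]
      nlinarith
    have hΔ1 : Δ ≤ C₁ ^ 2 * t ^ 2 := by
      rw [hΔ]
      have h1 : q ^ 2 ≤ (C₁ * t) ^ 2 := pow_le_pow_left₀ hq0.le hq2 2
      nlinarith [sq_nonneg p]
    obtain ⟨K, hK⟩ : ∃ K : ℝ, K = 2 * C₁ * C₂ * d0 + C₁ ^ 2 * |uu| := ⟨_, rfl⟩
    have hXX : ∀ d : ℝ, 0 < d → d ≤ C₂ * t →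
        2 * q * d0 * d - p * (d0 ^ 2 + d ^ 2) - Δ * uu ≤ K * t ^ 2 := by
      intro d hd hd2
      have h1 : q * d ≤ (C₁ * t) * (C₂ * t) := mul_le_mul hq2 hd2 hd.le (by positivity)
      have h2 : 2 * q * d0 * d ≤ 2 * C₁ * C₂ * d0 * t ^ 2 := by
        have h3 := mul_le_mul_of_nonneg_left h1 (show 0 ≤ 2 * d0 by positivity)
        nlinarith [h3]
      have h4 : 0 ≤ p * (d0 ^ 2 + d ^ 2) := by positivity
      have h5 : -(Δ * uu) ≤ C₁ ^ 2 * |uu| * t ^ 2 := by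
        have h6 : -uu ≤ |uu| := neg_le_abs uu
        calc -(Δ * uu) = Δ * (-uu) := by ring
          _ ≤ Δ * |uu| := mul_le_mul_of_nonneg_left h6 hΔ0.le
          _ ≤ (C₁ ^ 2 * t ^ 2) * |uu| := mul_le_mul_of_nonneg_right hΔ1 (abs_nonneg _)
          _ = C₁ ^ 2 * |uu| * t ^ 2 := by ring
      rw [hK]
      nlinarith [h2, h4, h5]
    have hdl : 0 < dl := lt_of_lt_of_le (by positivity) hl1
    have hdm : 0 < dm := lt_of_lt_of_le (by positivity) hm1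
    have hX1 := hX hpq
    have hY1 := hY hpq
    have hU1 := hU hpq
    rw [← hΔ] at hX1 hY1 hU1
    have hK0 : 0 ≤ K := by
      rw [hK]
      have := abs_nonneg uu
      positivity
    have h7 : (2 * q * d0 * dl - p * (d0 ^ 2 + dl ^ 2) - Δ * uu) *
        (2 * q * d0 * dm - p * (d0 ^ 2 + dm ^ 2) - Δ * uu) ≤ (K * t ^ 2) ^ 2 := by
      rw [sq (K * t ^ 2)]
      exact mul_le_mul (hXX dl hdl hl2) (hXX dm hdm hm2) hY1 (by positivity)
    have h8 := abs_le_of_sq_le_sq' (le_trans hU1 h7) (by positivity)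
    have h9 : (c₁ * t) * ((c₂ * t) * (c₂ * t)) ≤ q * (dl * dm) :=
      mul_le_mul hq1 (mul_le_mul hl1 hm1 (by positivity) hdl.le) (by positivity) hq0.le
    have h10 : d0 * dm + dl * d0 ≤ 2 * d0 * C₂ * t := by
      nlinarith [mul_le_mul_of_nonneg_left hm2 hd0.le, mul_le_mul_of_nonneg_left hl2 hd0.le]
    have h11 : p * (d0 * dm + dl * d0) ≤ 2 * p * d0 * C₂ * t ^ 2 := by
      have h12 := mul_le_mul_of_nonneg_left h10 hp.le
      have h13 : t ≤ t ^ 2 := by nlinarith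
      have h14 := mul_le_mul_of_nonneg_left h13 (show 0 ≤ 2 * p * d0 * C₂ by positivity)
      nlinarith [h12, h14]
    have h15 : Δ * uv ≤ (C₁ ^ 2 * t ^ 2) * uv := mul_le_mul_of_nonneg_right hΔ1 huv
    have h16 : c₁ * c₂ ^ 2 * t ^ 3 - 2 * p * d0 * C₂ * t ^ 2 - K * t ^ 2 ≤
        C₁ ^ 2 * uv * t ^ 2 := by
      have h17 : 0 ≤ q * d0 ^ 2 := by positivity
      nlinarith [h8.1, h9, h11, h15, h17]
    have h18 : c₁ * c₂ ^ 2 * t - 2 * p * d0 * C₂ - K ≤ C₁ ^ 2 * uv := by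
      have h19 : (c₁ * c₂ ^ 2 * t - 2 * p * d0 * C₂ - K) * t ^ 2 ≤ (C₁ ^ 2 * uv) * t ^ 2 := by
        nlinarith [h16]
      exact le_of_mul_le_mul_right h19 (by positivity)
    have h20 : c₁ * c₂ ^ 2 / C₁ ^ 2 * t - (2 * p * d0 * C₂ + K) / C₁ ^ 2 ≤ uv := by
      have h21 : c₁ * c₂ ^ 2 / C₁ ^ 2 * t - (2 * p * d0 * C₂ + K) / C₁ ^ 2 =
          (c₁ * c₂ ^ 2 * t - 2 * p * d0 * C₂ - K) / C₁ ^ 2 := by
        field_simp
        ring
      rw [h21, div_le_iff₀ (by positivity)]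
      linarith
    rw [← hK]
    linarith
  · have h1 : t ≤ p / c₁ := by
      rw [le_div_iff₀ hc₁]
      linarith
    have h2 : c₁ * c₂ ^ 2 / C₁ ^ 2 * t ≤ c₁ * c₂ ^ 2 / C₁ ^ 2 * (p / c₁) :=
      mul_le_mul_of_nonneg_left h1 (by positivity)
    linarith

/-- the components orthogonal to two classes -/
private theorem p11_hodge {L : Type} [Field L] [Algebra ℂ L] {S : PSurf L} {P R u v : S.Λ}
    {p q dl dm d0 uu : ℤ} (hPP : S.form P P = p) (hRR : S.form R R = p) (hPR : S.form P R = q)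
    (huP : S.form u P = d0) (huR : S.form u R = dl) (hvP : S.form v P = dm)
    (hvR : S.form v R = d0) (huu : S.form u u = uu) (hvv : S.form v v = uu) (hp : 0 < p)
    (hpq : p < q) :
    0 ≤ 2 * q * d0 * dl - p * (d0 ^ 2 + dl ^ 2) - (q ^ 2 - p ^ 2) * uu ∧
    0 ≤ 2 * q * d0 * dm - p * (d0 ^ 2 + dm ^ 2) - (q ^ 2 - p ^ 2) * uu ∧
    ((q ^ 2 - p ^ 2) * S.form u v -
        (q * (dl * dm + d0 ^ 2) - p * (d0 * dm + dl * d0))) ^ 2 ≤
      (2 * q * d0 * dl - p * (d0 ^ 2 + dl ^ 2) - (q ^ 2 - p ^ 2) * uu) *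
        (2 * q * d0 * dm - p * (d0 ^ 2 + dm ^ 2) - (q ^ 2 - p ^ 2) * uu) := by
  have hRP : S.form R P = q := by rw [S.symm, hPR]
  have hPu : S.form P u = d0 := by rw [S.symm, huP]
  have hRu : S.form R u = dl := by rw [S.symm, huR]
  have hPv : S.form P v = dm := by rw [S.symm, hvP]
  have hRv : S.form R v = d0 := by rw [S.symm, hvR]
  have hvu : S.form v u = S.form u v := S.symm v u
  have hΔ : 0 < q ^ 2 - p ^ 2 := by nlinarith
  obtain ⟨u', hu'⟩ : ∃ u' : S.Λ, u' = (q ^ 2 - p ^ 2) • u - (q * dl - p * d0) • P -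
    (q * d0 - p * dl) • R := ⟨_, rfl⟩
  obtain ⟨v', hv'⟩ : ∃ v' : S.Λ, v' = (q ^ 2 - p ^ 2) • v - (q * d0 - p * dm) • P -
    (q * dm - p * d0) • R := ⟨_, rfl⟩
  have h1 : S.form P u' = 0 := by
    rw [hu']
    simp only [map_sub, map_smul, smul_eq_mul, hPP, hPR, hPu]
    ring
  have h2 : S.form P v' = 0 := by
    rw [hv']
    simp only [map_sub, map_smul, smul_eq_mul, hPP, hPR, hPv]
    ring
  have h3 : S.form u' u' = -((q ^ 2 - p ^ 2) *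
      (2 * q * d0 * dl - p * (d0 ^ 2 + dl ^ 2) - (q ^ 2 - p ^ 2) * uu)) := by
    rw [hu']
    simp only [map_sub, map_smul, LinearMap.sub_apply, LinearMap.smul_apply, smul_eq_mul, hPP,
      hRR, hPR, hRP, huP, huR, hPu, hRu, huu]
    ring
  have h4 : S.form v' v' = -((q ^ 2 - p ^ 2) *
      (2 * q * d0 * dm - p * (d0 ^ 2 + dm ^ 2) - (q ^ 2 - p ^ 2) * uu)) := by
    rw [hv']
    simp only [map_sub, map_smul, LinearMap.sub_apply, LinearMap.smul_apply, smul_eq_mul, hPP,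
      hRR, hPR, hRP, hvP, hvR, hPv, hRv, hvv]
    ring
  have h5 : S.form u' v' = (q ^ 2 - p ^ 2) * ((q ^ 2 - p ^ 2) * S.form u v -
      (q * (dl * dm + d0 ^ 2) - p * (d0 * dm + dl * d0))) := by
    rw [hu', hv']
    simp only [map_sub, map_smul, LinearMap.sub_apply, LinearMap.smul_apply, smul_eq_mul, hPP,
      hRR, hPR, hRP, huP, huR, hPv, hRv]
    ring
  have hP : 0 < S.form P P := by
    rw [hPP]
    exact hp
  have h6 := neg_of_orth hP h1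
  have h7 := neg_of_orth hP h2
  have h8 := cs hP h1 h2
  rw [h3] at h6
  rw [h4] at h7
  rw [h3, h4, h5] at h8
  refine ⟨?_, ?_, ?_⟩
  · by_contra h9
    push Not at h9
    nlinarith
  · by_contra h9
    push Not at h9
    nlinarith
  · have h10 : 0 < (q ^ 2 - p ^ 2) ^ 2 := by positivity
    refine le_of_mul_le_mul_left ?_ h10
    calc (q ^ 2 - p ^ 2) ^ 2 * ((q ^ 2 - p ^ 2) * S.form u v -
          (q * (dl * dm + d0 ^ 2) - p * (d0 * dm + dl * d0))) ^ 2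
        = ((q ^ 2 - p ^ 2) * ((q ^ 2 - p ^ 2) * S.form u v -
          (q * (dl * dm + d0 ^ 2) - p * (d0 * dm + dl * d0)))) ^ 2 := by ring
      _ ≤ _ := h8
      _ = _ := by ring

namespace Sys0

variable {L : Type} [Field L] [Algebra ℂ L] (X : Sys0 L) {C : RC L}

/-- Intersection numbers of the curves.
PLAN. Notation: `p := A²`, `q := form (α l) A` (`= Λ_l`), `d_i := form (α i) (cls C)`, `u := cls C`, `v := cls C_l`, `P := A = α 0`, `R := α l`. `u.P = d_0`, `u.R = d_l`, `v.P = d_(-l)`, `v.R = d_0`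
(`form_H_cv`), `P.P = R.R = p`, `P.R = q`. For `|l|` large `q > p`. Put (no division) `u' := (q² - p²) • u - (q (u.R) - p (u.P)) • P - (q (u.P) - p (u.R)) • R`
(check: `u'.P = 0`, `u'.R = 0`), and `v'` in the same way. `cs` with `B := A` (`u'.A = v'.A = 0`): `(u'.v')² ≤ u'² v'²`. With `Δ := q² - p²`:
`u'.v' = Δ (Δ (u.v) - [q ((u.P)(v.R) + (u.R)(v.P)) - p ((u.P)(v.P) + (u.R)(v.R))])`, `u'² = Δ (Δ u² - [2 q (u.P)(u.R) - p ((u.P)² + (u.R)²)])`, the same for `v'`.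
So, dividing by `Δ²`: `|(u.v) - main| ≤ √(a b)` with `main = [q (d_0² + d_l d_(-l)) - p d_0 (d_l + d_(-l))]/Δ`, `a = [2 q d_0 d_l - p (d_0² + d_l²)]/Δ - u²`,
`b = [2 q d_0 d_(-l) - p (d_0² + d_(-l)²)]/Δ - v²`, `v² = u²` (`form_cv_cv`). By `growthA`, `growth_cv` (`d_l = form A (cls C_(-l))`): `q, d_l, d_(-l)` lie between `c λ^|l|` and `C λ^|l|`: `a, b` are bounded and
`main ≥ c' λ^|l| - K`. Lower bound for all `l ≠ 0` after enlarging `K`. (For the finitely many `l` with `q ≤ p` take the constant; `f(l) ≥ 0` for `l ≠ 0` by `LibCUR2.C1'`.)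
Upper bound: `exists_nef` for `β = cls C`: `|form (cls C) (cls C_l)| ≤ k form A (cls C_l)`. -/
theorem form_cv_growth (h : X.Ent C) : ∃ c C' : ℝ, 0 < c ∧ 0 < C' ∧ ∀ l : ℤ, l ≠ 0 →
    c * X.lam ^ |l| - C' ≤ X.S.form (X.S.cls (X.cv C l).ν) (X.S.cls C.ν) ∧
      (X.S.form (X.S.cls (X.cv C l).ν) (X.S.cls C.ν) : ℝ) ≤ C' * X.lam ^ |l| := by
  have hC := h.mem
  obtain ⟨c₁, C₁, hc₁, hC₁, hq⟩ := X.growthA (Ent.posEnt X h)
  obtain ⟨c₂, C₂, hc₂, hC₂, hd⟩ := X.growth_cv h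
  obtain ⟨k, hk⟩ := X.exists_nef (X.S.cls C.ν)
  have hp : 0 < X.S.form X.S.A X.S.A := X.A_sq_pos
  have hpR : (0 : ℝ) < (X.S.form X.S.A X.S.A : ℤ) := by exact_mod_cast hp
  have hd0 : 0 < X.S.form (X.α 0) (X.S.cls C.ν) :=
    lt_of_lt_of_le zero_lt_one (X.form_α_pos 0 hC)
  have hd0R : (0 : ℝ) < (X.S.form (X.α 0) (X.S.cls C.ν) : ℤ) := by exact_mod_cast hd0
  obtain ⟨E, hE⟩ : ∃ E : ℝ, E = (2 * (X.S.form X.S.A X.S.A : ℤ) *
      (X.S.form (X.α 0) (X.S.cls C.ν) : ℤ) * C₂ + (2 * C₁ * C₂ *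
      (X.S.form (X.α 0) (X.S.cls C.ν) : ℤ) +
      C₁ ^ 2 * |((X.S.form (X.S.cls C.ν) (X.S.cls C.ν) : ℤ) : ℝ)|)) / C₁ ^ 2 +
      c₁ * c₂ ^ 2 / C₁ ^ 2 * ((X.S.form X.S.A X.S.A : ℤ) / c₁) := ⟨_, rfl⟩
  have hE0 : 0 ≤ E := by
    rw [hE]
    have := abs_nonneg ((X.S.form (X.S.cls C.ν) (X.S.cls C.ν) : ℤ) : ℝ)
    positivity
  have hlam := X.lam_gt
  refine ⟨c₁ * c₂ ^ 2 / C₁ ^ 2, E + k * C₂ + 1, by positivity, by positivity, fun l hl => ?_⟩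
  have hCl := X.cv_mem hC l
  have ht : 1 ≤ X.lam ^ |l| := one_le_zpow₀ hlam.le (abs_nonneg l)
  have ht0 : 0 < X.lam ^ |l| := by linarith
  have hne : (X.cv C l).ν ≠ C.ν := by
    have h1 := X.cv_injective h hl
    have h2 : (X.cv C 0).ν = C.ν := by
      change mv (X.γ ^ (0 : ℤ)) C.ν = C.ν
      rw [zpow_zero, mv_one]
    rwa [h2] at h1
  have huv0 : 0 ≤ X.S.form (X.S.cls (X.cv C l).ν) (X.S.cls C.ν) :=
    Pool.Agent.LibCUR2.C1' X.S hCl hC hne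
  have hA : X.S.form (X.α 0) (X.S.cls C.ν) = X.S.form X.S.A (X.S.cls C.ν) := by rw [X.α_zero]
  have hm : ∀ j : ℤ, X.S.form X.S.A (X.S.cls (X.cv C j).ν) =
      X.S.form (X.α (-j)) (X.S.cls C.ν) := by
    intro j
    rw [← X.α_zero, X.form_H_cv hC, zero_sub]
  constructor
  · have hRR : X.S.form (X.α l) (X.α l) = X.S.form X.S.A X.S.A := by
      rw [X.form_α_α', sub_self, X.α_zero]
    have hPR : X.S.form X.S.A (X.α l) = X.S.form (X.α l) X.S.A := X.S.symm _ _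
    have huP : X.S.form (X.S.cls C.ν) X.S.A = X.S.form (X.α 0) (X.S.cls C.ν) := by
      rw [X.S.symm, hA]
    have huR : X.S.form (X.S.cls C.ν) (X.α l) = X.S.form (X.α l) (X.S.cls C.ν) := X.S.symm _ _
    have hvP : X.S.form (X.S.cls (X.cv C l).ν) X.S.A = X.S.form (X.α (-l)) (X.S.cls C.ν) := by
      rw [X.S.symm, hm]
    have hvR : X.S.form (X.S.cls (X.cv C l).ν) (X.α l) = X.S.form (X.α 0) (X.S.cls C.ν) := by
      rw [X.S.symm, X.form_H_cv hC, sub_self]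
    have hvv : X.S.form (X.S.cls (X.cv C l).ν) (X.S.cls (X.cv C l).ν) =
        X.S.form (X.S.cls C.ν) (X.S.cls C.ν) := X.form_mv_mv l hC hC
    have hdl := hd (-l)
    rw [hm, neg_neg, abs_neg] at hdl
    have hdm := hd l
    rw [hm] at hdm
    have hql := hq l
    have huv : X.S.form (X.S.cls C.ν) (X.S.cls (X.cv C l).ν) =
        X.S.form (X.S.cls (X.cv C l).ν) (X.S.cls C.ν) := X.S.symm _ _
    have key := fun hpq => p11_hodge (S := X.S) (P := X.S.A) (R := X.α l) (u := X.S.cls C.ν)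
      (v := X.S.cls (X.cv C l).ν) rfl hRR hPR huP huR hvP hvR rfl hvv hp hpq
    rw [huv] at key
    have hcast : ∀ {a b : ℤ}, ((a : ℝ) < b) → a < b := fun {a b} h => by exact_mod_cast h
    have h1 := p11_real ht hpR hd0R hc₁ hC₁ hc₂ hC₂ hql.1 hql.2 hdl.1 hdl.2 hdm.1 hdm.2
      (uv := (X.S.form (X.S.cls (X.cv C l).ν) (X.S.cls C.ν) : ℤ))
      (uu := (X.S.form (X.S.cls C.ν) (X.S.cls C.ν) : ℤ))
      (by exact_mod_cast huv0)
      (fun hpq => by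
        have h2 := (key (hcast hpq)).1
        exact_mod_cast h2)
      (fun hpq => by
        have h2 := (key (hcast hpq)).2.1
        exact_mod_cast h2)
      (fun hpq => by
        have h2 := (key (hcast hpq)).2.2
        exact_mod_cast h2)
    rw [← hE] at h1
    have h2 : (0 : ℝ) ≤ k * C₂ := by positivity
    linarith
  · have h1 := hk _ hCl
    have h2 : X.S.form (X.S.cls (X.cv C l).ν) (X.S.cls C.ν) ≤
        k * X.S.form X.S.A (X.S.cls (X.cv C l).ν) := by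
      rw [X.S.symm]
      exact le_trans (le_abs_self _) h1
    have h3 : ((X.S.form (X.S.cls (X.cv C l).ν) (X.S.cls C.ν) : ℤ) : ℝ) ≤
        k * (X.S.form X.S.A (X.S.cls (X.cv C l).ν) : ℤ) := by exact_mod_cast h2
    have h4 := (hd l).2
    have h5 : (k : ℝ) * (X.S.form X.S.A (X.S.cls (X.cv C l).ν) : ℤ) ≤
        k * (C₂ * X.lam ^ |l|) := mul_le_mul_of_nonneg_left h4 (Nat.cast_nonneg k)
    have h6 : (k : ℝ) * (C₂ * X.lam ^ |l|) ≤ (E + k * C₂ + 1) * X.lam ^ |l| := by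
      nlinarith [mul_nonneg hE0 ht0.le]
    linarith

end Sys0

end Pool.Agent.LibK3P
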