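import Pool.Agent.LibK3P.P01
import Pool.Agent.LibK3P.P02
import Pool.Agent.LibK3P.P03
import Pool.Agent.LibK3P.P04
import Pool.Agent.LibK3P.P05
import Pool.Agent.LibK3P.P06
import Pool.Agent.LibK3P.P10
import Pool.Agent.LibK3P.P11
import Pool.Agent.LibK3P.P12
import Pool.Agent.LibK3P.P13
import Pool.Agent.LibK3P.P14
import Pool.Agent.LibK3P.P15


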