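import Pool.Agent.LibK3.U8
import Pool.Agent.LibK3P.All

/-! For large `m` a prime of residue degree one over `C_m` gives a lift (as the last theorem of `LibK3/U8`). -/

set_option autoImplicit false
set_option linter.unusedSectionVars false

open Pool.Agent.LibGMM Pool.Agent.LibK Pool.Agent.LibKB
open Pool.Agent.LibLB (PSurf RLR)
open Pool.Agent.LibCov80 (Over)
open Pool.Agent.LibCUR2
open Pool.Agent.LibK3

namespace Pool.Agent.LibK3P

variable {L : Type} [Field L] [Algebra ℂ L] {M : Type} [Field M] [Algebra ℂ M] [Algebra L M]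
  [IsScalarTower ℂ L M] [FiniteDimensional L M]

/-- For large `m` a prime of residue degree one over `C_m` gives a lift. -/
theorem exists_lift_large (X : Sys0 L) {C₀ : RC L} (hC : X.Ent C₀) :
    ∃ m₀ : ℕ, ∀ m : ℕ, m₀ ≤ m → (∃ (μ : DVal M) (e : ℕ), Over μ (X.cv C₀ m).ν e ∧
      ResOne μ (X.cv C₀ m).ν) → ∃ C' : RC M, C'.Lift (X.cv C₀ m) := by
  have hfin := (ram_finite (M := M) X.S).image (bel L)
  obtain ⟨m₀, hm₀⟩ := X.cv_avoid hC hfin
  refine ⟨m₀, fun m hm => ?_⟩
  rintro ⟨μ, e, ho, hr⟩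
  have h1 : bel L μ = (X.cv C₀ m).ν := bel_eq ho
  have h2 : ram L μ = e := ram_eq ho
  have h3 : e = 1 := by
    by_contra hne
    apply hm₀ m hm
    refine ⟨μ, ⟨?_, by rw [h2]; exact hne⟩, h1⟩
    change bel L μ ∈ X.S.prm
    rw [h1]
    exact X.cv_mem hC.mem m
  subst h3
  obtain ⟨C', -, hC'⟩ := exists_lift ho hr
  exact ⟨C', hC'⟩

end Pool.Agent.LibK3P
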