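import Pool.Agent.LibK3.FA3
import Pool.Agent.LibK3.NP5
import Pool.Agent.LibK3.NP6
import Pool.Agent.LibK3P.IDefs
import Pool.Agent.LibK3P.PF
import Pool.Agent.LibK3P.U8

/-!
[K3 FA4] Final (A).

PLAN. `exists_sys` (N26): `X : Sys0 L`, `X.S.prm = primes Y`, `X.γ = γ` (subst). `X.cv C₀ m = C₀.mv (γ ^ m)` for natural `m` (`zpow_natCast`).
`hD`: `W, c, K, m₁`. For `T ∈ W` let `F_T, n_T, m_T` from `hC` with `ε := c / (2 (|W| + 1))`. `F := ∏_(T ∈ W) F_T ≠ 0`.
For `m` large and a pair `μ, e` as in the statement: `exists_lift_large` (file U8) gives a lift `C'` of `X.cv C₀ m`. `a_m := form A (cls ν_m) = form (α (-m)) (cls C₀.ν)` (`form_H_cv`, `α_zero`) tends to infinity (`Sys.growth`,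
`Sys.lam_gt`). If all `T ∈ W` had `Bad T ≤ ε a_m` then `c a_m - K ≤ |W| ε a_m ≤ (c / 2) a_m`, so `a_m ≤ 2 K / c`: false for `m` large. So some `T ∈ W` has
`Slope (X.cv C₀ m) x y F_T n_T`. All coefficients of all `F_T` (nonzero ones: finitely many functions, their poles are finitely many primes, avoided for `m` large)
are in the ring; `x, y` too (`Sys.cv_nonconst`). Conclusion of the statement for a derivation `δ`, with `Xx := δ (ψ x)`, `Yy := δ (ψ y)`:
work with `F̄_T := ∑ ψ(coeff i) X^i : Polynomial (RatFunc ℂ)`; `z ↦ C.ψ z` on `C.ν.ring` is a ring homomorphism `ρ : C.ν.ring →+* RatFunc ℂ`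
(`C.add`, `C.mul`, `C.const`); a polynomial over `L` with coefficients in `C.ν.ring` is the image of one over the ring (`Polynomial.toSubring` or
`Polynomial.lifts_iff_coeff_lifts`), so `\overline{∏ F_T} = ∏ F̄_T`.
Case `Xx ≠ 0`: `hom_prod`. Case `Xx = 0`: `δ = δ(t) • d/dt` (`der_eq`, `exists_dt`) and `d/dt (ψ x) ≠ 0` for `m` large (`ψ x` is not constant, `Sys.cv_nonconst`; a function
with derivative `0` is constant: `ordP_dt'` and `const_of_nonneg` applied to it and its inverse...: if `f` is not constant some `ordP v f ≠ 0`, `sum_ordP`), so `δ = 0`, `Yy = 0`; the sum is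
`0` if `F.natDegree ≥ 1`. If `F.natDegree = 0` then `F` is a nonzero constant; `F̄ = C (ψ F.coeff 0)` with `ψ (F.coeff 0) ≠ 0` for `m` large (order `0` at `ν_m`); but with `δ₀ = d/dt` the first
case gives `F̄_0 * 1 * Xx^0 = 0`: contradiction, so this case does not occur (for these `m`).
-/

set_option autoImplicit false

open Pool.Agent.LibGMM Pool.Agent.LibK Pool.Agent.LibKB
open Pool.Agent.LibLB (PSurf RLR)
open Pool.Agent.LibCov80 (Over)

open Pool.Agent.LibK3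

namespace Pool.Agent.LibK3P

/-- A function with derivative zero is constant. -/
private theorem fa4_const {δ : Derivation ℂ (RatFunc ℂ) (RatFunc ℂ)} (h : IsDt δ) {f : RatFunc ℂ}
    (hf : ∀ c, f ≠ RatFunc.C c) : δ f ≠ 0 := by
  have h1 : ∃ v, ordP v f < 0 := by
    by_contra hcon
    push Not at hcon
    obtain ⟨c, hc⟩ := const_of_nonneg hcon
    exact hf c hc
  obtain ⟨v, hv⟩ := h1
  have hf0 : f ≠ 0 := by
    rintro rfl
    rw [ordP_zero] at hv
    exact lt_irrefl _ hv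
  exact (ordP_dt' h v hf0 hv.ne).1

/-- The reduction map. -/
private noncomputable def fa4_red {L : Type} [Field L] [Algebra ℂ L] (C : RC L) :
    C.ν.ring.toSubring →+* RatFunc ℂ where
  toFun z := C.ψ z
  map_one' := by
    have h := C.const 1
    rwa [map_one, map_one] at h
  map_mul' z w := C.mul _ z.2 _ w.2
  map_zero' := (C.zero_iff 0 C.ν.ring.zero_mem).2 (Or.inl rfl)
  map_add' z w := C.add _ z.2 _ w.2

/-- The slope equation passes to products. -/
private theorem fa4_prod {L : Type} [Field L] [Algebra ℂ L] (C : RC L) {J : Type} (s : Finset J)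
    (F : J → Polynomial L) (n : J → ℕ) (hF : ∀ j ∈ s, ∀ i, (F j).coeff i ∈ C.ν.ring)
    (hn : ∀ j ∈ s, (F j).natDegree ≤ n j) {X Y : RatFunc ℂ} (hX : X ≠ 0) {j : J} (hj : j ∈ s)
    (h : ∑ i ∈ Finset.range (n j + 1), C.ψ ((F j).coeff i) * Y ^ i * X ^ (n j - i) = 0) :
    (∀ i, (∏ j ∈ s, F j).coeff i ∈ C.ν.ring) ∧
    ∑ i ∈ Finset.range ((∏ j ∈ s, F j).natDegree + 1),
      C.ψ ((∏ j ∈ s, F j).coeff i) * Y ^ i * X ^ ((∏ j ∈ s, F j).natDegree - i) = 0 := by
  classical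
  have hl : ∀ j ∈ s, ∃ G : Polynomial C.ν.ring.toSubring,
      G.map C.ν.ring.toSubring.subtype = F j ∧ G.natDegree = (F j).natDegree := by
    intro j hj
    have h1 : (↑((F j).coeffs) : Set L) ⊆ C.ν.ring.toSubring := by
      intro z hz
      obtain ⟨i, -, rfl⟩ := Polynomial.mem_coeffs_iff.1 (Finset.mem_coe.1 hz)
      exact hF j hj i
    exact ⟨(F j).toSubring _ h1, Polynomial.map_toSubring _ _ _, Polynomial.natDegree_toSubring _ _ _⟩
  choose! G hG hGd using hl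
  have hsub : Function.Injective C.ν.ring.toSubring.subtype := Subtype.val_injective
  have hprod : (∏ j ∈ s, G j).map C.ν.ring.toSubring.subtype = ∏ j ∈ s, F j := by
    rw [Polynomial.map_prod]
    exact Finset.prod_congr rfl fun j hj => hG j hj
  have hcoef : ∀ i, ((∏ j ∈ s, G j).coeff i : L) = (∏ j ∈ s, F j).coeff i := by
    intro i
    rw [← hprod, Polynomial.coeff_map]
    rfl
  have hcoefj : ∀ j ∈ s, ∀ i, ((G j).coeff i : L) = (F j).coeff i := by
    intro j hj i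
    rw [← hG j hj, Polynomial.coeff_map]
    rfl
  have hdeg : (∏ j ∈ s, G j).natDegree = (∏ j ∈ s, F j).natDegree := by
    rw [← hprod, Polynomial.natDegree_map_eq_of_injective hsub]
  refine ⟨fun i => by rw [← hcoef i]; exact ((∏ j ∈ s, G j).coeff i).2, ?_⟩
  have key := hom_prod s (fun j => (G j).map (fa4_red C)) n (fun j hj =>
    (Polynomial.natDegree_map_le).trans ((hGd j hj).le.trans (hn j hj))) hX Y hj (by
      refine Eq.trans (Finset.sum_congr rfl fun i _ => ?_) h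
      rw [Polynomial.coeff_map, ← hcoefj j hj i]
      rfl) (N := (∏ j ∈ s, F j).natDegree) (by
      rw [← Polynomial.map_prod, ← hdeg]
      exact Polynomial.natDegree_map_le)
  refine Eq.trans (Finset.sum_congr rfl fun i _ => ?_) key
  rw [← Polynomial.map_prod, Polynomial.coeff_map, ← hcoef i]
  rfl

theorem statementA0_of (hD : StatementD0) (hC : StatementC0) : StatementA0 := by
  intro L _ _ Y γ hdyn C₀ hC₀ hgrow x y hxy M _ _ _ _ _ hram
  obtain ⟨B, Q, e, hB, hBp, hQB, he⟩ := hram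
  obtain ⟨X, hprm, -, rfl, hC₀'⟩ := exists_ent hdyn hC₀ hgrow
  rw [← hprm] at hB
  obtain ⟨W, hW, c, K, hc, m₁, H₁⟩ := hD L X C₀ hC₀' M B Q e hB hBp hQB he
  set ε : ℝ := c / (2 * ((W.card : ℝ) + 1)) with hε
  have hε0 : 0 < ε := by positivity
  have hT : ∀ T : W, ∃ (F : Polynomial L) (n : ℕ), F ≠ 0 ∧ F.natDegree ≤ n ∧ ∃ m₀ : ℕ,
      ∀ m : ℕ, m₀ ≤ m → Slope (X.cv C₀ m) x y F n ∨
        (Bad X.S (X.cv C₀ m) T : ℝ) ≤ ε * X.S.form X.S.A (X.S.cls (X.cv C₀ m).ν) :=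
    fun T => hC L X C₀ hC₀' x y hxy T (hW T T.2) ε hε0
  choose F n hF0 hFn mT HT using hT
  have hcv : ∀ m : ℕ, X.cv C₀ m = C₀.mv (X.γ ^ m) := by
    intro m
    unfold Sys0.cv
    rw [zpow_natCast]
  -- the conditions on `m`
  have hx : x ∉ Set.range (algebraMap ℂ L) := by
    rintro ⟨b, hb⟩
    have h1 := hxy.transcendental 0
    simp only [Matrix.cons_val_zero] at h1
    exact h1 (hb ▸ isAlgebraic_algebraMap b)
  have hy : y ∉ Set.range (algebraMap ℂ L) := by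
    rintro ⟨b, hb⟩
    have h1 := hxy.transcendental 1
    simp only [Matrix.cons_val_one, Matrix.cons_val_fin_one] at h1
    exact h1 (hb ▸ isAlgebraic_algebraMap b)
  obtain ⟨m₂, H₂⟩ := X.cv_nonconst hC₀' hx
  obtain ⟨m₃, H₃⟩ := X.cv_nonconst hC₀' hy
  obtain ⟨m₄, H₄⟩ := exists_lift_large (M := M) X hC₀'
  have hcoef : ∀ T : W, ∀ i, ∀ᶠ m : ℕ in Filter.atTop,
      (F T).coeff i ∈ (X.cv C₀ m).ν.ring := by
    intro T i
    by_cases h0 : (F T).coeff i = 0
    · refine Filter.Eventually.of_forall fun m => ?_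
      rw [h0]
      exact Subalgebra.zero_mem _
    · obtain ⟨m₀, hm₀⟩ := statementFin L Y X.γ hdyn C₀ hC₀ hgrow _ h0
      refine Filter.eventually_atTop.2 ⟨m₀, fun m hm => ?_⟩
      rw [hcv m, mem_ring]
      exact (hm₀ m hm).ge
  have hcoef' : ∀ᶠ m : ℕ in Filter.atTop, ∀ T : W, ∀ i,
      (F T).coeff i ∈ (X.cv C₀ m).ν.ring := by
    rw [Filter.eventually_all]
    intro T
    have h1 : ∀ᶠ m : ℕ in Filter.atTop, ∀ i ∈ Finset.range ((F T).natDegree + 1),
        (F T).coeff i ∈ (X.cv C₀ m).ν.ring :=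
      (Filter.eventually_all_finset _).2 fun i _ => hcoef T i
    filter_upwards [h1] with m hm i
    by_cases hi : i ∈ Finset.range ((F T).natDegree + 1)
    · exact hm i hi
    · rw [Finset.mem_range, not_lt] at hi
      rw [Polynomial.coeff_eq_zero_of_natDegree_lt hi]
      exact Subalgebra.zero_mem _
  obtain ⟨c', C', hc', -, hgr⟩ := X.growth hC₀'.posEnt hC₀'.mem hC₀'.not_per
  have hform : ∀ m : ℕ, c' * X.lam ^ m ≤ X.S.form X.S.A (X.S.cls (X.cv C₀ m).ν) := by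
    intro m
    have h1 := (hgr (0 - m)).1
    rw [← X.form_H_cv hC₀'.mem 0 m, X.α_zero, zero_sub, abs_neg, Nat.abs_cast, zpow_natCast] at h1
    exact h1
  have hlarge : ∀ᶠ m : ℕ in Filter.atTop,
      2 * K / c < X.S.form X.S.A (X.S.cls (X.cv C₀ m).ν) := by
    have h1 : Filter.Tendsto (fun m : ℕ => c' * X.lam ^ m) Filter.atTop Filter.atTop :=
      (tendsto_pow_atTop_atTop_of_one_lt X.lam_gt).const_mul_atTop hc'
    filter_upwards [h1.eventually_gt_atTop (2 * K / c)] with m hm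
    exact hm.trans_le (hform m)
  have hTall : ∀ᶠ m : ℕ in Filter.atTop, ∀ T : W, mT T ≤ m :=
    Filter.eventually_all.2 fun T => Filter.eventually_ge_atTop (mT T)
  refine ⟨∏ T : W, F T, Finset.prod_ne_zero_iff.2 fun T _ => hF0 T, ?_⟩
  have hev := (((hcoef'.and hlarge).and hTall).and ((Filter.eventually_ge_atTop m₁).and
    ((Filter.eventually_ge_atTop m₂).and ((Filter.eventually_ge_atTop m₃).and
      (Filter.eventually_ge_atTop m₄)))))
  obtain ⟨m₀, hm₀⟩ := Filter.eventually_atTop.1 hev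
  refine ⟨m₀, fun m hm hlift => ?_⟩
  obtain ⟨⟨⟨k1, k2⟩, k3⟩, k4, k5, k6, k7⟩ := hm₀ m hm
  obtain ⟨hx1, hx2⟩ := H₂ m k5
  obtain ⟨hy1, -⟩ := H₃ m k6
  rw [← hcv m]
  have hνeq : mv (X.γ ^ m) C₀.ν = (X.cv C₀ m).ν := by rw [hcv m]; rfl
  rw [hνeq] at hlift ⊢
  obtain ⟨C'', hlift⟩ := H₄ m k7 hlift
  have hsum := H₁ m k4 C'' hlift
  -- some `T` satisfies the slope equation
  have hslope : ∃ T : W, Slope (X.cv C₀ m) x y (F T) (n T) := by
    by_contra hcon
    push Not at hcon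
    set am : ℝ := ((X.S.form X.S.A (X.S.cls (X.cv C₀ m).ν) : ℤ) : ℝ) with ham
    have ham0 : 0 ≤ am := le_trans (mul_nonneg hc'.le
      (pow_nonneg (zero_le_one.trans X.lam_gt.le) m)) (hform m)
    have h1 : ∑ T ∈ W, (Bad X.S (X.cv C₀ m) T : ℝ) ≤ W.card * (ε * am) := by
      rw [← nsmul_eq_mul]
      refine Finset.sum_le_card_nsmul _ _ _ fun T hTW => ?_
      exact (HT ⟨T, hTW⟩ m (k3 ⟨T, hTW⟩)).resolve_left (hcon ⟨T, hTW⟩)
    have h2 : (W.card : ℝ) * (ε * am) ≤ c / 2 * am := by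
      have h3 : (W.card : ℝ) * ε ≤ c / 2 := by
        rw [hε, mul_div_assoc', div_le_div_iff₀ (by positivity) (by norm_num)]
        nlinarith
      calc (W.card : ℝ) * (ε * am) = (W.card : ℝ) * ε * am := by ring
        _ ≤ c / 2 * am := mul_le_mul_of_nonneg_right h3 ham0
    have h4 : 2 * K < c * am := by
      have h5 := (div_lt_iff₀ hc).1 k2
      linarith
    linarith
  obtain ⟨T, hT1, -, -, hT2⟩ := hslope
  have hstep : ∀ δ : Derivation ℂ (RatFunc ℂ) (RatFunc ℂ), δ ((X.cv C₀ m).ψ x) ≠ 0 →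
      (∀ i, (∏ T : W, F T).coeff i ∈ (X.cv C₀ m).ν.ring) ∧
      ∑ i ∈ Finset.range ((∏ T : W, F T).natDegree + 1),
        (X.cv C₀ m).ψ ((∏ T : W, F T).coeff i) * (δ ((X.cv C₀ m).ψ y)) ^ i *
          (δ ((X.cv C₀ m).ψ x)) ^ ((∏ T : W, F T).natDegree - i) = 0 := fun δ hδ =>
    fa4_prod (X.cv C₀ m) Finset.univ F n (fun j _ => k1 j) (fun j _ => hFn j) hδ
      (Finset.mem_univ T) (hT2 δ)
  obtain ⟨δ₀, hδ₀⟩ := exists_dt
  have hδx : δ₀ ((X.cv C₀ m).ψ x) ≠ 0 := fa4_const hδ₀ hx2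
  obtain ⟨hco, hs0⟩ := hstep δ₀ hδx
  refine ⟨hco, hx1, hy1, fun δ => ?_⟩
  by_cases hδ : δ ((X.cv C₀ m).ψ x) = 0
  · have h1 : δ RatFunc.X = 0 := by
      have h2 := der_eq (δ' := δ) hδ₀ ((X.cv C₀ m).ψ x)
      rw [hδ] at h2
      exact (mul_eq_zero.1 h2.symm).resolve_right hδx
    have h3 : δ ((X.cv C₀ m).ψ y) = 0 := by
      rw [der_eq (δ' := δ) hδ₀, h1, zero_mul]
    rw [hδ, h3]
    rcases Nat.eq_zero_or_pos (∏ T : W, F T).natDegree with h0 | h0
    · rw [h0] at hs0 ⊢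
      simpa using hs0
    · refine Finset.sum_eq_zero fun i hi => ?_
      rcases Nat.eq_zero_or_pos i with hi0 | hi0
      · rw [hi0, Nat.sub_zero, zero_pow h0.ne', mul_zero]
      · rw [zero_pow hi0.ne', mul_zero, zero_mul]
  · exact (hstep δ hδ).2

end Pool.Agent.LibK3P
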