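import Pool.Agent.LibK3P.All
import Pool.Agent.LibK3.SP3

/-!
[K3E E2] `D` preserves almost all points of `C`. For a chart `i` with `crd X.g i ≤ C.ν.ring` all
`X.g j / X.g i` are in `C.ν.ring`, so `D (X.g j / X.g i) ∈ C.ν.ring`, and so it is in `ctr X.S C v` for all but
finitely many `v` (`spreadC`); `X.ι` is finite (`X.fin`). For the other `v` let `i` be the chart of `X.gen`
for the point `x_v := ctr X.S C v` (`(isCtr_ctr hC v).pts`; `crd X.g i ≤ x_v ≤ C.ν.ring`): by
`Algebra.adjoin_induction` `D u ∈ x_v` for `u ∈ crd X.g i`, and for `z = u / w`, `w⁻¹ ∈ x_v`: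
`D z = D u * w⁻¹ - u * w⁻¹ * w⁻¹ * D w` (`Derivation.leibniz_inv` or `D (z w) = D u`).
-/

set_option autoImplicit false

open Pool.Agent.LibGMM Pool.Agent.LibK Pool.Agent.LibKB
open Pool.Agent.LibLB (PSurf RLR)

open Pool.Agent.LibK3

namespace Pool.Agent.LibK3P

theorem finite_bad {L : Type} [Field L] [Algebra ℂ L] (X : Sys0 L) {C : RC L}
    (hC : C.ν ∈ X.S.prm) {x : L} (hx : x ∈ C.ν.ring) {D : Derivation ℂ L L}
    (hD : ∀ z ∈ C.ν.ring, D z ∈ C.ν.ring) :
    {v | ¬ (x ∈ ctr X.S C v ∧ ∀ z ∈ ctr X.S C v, D z ∈ ctr X.S C v)}.Finite := by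
  classical
  have := X.fin
  -- the bad places of the generators
  have hfin1 : ∀ i j, {v | crd X.g i ≤ C.ν.ring ∧ D (X.g j / X.g i) ∉ ctr X.S C v}.Finite := by
    intro i j
    by_cases h : crd X.g i ≤ C.ν.ring
    · refine (spreadC hC (hD _ (h (Algebra.subset_adjoin ⟨j, rfl⟩)))).subset ?_
      rintro v ⟨_, hv⟩
      exact hv
    · refine Set.finite_empty.subset ?_
      rintro v ⟨hv, _⟩
      exact absurd hv h
  have hfin2 : (⋃ i, ⋃ j, {v | crd X.g i ≤ C.ν.ring ∧ D (X.g j / X.g i) ∉ ctr X.S C v}).Finite :=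
    Set.finite_iUnion fun i => Set.finite_iUnion fun j => hfin1 i j
  refine ((spreadC hC hx).union hfin2).subset ?_
  intro v hv
  by_contra hcon
  rw [Set.mem_union, not_or] at hcon
  obtain ⟨h1, h2⟩ := hcon
  apply hv
  have hx' : x ∈ ctr X.S C v := by
    by_contra h
    exact h1 h
  refine ⟨hx', ?_⟩
  have hctr := isCtr_ctr hC v
  obtain ⟨i, hi, hgen⟩ := X.gen _ hctr.pts
  have hD1 : ∀ j, D (X.g j / X.g i) ∈ ctr X.S C v := by
    intro j
    by_contra h
    apply h2
    rw [Set.mem_iUnion]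
    refine ⟨i, ?_⟩
    rw [Set.mem_iUnion]
    exact ⟨j, hi.trans hctr.le, h⟩
  have hD2 : ∀ u ∈ crd X.g i, D u ∈ ctr X.S C v := by
    intro u hu
    induction hu using Algebra.adjoin_induction with
    | mem w hw =>
      obtain ⟨j, rfl⟩ := hw
      exact hD1 j
    | algebraMap r =>
      rw [Derivation.map_algebraMap]
      exact (ctr X.S C v).zero_mem
    | add a b _ _ ha hb =>
      rw [map_add]
      exact (ctr X.S C v).add_mem ha hb
    | mul a b ha' hb' ha hb =>
      rw [Derivation.leibniz, smul_eq_mul, smul_eq_mul]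
      exact (ctr X.S C v).add_mem ((ctr X.S C v).mul_mem (hi ha') hb)
        ((ctr X.S C v).mul_mem (hi hb') ha)
  intro z hz
  obtain ⟨u, hu, w, hw, hw0, hw', rfl⟩ := hgen z hz
  have h3 : D (u / w) = D u * w⁻¹ - u / w * w⁻¹ * D w := by
    have h4 := congrArg D (div_mul_cancel₀ u hw0)
    rw [Derivation.leibniz, smul_eq_mul, smul_eq_mul] at h4
    have h5 : w * D (u / w) = D u - u / w * D w := by linear_combination h4
    have h6 : D (u / w) = w⁻¹ * (w * D (u / w)) := by rw [inv_mul_cancel_left₀ hw0]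
    rw [h6, h5]
    ring
  rw [h3]
  exact (ctr X.S C v).sub_mem ((ctr X.S C v).mul_mem (hD2 u hu) hw')
    ((ctr X.S C v).mul_mem ((ctr X.S C v).mul_mem hz hw') (hD2 w hw))

end Pool.Agent.LibK3P
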