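import Pool.Agent.LibK3.NP2
import Pool.Agent.LibK3.NP6
import Pool.Agent.LibK3P.CH3
import Pool.Agent.LibK3P.P12

/-!
[K3E E1] Block E (StatementB): the derivation along the slope. `Slp C x D δ`: the derivation `D` of `L`
(`D x = 1`) preserves the ring of `C` and induces `δ / δ (ψ x)` on the residue field.
`dt_ne`: if `f` is not constant then `ordP v f < 0` for some `v` (`const_of_nonneg`), so `δ f ≠ 0`
(`ordP_dt'`).
`exists_slp`: `x` is not constant (`x` is transcendental, `AlgebraicIndependent`), `cv_nonconst` for `x`;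
`cv_avoid` for the finite set `T` of `chain_rule`; `D₁ + s • D₂` (`Derivation.coe_add`, `Derivation.smul_apply`):
`ψ (D₁ z + s D₂ z) = ψ (D₁ z) + ψ s ψ (D₂ z)`.
-/

set_option autoImplicit false

open Pool.Agent.LibGMM Pool.Agent.LibK Pool.Agent.LibKB
open Pool.Agent.LibLB (PSurf RLR)

open Pool.Agent.LibK3

namespace Pool.Agent.LibK3P

theorem dt_ne {δ : Derivation ℂ (RatFunc ℂ) (RatFunc ℂ)} (h : IsDt δ) {f : RatFunc ℂ}
    (hf : ∀ c, f ≠ RatFunc.C c) : δ f ≠ 0 := by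
  by_contra h0
  obtain ⟨v, hv⟩ : ∃ v, ordP v f < 0 := by
    by_contra hcon
    push Not at hcon
    obtain ⟨c, hc⟩ := const_of_nonneg hcon
    exact hf c hc
  have hf0 : f ≠ 0 := by
    rintro rfl
    rw [ordP_zero] at hv
    exact lt_irrefl _ hv
  exact (ordP_dt' h v hf0 hv.ne).1 h0

/-- `D` preserves the ring of `C` and induces `δ / δ (ψ x)` on the residue field. -/
structure Slp {L : Type} [Field L] [Algebra ℂ L] (C : RC L) (x : L) (D : Derivation ℂ L L)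
    (δ : Derivation ℂ (RatFunc ℂ) (RatFunc ℂ)) : Prop where
  mem : x ∈ C.ν.ring
  ne : δ (C.ψ x) ≠ 0
  pres : ∀ z ∈ C.ν.ring, D z ∈ C.ν.ring
  chain : ∀ z ∈ C.ν.ring, δ (C.ψ z) = C.ψ (D z) * δ (C.ψ x)

theorem exists_slp {L : Type} [Field L] [Algebra ℂ L] (X : Sys0 L) {C : RC L} (hC : X.Ent C)
    {x y : L} (h : AlgebraicIndependent ℂ ![x, y]) {D₁ D₂ : Derivation ℂ L L}
    (h1 : D₁ x = 1) (h2 : D₁ y = 0) (h3 : D₂ x = 0) (h4 : D₂ y = 1)
    {δ : Derivation ℂ (RatFunc ℂ) (RatFunc ℂ)} (hδ : IsDt δ) :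
    ∃ m₀ : ℕ, ∀ m : ℕ, m₀ ≤ m → ∀ s ∈ (X.cv C m).ν.ring,
      δ ((X.cv C m).ψ y) = (X.cv C m).ψ s * δ ((X.cv C m).ψ x) →
      Slp (X.cv C m) x (D₁ + s • D₂) δ := by
  obtain ⟨T, hT, hch⟩ := chain_rule X h h1 h2 h3 h4
  obtain ⟨m₁, hm₁⟩ := X.cv_avoid hC hT
  have hx : x ∉ Set.range (algebraMap ℂ L) := by
    rintro ⟨c, rfl⟩
    rw [Derivation.map_algebraMap] at h1
    exact zero_ne_one h1
  obtain ⟨m₂, hm₂⟩ := X.cv_nonconst hC hx
  refine ⟨max m₁ m₂, fun m hm s hs hsl => ?_⟩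
  obtain ⟨hxr, -, hpres, hchain⟩ := hch (X.cv C m) (X.cv_mem hC.mem m)
    (hm₁ m ((le_max_left _ _).trans hm))
  have hnc := (hm₂ m ((le_max_right _ _).trans hm)).2
  have happ : ∀ z, (D₁ + s • D₂) z = D₁ z + s * D₂ z := fun z => by
    rw [Derivation.add_apply, Derivation.smul_apply, smul_eq_mul]
  refine ⟨hxr, dt_ne hδ hnc, fun z hz => ?_, fun z hz => ?_⟩
  · rw [happ]
    exact add_mem (hpres z hz).1 (mul_mem hs (hpres z hz).2)
  · rw [happ, (X.cv C m).add _ (hpres z hz).1 _ (mul_mem hs (hpres z hz).2),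
      (X.cv C m).mul _ hs _ (hpres z hz).2, hchain δ z hz, hsl]
    ring

end Pool.Agent.LibK3P
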