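import Pool.Agent.LibK3P.All
import Pool.Agent.LibK3P.E1

/-!
[K3E E3] Two curves of the same slope do not meet at a good place. Let `T := C'.ν`, `x_v := ctr S C v`
(`isCtr_ctr`). Suppose `kap S C v T ≠ 0`; it is `> 0` (`kap_nonneg`), so `x_v ≤ T.ring` (`kap_pos_iff`).
`f := leq S (prd T) x_v` (`leq_spec (isDiv_prd T)`): `T.ord f = 1`, `μ.ord f = 0` for the other primes
`μ ∈ S.prm` through `x_v`; `f ∈ x_v` (`Pt.mem_iff`, `S.pt`). `kap S C v T = ordP v (C.ψ f)` and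
`C.ψ f ≠ 0` (`ct_eq` with `c = 1`; `prd T C.ν = 0`). `D f ∈ x_v`; `C'.ψ f = 0` (`RC.ψ_pos`), so
`C'.ψ (D f) * δ (C'.ψ x) = δ 0 = 0`, so `C'.ψ (D f) = 0`, i.e. `D f = 0` or `T.ord (D f) > 0`
(`C'.zero_iff`). Hence `h := D f / f ∈ x_v` (`Pt.mem_iff`: the orders of `D f` are `≥ 0`, and `≥ 1` at `T`).
With `n := ordP v (C.ψ f) ≥ 1`: `δ (C.ψ f) = C.ψ (D f) * δ (C.ψ x) = C.ψ h * C.ψ f * δ (C.ψ x)`
(`D f = h * f`), it is `≠ 0` and `ordP v (wP v * δ (C.ψ f)) = n - 1` (`ordP_dt'`), while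
`ordP v (wP v * δ (C.ψ x)) ≥ 0` (`ordP_dt`; `0 ≤ ordP v (C.ψ x)` by `IsCtr.nonneg`) and
`ordP v (C.ψ h) ≥ 0`; `ordP_mul`: `n - 1 ≥ n`, a contradiction.
-/

set_option autoImplicit false

open Pool.Agent.LibGMM Pool.Agent.LibK Pool.Agent.LibKB
open Pool.Agent.LibLB (PSurf RLR)

open Pool.Agent.LibK3

namespace Pool.Agent.LibK3P

theorem kap_zero {L : Type} [Field L] [Algebra ℂ L] {S : PSurf L} {C C' : RC L}
    (hC : C.ν ∈ S.prm) (hC' : C'.ν ∈ S.prm) (hne : C'.ν ≠ C.ν) {x : L} {D : Derivation ℂ L L}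
    {δ : Derivation ℂ (RatFunc ℂ) (RatFunc ℂ)} (hδ : IsDt δ) (h : Slp C x D δ) (h' : Slp C' x D δ)
    {v : Plc} (hx : x ∈ ctr S C v) (hD : ∀ z ∈ ctr S C v, D z ∈ ctr S C v) :
    kap S C v C'.ν = 0 := by
  by_contra hk
  have hctr := isCtr_ctr hC v
  have hk0 := kap_nonneg hC hC' hne v
  have hkp : 0 < kap S C v C'.ν := lt_of_le_of_ne hk0 (Ne.symm hk)
  have hle : ctr S C v ≤ C'.ν.ring := (kap_pos_iff hC hC' hne v).1 hkp
  have hpt := S.pt hctr.pts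
  have hf := leq_spec (S := S) (isDiv_prd (P := S.prm) C'.ν) hctr.pts
  set f : L := leq S (prd C'.ν) (ctr S C v) with hfdef
  have hfT : C'.ν.ord f = 1 := by rw [hf.2 _ hC' hle, prd_self]
  have hf0 : ∀ μ ∈ S.prm, ctr S C v ≤ μ.ring → μ ≠ C'.ν → μ.ord f = 0 := by
    intro μ hμ hx hn
    rw [hf.2 μ hμ hx, prd_ne hn]
  have hfx : f ∈ ctr S C v := by
    rw [hpt.mem_iff]
    intro μ hμ hx
    rw [hf.2 μ hμ hx]
    exact prd_nonneg _ _
  have hct := ct_eq hC hctr (isDiv_prd (P := S.prm) C'.ν) hf (c := 1) one_ne_zero (by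
    rw [prd_ne hne.symm, neg_zero]
    have := C.ν.ord_const 1
    rwa [map_one] at this)
  rw [one_mul] at hct
  have hn : 0 < ordP v (C.ψ f) := by
    rw [← hct.1]
    exact hkp
  have hψf : C.ψ f ≠ 0 := hct.2
  -- the derivative of `f`
  have hDf : D f ∈ ctr S C v := hD f hfx
  have hψ'f : C'.ψ f = 0 := C'.ψ_pos (by rw [hfT]; exact one_pos)
  have h1 : C'.ψ (D f) = 0 := by
    have h2 := h'.chain f (hle hfx)
    rw [hψ'f, map_zero] at h2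
    exact (mul_eq_zero.1 h2.symm).resolve_right h'.ne
  have hDf' : D f = 0 ∨ 0 < C'.ν.ord (D f) := (C'.zero_iff _ (hle hDf)).1 h1
  have hh : D f / f ∈ ctr S C v := by
    rw [hpt.mem_iff]
    intro μ hμ hx
    rcases eq_or_ne (D f) 0 with h0 | h0
    · rw [h0, zero_div, μ.ord_zero]
    · rw [div_eq_mul_inv, μ.ord_mul _ _ h0 (inv_ne_zero hf.1), ord_inv μ hf.1]
      by_cases hμT : μ = C'.ν
      · subst hμT
        rw [hfT]
        have := hDf'.resolve_left h0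
        omega
      · rw [hf0 μ hμ hx hμT]
        have : 0 ≤ μ.ord (D f) := hx hDf
        omega
  have hDh : D f = D f / f * f := by rw [div_mul_cancel₀ _ hf.1]
  have h2 : δ (C.ψ f) = C.ψ (D f / f) * C.ψ f * δ (C.ψ x) := by
    rw [h.chain f (hctr.le hfx)]
    conv_lhs => rw [hDh]
    rw [C.mul _ (hctr.le hh) _ (hctr.le hfx)]
  obtain ⟨h3, h4⟩ := ordP_dt' hδ v hψf hn.ne'
  have h5 : C.ψ (D f / f) ≠ 0 := by
    intro h0
    rw [h0, zero_mul, zero_mul] at h2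
    exact h3 h2
  have h6 : ordP v (wP v * δ (C.ψ f)) = ordP v (C.ψ (D f / f)) + ordP v (C.ψ f) +
      ordP v (wP v * δ (C.ψ x)) := by
    have e : wP v * δ (C.ψ f) = C.ψ (D f / f) * C.ψ f * (wP v * δ (C.ψ x)) := by
      rw [h2]; ring
    rw [e, ordP_mul v (mul_ne_zero h5 hψf) (mul_ne_zero (wP_ne v) h.ne), ordP_mul v h5 hψf]
  have h7 := ordP_dt hδ v (hctr.nonneg x hx)
  have h8 := hctr.nonneg _ hh
  omega

end Pool.Agent.LibK3P
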