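import Pool.Agent.LibK3P.All
import Pool.Agent.LibK3P.E2
import Pool.Agent.LibK3P.E3
import Pool.Agent.LibK3.E6
import Pool.Agent.LibK3.AJ5

/-!
[K3E E4] The number of curves of one slope, by `pigeon_places` (E6.lean) with `Z` the finite set of
`finite_bad` for `C_p := X.cv C p` (`h.mem`, `h.pres`), `lam := X.lam` (`X.lam_gt`),
`κ v l := kap X.S (X.cv C p) v (X.cv C l).ν`, `good l := Slp (X.cv C l) x D δ`, `l₀ := p + 1`; `c`, `C'` from
`X.form_cv_growth hC`, `K := C'`, `C := C'`, `μ` := the maximum over `v ∈ Z` (or the sum) of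
`ordP v (ψ_p (u v))`, `u v` from `X.mult_le hC.mem p` for the point `ctr X.S (X.cv C p) v`.
`h4`: `∑ᶠ v, kap .. = form (cls (X.cv C l).ν) (cls (X.cv C p).ν)` (`sum_kap`, `X.cv_injective`)
`= form (cls (X.cv C (l - p)).ν) (cls C.ν)` (`X.form_cv_cv`) `≥ c λ ^ |l - p| - C'`, and the support of
`kap` is contained in `Z` (`kap_zero`), so the finsum is the sum over `Z` (`finsum_eq_sum_of_support_subset`).
`h5`: `arc_le` and `form (cls (cv l)) (cls (cv l')) ≤ C' λ ^ |l - l'|`.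
`(l : ℤ) - p` and natural subtraction: `l > p`, `zpow_natCast`, `Nat.cast_sub`.
-/

set_option autoImplicit false

open Pool.Agent.LibGMM Pool.Agent.LibK Pool.Agent.LibKB
open Pool.Agent.LibLB (PSurf RLR)

open Pool.Agent.LibK3

namespace Pool.Agent.LibK3P

theorem slope_count {L : Type} [Field L] [Algebra ℂ L] (X : Sys0 L) {C : RC L}
    (hC : X.Ent C) {x : L} {D : Derivation ℂ L L}
    {δ : Derivation ℂ (RatFunc ℂ) (RatFunc ℂ)} (hδ : IsDt δ) (p : ℕ)
    (h : Slp (X.cv C p) x D δ) :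
    ∃ N W₀ : ℕ, ∀ W, W₀ ≤ W → ∀ Z : Finset ℕ,
      (∀ l ∈ Z, W ≤ l ∧ 2 * l ≤ 3 * W ∧ Slp (X.cv C l) x D δ) → Z.card ≤ N := by
  classical
  have hCp : (X.cv C p).ν ∈ X.S.prm := X.cv_mem hC.mem p
  have hfin := finite_bad X hCp h.mem h.pres
  obtain ⟨c, C', hc, hC', hgr⟩ := X.form_cv_growth hC
  have hlam := X.lam_gt
  have hlam0 : 0 < X.lam := by linarith
  -- intersection numbers of two curves
  have hint : ∀ i j : ℕ, i < j →
      c * X.lam ^ (j - i) - C' ≤
        X.S.form (X.S.cls (X.cv C j).ν) (X.S.cls (X.cv C i).ν) ∧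
      (X.S.form (X.S.cls (X.cv C j).ν) (X.S.cls (X.cv C i).ν) : ℝ) ≤ C' * X.lam ^ (j - i) := by
    intro i j hij
    rw [X.form_cv_cv hC.mem]
    have h1 := hgr ((j : ℤ) - i) (by omega)
    have h2 : |(j : ℤ) - i| = ((j - i : ℕ) : ℤ) := by
      rw [abs_of_pos (by omega), Nat.cast_sub hij.le]
    rw [h2, zpow_natCast] at h1
    exact h1
  -- the elements `u`
  have hu : ∀ v, ∃ u ∈ ctr X.S (X.cv C p) v, u⁻¹ ∉ ctr X.S (X.cv C p) v ∧
      (X.cv C p).ψ u ≠ 0 := by
    intro v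
    have hctr := isCtr_ctr hCp v
    obtain ⟨u, h1, h2, h3, -⟩ := X.mult_le hC.mem p hctr.pts hctr.le
    exact ⟨u, h1, h2, h3⟩
  choose u hu1 hu2 hu3 using hu
  refine pigeon_places hfin.toFinset X.lam c C' C'
    (∑ v ∈ hfin.toFinset, |(ordP v ((X.cv C p).ψ (u v)) : ℝ)|) hlam hc p (p + 1)
    (fun l => Slp (X.cv C l) x D δ) (fun v l => (kap X.S (X.cv C p) v (X.cv C l).ν : ℝ)) ?_ ?_
  · intro l hl hgood
    have hne : (X.cv C l).ν ≠ (X.cv C p).ν := X.cv_injective hC (by omega)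
    have h1 := (sum_kap hCp (X.cv_mem hC.mem l) hne).2
    have h2 : Function.support (fun v => kap X.S (X.cv C p) v (X.cv C l).ν) ⊆
        (hfin.toFinset : Set Plc) := by
      intro v hv
      rw [Set.Finite.coe_toFinset]
      by_contra hcon
      rw [Set.mem_setOf_eq, not_not] at hcon
      exact hv (kap_zero hCp (X.cv_mem hC.mem l) hne hδ h hgood hcon.1 hcon.2)
    rw [finsum_eq_sum_of_support_subset _ h2] at h1
    have h3 := (hint p l (by omega)).1
    rw [← h1] at h3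
    push_cast at h3
    exact h3
  · intro v hv l l' hl hll hgood hgood'
    have h1 := arc_le hCp (X.cv_mem hC.mem l) (X.cv_mem hC.mem l')
      (X.cv_injective hC (by omega)) (X.cv_injective hC (by omega))
      (X.cv_injective hC (by omega)) v (hu1 v) (hu2 v) (hu3 v)
    have h2 : X.S.form (X.S.cls (X.cv C l).ν) (X.S.cls (X.cv C l').ν) =
        X.S.form (X.S.cls (X.cv C l').ν) (X.S.cls (X.cv C l).ν) := X.S.symm _ _
    rw [h2] at h1
    have h3 := hint l l' hll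
    have h4 : (1 : ℝ) ≤ X.lam ^ (l' - l) := one_le_pow₀ hlam.le
    have h5 : |(X.S.form (X.S.cls (X.cv C l').ν) (X.S.cls (X.cv C l).ν) : ℝ)| ≤
        C' * X.lam ^ (l' - l) := by
      rw [abs_le]
      refine ⟨?_, h3.2⟩
      have h6 : C' ≤ C' * X.lam ^ (l' - l) := le_mul_of_one_le_right hC'.le h4
      have h7 : 0 < c * X.lam ^ (l' - l) := by positivity
      linarith [h3.1]
    have h6 : |(ordP v ((X.cv C p).ψ (u v)) : ℝ)| ≤
        ∑ v ∈ hfin.toFinset, |(ordP v ((X.cv C p).ψ (u v)) : ℝ)| :=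
      Finset.single_le_sum (f := fun v => |(ordP v ((X.cv C p).ψ (u v)) : ℝ)|)
        (fun _ _ => abs_nonneg _) hv
    have h7 : ((min (kap X.S (X.cv C p) v (X.cv C l).ν) (kap X.S (X.cv C p) v (X.cv C l').ν) : ℤ) :
        ℝ) ≤ (ordP v ((X.cv C p).ψ (u v)) : ℝ) *
        (X.S.form (X.S.cls (X.cv C l').ν) (X.S.cls (X.cv C l).ν) : ℝ) := by
      exact_mod_cast h1
    rw [Int.cast_min] at h7
    refine h7.trans ?_
    refine (le_abs_self _).trans ?_
    rw [abs_mul]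
    exact mul_le_mul h6 h5 (abs_nonneg _) (Finset.sum_nonneg fun _ _ => abs_nonneg _)

end Pool.Agent.LibK3P
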