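import Pool.Agent.LibK3.CH0
import Pool.Agent.LibK3P.E4
import Pool.Agent.LibK3P.PF0

/-!
Block E: `StatementB`.
-/

set_option autoImplicit false

open Pool.Agent.LibGMM Pool.Agent.LibK Pool.Agent.LibKB
open Pool.Agent.LibLB (PSurf RLR)

open Pool.Agent.LibK3

namespace Pool.Agent.LibK3P

theorem statementB0 : StatementB0 := by
  intro L _ _ Y γ hY C₀ hC₀ hgrow x y hxy T hT δ hδ hcon
  obtain ⟨m₀, hm₀⟩ := hcon
  obtain ⟨X, -, -, hX2, hC⟩ := exists_ent hY hC₀ hgrow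
  obtain ⟨D₁, D₂, h1, h2, h3, h4⟩ := exists_dual X.S.dim hxy
  obtain ⟨m₁, hm₁⟩ := exists_slp X hC hxy h1 h2 h3 h4 hδ
  have hcv : ∀ m : ℕ, X.cv C₀ m = C₀.mv (γ ^ m) := by
    intro m
    unfold Sys0.cv
    rw [hX2, zpow_natCast]
  have key : ∀ m : ℕ, ∃ s : L, m₀ ≤ m → s ∈ T ∧ (m₁ ≤ m → Slp (X.cv C₀ m) x (D₁ + s • D₂) δ) := by
    intro m
    by_cases hm : m₀ ≤ m
    · obtain ⟨-, -, s, hs, hs1, hs2⟩ := hm₀ m hm
      refine ⟨s, fun _ => ⟨hs, fun hm' => ?_⟩⟩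
      refine hm₁ m hm' s ?_ ?_
      · rw [hcv]
        exact hs1
      · rw [hcv]
        exact hs2
    · exact ⟨0, fun h => absurd h hm⟩
  choose τ hτ using key
  refine pigeon_colours T hT (max m₀ m₁) τ
    (fun m hm => (hτ m ((le_max_left _ _).trans hm)).1) fun p hp => ?_
  have hp' := (hτ p ((le_max_left _ _).trans hp)).2 ((le_max_right _ _).trans hp)
  obtain ⟨N, W₀, hN⟩ := slope_count X hC hδ p hp'
  refine ⟨N, max W₀ (max m₀ m₁), fun W hW S hS => hN W ((le_max_left _ _).trans hW) S fun l hl => ?_⟩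
  obtain ⟨h5, h6, h7⟩ := hS l hl
  have h8 : max m₀ m₁ ≤ l := ((le_max_right _ _).trans hW).trans h5
  refine ⟨h5, h6, ?_⟩
  rw [← h7]
  exact (hτ l ((le_max_left _ _).trans h8)).2 ((le_max_right _ _).trans h8)

end Pool.Agent.LibK3P
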