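import Pool.Agent.LibK3.BC11
import Pool.Agent.LibK3.BCM
import Pool.Agent.LibK3.BV
import Pool.Agent.LibK3.BZ0
import Pool.Agent.LibK3P.PDefs

/-!
Bridge for THEOREM K3++: all automorphisms of `X` over `k` act on the same surface over `ℂ`.
-/

set_option autoImplicit false

open Pool.Agent.LibGMM Pool.Agent.LibHP Pool.Agent.LibK Pool.Agent.LibLB
open Pool.Agent.LibCov80 (Over)
open Pool.Agent.LibK3
open AlgebraicGeometry CategoryTheory

namespace Pool.Agent.LibK3P

section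

variable {k : Type} [Field k] [CharZero k] [Algebra k ℂ]
variable {X : Scheme} [IsIntegral X] (f : X ⟶ Spec (CommRingCat.of k))
  [Algebra k X.functionField]

/-- The surface over `ℂ` of a surface over `k` with an automorphism `g` and a sequence `x` of rational
curves whose degrees grow exponentially (the conclusion of `bridge_main0`). -/
def Bridged {ι : Type} [Finite ι] (c : ι → X.functionField) (g : X ≅ X) (x : ℕ → X) : Prop :=
  ∃ (hm : KModel k c) (γ : X.functionField ≃ₐ[k] X.functionField)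
    (v₀ : KVal k X.functionField) (r₀ : v₀.ring →ₐ[k] RatFunc k),
    (∀ z, γ z = kap g.hom z) ∧ (∀ z, γ.symm z = kap g.inv z) ∧
    (∀ x : X, γ '' stk X (g.hom x) = stk X x) ∧
    (∀ m z, 0 ≤ (v₀.mv (γ ^ m)).ord z ↔ z ∈ stk X (x m)) ∧ (∃ i, v₀.On (kchart k c i)) ∧
    v₀.ResClosed ∧ Function.Surjective r₀ ∧
    (∀ z, r₀ z = 0 ↔ ((z : X.functionField) = 0 ∨ 0 < v₀.ord (z : X.functionField))) ∧
    ∃ (L : Type) (_ : Field L) (_ : Algebra ℂ L) (_ : Algebra X.functionField L)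
      (hL : IsCx k X.functionField L) (Γ : L ≃ₐ[ℂ] L) (C₀ : RC L),
      (∀ z : X.functionField, Γ (algebraMap X.functionField L z) =
        algebraMap X.functionField L (γ z)) ∧
      Dyn0 (cxModel hm hL) Γ ∧ C₀.ν ∈ primes (cxModel hm hL) ∧
      Grow (cxModel hm hL) Γ C₀ ∧ CxOver v₀ C₀.ν ∧
      ∀ z : v₀.ring, C₀.ψ (algebraMap X.functionField L z) = rmap (algebraMap k ℂ) (r₀ z)

theorem kap_trans (s t : X ≅ X) (z : X.functionField) :
    kap (s ≪≫ t).hom z = kap s.hom (kap t.hom z) := by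
  obtain ⟨U, h1, a, rfl⟩ := X.presheaf.exists_germ_eq z
  have h2 := genericPoint_mem_preimage t.hom U h1
  have h3 := genericPoint_mem_preimage s.hom (t.hom ⁻¹ᵁ U) h2
  have h4 := genericPoint_mem_preimage (s ≪≫ t).hom U h1
  rw [kap_germ t.hom U h1 h2 a, kap_germ s.hom _ h2 h3, kap_germ (s ≪≫ t).hom U h1 h4]
  have h5 : (s.hom ≫ t.hom).app U a = s.hom.app (t.hom ⁻¹ᵁ U) (t.hom.app U a) := by
    rw [Scheme.Hom.comp_app]; rfl
  exact congrArg (X.presheaf.germ (s.hom ⁻¹ᵁ t.hom ⁻¹ᵁ U) _ h3) h5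

/-- `σ` is the action of the automorphism `s` on the function field, `T` its extension to `L`. -/
structure Lif (f : X ⟶ Spec (CommRingCat.of k)) {L : Type} [Field L] [Algebra ℂ L]
    [Algebra X.functionField L] (s : X ≅ X) (σ : X.functionField ≃ₐ[k] X.functionField)
    (T : L ≃ₐ[ℂ] L) : Prop where
  ov : s.hom ≫ f = f
  kap : ∀ z, σ z = kap s.hom z
  kap' : ∀ z, σ.symm z = LibHP.kap s.inv z
  stk : ∀ x : X, σ '' stk X (s.hom x) = stk X x
  ext : ∀ z : X.functionField, T (algebraMap X.functionField L z) =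
    algebraMap X.functionField L (σ z)

omit [CharZero k] [Algebra k ℂ] in
theorem hom_inv_pt (s : X ≅ X) (x : X) : s.hom (s.inv x) = x := by
  rw [← Scheme.Hom.comp_apply, s.inv_hom_id]
  rfl

omit [CharZero k] [Algebra k ℂ] in
theorem inv_hom_pt (s : X ≅ X) (x : X) : s.inv (s.hom x) = x := hom_inv_pt s.symm x

variable {L : Type} [Field L] [Algebra ℂ L] [Algebra X.functionField L]

variable {f}

omit [CharZero k] [Algebra k ℂ] in
theorem Lif.trans {s t : X ≅ X} {σ τ : X.functionField ≃ₐ[k] X.functionField} {S T : L ≃ₐ[ℂ] L}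
    (h : Lif f s σ S) (h' : Lif f t τ T) : Lif f (s ≪≫ t) (σ * τ) (S * T) where
  ov := by rw [Iso.trans_hom, Category.assoc, h'.ov, h.ov]
  kap z := by rw [kap_trans, AlgEquiv.mul_apply, h.kap, h'.kap]
  kap' z := by
    have h1 : (s ≪≫ t).inv = (t.symm ≪≫ s.symm).hom := rfl
    have h2 : LibHP.kap (s ≪≫ t).inv z = LibHP.kap (t.symm ≪≫ s.symm).hom z := rfl
    rw [h2, kap_trans]
    show τ.symm (σ.symm z) = _
    rw [h'.kap', h.kap']
    rfl
  stk x := by
    have h1 : (σ * τ : X.functionField ≃ₐ[k] X.functionField) '' LibK3.stk X ((s ≪≫ t).hom x) =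
        σ '' (τ '' LibK3.stk X (t.hom (s.hom x))) := by
      rw [← Set.image_comp]
      rfl
    rw [h1, h'.stk, h.stk]
  ext z := by
    rw [AlgEquiv.mul_apply, AlgEquiv.mul_apply, h'.ext, h.ext]

omit [CharZero k] [Algebra k ℂ] in
theorem Lif.symm {s : X ≅ X} {σ : X.functionField ≃ₐ[k] X.functionField} {S : L ≃ₐ[ℂ] L}
    (h : Lif f s σ S) : Lif f s.symm σ⁻¹ S⁻¹ where
  ov := by
    rw [Iso.symm_hom, Iso.inv_comp_eq, h.ov]
  kap z := h.kap' z
  kap' z := h.kap z
  stk x := by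
    have h1 := h.stk (s.inv x)
    rw [hom_inv_pt] at h1
    show σ.symm '' LibK3.stk X (s.inv x) = LibK3.stk X x
    rw [← h1, Set.image_image]
    simp
  ext z := by
    show S.symm _ = algebraMap _ _ (σ.symm z)
    rw [AlgEquiv.symm_apply_eq, h.ext, AlgEquiv.apply_symm_apply]

omit [CharZero k] [Algebra k ℂ] in
theorem Lif.one (hs : (Iso.refl X).hom ≫ f = f) :
    Lif f (Iso.refl X) (1 : X.functionField ≃ₐ[k] X.functionField) (1 : L ≃ₐ[ℂ] L) where
  ov := hs
  kap z := by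
    obtain ⟨U, h1, a, rfl⟩ := X.presheaf.exists_germ_eq z
    have h2 := genericPoint_mem_preimage (Iso.refl X).hom U h1
    rw [kap_germ _ U h1 h2 a]
    rfl
  kap' z := by
    obtain ⟨U, h1, a, rfl⟩ := X.presheaf.exists_germ_eq z
    have h2 := genericPoint_mem_preimage (Iso.refl X).inv U h1
    rw [kap_germ _ U h1 h2 a]
    rfl
  stk x := by
    show id '' LibK3.stk X x = _
    rw [Set.image_id]
  ext z := rfl

omit [CharZero k] [Algebra k ℂ] in
theorem Lif.pow {s : X ≅ X} {σ : X.functionField ≃ₐ[k] X.functionField} {S : L ≃ₐ[ℂ] L}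
    (h : Lif f s σ S) (n : ℕ) : ∃ t : X ≅ X, Lif f t (σ ^ n) (S ^ n) := by
  induction n with
  | zero => exact ⟨Iso.refl X, Lif.one (by simp)⟩
  | succ n ih =>
    obtain ⟨t, ht⟩ := ih
    exact ⟨t ≪≫ s, by rw [pow_succ, pow_succ]; exact ht.trans h⟩

end

end Pool.Agent.LibK3P
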