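import Mathlib

/-!
B. H. Neumann's lemma: finitely many points with infinite orbits can be moved away from a finite set.
-/

set_option autoImplicit false

open scoped Pointwise

namespace Pool.Agent.LibK3P

theorem exists_avoid {G α : Type*} [Group G] [MulAction G α] {n : ℕ} (b : Fin n → α)
    (hb : ∀ i, (MulAction.orbit G (b i)).Infinite) {P : Set α} (hP : P.Finite) :
    ∃ h : G, ∀ i, h • b i ∉ P := by
  classical
  by_contra hcon
  push Not at hcon
  -- the pairs `(i, p)` with `p` in the orbit of `b i`
  let s : Finset (Fin n × α) := (Finset.univ ×ˢ hP.toFinset).filter fun q => ∃ g : G, g • b q.1 = q.2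
  let g : Fin n × α → G := fun q => if h : ∃ g : G, g • b q.1 = q.2 then h.choose else 1
  have hg : ∀ q ∈ s, g q • b q.1 = q.2 := by
    intro q hq
    have h1 := (Finset.mem_filter.1 hq).2
    simp only [g, dif_pos h1]
    exact h1.choose_spec
  have hcov : ⋃ q ∈ s, g q • (MulAction.stabilizer G (b q.1) : Set G) = Set.univ := by
    rw [Set.eq_univ_iff_forall]
    intro h
    obtain ⟨i, hi⟩ := hcon h
    have hq : (i, h • b i) ∈ s := by
      refine Finset.mem_filter.2 ⟨Finset.mem_product.2 ⟨Finset.mem_univ _, ?_⟩, h, rfl⟩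
      exact hP.mem_toFinset.2 hi
    rw [Set.mem_iUnion₂]
    refine ⟨(i, h • b i), hq, ?_⟩
    rw [Set.mem_smul_set_iff_inv_smul_mem]
    have h1 : g (i, h • b i) • b i = h • b i := hg _ hq
    rw [smul_eq_mul, SetLike.mem_coe, MulAction.mem_stabilizer_iff, mul_smul, inv_smul_eq_iff]
    exact h1.symm
  obtain ⟨q, hq, hfi⟩ := Subgroup.exists_finiteIndex_of_leftCoset_cover hcov
  refine hb q.1 ?_
  have h1 := MulAction.orbitEquivQuotientStabilizer G (b q.1)
  have h2 : Finite (G ⧸ MulAction.stabilizer G (b q.1)) := Subgroup.finite_quotient_of_finiteIndex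
  have h3 : Finite (MulAction.orbit G (b q.1)) := Finite.of_equiv _ h1.symm
  exact Set.toFinite _

end Pool.Agent.LibK3P
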