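import Pool.Agent.LibK3P.P10
import Pool.Agent.LibCUR2.Main

/-!
The periodic curves of an automorphism of positive entropy are finitely many: some multiple of
`γ^m h + γ^(-m) h - 3 h` is effective, and it is negative on the sum of every periodic orbit.
-/

set_option autoImplicit false

open Pool.Agent.LibGMM Pool.Agent.LibK Pool.Agent.LibKB
open Pool.Agent.LibLB (PSurf RLR)
open Pool.Agent.LibCov80 (Over)
open Pool.Agent.LibK3

namespace Pool.Agent.LibK3P

/-- A class with positive square and positive degree has an effective multiple. -/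
theorem exists_eff_mul {L : Type} [Field L] [Algebra ℂ L] {S : PSurf L} {D : S.Λ}
    (h : 0 < S.form D D) (hA : 0 < S.form S.A D) : ∃ n : ℕ, 1 ≤ n ∧ 0 < S.hh (n • D) := by
  obtain ⟨m₁, hm₁⟩ := LibCUR2.exists_quad_pos h (-S.form D S.K) (2 * S.chi0)
  obtain ⟨m, hm⟩ : ∃ m : ℕ, m = m₁ + (S.form S.A S.K).natAbs + 1 := ⟨_, rfl⟩
  have h1 := hm₁ m (by omega)
  have h2 := (LibCUR2.toNumData S).rr_nsmul D m
  change 2 * S.chi0 + S.form D D * m ^ 2 - S.form D S.K * m ≤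
    2 * ((S.hh (m • D) : ℤ) + S.hh (S.K - m • D)) at h2
  have h3 : S.hh (S.K - m • D) = 0 := by
    by_contra h0
    have h4 := LibCUR2.form_eff S (β := S.A)
      (fun ν hν => zero_le_one.trans (LibCUR2.A_pos S hν)) (Nat.pos_of_ne_zero h0)
    rw [map_sub, map_nsmul, nsmul_eq_mul] at h4
    have h5 : ((S.form S.A S.K).natAbs : ℤ) + 1 ≤ m := by
      exact_mod_cast (show (S.form S.A S.K).natAbs + 1 ≤ m by omega)
    have h6 : S.form S.A S.K ≤ (S.form S.A S.K).natAbs := Int.le_natAbs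
    have h7 : (m : ℤ) ≤ m * S.form S.A D := le_mul_of_one_le_right (by positivity) hA
    linarith
  refine ⟨m, by omega, ?_⟩
  rw [h3] at h2
  push_cast at h2
  have h8 : (0 : ℤ) < S.hh (m • D) := by linarith
  exact_mod_cast h8

/-- The sum of a periodic function over a period. -/
theorem sum_period {φ : ℤ → ℤ} {p : ℕ} (h : ∀ i, φ (i + p) = φ i) (s : ℤ) :
    ∑ j ∈ Finset.range p, φ (s - j) = ∑ j ∈ Finset.range p, φ (-(j : ℤ)) := by
  have h1 : ∀ s : ℤ, ∑ j ∈ Finset.range p, φ (s + 1 - j) = ∑ j ∈ Finset.range p, φ (s - j) := by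
    intro s
    have h2 : ∑ j ∈ Finset.range p, (φ (s + 1 - (j : ℕ)) - φ (s + 1 - ((j + 1 : ℕ) : ℤ))) =
        φ (s + 1 - ((0 : ℕ) : ℤ)) - φ (s + 1 - (p : ℤ)) :=
      Finset.sum_range_sub' (fun j : ℕ => φ (s + 1 - j)) p
    have h3 : φ (s + 1 - ((0 : ℕ) : ℤ)) = φ (s + 1 - (p : ℤ)) := by
      rw [← h (s + 1 - p)]
      congr 1
      push_cast
      ring
    rw [h3, sub_self, Finset.sum_sub_distrib, sub_eq_zero] at h2
    rw [h2]
    refine Finset.sum_congr rfl fun j _ => ?_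
    congr 1
    push_cast
    ring
  induction s using Int.induction_on with
  | zero => simp
  | succ i ih => rw [h1, ih]
  | pred i ih =>
    rw [← ih]
    have := h1 (-(i : ℤ) - 1)
    rw [sub_add_cancel] at this
    exact this.symm

namespace Sys0

variable {L : Type} [Field L] [Algebra ℂ L] (X : Sys0 L)

theorem mv_period {ν : DVal L} {p : ℕ} (h : mv (X.γ ^ p) ν = ν) (i : ℤ) :
    mv (X.γ ^ (i * p)) ν = ν := by
  have h' : mv (X.γ ^ (p : ℤ)) ν = ν := by rw [zpow_natCast]; exact h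
  have hneg : mv (X.γ ^ (-(p : ℤ))) ν = ν := by
    conv_lhs => rw [← h']
    rw [← mv_mul, ← zpow_add, neg_add_cancel, zpow_zero, mv_one]
  induction i using Int.induction_on with
  | zero => rw [zero_mul, zpow_zero, mv_one]
  | succ i ih => rw [add_mul, one_mul, zpow_add, mv_mul, h', ih]
  | pred i ih => rw [sub_mul, one_mul, sub_eq_add_neg, zpow_add, mv_mul, hneg, ih]

theorem orbit_finite {ν : DVal L} (h : X.Per ν) : (Set.range fun i : ℤ => mv (X.γ ^ i) ν).Finite := by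
  obtain ⟨p, hp, hν⟩ := h
  refine ((Finset.range p).finite_toSet.image fun i : ℕ => mv (X.γ ^ (i : ℤ)) ν).subset ?_
  rintro _ ⟨i, rfl⟩
  refine ⟨(i % p).toNat, ?_, ?_⟩
  · rw [Finset.mem_coe, Finset.mem_range]
    have h1 := Int.emod_lt_of_pos i (by exact_mod_cast hp : (0 : ℤ) < p)
    have h2 := Int.emod_nonneg i (by exact_mod_cast hp.ne' : (p : ℤ) ≠ 0)
    omega
  · have h2 := Int.emod_nonneg i (by exact_mod_cast hp.ne' : (p : ℤ) ≠ 0)
    beta_reduce
    rw [Int.toNat_of_nonneg h2]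
    have h3 : i = i % p + (i / p) * p := by
      have := Int.emod_add_mul_ediv i p
      rw [mul_comm] at this
      exact this.symm
    conv_rhs => rw [h3, zpow_add, mv_mul, X.mv_period hν]

/-- **An automorphism of positive entropy has finitely many periodic curves.** -/
theorem finite_per (h : X.PosEnt) : {ν | ν ∈ X.S.prm ∧ X.Per ν}.Finite := by
  obtain ⟨c, C, hc, hC, hgr⟩ := X.growthA h
  have hl := X.lam_gt
  have hl0 : 0 < X.lam := by linarith
  obtain ⟨a, ha⟩ : ∃ a : ℤ, a = X.S.form X.S.A X.S.A := ⟨_, rfl⟩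
  -- the choice of `m`
  obtain ⟨m, hm⟩ := pow_unbounded_of_one_lt (max (6 * C / c) ((3 * |(a : ℝ)| + 1) / c)) hl
  have hm1 : 6 * C < c * X.lam ^ m := by
    have h1 := (le_max_left _ _).trans_lt hm
    rw [div_lt_iff₀ hc] at h1
    linarith
  have hm2 : 3 * |(a : ℝ)| + 1 < c * X.lam ^ m := by
    have h1 := (le_max_right _ _).trans_lt hm
    rw [div_lt_iff₀ hc] at h1
    linarith
  have g1 := hgr (m : ℤ)
  have g2 := hgr ((m : ℤ) + m)
  have e1 : |(m : ℤ)| = m := abs_of_nonneg (by positivity)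
  have e2 : |(m : ℤ) + m| = ((m + m : ℕ) : ℤ) := by
    rw [abs_of_nonneg (by positivity)]
    push_cast
    ring
  rw [e1, zpow_natCast] at g1
  rw [e2, zpow_natCast, pow_add] at g2
  obtain ⟨l₁, hl₁⟩ : ∃ l₁ : ℤ, l₁ = X.S.form (X.α m) X.S.A := ⟨_, rfl⟩
  obtain ⟨l₂, hl₂⟩ : ∃ l₂ : ℤ, l₂ = X.S.form (X.α ((m : ℤ) + m)) X.S.A := ⟨_, rfl⟩
  rw [← hl₁] at g1
  rw [← hl₂] at g2
  have hpm : 0 < X.lam ^ m := pow_pos hl0 m
  have k1 : 6 * l₁ < l₂ := by
    have h1 : 6 * C * X.lam ^ m < c * X.lam ^ m * X.lam ^ m := mul_lt_mul_of_pos_right hm1 hpm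
    have h2 : (6 * l₁ : ℝ) < l₂ := by
      calc (6 * l₁ : ℝ) ≤ 6 * (C * X.lam ^ m) := by linarith [g1.2]
        _ = 6 * C * X.lam ^ m := by ring
        _ < c * X.lam ^ m * X.lam ^ m := h1
        _ = c * (X.lam ^ m * X.lam ^ m) := by ring
        _ ≤ l₂ := g2.1
    exact_mod_cast h2
  have k2 : 3 * a < 2 * l₁ := by
    have h1 : 3 * (a : ℝ) ≤ 3 * |(a : ℝ)| := by linarith [le_abs_self (a : ℝ)]
    have h3 := abs_nonneg (a : ℝ)
    have h2 : (3 * a : ℝ) < 2 * l₁ := by linarith [g1.1]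
    exact_mod_cast h2
  have ha1 : 0 < a := by rw [ha]; exact X.A_sq_pos
  -- the class `D`
  obtain ⟨D, hD⟩ : ∃ D : X.S.Λ, D = X.α m + X.α (-(m : ℤ)) - (3 : ℤ) • X.S.A := ⟨_, rfl⟩
  have f1 : X.S.form (X.α m) (X.α m) = a := by
    rw [X.form_α_α', sub_self, X.α_zero, ha]
  have f2 : X.S.form (X.α (-(m : ℤ))) (X.α (-(m : ℤ))) = a := by
    rw [X.form_α_α', sub_self, X.α_zero, ha]
  have f3 : X.S.form (X.α m) (X.α (-(m : ℤ))) = l₂ := by
    rw [X.form_α_α', sub_neg_eq_add, hl₂]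
  have f3' : X.S.form (X.α (-(m : ℤ))) (X.α m) = l₂ := by rw [X.S.symm, f3]
  have f4 : X.S.form (X.α (-(m : ℤ))) X.S.A = l₁ := by rw [X.form_α_neg, hl₁]
  have f4' : X.S.form X.S.A (X.α (-(m : ℤ))) = l₁ := by rw [X.S.symm, f4]
  have f5' : X.S.form X.S.A (X.α m) = l₁ := by rw [X.S.symm, hl₁]
  have hDD : X.S.form D D = 11 * a + 2 * l₂ - 12 * l₁ := by
    rw [hD]
    simp only [map_sub, map_add, map_smul, LinearMap.sub_apply, LinearMap.add_apply,
      LinearMap.smul_apply, smul_eq_mul, f1, f2, f3, f3', f4, f4', f5', ← hl₁, ← ha]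
    ring
  have hAD : X.S.form X.S.A D = 2 * l₁ - 3 * a := by
    rw [hD]
    simp only [map_sub, map_add, map_smul, smul_eq_mul, f4', f5', ← ha]
    ring
  obtain ⟨n, hn, hhh⟩ := exists_eff_mul (S := X.S) (D := D) (by rw [hDD]; linarith)
    (by rw [hAD]; linarith)
  obtain ⟨F, hF1, hF2, hF3⟩ := LibCUR2.exists_effDiv X.S hhh
  -- every periodic orbit meets the support of `F`
  have key : ∀ ν ∈ X.S.prm, X.Per ν → ∃ j : ℕ, F (mv (X.γ ^ (j : ℤ)) ν) ≠ 0 := by
    intro ν hν ⟨p, hp, hper⟩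
    by_contra hcon
    push Not at hcon
    have hnn : ∀ j : ℕ, 0 ≤ X.S.form D (X.S.cls (mv (X.γ ^ (j : ℤ)) ν)) := by
      intro j
      have hmem := X.mv_mem hν (j : ℤ)
      have h1 : 0 ≤ X.S.form (X.S.cls (mv (X.γ ^ (j : ℤ)) ν)) (X.S.cl F) := by
        change 0 ≤ X.S.form (X.S.cls (mv (X.γ ^ (j : ℤ)) ν)) (∑ᶠ μ ∈ X.S.prm, F μ • X.S.cls μ)
        refine finsum_mem_induction
          (fun v : X.S.Λ => 0 ≤ X.S.form (X.S.cls (mv (X.γ ^ (j : ℤ)) ν)) v) ?_ ?_ ?_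
        · rw [map_zero]
        · intro u v hu hv
          rw [map_add]
          exact add_nonneg hu hv
        · intro μ hμ
          rw [map_smul, smul_eq_mul]
          by_cases hμν : mv (X.γ ^ (j : ℤ)) ν = μ
          · rw [← hμν, hcon j, zero_mul]
          · exact mul_nonneg (hF2 μ hμ) (LibCUR2.C1' X.S hmem hμ hμν)
      rw [hF3, X.S.symm, map_nsmul, LinearMap.smul_apply, nsmul_eq_mul] at h1
      have hn0 : (0 : ℤ) < n := by exact_mod_cast hn
      exact nonneg_of_mul_nonneg_right h1 hn0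
    have hφ : ∀ i : ℤ, X.S.form (X.α (i + p)) (X.S.cls ν) = X.S.form (X.α i) (X.S.cls ν) := by
      intro i
      have h1 := X.form_α_mv (i + p) (p : ℤ) hν
      rw [zpow_natCast, hper, add_sub_cancel_right] at h1
      exact h1
    have hs : ∀ s : ℤ, ∑ j ∈ Finset.range p, X.S.form (X.α s) (X.S.cls (mv (X.γ ^ (j : ℤ)) ν)) =
        ∑ j ∈ Finset.range p, X.S.form (X.α (-(j : ℤ))) (X.S.cls ν) := by
      intro s
      rw [← sum_period (φ := fun i => X.S.form (X.α i) (X.S.cls ν)) hφ s]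
      exact Finset.sum_congr rfl fun j _ => X.form_α_mv s j hν
    have h1 : 0 ≤ ∑ j ∈ Finset.range p, X.S.form D (X.S.cls (mv (X.γ ^ (j : ℤ)) ν)) :=
      Finset.sum_nonneg fun j _ => hnn j
    have h2 : ∀ β : X.S.Λ, X.S.form D β = X.S.form (X.α m) β + X.S.form (X.α (-(m : ℤ))) β -
        3 * X.S.form (X.α 0) β := by
      intro β
      rw [hD, X.α_zero]
      simp only [map_sub, map_add, map_smul, LinearMap.sub_apply, LinearMap.add_apply,
        LinearMap.smul_apply, smul_eq_mul]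
    simp only [h2] at h1
    rw [Finset.sum_sub_distrib, Finset.sum_add_distrib, ← Finset.mul_sum, hs, hs, hs] at h1
    have h3 : (0 : ℤ) < ∑ j ∈ Finset.range p, X.S.form (X.α (-(j : ℤ))) (X.S.cls ν) :=
      Finset.sum_pos (fun j _ => lt_of_lt_of_le zero_lt_one (X.form_α_pos _ hν))
        (Finset.nonempty_range_iff.2 hp.ne')
    linarith
  -- conclusion
  have hfin : (⋃ μ ∈ {μ | μ ∈ X.S.prm ∧ F μ ≠ 0} ∩ {μ | X.Per μ},
      Set.range fun i : ℤ => mv (X.γ ^ i) μ).Finite := by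
    refine Set.Finite.biUnion (Set.Finite.inter_of_left
      (show {μ | μ ∈ X.S.prm ∧ F μ ≠ 0}.Finite from hF1) _) fun μ hμ => ?_
    exact X.orbit_finite hμ.2
  refine hfin.subset ?_
  rintro ν ⟨hν, hper⟩
  obtain ⟨j, hj⟩ := key ν hν hper
  refine Set.mem_biUnion (x := mv (X.γ ^ (j : ℤ)) ν) ⟨⟨X.mv_mem hν j, hj⟩, ?_⟩ ⟨-(j : ℤ), ?_⟩
  · obtain ⟨p, hp, h1⟩ := hper
    refine ⟨p, hp, ?_⟩
    have h2 : mv (X.γ ^ (p : ℤ)) ν = ν := by rw [zpow_natCast]; exact h1
    have h3 : mv (X.γ ^ (p : ℤ)) (mv (X.γ ^ (j : ℤ)) ν) = mv (X.γ ^ (j : ℤ)) ν := by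
      rw [← mv_mul, ← zpow_add, add_comm, zpow_add, mv_mul, h2]
    rw [zpow_natCast] at h3
    exact h3
  · beta_reduce
    rw [← mv_mul, ← zpow_add, neg_add_cancel, zpow_zero, mv_one]

end Sys0

end Pool.Agent.LibK3P
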