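import Pool.Agent.LibK3P.BR3
import Pool.Agent.LibK3P.BR4
import Pool.Agent.LibK3P.PN
import Pool.Agent.LibK3Q.Q8

/-!
Bridge for THEOREM K3++: when every codimension one point of `U` has an infinite orbit there is an
automorphism of positive entropy without periodic codimension one points in `U`.
-/

set_option autoImplicit false

open Pool.Agent.LibGMM Pool.Agent.LibHP Pool.Agent.LibK Pool.Agent.LibLB
open Pool.Agent.LibCov80 (Over)
open Pool.Agent.LibK3
open AlgebraicGeometry CategoryTheory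

namespace Pool.Agent.LibK3P

section

variable {k : Type} [Field k] {X : Scheme} [IsIntegral X] (f : X ⟶ Spec (CommRingCat.of k))

omit [IsIntegral X] in
/-- The permutations of the points of `X` given by the automorphisms over `k`. -/
def autPerm : Subgroup (Equiv.Perm X) where
  carrier := {p | ∃ s : X ≅ X, s.hom ≫ f = f ∧ ∀ x : X, p x = s.hom x}
  mul_mem' := by
    rintro p q ⟨s, hs, hp⟩ ⟨t, ht, hq⟩
    refine ⟨t ≪≫ s, by rw [Iso.trans_hom, Category.assoc, hs, ht], fun x => ?_⟩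
    rw [Equiv.Perm.mul_apply, hp, hq, Iso.trans_hom, Scheme.Hom.comp_apply]
  one_mem' := ⟨Iso.refl X, by simp, fun x => rfl⟩
  inv_mem' := by
    rintro p ⟨s, hs, hp⟩
    refine ⟨s.symm, by rw [Iso.symm_hom, Iso.inv_comp_eq, hs], fun x => ?_⟩
    rw [Equiv.Perm.inv_eq_iff_eq, hp]
    exact (by
      rw [← Scheme.Hom.comp_apply]
      show x = (s.inv ≫ s.hom) x
      rw [s.inv_hom_id]
      rfl)

omit [IsIntegral X] in
theorem ringKrullDim_iso (s : X ≅ X) (x : X) :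
    ringKrullDim (X.presheaf.stalk (s.hom x)) = ringKrullDim (X.presheaf.stalk x) :=
  ringKrullDim_eq_of_ringEquiv (asIso (s.hom.stalkMap x)).commRingCatIsoToRingEquiv

end

section

variable {k : Type} [Field k] [CharZero k] [Algebra k ℂ]
variable {X : Scheme} [IsIntegral X] {f : X ⟶ Spec (CommRingCat.of k)}
  [Algebra k X.functionField]

theorem Lif.dyn0 [Smooth f]
    (hk : ∀ a : k, algebraMap k X.functionField a = toStalk f (genericPoint X) a)
    {ι : Type} [Finite ι] {c : ι → X.functionField} (hc : IsProjEmb f c)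
    {L : Type} [Field L] [Algebra ℂ L] [Algebra X.functionField L]
    (hm : KModel k c) (hL : IsCx k X.functionField L) {s : X ≅ X}
    {σ : X.functionField ≃ₐ[k] X.functionField} {S : L ≃ₐ[ℂ] L} (h : Lif f s σ S) :
    Dyn0 (cxModel hm hL) S where
  smooth := cxModel_smooth hm hL
  pts := closedPts_map hm hL σ (fun O hO => (isPtRing_gam f hk hc s σ h.stk O hO).1) S h.ext
  pts' := closedPts_map hm hL σ.symm (fun O hO => (isPtRing_gam f hk hc s σ h.stk O hO).2) S.symm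
    h.symm.ext

/-- Every automorphism over `k` lifts. -/
theorem exists_lif {L : Type} [Field L] [Algebra ℂ L] [Algebra X.functionField L]
    (hk : ∀ a : k, algebraMap k X.functionField a = toStalk f (genericPoint X) a)
    (hL : IsCx k X.functionField L) (s : X ≅ X) (hs : s.hom ≫ f = f) :
    ∃ (σ : X.functionField ≃ₐ[k] X.functionField) (S : L ≃ₐ[ℂ] L), Lif f s σ S := by
  obtain ⟨σ, h1, h2, h3⟩ := exists_gam f hk s hs
  obtain ⟨S, h4, -⟩ := hL.exists_equiv σ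
  exact ⟨σ, S, ⟨hs, h1, h2, h3, h4⟩⟩

/-- The valuation of `s x`. -/
theorem Lif.mv_iff {L : Type} [Field L] [Algebra ℂ L] [Algebra X.functionField L] {s : X ≅ X}
    {σ : X.functionField ≃ₐ[k] X.functionField} {S : L ≃ₐ[ℂ] L} (h : Lif f s σ S) {x : X}
    {v : KVal k X.functionField} (hv : ∀ z, 0 ≤ v.ord z ↔ z ∈ LibK3.stk X x)
    (z : X.functionField) : 0 ≤ (v.mv σ⁻¹).ord z ↔ z ∈ LibK3.stk X (s.hom x) := by
  rw [KVal.mv_ord]
  show 0 ≤ v.ord (σ z) ↔ _
  rw [hv, ← h.stk x]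
  constructor
  · rintro ⟨w, hw, h1⟩
    rwa [← σ.injective h1]
  · intro hz
    exact ⟨z, hz, rfl⟩

/-- **From growth to growth without periodic points in `U`** (ping-pong). -/
theorem bridge_pp [Smooth f] [IsSeparated f]
    (hk : ∀ a : k, algebraMap k X.functionField a = toStalk f (genericPoint X) a)
    {ι : Type} [Finite ι] {c : ι → X.functionField} (hc : IsProjEmb f c)
    {g : X ≅ X} (hg : g.hom ≫ f = f) {x : ℕ → X} (hx : ∀ m, x (m + 1) = g.inv (x m))
    (hB : Bridged (k := k) c g x) (U : Set X)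
    (hU : ∀ b ∈ U, ringKrullDim (X.presheaf.stalk b) = 1 →
      {y : X | ∃ s : X ≅ X, s.hom ≫ f = f ∧ s.hom b = y}.Infinite) :
    ∃ g' : X ≅ X, g'.hom ≫ f = f ∧
      Bridged (k := k) c g' (fun m => (fun y : X => g'.inv y)^[m] (x 0)) ∧
      ∀ b ∈ U, ringKrullDim (X.presheaf.stalk b) = 1 → ∀ n : ℕ, 0 < n →
        (fun y : X => g'.inv y)^[n] b ≠ b := by
  classical
  obtain ⟨hm, γ, v₀, r₀, hγ1, hγ2, hγ3, hseq, hi₀, hres, hrs, hr, L, i1, i2, i3, hL, Γ, C₀, hΓ, hD,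
    hC, hG, hCv, hψ⟩ := hB
  have hLg : Lif f g γ Γ := ⟨hg, hγ1, hγ2, hγ3, hΓ⟩
  -- the periodic points
  set P : Set X := {b | ringKrullDim (X.presheaf.stalk b) = 1 ∧
    ∃ n : ℕ, 0 < n ∧ (fun y : X => g.inv y)^[n] b = b} with hP
  have hPfin : P.Finite := by
    have h1 := LibK3Q.perV_finite hD hC hG
    have hex : ∀ b : P, ∃ μ : DVal L, (∃ v : KVal k X.functionField,
        (∀ z, 0 ≤ v.ord z ↔ z ∈ stk X (b : X)) ∧ CxOver v μ) ∧
        μ ∈ {ν | ν ∈ primes (cxModel hm hL) ∧ PerV Γ ν} := by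
      rintro ⟨b, hb1, hb2⟩
      obtain ⟨v, μ, hv, hvi, hvμ, hμ⟩ := exists_over_pt f hk hc hm hL b hb1
      exact ⟨μ, ⟨v, hv, hvμ⟩, hμ, (perV_iff f hm hL hγ3 Γ hΓ b hv hvi hvμ).2 hb2⟩
    choose μ hμ using hex
    have hinj : Function.Injective μ := by
      intro b b' hbb
      obtain ⟨v, hv, hvμ⟩ := (hμ b).1
      obtain ⟨v', hv', hvμ'⟩ := (hμ b').1
      apply Subtype.ext
      refine stk_injective f (Set.ext fun z => ?_)
      rw [← hv z, ← hv' z, ← hvμ.ord, ← hvμ'.ord, hbb]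
    have h2 : Finite P := by
      have h3 := h1.to_subtype
      exact Finite.of_injective (fun b => (⟨μ b, (hμ b).2⟩ :
        {ν | ν ∈ primes (cxModel hm hL) ∧ PerV Γ ν})) fun b b' h =>
          hinj (congrArg Subtype.val h)
    exact Set.toFinite P
  -- an automorphism which moves the periodic points of `U` away
  have hPU : (P ∩ U).Finite := hPfin.subset Set.inter_subset_left
  obtain ⟨s, hs, hsP⟩ : ∃ s : X ≅ X, s.hom ≫ f = f ∧ ∀ b ∈ P ∩ U, s.hom b ∉ P := by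
    have hfin := hPU.to_subtype
    obtain ⟨N, ⟨e⟩⟩ := Finite.exists_equiv_fin (P ∩ U : Set X)
    obtain ⟨h, hh⟩ := exists_avoid (G := autPerm f) (fun i => ((e.symm i : (P ∩ U : Set X)) : X))
      (fun i => by
        obtain ⟨⟨hb1, hb2⟩, hb3⟩ := (e.symm i).2
        refine (hU _ hb3 hb1).mono ?_
        rintro y ⟨t, ht, rfl⟩
        have hb : Function.Bijective (fun y : X => t.hom y) :=
          ⟨fun a b hab => by
            have := congrArg (fun y : X => t.inv y) hab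
            simpa only [inv_hom_pt] using this, fun a => ⟨t.inv a, hom_inv_pt t a⟩⟩
        exact ⟨⟨Equiv.ofBijective _ hb, t, ht, fun _ => rfl⟩, rfl⟩) hPfin
    obtain ⟨s, hs, hhs⟩ := h.2
    refine ⟨s, hs, fun b hb hbP => hh (e ⟨b, hb⟩) ?_⟩
    rw [Equiv.symm_apply_apply]
    show (h : Equiv.Perm X) b ∈ P
    rw [hhs]
    exact hbP
  obtain ⟨σ, S, hLs⟩ := exists_lif hk hL s hs
  have hDs := hLs.dyn0 hk hc hm hL
  -- the primes over the points of `U`
  set B : Set (DVal L) := {ν | ν ∈ primes (cxModel hm hL) ∧ ∃ b ∈ U,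
    ringKrullDim (X.presheaf.stalk b) = 1 ∧ ∃ v : KVal k X.functionField,
      (∀ z, 0 ≤ v.ord z ↔ z ∈ stk X b) ∧ (∃ i, v.On (kchart k c i)) ∧ CxOver v ν} with hBdef
  obtain ⟨n, -, Γ', hΓ'eq, hD', hG', hper⟩ := LibK3Q.exists_no_per hD hDs hC hG (B := B)
    (fun ν hν => hν.1) (by
      rintro ν ⟨hν, b, hbU, hb1, v, hv, hvi, hvν⟩ hp hp'
      have hbP : b ∈ P ∩ U := ⟨⟨hb1, (perV_iff f hm hL hγ3 Γ hΓ b hv hvi hvν).1 hp⟩, hbU⟩
      refine hsP b hbP ⟨by rw [ringKrullDim_iso]; exact hb1, ?_⟩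
      have hv' := hLs.mv_iff hv
      have hvi' : ∃ i, (v.mv σ⁻¹).On (kchart k c i) := by
        obtain ⟨w, hw, hwi⟩ := exists_kval f hk hc (s.hom b) (by rw [ringKrullDim_iso]; exact hb1)
        have : w = v.mv σ⁻¹ := KVal.ext_ring fun z hz => (hv' z).2 ((hw z).1 hz)
        rw [← this]
        exact hwi
      have hvν' : CxOver (v.mv σ⁻¹) (LibK3.mv S⁻¹ ν) :=
        CxOver.mvGen σ⁻¹ S⁻¹ hLs.symm.ext hvν fun z => rfl
      exact (perV_iff f hm hL hγ3 Γ hΓ (s.hom b) hv' hvi' hvν').1 hp')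
  -- the automorphism
  obtain ⟨g', γ', hL'⟩ : ∃ (g' : X ≅ X) (γ' : X.functionField ≃ₐ[k] X.functionField),
      Lif f g' γ' Γ' := by
    rcases hΓ'eq with rfl | rfl
    · exact ⟨g, γ, hLg⟩
    · obtain ⟨t, ht⟩ := ((hLs.trans hLg).trans hLs.symm).pow n
      obtain ⟨t', ht'⟩ := hLg.pow n
      exact ⟨_, _, ht.trans ht'⟩
  have hv₀ : ∀ z, 0 ≤ v₀.ord z ↔ z ∈ stk X (x 0) := hseq 0
  refine ⟨g', hL'.ov, ⟨hm, γ', v₀, r₀, hL'.kap, hL'.kap', hL'.stk,
    mv_ring_seq hL'.stk (fun m => (fun y : X => g'.inv y)^[m] (x 0))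
      (fun m => Function.iterate_succ_apply' _ m _) hv₀, hi₀, hres, hrs, hr, L, i1, i2, i3, hL, Γ',
    C₀, hL'.ext, hD', hC, hG', hCv, hψ⟩, ?_⟩
  intro b hb hb1 n hn hbn
  obtain ⟨v, μ, hv, hvi, hvμ, hμ⟩ := exists_over_pt f hk hc hm hL b hb1
  exact hper μ ⟨hμ, b, hb, hb1, v, hv, hvi, hvμ⟩
    ((perV_iff f hm hL hL'.stk Γ' hL'.ext b hv hvi hvμ).2 ⟨n, hn, hbn⟩)

end

end Pool.Agent.LibK3P
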