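import Pool.Agent.LibK3.H23
import Pool.Agent.LibK3M.Core
import Pool.Agent.LibK3M.CoreS
import Pool.Agent.LibK3P.BR5

section

/-!
THEOREM K3++: the final assembly.
-/

set_option autoImplicit false

open Pool.Agent.LibGMM Pool.Agent.LibHP Pool.Agent.LibK Pool.Agent.LibLB
open Pool.Agent.LibCov80 (Over)
open Pool.Agent.LibK3
open AlgebraicGeometry CategoryTheory

namespace Pool.Agent.LibK3P

section

variable {k : Type} [Field k] [CharZero k] [Algebra k ℂ] {X : Scheme} [IsIntegral X]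
  {f : X ⟶ Spec (CommRingCat.of k)} [Algebra k X.functionField]

theorem iterate_hom_inv (g : X ≅ X) (n : ℕ) (b : X) :
    (fun y : X => g.hom y)^[n] b = b ↔ (fun y : X => g.inv y)^[n] b = b := by
  have h1 : Function.LeftInverse (fun y : X => g.hom y) (fun y : X => g.inv y) := hom_inv_pt g
  have h2 : Function.LeftInverse (fun y : X => g.inv y) (fun y : X => g.hom y) := inv_hom_pt g
  constructor
  · intro h
    have h3 := (h2.iterate n) b
    rwa [h] at h3
  · intro h
    have h3 := (h1.iterate n) b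
    rwa [h] at h3

/-- The points of the sequence are pairwise distinct. -/
theorem Bridged.injective [IsSeparated f] {ι : Type} [Finite ι] {c : ι → X.functionField}
    {g : X ≅ X} {x : ℕ → X} (hx : ∀ m, x (m + 1) = g.inv (x m)) (hB : Bridged (k := k) c g x) :
    Function.Injective x := by
  obtain ⟨hm, γ, v₀, r₀, hγ1, hγ2, hγ3, hseq, hi₀, hres, hrs, hr, L, i1, i2, i3, hL, Γ, C₀, hΓ, hD,
    hC, hG, hCv, hψ⟩ := hB
  have hxm : ∀ m, x m = (fun y : X => g.inv y)^[m] (x 0) := by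
    intro m
    induction m with
    | zero => rfl
    | succ m ih => rw [hx, ih, Function.iterate_succ_apply']
  have hnp : ∀ n : ℕ, 0 < n → (fun y : X => g.inv y)^[n] (x 0) ≠ x 0 := by
    intro n hn h
    exact LibK3Q.not_perV hD hC hG
      ((perV_iff f hm hL hγ3 Γ hΓ (x 0) (hseq 0) hi₀ hCv).2 ⟨n, hn, h⟩)
  have hinj : Function.Injective (fun y : X => g.inv y) := by
    intro a b hab
    have := congrArg (fun y : X => g.hom y) hab
    simpa only [hom_inv_pt] using this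
  have key : ∀ a n : ℕ, 0 < n → x a ≠ x (a + n) := by
    intro a n hn h
    rw [hxm a, hxm (a + n), Function.iterate_add_apply] at h
    exact hnp n hn ((hinj.iterate a) h).symm
  intro a b hab
  rcases lt_trichotomy a b with h | h | h
  · obtain ⟨n, rfl⟩ := Nat.exists_eq_add_of_lt h
    exact absurd hab (by rw [add_assoc]; exact key a _ (Nat.succ_pos n))
  · exact h
  · obtain ⟨n, rfl⟩ := Nat.exists_eq_add_of_lt h
    exact absurd hab.symm (by rw [add_assoc]; exact key b _ (Nat.succ_pos n))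

/-- Finitely many extensions of the function field do not contain lifts of almost all the curves. -/
theorem Bridged.false [Smooth f] [IsSeparated f] [QuasiCompact f]
    (hk : ∀ a : k, algebraMap k X.functionField a = toStalk f (genericPoint X) a)
    {ι : Type} [Finite ι] {c : ι → X.functionField} (hc : IsProjEmb f c)
    (hdim : Algebra.trdeg k X.functionField = 2) {g : X ≅ X} (hg : g.hom ≫ f = f) {x : ℕ → X}
    (hB : Bridged (k := k) c g x) (U : X.Opens) [Nonempty U]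
    (hU : GeomSimplyConnected (U.ι ≫ f))
    (hper : ∀ b ∈ U, ringKrullDim (X.presheaf.stalk b) = 1 → ∀ n : ℕ, 0 < n →
      (fun y : X => g.inv y)^[n] b ≠ b)
    {n : ℕ} (M : Fin n → Type) [∀ i, Field (M i)] (j : ∀ i, X.functionField →+* M i)
    (hj : ∀ i, (j i).Finite ∧ ¬ Function.Surjective (j i))
    (hres : ∃ m0 : ℕ, ∀ m ≥ m0, ∀ v : KVal k X.functionField,
      (∀ z, 0 ≤ v.ord z ↔ z ∈ stk X (x m)) → ∃ i, ResLift (j i) v) : False := by
  obtain ⟨hm, γ, v₀, r₀, hγ1, hγ2, hγ3, hseq, hi₀, hres', hrs, hr, L, i1, i2, i3, hL, Γ, C₀, hΓ, hD,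
    hC, hG, hCv, hψ⟩ := hB
  obtain ⟨m0, hm0⟩ := hres
  exact core f hk hm hc hdim g hg γ hγ1 v₀ hi₀ r₀ hrs hr hL Γ hΓ C₀ hCv hψ hD hC hG U hU
    (fun b hb hb1 n hn h => hper b hb hb1 n hn ((iterate_hom_inv g n b).1 h)) M j hj
    ⟨m0, fun m hm' => hm0 m hm' _ (hseq m)⟩

end

/-- **THEOREM K3++.** -/
theorem main_k3pp (k : Type) [Field k] [NumberField k] {X : Scheme} [IsIntegral X]
    (f : X ⟶ Spec (CommRingCat.of k)) [Smooth f] [IsSeparated f] [QuasiCompact f]
    [Algebra k X.functionField]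
    (hk : ∀ a : k, algebraMap k X.functionField a = toStalk f (genericPoint X) a)
    {ι : Type} [Finite ι] {c : ι → X.functionField} (hc : IsProjEmb f c)
    (hdim : Algebra.trdeg k X.functionField = 2) (g : X ≅ X) (hg : g.hom ≫ f = f) (x₀ : X)
    (hx₀ : IsRatPt f x₀)
    (hgr : ∃ μ a : ℝ, 1 < μ ∧ 0 < a ∧ ∀ m : ℕ, ∃ d : ℕ,
      HasDeg (k := k) c ((fun y : X => g.hom y)^[m] x₀) d ∧ a * μ ^ m ≤ d)
    (U : X.Opens) [Nonempty U] (hU : GeomSimplyConnected (U.ι ≫ f))
    (horb : ∀ b ∈ U, ringKrullDim (X.presheaf.stalk b) = 1 →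
      {y : X | ∃ s : X ≅ X, s.hom ≫ f = f ∧ s.hom b = y}.Infinite) :
    HilbertProp f := by
  by_contra hnot
  let _ : Algebra k ℂ := (Classical.choice (inferInstance : Nonempty (k →+* ℂ))).toAlgebra
  obtain ⟨μ, a, hμ, ha, hd⟩ := hgr
  choose d hd1 hd2 using hd
  have hgs : g.symm.hom ≫ f = f := by rw [Iso.symm_hom, Iso.inv_comp_eq, hg]
  have hB : Bridged (k := k) c g.symm (fun m => (fun y : X => g.hom y)^[m] x₀) :=
    bridge_main0 f hk hc hdim g.symm hgs _ (fun m => Function.iterate_succ_apply' _ m x₀) hx₀ d hd1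
      hμ ha hd2
  obtain ⟨g', hg', hB', hper⟩ := bridge_pp hk hc hgs (fun m => Function.iterate_succ_apply' _ m x₀)
    hB U horb
  obtain ⟨n, M, hM, j, hj, hfin⟩ := exists_resLift_of_injective k f hk hnot
  have hx' : ∀ m, (fun y : X => g'.inv y)^[m + 1] x₀ = g'.inv ((fun y : X => g'.inv y)^[m] x₀) :=
    fun m => Function.iterate_succ_apply' _ m x₀
  obtain ⟨m0, hm0⟩ := hfin (fun m => (fun y : X => g'.inv y)^[m] x₀) (Bridged.injective (f := f) hx' hB')
    (isRatPt_seq f g' hg' _ hx₀ hx')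
  exact Bridged.false hk hc hdim hg' hB' U hU hper M j hj ⟨m0, hm0⟩

end Pool.Agent.LibK3P

end

section

/-!
THEOREM K3++ with the weaker hypothesis on `U`: the final assembly.
-/

set_option autoImplicit false

open Pool.Agent.LibGMM Pool.Agent.LibHP Pool.Agent.LibK Pool.Agent.LibLB
open Pool.Agent.LibCov80 (Over)
open Pool.Agent.LibK3 Pool.Agent.LibK3M
open AlgebraicGeometry CategoryTheory

namespace Pool.Agent.LibK3P

/-- Finitely many extensions of the function field do not contain lifts of almost all the curves. -/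
theorem Bridged.false_of {k : Type} [Field k] [CharZero k] [Algebra k ℂ] {X : Scheme}
    [IsIntegral X] {f : X ⟶ Spec (CommRingCat.of k)} [Algebra k X.functionField]
    [Smooth f] [IsSeparated f] [QuasiCompact f]
    (hk : ∀ a : k, algebraMap k X.functionField a = toStalk f (genericPoint X) a)
    {ι : Type} [Finite ι] {c : ι → X.functionField} (hc : IsProjEmb f c)
    (hdim : Algebra.trdeg k X.functionField = 2) {g : X ≅ X} {x : ℕ → X}
    (hB : Bridged (k := k) c g x) (U : X.Opens) [Nonempty U]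
    (hU : GeomSimplyConnected (U.ι ≫ f) ∨ (x 0 ∈ U ∧ CurveGenerates U (x 0)))
    (hper : ∀ b ∈ U, ringKrullDim (X.presheaf.stalk b) = 1 → ∀ n : ℕ, 0 < n →
      (fun y : X => g.inv y)^[n] b ≠ b)
    {n : ℕ} (M : Fin n → Type) [∀ i, Field (M i)] (j : ∀ i, X.functionField →+* M i)
    (hj : ∀ i, (j i).Finite ∧ ¬ Function.Surjective (j i))
    (hres : ∃ m0 : ℕ, ∀ m ≥ m0, ∀ v : KVal k X.functionField,
      (∀ z, 0 ≤ v.ord z ↔ z ∈ stk X (x m)) → ∃ i, ResLift (j i) v) : False := by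
  obtain ⟨hm, γ, v₀, r₀, hγ1, hγ2, hγ3, hseq, hi₀, hcl, hrs, hr, L, i1, i2, i3, hL, Γ, C₀, hΓ, hD,
    hC, hG, hCv, hψ⟩ := hB
  obtain ⟨m0, hm0⟩ := hres
  have hper' : ∀ b ∈ U, ringKrullDim (X.presheaf.stalk b) = 1 → ∀ n : ℕ, 0 < n →
      (fun y : X => g.hom y)^[n] b ≠ b := fun b hb hb1 n hn h =>
    hper b hb hb1 n hn ((iterate_hom_inv g n b).1 h)
  have hrig : Rig g γ v₀ := by
    rcases hU with hU | ⟨hx, hU⟩
    · exact rig_of_simplyConnected f hk U hU g γ hper' v₀ hcl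
    · exact rig_of_curve f U (x 0) hx hU g γ hγ2 hper' v₀ (hseq 0)
  exact core_rig f hk hm hc hdim g γ hγ1 hγ3 v₀ hi₀ hcl r₀ hrs hr hL Γ hΓ C₀ hCv hψ hD hC hG hrig
    M j hj ⟨m0, fun m hm' => hm0 m hm' _ (hseq m)⟩

/-- **THEOREM K3++** (with the curve `x₀` in place of the simple connectivity). -/
theorem main_k3s (k : Type) [Field k] [NumberField k] {X : Scheme} [IsIntegral X]
    (f : X ⟶ Spec (CommRingCat.of k)) [Smooth f] [IsSeparated f] [QuasiCompact f]
    [Algebra k X.functionField]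
    (hk : ∀ a : k, algebraMap k X.functionField a = toStalk f (genericPoint X) a)
    {ι : Type} [Finite ι] {c : ι → X.functionField} (hc : IsProjEmb f c)
    (hdim : Algebra.trdeg k X.functionField = 2) (g : X ≅ X) (hg : g.hom ≫ f = f) (x₀ : X)
    (hx₀ : IsRatPt f x₀)
    (hgr : ∃ μ a : ℝ, 1 < μ ∧ 0 < a ∧ ∀ m : ℕ, ∃ d : ℕ,
      HasDeg (k := k) c ((fun y : X => g.hom y)^[m] x₀) d ∧ a * μ ^ m ≤ d)
    (U : X.Opens) [Nonempty U]
    (hU : GeomSimplyConnected (U.ι ≫ f) ∨ (x₀ ∈ U ∧ CurveGenerates U x₀))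
    (horb : ∀ b ∈ U, ringKrullDim (X.presheaf.stalk b) = 1 →
      {y : X | ∃ s : X ≅ X, s.hom ≫ f = f ∧ s.hom b = y}.Infinite) :
    HilbertProp f := by
  by_contra hnot
  let _ : Algebra k ℂ := (Classical.choice (inferInstance : Nonempty (k →+* ℂ))).toAlgebra
  obtain ⟨μ, a, hμ, ha, hd⟩ := hgr
  choose d hd1 hd2 using hd
  have hgs : g.symm.hom ≫ f = f := by rw [Iso.symm_hom, Iso.inv_comp_eq, hg]
  have hB : Bridged (k := k) c g.symm (fun m => (fun y : X => g.hom y)^[m] x₀) :=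
    bridge_main0 f hk hc hdim g.symm hgs _ (fun m => Function.iterate_succ_apply' _ m x₀) hx₀ d hd1
      hμ ha hd2
  obtain ⟨g', hg', hB', hper⟩ := bridge_pp hk hc hgs (fun m => Function.iterate_succ_apply' _ m x₀)
    hB U horb
  obtain ⟨n, M, hM, j, hj, hfin⟩ := exists_resLift_of_injective k f hk hnot
  have hx' : ∀ m, (fun y : X => g'.inv y)^[m + 1] x₀ = g'.inv ((fun y : X => g'.inv y)^[m] x₀) :=
    fun m => Function.iterate_succ_apply' _ m x₀
  obtain ⟨m0, hm0⟩ := hfin (fun m => (fun y : X => g'.inv y)^[m] x₀)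
    (Bridged.injective (f := f) hx' hB') (isRatPt_seq f g' hg' _ hx₀ hx')
  exact Bridged.false_of hk hc hdim hB' U hU hper M j hj ⟨m0, hm0⟩

end Pool.Agent.LibK3P

end
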