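import Pool.Agent.LibK3P.Base
import Pool.Agent.LibCUR2.Main

set_option autoImplicit false

open Pool.Agent.LibGMM Pool.Agent.LibK Pool.Agent.LibKB
open Pool.Agent.LibLB (PSurf RLR)
open Pool.Agent.LibCov80 (Over)
open Pool.Agent.LibK3

namespace Pool.Agent.LibK3P

section

variable {L : Type} [Field L] [Algebra ℂ L] {S : PSurf L}


/-- The class `v` costs at most `n form β v` plus a constant, after every shift. -/
private def P01_Q (S : PSurf L) (β v : S.Λ) : Prop :=
  ∀ u : S.Λ, ∃ K : ℤ, ∀ n : ℕ,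
    (S.hh (n • β - u) : ℤ) ≤ S.hh (n • β - u - v) + n * S.form β v + K

private theorem P01_Q_zero (β : S.Λ) : P01_Q S β 0 := by
  intro u
  refine ⟨0, fun n => ?_⟩
  rw [sub_zero, map_zero, mul_zero, add_zero, add_zero]

private theorem P01_Q_add {β v w : S.Λ} (hv : P01_Q S β v) (hw : P01_Q S β w) :
    P01_Q S β (v + w) := by
  intro u
  obtain ⟨K₁, h₁⟩ := hv u
  obtain ⟨K₂, h₂⟩ := hw (u + v)
  refine ⟨K₁ + K₂, fun n => ?_⟩
  have e1 := h₁ n
  have e2 := h₂ n
  rw [← sub_sub (n • β) u v] at e2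
  rw [← sub_sub (n • β - u) v w, map_add, mul_add]
  linarith

private theorem P01_Q_cls {β : S.Λ} (hnef : ∀ ν ∈ S.prm, 0 ≤ S.form β (S.cls ν)) {ν : DVal L}
    (hν : ν ∈ S.prm) : P01_Q S β (S.cls ν) := by
  intro u
  refine ⟨|S.form u (S.cls ν)| + 1, fun n => ?_⟩
  have h1 : S.form (n • β - u) (S.cls ν) = n * S.form β (S.cls ν) - S.form u (S.cls ν) := by
    simp only [map_sub, map_nsmul, LinearMap.sub_apply, LinearMap.smul_apply, nsmul_eq_mul]
  have h2 := neg_abs_le (S.form u (S.cls ν))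
  have h3 : 0 ≤ (n : ℤ) * S.form β (S.cls ν) := mul_nonneg (Int.natCast_nonneg _) (hnef ν hν)
  have h5 := abs_nonneg (S.form u (S.cls ν))
  by_cases h : S.form (n • β - u) (S.cls ν) < 0
  · have h4 := LibCUR2.C1 S hν _ h
    rw [h4]
    linarith
  · push Not at h
    have h4 := LibCUR2.C2 S hν _ h
    rw [h1] at h4
    linarith

private theorem P01_Q_smul {β v : S.Λ} (hv : P01_Q S β v) (k : ℕ) : P01_Q S β (k • v) := by
  induction k with
  | zero =>
    rw [zero_smul]
    exact P01_Q_zero β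
  | succ k ih =>
    rw [succ_nsmul]
    exact P01_Q_add ih hv

private theorem P01_Q_eff {β : S.Λ} (hnef : ∀ ν ∈ S.prm, 0 ≤ S.form β (S.cls ν))
    {E : DVal L → ℤ} (hE : ∀ ν ∈ S.prm, 0 ≤ E ν) : P01_Q S β (S.cl E) := by
  change P01_Q S β (∑ᶠ ν ∈ S.prm, E ν • S.cls ν)
  refine finsum_mem_induction (fun v : S.Λ => P01_Q S β v) (P01_Q_zero β)
    (fun _ _ => P01_Q_add) ?_
  intro ν hν
  obtain ⟨k, hk⟩ := Int.eq_ofNat_of_zero_le (hE ν hν)
  rw [hk, natCast_zsmul]
  exact P01_Q_smul (P01_Q_cls hnef hν) k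

/-- Upper bound for the sections of the multiples of a nef effective class.
PLAN. Let `E` be an effective divisor of class `β` (`LibCUR2.exists_effDiv S heff`). Write `E = ∑_{i < r} prd ν_i` on the primes (list with multiplicities; induction on
`∑ᶠ E`, or prove the following statement for all effective `E` by induction on the degree `∑ E`): for every effective `E` there are `a, K` such that for all `n`
`hh (n • β) ≤ hh (n • β - cl E) + n * form β (cl E) + K` (as integers). Step `E = E' + prd ν`: `LibCUR2.C2` / `C1` for `α := n • β - cl E'` and `ν`: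
`hh α ≤ hh (α - cls ν) + max 0 (form α (cls ν)) + 1`, and `form α (cls ν) ≤ n form β (cls ν) + |form (cl E') (cls ν)|`, `form β (cls ν) ≥ 0`.
With `cl E = β`: `hh (n • β) ≤ hh ((n - 1) • β) + n β² + K` for `n ≥ 1`; sum over `n`: `2 hh (n β) ≤ (n² + n) β² + 2 K n + 2 hh 0`. -/
theorem h0_upper {β : S.Λ} (hnef : ∀ ν ∈ S.prm, 0 ≤ S.form β (S.cls ν)) (heff : 0 < S.hh β) :
    ∃ K : ℤ, ∀ n : ℕ, 2 * (S.hh (n • β) : ℤ) ≤ n ^ 2 * S.form β β + K * (n + 1) := by
  obtain ⟨E, -, hE, hcl⟩ := LibCUR2.exists_effDiv S heff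
  obtain ⟨K, hK⟩ := P01_Q_eff hnef hE 0
  rw [hcl] at hK
  have hβ : 0 ≤ S.form β β := LibCUR2.form_eff S hnef heff
  have hstep : ∀ n : ℕ, (S.hh ((n + 1) • β) : ℤ) ≤ S.hh (n • β) + (n + 1) * S.form β β + |K| := by
    intro n
    have h1 := hK (n + 1)
    have h2 : (n + 1) • β - 0 - β = n • β := by
      rw [sub_zero, succ_nsmul, add_sub_cancel_right]
    rw [h2, sub_zero] at h1
    push_cast at h1
    have h3 := le_abs_self K
    linarith
  refine ⟨S.form β β + 2 * |K| + 2 * S.hh (0 • β), fun n => ?_⟩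
  have hK0 := abs_nonneg K
  have hh0 : (0 : ℤ) ≤ S.hh (0 • β) := Int.natCast_nonneg _
  induction n with
  | zero =>
    push_cast
    linarith
  | succ n ih =>
    have h1 := hstep n
    push_cast
    linarith

/-- PLAN. `S.rr'` for `n • β`: `2 chi0 + form (nβ) (nβ - K) ≤ 2 (hh (nβ) + hh (K - nβ))`; `hh (K - n β) = 0` when `form A (K - n β) < 0`
(`LibCUR2.form_eff` with `A` nef, `LibCUR2.A_pos`), i.e. for all but finitely many `n`; these are absorbed in the constant. -/
theorem h0_lower {β : S.Λ} (h : 0 < S.form S.A β) :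
    ∃ K : ℤ, ∀ n : ℕ, n ^ 2 * S.form β β - K * (n + 1) ≤ 2 * (S.hh (n • β) : ℤ) := by
  obtain ⟨m, hm⟩ : ∃ m : ℤ, m = |S.form S.A S.K| := ⟨_, rfl⟩
  have hm0 : 0 ≤ m := by
    rw [hm]
    exact abs_nonneg _
  refine ⟨|S.form β S.K| + 2 * |S.chi0| + m ^ 2 * |S.form β β|, fun n => ?_⟩
  have hn : (0 : ℤ) ≤ n := Int.natCast_nonneg _
  have a1 := abs_nonneg (S.form β S.K)
  have a2 := abs_nonneg S.chi0
  have a3 := abs_nonneg (S.form β β)
  have a4 : 0 ≤ m ^ 2 * |S.form β β| := by positivity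
  have hrr := PSurf.rr' (S := S) (n • β)
  have h1 : S.form (n • β) (n • β - S.K) = n ^ 2 * S.form β β - n * S.form β S.K := by
    simp only [map_sub, map_nsmul, LinearMap.smul_apply, nsmul_eq_mul]
    ring
  rw [h1] at hrr
  by_cases h0 : S.hh (S.K - n • β) = 0
  · rw [h0] at hrr
    have h2 : n * S.form β S.K ≤ n * |S.form β S.K| :=
      mul_le_mul_of_nonneg_left (le_abs_self _) hn
    have h3 := neg_abs_le S.chi0
    have h4 : 0 ≤ 2 * |S.chi0| * n := by positivity
    have h5 : 0 ≤ m ^ 2 * |S.form β β| * n := by positivity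
    push_cast at hrr
    nlinarith
  · have hA : ∀ ν ∈ S.prm, 0 ≤ S.form S.A (S.cls ν) := fun ν hν =>
      zero_le_one.trans (LibCUR2.A_pos S hν)
    have h2 := LibCUR2.form_eff S hA (Nat.pos_of_ne_zero h0)
    have h3 : S.form S.A (S.K - n • β) = S.form S.A S.K - n * S.form S.A β := by
      simp only [map_sub, map_nsmul, nsmul_eq_mul]
    rw [h3] at h2
    have h4 : (n : ℤ) ≤ n * S.form S.A β := le_mul_of_one_le_right hn h
    have h5 : (n : ℤ) ≤ m := by
      rw [hm]
      exact (h4.trans (by linarith)).trans (le_abs_self _)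
    have h6 : (n : ℤ) ^ 2 * S.form β β ≤ m ^ 2 * |S.form β β| :=
      le_trans (mul_le_mul_of_nonneg_left (le_abs_self _) (by positivity))
        (mul_le_mul_of_nonneg_right (pow_le_pow_left₀ hn h5 2) a3)
    have h7 : (0 : ℤ) ≤ S.hh (n • β) := Int.natCast_nonneg _
    have h8 : 0 ≤ |S.form β S.K| * ((n : ℤ) + 1) := by positivity
    have h9 : 0 ≤ 2 * |S.chi0| * ((n : ℤ) + 1) := by positivity
    have h10 : 0 ≤ m ^ 2 * |S.form β β| * n := by positivity
    nlinarith

end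

end Pool.Agent.LibK3P
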